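import Pool.Agent.W5h36.EL.Concl

/-! The logarithmic criterion. -/

set_option autoImplicit false

namespace Pool.Agent.W5h36.EL

open Polynomial Filter Topology Finset
open Pool.Agent.W401.Cheb Pool.Agent.W262.TW Pool.Agent.W262.RK

lemma M_const_le (c : ℝ) (hc : 0 ≤ c) (N : ℕ) : M (fun _ => c) N ≤ c := by
  unfold M
  rw [sum_const, nsmul_eq_mul, card_pr]
  rcases eq_or_ne (Nat.primeCounting N : ℝ) 0 with h | h
  · rw [h]
    simpa using hc
  · rw [mul_div_assoc, mul_div_cancel₀ _ h]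

/-- a negative mean value of the logarithm -/
lemma log_crit (w : ℕ → ℝ) (h H β0 c : ℝ) (hh : 0 < h) (hw : ∀ p, w p = 0 ∨ h ≤ w p)
    (hH : ∀ p, w p ≤ H)
    (hβ : ∀ δ : ℝ, 0 < δ → ∀ᶠ N in atTop, M (fun p => if w p = 0 then (0 : ℝ) else 1) N ≤ β0 + δ)
    (hc : 0 < c) (hlog : ∀ᶠ N in atTop, M (fun p => Real.log (w p)) N ≤ -c) :
    ∃ s : ℝ, 0 < s ∧ s ≤ 1 ∧ ∃ α < β0, ∃ C : ℝ, ∀ x : ℕ, 3 ≤ x →
      ∑ p ∈ PS 0 x, (w p) ^ s / p ≤ α * Real.log (Real.log x) + C := by
  have hw0 : ∀ p, 0 ≤ w p := fun p => (hw p).elim (fun h1 => h1.ge) (fun h1 => hh.le.trans h1)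
  set L : ℝ := max |Real.log h| |Real.log H| with hL
  have hL0 : 0 ≤ L := (abs_nonneg _).trans (le_max_left _ _)
  have hlogL : ∀ p, |Real.log (w p)| ≤ L := by
    intro p
    rcases hw p with h1 | h1
    · rw [h1, Real.log_zero, abs_zero]
      exact hL0
    · have h2 : 0 < w p := hh.trans_le h1
      have h3 := Real.log_le_log hh h1
      have h4 := Real.log_le_log h2 (hH p)
      rw [abs_le]
      constructor
      · have h5 : |Real.log h| ≤ L := le_max_left _ _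
        have := (abs_le.1 h5).1
        linarith
      · have h5 : |Real.log H| ≤ L := le_max_right _ _
        have := (abs_le.1 h5).2
        linarith
  set s : ℝ := min (1 / (L + 1)) (c / (4 * (L ^ 2 + 1))) with hs
  have hs0 : 0 < s := lt_min (by positivity) (by positivity)
  have hs1 : s ≤ 1 := (min_le_left _ _).trans (by
    rw [div_le_one (by positivity)]
    linarith)
  have hsL : s * L ≤ 1 := by
    have h1 : s ≤ 1 / (L + 1) := min_le_left _ _
    calc s * L ≤ 1 / (L + 1) * L := mul_le_mul_of_nonneg_right h1 hL0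
      _ ≤ 1 := by
        rw [div_mul_eq_mul_div, one_mul, div_le_one (by positivity)]
        linarith
  have hsL2 : s * L ^ 2 ≤ c / 4 := by
    have h1 : s ≤ c / (4 * (L ^ 2 + 1)) := min_le_right _ _
    calc s * L ^ 2 ≤ c / (4 * (L ^ 2 + 1)) * L ^ 2 := mul_le_mul_of_nonneg_right h1 (by positivity)
      _ ≤ c / 4 := by
        rw [div_mul_eq_mul_div, div_le_div_iff₀ (by positivity) (by norm_num)]
        nlinarith
  have hpt : ∀ p, (w p) ^ s ≤ (if w p = 0 then (0 : ℝ) else 1) + s * Real.log (w p) + s ^ 2 * L ^ 2 := by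
    intro p
    by_cases h1 : w p = 0
    · rw [if_pos h1, h1, Real.zero_rpow hs0.ne', Real.log_zero]
      positivity
    · rw [if_neg h1]
      have h2 : 0 < w p := lt_of_le_of_ne (hw0 p) (Ne.symm h1)
      rw [Real.rpow_def_of_pos h2]
      have h3 : |Real.log (w p) * s| ≤ 1 := by
        rw [abs_mul, abs_of_pos hs0, mul_comm]
        exact (mul_le_mul_of_nonneg_left (hlogL p) hs0.le).trans hsL
      have h4 := (abs_le.1 (Real.abs_exp_sub_one_sub_id_le h3)).2
      have h5 : (Real.log (w p) * s) ^ 2 ≤ s ^ 2 * L ^ 2 := by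
        rw [mul_pow, mul_comm]
        refine mul_le_mul_of_nonneg_left ?_ (by positivity)
        rw [← sq_abs]
        exact pow_le_pow_left₀ (abs_nonneg _) (hlogL p) 2
      linarith
  have hα : ∀ᶠ N in atTop, M (fun p => (w p) ^ s) N ≤ β0 - s * c / 2 := by
    filter_upwards [hβ (s * c / 4) (by positivity), hlog] with N h1 h2
    have h3 : M (fun p => (w p) ^ s) N ≤ M (fun p => ((if w p = 0 then (0 : ℝ) else 1) +
        s * Real.log (w p)) + s ^ 2 * L ^ 2) N := M_mono (fun p _ => hpt p) N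
    rw [M_add, M_add, M_smul] at h3
    have h4 := M_const_le (s ^ 2 * L ^ 2) (by positivity) N
    have h5 : s * M (fun p => Real.log (w p)) N ≤ s * (-c) := mul_le_mul_of_nonneg_left h2 hs0.le
    have h6 : s ^ 2 * L ^ 2 ≤ s * (c / 4) := by
      rw [sq s, mul_assoc]
      exact mul_le_mul_of_nonneg_left hsL2 hs0.le
    linarith
  obtain ⟨C, hC⟩ := dens_up (fun p => (w p) ^ s) (H ^ s) _ (fun p => Real.rpow_nonneg (hw0 p) _)
    (fun p => Real.rpow_le_rpow (hw0 p) (hH p) hs0.le) hα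
  exact ⟨s, hs0, hs1, β0 - s * c / 2, by nlinarith, C, hC⟩

section K

variable {K : Type} [Fintype K] [DecidableEq K]

lemma WI_ge (f : K → ℤ[X]) (I : Finset K) (p : ℕ) :
    WI f I p = 0 ∨ 1 / 2 ^ Fintype.card K ≤ WI f I p := by
  by_cases h : WI f I p = 0
  · exact Or.inl h
  · right
    unfold WI at h ⊢
    have h1 : (∑ i ∈ I, (MX I (Th f i p) : ℝ)) ≠ 0 := fun h2 => h (by rw [h2, zero_div])
    have h2 : (1 : ℝ) ≤ ∑ i ∈ I, (MX I (Th f i p) : ℝ) := by
      have h3 : ((∑ i ∈ I, MX I (Th f i p) : ℕ) : ℝ) ≠ 0 := by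
        push_cast
        exact h1
      have h4 : 1 ≤ ∑ i ∈ I, MX I (Th f i p) := by
        have : (∑ i ∈ I, MX I (Th f i p) : ℕ) ≠ 0 := by exact_mod_cast h3
        omega
      exact_mod_cast h4
    have h3 : (2 : ℝ) ^ (I.card - 1) ≤ 2 ^ Fintype.card K :=
      pow_le_pow_right₀ (by norm_num) (by have := card_le_univ I; omega)
    calc (1 : ℝ) / 2 ^ Fintype.card K ≤ 1 / 2 ^ (I.card - 1) :=
          one_div_le_one_div_of_le (by positivity) h3
      _ ≤ _ := div_le_div_of_nonneg_right h2 (by positivity)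

lemma RP_of_WI {f : K → ℤ[X]} {I : Finset K} {p : ℕ} (hp : p.Prime) (h : WI f I p ≠ 0) :
    p ∈ RP f := by
  rw [mem_RP f hp]
  by_contra h1
  rw [not_nonempty_iff_eq_empty] at h1
  apply h
  apply WI_eq_zero
  rw [h1, inter_empty]

open scoped Classical in
/-- **the criterion** -/
theorem criterion [Nonempty K] (f : K → ℤ[X])
    (hf1 : ∀ k, Irreducible ((f k).map (Int.castRingHom ℚ)))
    (hf2 : ∀ k, Even (f k).natDegree)
    (hf3 : ∀ k l, k ≠ l →
      ¬ Associated ((f k).map (Int.castRingHom ℚ)) ((f l).map (Int.castRingHom ℚ)))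
    (hW : ∀ I : Finset K, I.Nonempty →
      (∃ σ, SQ f σ ≠ ∅ ∧ I ∩ SQ f σ = ∅) ∨
      (∃ c > 0, ∀ᶠ N in atTop, M (fun p => Real.log (WI f I p)) N ≤ -c) ∨
      (∃ s : ℝ, 0 < s ∧ s ≤ 1 ∧ ∃ α : ℝ, (∃ c > 0, ∀ᶠ N in atTop, α + c ≤
        M (fun p => if p ∈ RP f then (1 : ℝ) else 0) N) ∧ ∃ C : ℝ, ∀ x : ℕ, 3 ≤ x →
          ∑ p ∈ PS 0 x, (WI f I p) ^ s / p ≤ α * Real.log (Real.log x) + C)) : AA f := by
  have hf0 : ∀ k, f k ≠ 0 := by
    intro k h
    have := (hf1 k).ne_zero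
    rw [h, Polynomial.map_zero] at this
    exact this rfl
  obtain ⟨ν, h0, h1, h2, h3⟩ := sets_mean f hf0
  have hβ := dens_RP f ν h1 h2
  have hβ0 : 0 < 1 - ν ∅ := by
    have h4 := h3 1
    have h5 : SQ f 1 ≠ ∅ := by
      obtain ⟨k⟩ := ‹Nonempty K›
      rw [← nonempty_iff_ne_empty]
      have h6 : ((f k).map (Int.castRingHom (AlgebraicClosure ℚ))).degree ≠ 0 := by
        rw [degree_map_eq_of_injective (Int.castRingHom (AlgebraicClosure ℚ)).injective_int,
          ← degree_map_eq_of_injective (Int.castRingHom ℚ).injective_int (f k)]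
        exact (degree_pos_of_irreducible (hf1 k)).ne'
      obtain ⟨θ, hθ⟩ := IsAlgClosed.exists_root _ h6
      refine ⟨k, mem_filter.2 ⟨mem_univ _, θ, ?_, rfl⟩⟩
      rw [aeval_def, show algebraMap ℤ (AlgebraicClosure ℚ) =
        Int.castRingHom (AlgebraicClosure ℚ) from RingHom.ext_int _ _, ← eval_map]
      exact hθ
    have h6 : ν ∅ + ν (SQ f 1) ≤ ∑ T, ν T := by
      rw [← sum_pair (Ne.symm h5)]
      exact sum_le_sum_of_subset_of_nonneg (subset_univ _) fun _ _ _ => h0 _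
    linarith
  refine concl f hf1 hf2 hf3 (1 - ν ∅) hβ0 hβ fun I hI => ?_
  rcases hW I hI with ⟨σ, h4, h5⟩ | ⟨c, hc, h4⟩ | ⟨s, hs0, hs1, α, ⟨c, hc, h4⟩, C, hC⟩
  · exact small_I f ν h0 h1 h2 I (SQ f σ) h4 h5 (h3 σ)
  · refine log_crit (WI f I) (1 / 2 ^ Fintype.card K) (Fintype.card K * 2 ^ Fintype.card K) _ c
      (by positivity) (WI_ge f I) (WI_le f I) (fun δ hδ => ?_) hc h4
    filter_upwards [hβ.eventually (gt_mem_nhds (lt_add_of_pos_right _ hδ))] with N hN
    refine (M_mono (fun p hp => ?_) N).trans hN.le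
    by_cases h6 : WI f I p = 0
    · rw [if_pos h6]
      split_ifs <;> norm_num
    · rw [if_neg h6, if_pos (RP_of_WI hp h6)]
  · refine ⟨s, hs0, hs1, α, ?_, C, hC⟩
    have h5 : α + c ≤ 1 - ν ∅ := ge_of_tendsto hβ h4
    linarith

end K

end Pool.Agent.W5h36.EL
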