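import Pool.Agent.W5h36.EL.Indep2

/-! Polynomials with independent splitting fields: the main results. -/

set_option autoImplicit false

namespace Pool.Agent.W5h36.EL

open Polynomial Filter Topology Finset
open Pool.Agent.W401.Cheb Pool.Agent.W262.TW Pool.Agent.W262.RK

section K

variable {K : Type} [Fintype K] [DecidableEq K]

lemma two_le_deg (f : K → ℤ[X]) (hf1 : ∀ k, Irreducible ((f k).map (Int.castRingHom ℚ)))
    (hf2 : ∀ k, Even (f k).natDegree) (k : K) : 2 ≤ (f k).natDegree := by
  have h1 := (hf1 k).natDegree_pos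
  rw [natDegree_map_eq_of_injective (Int.castRingHom ℚ).injective_int] at h1
  obtain ⟨m, hm⟩ := hf2 k
  omega

open scoped Classical in
lemma ind_small (f : K → ℤ[X]) (hf1 : ∀ k, Irreducible ((f k).map (Int.castRingHom ℚ)))
    (HI : Ind f)
    (hder : ∀ k, ∃ σ : AlgebraicClosure ℚ ≃ₐ[ℚ] AlgebraicClosure ℚ, ∀ θ : AlgebraicClosure ℚ,
      aeval θ (f k) = 0 → σ θ ≠ θ) (I : Finset K) (hI : I ≠ univ) :
    ∃ σ, SQ f σ ≠ ∅ ∧ I ∩ SQ f σ = ∅ := by
  choose D hD using hder
  obtain ⟨k0, hk0⟩ : ∃ k0, k0 ∉ I := by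
    by_contra h
    push Not at h
    exact hI (eq_univ_iff_forall.2 h)
  obtain ⟨σ, hσ⟩ := HI (fun k => if k = k0 then 1 else D k)
  have hex : ∃ θ : AlgebraicClosure ℚ, aeval θ (f k0) = 0 := by
    have h1 : 0 < Nat.card {θ : AlgebraicClosure ℚ // aeval θ (f k0) = 0} := by
      rw [nroots _ (hf1 k0)]
      have := (hf1 k0).natDegree_pos
      rwa [natDegree_map_eq_of_injective (Int.castRingHom ℚ).injective_int] at this
    obtain ⟨⟨θ, hθ⟩⟩ := (Nat.card_pos_iff.1 h1).1
    exact ⟨θ, hθ⟩
  obtain ⟨θ, hθ⟩ := hex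
  have h3 : SQ f σ = {k0} := by
    ext l
    unfold SQ
    rw [mem_filter, mem_singleton]
    constructor
    · rintro ⟨-, θ', h4, h5⟩
      by_contra h6
      have h7 := hσ l θ' h4
      rw [if_neg h6, h5] at h7
      exact hD l θ' h4 h7.symm
    · rintro rfl
      refine ⟨mem_univ _, θ, hθ, ?_⟩
      rw [hσ l θ hθ, if_pos rfl]
      rfl
  refine ⟨σ, ?_, ?_⟩
  · rw [h3]
    exact singleton_ne_empty _
  · rw [h3]
    ext l
    rw [mem_inter, mem_singleton]
    simp only [notMem_empty, iff_false, not_and]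
    rintro h4 rfl
    exact hk0 h4

lemma ne_zero_of_irr {f : K → ℤ[X]} (hf1 : ∀ k, Irreducible ((f k).map (Int.castRingHom ℚ)))
    (k : K) : f k ≠ 0 := by
  intro h
  have := (hf1 k).ne_zero
  rw [h, Polynomial.map_zero] at this
  exact this rfl

open scoped Classical in
/-- at least three polynomials -/
theorem ind_many (f : K → ℤ[X]) (hr : 3 ≤ Fintype.card K)
    (hf1 : ∀ k, Irreducible ((f k).map (Int.castRingHom ℚ)))
    (hf2 : ∀ k, Even (f k).natDegree)
    (hf3 : ∀ k l, k ≠ l →
      ¬ Associated ((f k).map (Int.castRingHom ℚ)) ((f l).map (Int.castRingHom ℚ)))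
    (HI : Ind f) (x : K → ℝ)
    (hx : ∀ k, Tendsto (M fun p => if om (f k) p = 0 then (1 : ℝ) else 0) atTop (𝓝 (x k)))
    (hcond : (Fintype.card K : ℝ) / 2 ^ (Fintype.card K - 1) < 1 - ∏ k, x k) : AA f := by
  haveI : Nonempty K := Fintype.card_pos_iff.1 (by omega)
  obtain ⟨P, -, hP1, hPt, hPF, hPd⟩ := dist2 f (ne_zero_of_irr hf1) HI
  have hxP : ∀ k, x k = P k 0 := by
    intro k
    refine tendsto_nhds_unique (hx k) ?_
    convert hPt k 0 using 3 with p
    simp only [cl_zero]
  have hder : ∀ k, ∃ σ : AlgebraicClosure ℚ ≃ₐ[ℚ] AlgebraicClosure ℚ, ∀ θ : AlgebraicClosure ℚ,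
      aeval θ (f k) = 0 → σ θ ≠ θ := fun k => (hPd k (hf1 k) (two_le_deg f hf1 hf2 k)).2
  refine criterion f hf1 hf2 hf3 fun I hI => ?_
  by_cases hIu : I = univ
  · subst hIu
    right
    right
    set r := Fintype.card K with hrdef
    set c : ℝ := (1 - ∏ k, x k - r / 2 ^ (r - 1)) / 2 with hc
    have hc0 : 0 < c := by
      rw [hc]
      linarith
    refine ⟨1, one_pos, le_rfl, r / 2 ^ (r - 1), ⟨c, hc0, ?_⟩, ?_⟩
    · have h1 := hPF (fun a => if a = fun _ => 0 then 0 else 1)
      have h2 : ∑ a : K → Fin 3, (if a = fun _ => 0 then (0 : ℝ) else 1) *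
          ∏ k, P k (a k) = 1 - ∏ k, x k := by
        have h3 : ∑ a : K → Fin 3, ∏ k, P k (a k) = 1 := by
          rw [← Fintype.prod_sum]
          exact prod_eq_one fun k _ => hP1 k
        have h4 : ∏ k, x k = ∑ a : K → Fin 3, (if a = fun _ => 0 then (1 : ℝ) else 0) *
            ∏ k, P k (a k) := by
          rw [sum_eq_single (fun _ => 0)]
          · rw [if_pos rfl, one_mul]
            exact prod_congr rfl fun k _ => hxP k
          · intro a _ ha
            rw [if_neg ha, zero_mul]
          · intro h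
            exact absurd (mem_univ _) h
        rw [h4]
        refine Eq.trans ?_ (congrArg (fun t : ℝ => t - _) h3)
        rw [← sum_sub_distrib]
        refine sum_congr rfl fun a _ => ?_
        split_ifs <;> ring
      rw [h2] at h1
      have h6 : (r : ℝ) / 2 ^ (r - 1) + c < 1 - ∏ k, x k := by
        rw [hc]
        linarith
      filter_upwards [h1.eventually (lt_mem_nhds h6)] with N hN
      refine hN.le.trans (M_mono (fun p hp => ?_) N)
      by_cases h7 : p ∈ RP f
      · rw [if_pos h7]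
        split_ifs <;> norm_num
      · rw [if_neg h7, if_pos]
        by_contra h8
        exact h7 ((mem_RP_om f hp).2 h8)
    · choose C hC using fun k => om_sum (f k) (hf1 k)
      refine ⟨(∑ k, C k) / 2 ^ (r - 1), fun x hx => ?_⟩
      have h1 : ∀ p, (WI f univ p) ^ (1 : ℝ) / p ≤ (∑ k, (om (f k) p : ℝ) / p) / 2 ^ (r - 1) := by
        intro p
        rw [Real.rpow_one]
        unfold WI
        rw [card_univ, ← hrdef, ← sum_div, div_div, div_div, mul_comm]
        refine div_le_div_of_nonneg_right (sum_le_sum fun k _ => ?_) (by positivity)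
        rw [MX_univ]
        exact_mod_cast Th_card_le f k p
      refine (sum_le_sum fun p _ => h1 p).trans ?_
      rw [← sum_div, sum_comm]
      have h2 : ∑ k, ∑ p ∈ PS 0 x, (om (f k) p : ℝ) / p ≤
          ∑ k, (Real.log (Real.log x) + C k) := sum_le_sum fun k _ => hC k x hx
      rw [sum_add_distrib, sum_const, nsmul_eq_mul, card_univ, ← hrdef] at h2
      calc (∑ k, ∑ p ∈ PS 0 x, (om (f k) p : ℝ) / p) / 2 ^ (r - 1) ≤
            (r * Real.log (Real.log x) + ∑ k, C k) / 2 ^ (r - 1) :=
            div_le_div_of_nonneg_right h2 (by positivity)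
        _ = _ := by ring
  · left
    exact ind_small f hf1 HI hder I hIu

lemma pow_bound (r : ℕ) (hr : 3 ≤ r) :
    (1 - (1 / 2 : ℝ) ^ (r - 2)) ^ r < 1 - (r : ℝ) / 2 ^ (r - 1) := by
  rcases Nat.lt_or_ge r 5 with h | h
  · obtain rfl | rfl : r = 3 ∨ r = 4 := by omega
    · norm_num
    · norm_num
  · obtain ⟨q, rfl⟩ : ∃ q, r = q + 5 := ⟨r - 5, by omega⟩
    rw [show q + 5 - 2 = q + 3 from rfl, show q + 5 - 1 = q + 4 from rfl]
    set t : ℝ := (1 / 2 : ℝ) ^ (q + 3) with ht
    have ht0 : 0 < t := by positivity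
    have ht1 : t ≤ 1 := pow_le_one₀ (by norm_num) (by norm_num)
    have hq : q + 5 < 2 ^ (q + 3) := by
      have : q < 2 ^ q := Nat.lt_two_pow_self
      rw [pow_add]
      omega
    have hrt : ((q + 5 : ℕ) : ℝ) * t < 1 := by
      have h1 : ((q + 5 : ℕ) : ℝ) < 2 ^ (q + 3) := by exact_mod_cast hq
      have h2 : (2 : ℝ) ^ (q + 3) * t = 1 := by
        rw [ht, ← mul_pow]
        norm_num
      calc ((q + 5 : ℕ) : ℝ) * t < 2 ^ (q + 3) * t := mul_lt_mul_of_pos_right h1 ht0
        _ = 1 := h2
    have h3 : ((q + 5 : ℕ) : ℝ) / 2 ^ (q + 4) = ((q + 5 : ℕ) : ℝ) * t / 2 := by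
      rw [ht, pow_succ 2 (q + 3), one_div, inv_pow]
      field_simp
    rw [h3]
    set u : ℝ := ((q + 5 : ℕ) : ℝ) * t with hu
    have hu0 : 0 < u := by positivity
    have h4 : 1 + u ≤ (1 + t) ^ (q + 5) := by
      have := one_add_mul_le_pow (show (-2 : ℝ) ≤ t by linarith) (q + 5)
      exact this
    have h5 : (1 - t) ^ (q + 5) * (1 + t) ^ (q + 5) ≤ 1 := by
      rw [← mul_pow]
      refine pow_le_one₀ ?_ ?_ <;> nlinarith
    have h6 : 0 ≤ (1 - t) ^ (q + 5) := pow_nonneg (by linarith) _
    have h7 : (1 - t) ^ (q + 5) * (1 + u) ≤ 1 :=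
      (mul_le_mul_of_nonneg_left h4 h6).trans h5
    by_contra h8
    push Not at h8
    have h9 : (1 - u / 2) * (1 + u) ≤ 1 :=
      (mul_le_mul_of_nonneg_right h8 (by linarith)).trans h7
    nlinarith

open scoped Classical in
/-- small degrees -/
theorem ind_deg (f : K → ℤ[X]) (hr : 3 ≤ Fintype.card K)
    (hf1 : ∀ k, Irreducible ((f k).map (Int.castRingHom ℚ)))
    (hf2 : ∀ k, Even (f k).natDegree)
    (hf3 : ∀ k l, k ≠ l →
      ¬ Associated ((f k).map (Int.castRingHom ℚ)) ((f l).map (Int.castRingHom ℚ)))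
    (HI : Ind f) (hd : ∀ k, (f k).natDegree ≤ 2 ^ (Fintype.card K - 2)) : AA f := by
  obtain ⟨P, hP0, hP1, hPt, hPF, hPd⟩ := dist2 f (ne_zero_of_irr hf1) HI
  refine ind_many f hr hf1 hf2 hf3 HI (fun k => P k 0) (fun k => ?_) ?_
  · have h1 := hPt k 0
    simp only [cl_zero] at h1
    exact h1
  · have h1 : ∀ k, P k 0 ≤ 1 - (1 / 2 : ℝ) ^ (Fintype.card K - 2) := by
      intro k
      have h2 := (hPd k (hf1 k) (two_le_deg f hf1 hf2 k)).1
      have h3 : ((f k).natDegree : ℝ) ≤ 2 ^ (Fintype.card K - 2) := by exact_mod_cast hd k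
      have h4 : (0 : ℝ) ≤ 1 - P k 0 := by
        have h5 := hP1 k
        rw [Fin.sum_univ_three] at h5
        have := hP0 k 1
        have := hP0 k 2
        linarith
      have h5 : (1 : ℝ) ≤ 2 ^ (Fintype.card K - 2) * (1 - P k 0) :=
        h2.trans (mul_le_mul_of_nonneg_right h3 h4)
      have h6 : (1 / 2 : ℝ) ^ (Fintype.card K - 2) * 2 ^ (Fintype.card K - 2) = 1 := by
        rw [← mul_pow]
        norm_num
      have h7 : (0 : ℝ) < (1 / 2 : ℝ) ^ (Fintype.card K - 2) := by positivity
      have h8 := mul_le_mul_of_nonneg_left h5 h7.le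
      rw [← mul_assoc, h6] at h8
      linarith
    have h2 : ∏ k, P k 0 ≤ (1 - (1 / 2 : ℝ) ^ (Fintype.card K - 2)) ^ (Fintype.card K) := by
      rw [← card_univ, ← prod_const]
      exact prod_le_prod (fun k _ => hP0 k 0) fun k _ => h1 k
    have h3 := pow_bound (Fintype.card K) hr
    linarith

open scoped Classical in
/-- two polynomials -/
theorem ind_pair (f : K → ℤ[X]) (hr : Fintype.card K = 2)
    (hf1 : ∀ k, Irreducible ((f k).map (Int.castRingHom ℚ)))
    (hf2 : ∀ k, Even (f k).natDegree)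
    (hf3 : ∀ k l, k ≠ l →
      ¬ Associated ((f k).map (Int.castRingHom ℚ)) ((f l).map (Int.castRingHom ℚ)))
    (HI : Ind f) (i j : K) (hij : i ≠ j) (P : K → Fin 3 → ℝ)
    (hP : ∀ k c, Tendsto (M fun p => if cl (om (f k) p) = c then (1 : ℝ) else 0) atTop (𝓝 (P k c)))
    (hcond : Real.log (3 / 2) * (P i 1 * P j 2 + P i 2 * P j 1) + Real.log 2 * (P i 2 * P j 2) <
      Real.log 2 * (P i 0 * P j 1 + P i 1 * P j 0)) : AA f := by
  haveI : Nonempty K := ⟨i⟩
  obtain ⟨P', -, hP1, hPt, hPF, hPd⟩ := dist2 f (ne_zero_of_irr hf1) HI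
  have hPP : P = P' := by
    funext k c
    exact tendsto_nhds_unique (hP k c) (hPt k c)
  subst hPP
  have hder : ∀ k, ∃ σ : AlgebraicClosure ℚ ≃ₐ[ℚ] AlgebraicClosure ℚ, ∀ θ : AlgebraicClosure ℚ,
      aeval θ (f k) = 0 → σ θ ≠ θ := fun k => (hPd k (hf1 k) (two_le_deg f hf1 hf2 k)).2
  have huniv : (univ : Finset K) = {i, j} := by
    symm
    apply eq_univ_of_card
    rw [card_pair hij, hr]
  have hall : ∀ k, k = i ∨ k = j := by
    intro k
    have : k ∈ (univ : Finset K) := mem_univ k
    rw [huniv, mem_insert, mem_singleton] at this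
    exact this
  refine criterion f hf1 hf2 hf3 fun I hI => ?_
  by_cases hIu : I = univ
  · subst hIu
    right
    left
    have hprod : ∀ g : K → ℝ, ∏ k, g k = g i * g j := by
      intro g
      rw [huniv, prod_pair hij]
    let m : Fin 3 → ℝ := ![0, 1, 2]
    let g : (K → Fin 3) → ℝ := fun a => Real.log ((m (a i) + m (a j)) / 2)
    have hm : ∀ i p, ((Th f i p).card : ℝ) ≤ m (cl (om (f i) p)) := by
      intro i p
      have h1 := Th_card_le f i p
      have h2 : (Th f i p).card ≤ 2 := by
        have h3 : (Th f i p) ⊆ (univ.erase i).powerset := Th_subset f i p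
        have h4 := card_le_card h3
        rw [card_powerset, card_erase_of_mem (mem_univ _), card_univ, hr] at h4
        simpa using h4
      rcases Nat.lt_or_ge (om (f i) p) 1 with h3 | h3
      · have h4 : cl (om (f i) p) = 0 := cl_zero.2 (by omega)
        rw [h4]
        have h5 : (Th f i p).card = 0 := by omega
        rw [h5]
        simp [m]
      · rcases Nat.lt_or_ge (om (f i) p) 2 with h4 | h4
        · have h5 : cl (om (f i) p) = 1 := cl_one.2 (by omega)
          rw [h5]
          have h6 : (Th f i p).card ≤ 1 := by omega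
          have h7 : ((Th f i p).card : ℝ) ≤ 1 := by exact_mod_cast h6
          simpa [m] using h7
        · have h5 : cl (om (f i) p) = 2 := by
            unfold cl
            rw [if_neg (by omega), if_neg (by omega)]
          rw [h5]
          have h7 : ((Th f i p).card : ℝ) ≤ 2 := by exact_mod_cast h2
          simpa [m] using h7
    have hm0 : ∀ i p, (Th f i p).card = 0 → m (cl (om (f i) p)) = 0 := by
      intro i p h
      have h1 : om (f i) p = 0 := by
        rw [card_eq_zero] at h
        unfold Th at h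
        rw [image_eq_empty] at h
        unfold om
        rw [h, card_empty]
      rw [cl_zero.2 h1]
      simp [m]
    have hWI : ∀ p, WI f univ p = (((Th f i p).card : ℝ) + ((Th f j p).card : ℝ)) / 2 := by
      intro p
      unfold WI
      rw [card_univ, hr]
      have h1 : ∑ i ∈ (univ : Finset K), (MX univ (Th f i p) : ℝ) =
          ((Th f i p).card : ℝ) + ((Th f j p).card : ℝ) := by
        simp only [MX_univ]
        rw [huniv, sum_pair hij]
      rw [h1]
      norm_num
    have hle : ∀ p, Real.log (WI f univ p) ≤ g (fun k => cl (om (f k) p)) := by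
      intro p
      rw [hWI]
      simp only [g]
      have h1 := hm i p
      have h2 := hm j p
      by_cases h3 : (Th f i p).card = 0 ∧ (Th f j p).card = 0
      · rw [h3.1, h3.2, hm0 _ _ h3.1, hm0 _ _ h3.2]
        simp
      · have h4 : 0 < (Th f i p).card + (Th f j p).card := by omega
        have h5 : (0 : ℝ) < ((Th f i p).card : ℝ) + ((Th f j p).card : ℝ) := by
          exact_mod_cast h4
        exact Real.log_le_log (by positivity) (by linarith)
    have hlim := hPF g
    set G := ∑ a : K → Fin 3, g a * ∏ k, P k (a k) with hG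
    have hGneg : G < 0 := by
      let e : K ≃ Fin 2 :=
        { toFun := fun k => if k = i then 0 else 1
          invFun := fun c => if c = 0 then i else j
          left_inv := fun k => by
            rcases hall k with rfl | rfl
            · simp
            · simp [hij.symm]
          right_inv := fun c => by
            fin_cases c
            · simp
            · simp [hij.symm] }
      have h1 : G = ∑ b : Fin 3 × Fin 3, Real.log ((m b.1 + m b.2) / 2) *
          (P i b.1 * P j b.2) := by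
        rw [hG]
        refine Fintype.sum_equiv ((Equiv.arrowCongr e (Equiv.refl (Fin 3))).trans
          (finTwoArrowEquiv (Fin 3))) _ _ fun a => ?_
        rw [hprod]
        have e1 : (((Equiv.arrowCongr e (Equiv.refl (Fin 3))).trans
          (finTwoArrowEquiv (Fin 3))) a).1 = a i := by
          change a (e.symm 0) = a i
          rfl
        have e2 : (((Equiv.arrowCongr e (Equiv.refl (Fin 3))).trans
          (finTwoArrowEquiv (Fin 3))) a).2 = a j := by
          change a (e.symm 1) = a j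
          rfl
        rw [e1, e2]
      rw [h1, Fintype.sum_prod_type]
      simp only [Fin.sum_univ_three]
      have m0 : m 0 = 0 := rfl
      have m1 : m 1 = 1 := rfl
      have m2 : m 2 = 2 := rfl
      rw [m0, m1, m2]
      have l1 : Real.log ((0 + 0 : ℝ) / 2) = 0 := by norm_num
      have l2 : Real.log ((0 + 2 : ℝ) / 2) = 0 := by norm_num
      have l3 : Real.log ((1 + 1 : ℝ) / 2) = 0 := by norm_num
      have l4 : Real.log ((2 + 0 : ℝ) / 2) = 0 := by norm_num
      have l5 : ((0 + 1 : ℝ) / 2) = 1 / 2 := by norm_num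
      have l6 : ((1 + 0 : ℝ) / 2) = 1 / 2 := by norm_num
      have l7 : ((1 + 2 : ℝ) / 2) = 3 / 2 := by norm_num
      have l8 : ((2 + 1 : ℝ) / 2) = 3 / 2 := by norm_num
      have l9 : ((2 + 2 : ℝ) / 2) = 2 := by norm_num
      have l12 : Real.log (1 / 2) = - Real.log 2 := by
        rw [one_div, Real.log_inv]
      rw [l1, l2, l3, l4, l5, l6, l7, l8, l9, l12]
      linarith
    refine ⟨-G / 2, by linarith, ?_⟩
    filter_upwards [hlim.eventually (gt_mem_nhds (show G < G / 2 by linarith))] with N hN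
    refine (M_mono (fun p _ => hle p) N).trans (hN.le.trans ?_)
    linarith
  · left
    exact ind_small f hf1 HI hder I hIu

end K

end Pool.Agent.W5h36.EL
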