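import Mathlib

/-!
# Quadratic twists and their 2-coverings: the definitions

Let `f k ∈ ℤ[x]` (`k ∈ K`) be irreducible over `ℚ`, of even degrees, pairwise non-associated, let
`F k` be their homogenisations and `C d : d * y ^ 2 = ∏ k, F k (x, w)`,
`D δ : F k (x, w) = δ k * y k ^ 2` (all `k`), where `d * ∏ k, δ k` is a square.
-/

namespace Pool.Agent.W5h36.Twists

open Finset Polynomial Filter Topology

/-- the homogenisation `F(x, w) = ∑ i, a i * x ^ i * w ^ (n - i)` of `f = ∑ i, a i * x ^ i`,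
`n = deg f` -/
noncomputable def hom (f : ℤ[X]) {R : Type*} [CommRing R] (x w : R) : R :=
  ∑ i ∈ range (f.natDegree + 1), (f.coeff i : R) * x ^ i * w ^ (f.natDegree - i)

/-- the curve `C d : d * y ^ 2 = ∏ k, F k (x, w)` has a point over the field `L` -/
def CurveHasPoint {K : Type} [Fintype K] (f : K → ℤ[X]) (d : ℤ) (L : Type) [Field L] : Prop :=
  ∃ x w y : L, (x ≠ 0 ∨ w ≠ 0) ∧ d * y ^ 2 = ∏ k, hom (f k) x w

/-- `C d` has points everywhere locally -/
def LocSol {K : Type} [Fintype K] (f : K → ℤ[X]) (d : ℤ) : Prop :=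
  CurveHasPoint f d ℝ ∧ ∀ (p : ℕ) [Fact p.Prime], CurveHasPoint f d ℚ_[p]

/-- the curve `D δ : F k (x, w) = δ k * y k ^ 2` (all `k`) has a point over the field `L` -/
def CoveringHasPoint {K : Type} (f : K → ℤ[X]) (δ : K → ℤ) (L : Type) [Field L] : Prop :=
  ∃ x w : L, (x ≠ 0 ∨ w ≠ 0) ∧ ∀ k, ∃ y : L, hom (f k) x w = δ k * y ^ 2

/-- some covering `D δ` of `C d` (`d * ∏ k, δ k` is a square) has points everywhere locally -/
def SelmerNonempty {K : Type} [Fintype K] (f : K → ℤ[X]) (d : ℤ) : Prop :=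
  ∃ δ : K → ℤ, (∀ k, δ k ≠ 0) ∧ IsSquare (d * ∏ k, δ k) ∧ CoveringHasPoint f δ ℝ ∧
    ∀ (p : ℕ) [Fact p.Prime], CoveringHasPoint f δ ℚ_[p]

/-- irreducible over `ℚ`, even degree, pairwise non-associated -/
def Adm {K : Type} (f : K → ℤ[X]) : Prop :=
  (∀ k, Irreducible ((f k).map (Int.castRingHom ℚ))) ∧ (∀ k, Even (f k).natDegree) ∧
  (∀ k l, k ≠ l → ¬ Associated ((f k).map (Int.castRingHom ℚ)) ((f l).map (Int.castRingHom ℚ)))

/-- among the squarefree `d`, `|d| ≤ X`, for which `C d` has points everywhere locally, the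
proportion of those with an everywhere locally soluble covering `D δ` is `O((log X) ^ (-η))`, for
some `η > 0`; and there are at least `X / log X` squarefree `d`, `|d| ≤ X`, for which `C d` has
points everywhere locally, if `X` is sufficiently large -/
def Good {K : Type} [Fintype K] (f : K → ℤ[X]) : Prop :=
  ∃ η : ℝ, 0 < η ∧ ∃ C : ℝ, ∀ᶠ X : ℕ in atTop,
    ({d : ℤ | d.natAbs ≤ X ∧ Squarefree d ∧ LocSol f d ∧ SelmerNonempty f d}.ncard : ℝ) ≤
      C * (Real.log X) ^ (-η) * ({d : ℤ | d.natAbs ≤ X ∧ Squarefree d ∧ LocSol f d}.ncard : ℝ) ∧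
    (X : ℝ) / Real.log X ≤ ({d : ℤ | d.natAbs ≤ X ∧ Squarefree d ∧ LocSol f d}.ncard : ℝ)

/-- the splitting fields are linearly disjoint over `ℚ`: for every family of automorphisms of the
algebraic closure of `ℚ` there is one which acts on the zeros of `f k` as the `k`-th member of the
family, for all `k` -/
def Independent {K : Type} (f : K → ℤ[X]) : Prop :=
  ∀ σ : K → (AlgebraicClosure ℚ ≃ₐ[ℚ] AlgebraicClosure ℚ),
    ∃ τ : AlgebraicClosure ℚ ≃ₐ[ℚ] AlgebraicClosure ℚ,
      ∀ k, ∀ θ : AlgebraicClosure ℚ, aeval θ (f k) = 0 → τ θ = σ k θ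

/-- every family of permutations of the zeros of the `f k` is induced by an automorphism of the
algebraic closure of `ℚ` (the Galois groups are the symmetric groups and the splitting fields are
linearly disjoint) -/
def Symmetric {K : Type} (f : K → ℤ[X]) : Prop :=
  ∀ π : (k : K) → Equiv.Perm {θ : AlgebraicClosure ℚ // aeval θ (f k) = 0},
    ∃ σ : AlgebraicClosure ℚ ≃ₐ[ℚ] AlgebraicClosure ℚ, ∀ k θ, σ θ.1 = (π k θ).1

/-- the primes up to `N` -/
def primesUpTo (N : ℕ) : Finset ℕ := (range (N + 1)).filter Nat.Prime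

/-- the number of zeros of `h` modulo `p` -/
def zerosMod (h : ℤ[X]) (p : ℕ) : ℕ :=
  ((range p).filter (fun t : ℕ => (p : ℤ) ∣ h.eval (t : ℤ))).card

/-- the primes modulo which `h` has exactly `m` zeros have the natural density `x` -/
def HasDensity (h : ℤ[X]) (m : ℕ) (x : ℝ) : Prop :=
  Tendsto (fun N => (((primesUpTo N).filter (fun p => zerosMod h p = m)).card : ℝ) /
    (primesUpTo N).card) atTop (𝓝 x)

end Pool.Agent.W5h36.Twists
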