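import Pool.Agent.W262.TW.Full
import Pool.Agent.W262.TW.Ex3
import Pool.Agent.W5h36.EL.Twists
import Pool.Agent.W5h36.EL.Indep3

/-! From the definitions of the statements to the ones of the proofs. -/

set_option autoImplicit false

namespace Pool.Agent.W5h36.Twists

open Finset Polynomial Filter Topology
open Pool.Agent.W401.Cheb

lemma good_iff {K : Type} [Fintype K] [DecidableEq K] (f : K → ℤ[X]) : Good f ↔ EL.AA f := Iff.rfl

lemma sel_of_point {K : Type} [Fintype K] (f : K → ℤ[X]) (hf : Adm f) (d : ℤ)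
    (hd : CurveHasPoint f d ℚ) : SelmerNonempty f d := by
  refine W262.TW.sel_of_point f hf.1 (fun k => ?_) hd
  have e1 : ((f k).map (Int.castRingHom ℚ)).natDegree = (f k).natDegree :=
    natDegree_map_eq_of_injective (RingHom.injective_int (Int.castRingHom ℚ)) _
  have e2 : 0 < ((f k).map (Int.castRingHom ℚ)).natDegree := (hf.1 k).natDegree_pos
  obtain ⟨m, hm⟩ := hf.2.1 k
  omega

lemma tendsto_density (h : ℤ[X]) (m : ℕ) (x : ℝ) (hx : HasDensity h m x) :
    Tendsto (M fun p => if EL.om h p = m then (1 : ℝ) else 0) atTop (𝓝 x) := by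
  refine Tendsto.congr (fun N => ?_) hx
  unfold M
  rw [← EL.card_pr, sum_boole]
  rfl

end Pool.Agent.W5h36.Twists
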