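import Pool.Agent.W5h36.EL.Sn

/-! Mean values of quadratic characters. -/

set_option autoImplicit false

namespace Pool.Agent.W5h36.EL

open Polynomial Filter Topology Finset
open Pool.Agent.W401.Cheb Pool.Agent.W262.TW Pool.Agent.W262.RK

/-- the number of the square roots of `q` modulo `p` -/
lemma om_sq (q : ℤ) (p : ℕ) [hp : Fact p.Prime] (hp2 : p ≠ 2) :
    (om (X ^ 2 - C q) p : ℤ) = jacobiSym q p + 1 := by
  rw [om_eq, ← jacobiSym.legendreSym.to_jacobiSym, ← legendreSym.card_sqrts p hp2 q]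
  congr 1
  rw [Set.toFinset_card, ← Nat.card_eq_fintype_card]
  refine Nat.card_congr (Equiv.subtypeEquivRight fun t => ?_)
  rw [eval₂_sub, eval₂_pow, eval₂_X, eval₂_C, eq_intCast, sub_eq_zero]
  rfl

lemma conj_aux (Ω : Type) [Field Ω] [Algebra ℚ Ω] [Normal ℚ Ω] (P : ℚ[X]) (hP : Irreducible P)
    (hm : P.Monic) (φ : ℚ →+* Ω) (x y : Ω) (hx : eval₂ φ x P = 0) (hy : eval₂ φ y P = 0) :
    ∃ σ : Ω ≃+* Ω, σ y = x := by
  have hφ : φ = algebraMap ℚ Ω := Subsingleton.elim _ _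
  rw [hφ] at hx hy
  have h1 : P = minpoly ℚ x := minpoly.eq_of_irreducible_of_monic hP hx hm
  have h2 : P = minpoly ℚ y := minpoly.eq_of_irreducible_of_monic hP hy hm
  obtain ⟨σ, hσ⟩ := (isConjRoot_iff_exists_algEquiv (K := ℚ) (x := x) (y := y)).1
    (h1.symm.trans h2)
  exact ⟨σ.toRingEquiv, hσ⟩

/-- transitivity -/
lemma conj_ex (P : ℚ[X]) (hP : Irreducible P) (hm : P.Monic) (x y : AlgebraicClosure ℚ)
    (hx : aeval x P = 0) (hy : aeval y P = 0) :
    ∃ σ : AlgebraicClosure ℚ ≃ₐ[ℚ] AlgebraicClosure ℚ, σ y = x := by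
  obtain ⟨σ, hσ⟩ := @conj_aux (AlgebraicClosure ℚ) _ (AlgebraicClosure.instAlgebra ℚ) inferInstance
    P hP hm (algebraMap ℚ (AlgebraicClosure ℚ)) x y hx hy
  exact ⟨AlgEquiv.ofRingEquiv (f := σ) (fun r => by
    rw [show (algebraMap ℚ (AlgebraicClosure ℚ)) r = (r : AlgebraicClosure ℚ) from rfl]
    exact map_ratCast σ r), hσ⟩

theorem chi_mean (q : ℤ) (hq : ¬ IsSquare q) :
    Tendsto (M fun p => (jacobiSym q p : ℝ)) atTop (𝓝 0) := by
  classical
  have hq0 : q ≠ 0 := by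
    rintro rfl
    exact hq (IsSquare.zero)
  set h : ℤ[X] := X ^ 2 - C q with hh
  have hmap : h.map (Int.castRingHom ℚ) = X ^ 2 - C (q : ℚ) := by
    rw [hh, Polynomial.map_sub, Polynomial.map_pow, map_X, map_C]
    rfl
  have hirr : Irreducible (h.map (Int.castRingHom ℚ)) := by
    rw [hmap]
    refine X_pow_sub_C_irreducible_of_prime Nat.prime_two fun b hb => hq ?_
    rw [← Rat.isSquare_intCast_iff]
    exact ⟨b, by rw [← hb, sq]⟩
  have hdeg : h.natDegree = 2 := by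
    rw [hh]
    exact natDegree_X_pow_sub_C
  have hh0 : h ≠ 0 := by
    intro h1
    rw [h1] at hdeg
    simp at hdeg
  have haev : ∀ θ : AlgebraicClosure ℚ, aeval θ h = 0 ↔ θ ^ 2 = (q : AlgebraicClosure ℚ) := by
    intro θ
    rw [hh, map_sub, map_pow, aeval_X, aeval_C, sub_eq_zero]
    rfl
  obtain ⟨θ0, hθ0⟩ : ∃ θ : AlgebraicClosure ℚ, aeval θ h = 0 := by
    have h1 := nroots h hirr
    rw [hdeg] at h1
    have h2 : 0 < Nat.card {θ : AlgebraicClosure ℚ // aeval θ h = 0} := by omega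
    obtain ⟨⟨θ, hθ⟩⟩ := (Nat.card_pos_iff.1 h2).1
    exact ⟨θ, hθ⟩
  have hθ02 := (haev θ0).1 hθ0
  have hneg : aeval (-θ0) h = 0 := by
    rw [haev, neg_sq]
    exact hθ02
  have hθ00 : θ0 ≠ 0 := by
    rintro rfl
    rw [zero_pow (by norm_num)] at hθ02
    exact hq0 (by exact_mod_cast hθ02.symm)
  have hroots : ∀ θ : AlgebraicClosure ℚ, aeval θ h = 0 → θ = θ0 ∨ θ = -θ0 := by
    intro θ hθ
    rw [haev, ← hθ02] at hθ
    exact sq_eq_sq_iff_eq_or_eq_neg.1 hθ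
  have hHS : ∀ π : (k : Unit) → Equiv.Perm {θ : AlgebraicClosure ℚ // aeval θ ((fun _ => h) k) = 0},
      ∃ σ : AlgebraicClosure ℚ ≃ₐ[ℚ] AlgebraicClosure ℚ, ∀ k θ, σ θ.1 = (π k θ).1 := by
    intro π
    set e : Equiv.Perm {θ : AlgebraicClosure ℚ // aeval θ h = 0} := π () with he
    have hne : (⟨θ0, hθ0⟩ : {θ : AlgebraicClosure ℚ // aeval θ h = 0}) ≠ ⟨-θ0, hneg⟩ := by
      intro h1
      have h2 := congrArg Subtype.val h1
      exact hθ00 (self_eq_neg.1 h2)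
    have hr2 : ∀ x : {θ : AlgebraicClosure ℚ // aeval θ h = 0}, x = ⟨θ0, hθ0⟩ ∨ x = ⟨-θ0, hneg⟩ := by
      intro x
      rcases hroots x.1 x.2 with h1 | h1
      · exact Or.inl (Subtype.ext h1)
      · exact Or.inr (Subtype.ext h1)
    rcases hr2 (e ⟨θ0, hθ0⟩) with h1 | h1
    · refine ⟨1, fun k θ => ?_⟩
      obtain rfl : k = () := rfl
      change θ.1 = (e θ).1
      rcases hr2 θ with rfl | rfl
      · rw [h1]
      · rcases hr2 (e ⟨-θ0, hneg⟩) with h2 | h2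
        · exact absurd (e.injective (h1.trans h2.symm)) hne
        · rw [h2]
    · have hmin : ∀ θ : AlgebraicClosure ℚ, aeval θ h = 0 → aeval θ (X ^ 2 - C (q : ℚ)) = 0 := by
        intro θ hθ
        rw [map_sub, map_pow, aeval_X, aeval_C, (haev θ).1 hθ, sub_eq_zero]
        simp
      obtain ⟨σ, hσ⟩ := conj_ex (X ^ 2 - C (q : ℚ)) (hmap ▸ hirr)
        (monic_X_pow_sub_C _ (by norm_num)) (-θ0) θ0 (hmin _ hneg) (hmin _ hθ0)
      refine ⟨σ, fun k θ => ?_⟩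
      obtain rfl : k = () := rfl
      change σ θ.1 = (e θ).1
      rcases hr2 θ with rfl | rfl
      · rw [h1]
        exact hσ
      · rcases hr2 (e ⟨-θ0, hneg⟩) with h2 | h2
        · rw [h2]
          change σ (-θ0) = θ0
          rw [map_neg, hσ, neg_neg]
        · exact absurd (e.injective (h1.trans h2.symm)) hne
  let m : Fin 3 → ℝ := ![-1, 0, 1]
  have h1 := dist (K := Unit) (fun _ => h) (fun _ => hh0) hHS (fun a => m (a ()))
  simp only [nroots h hirr, hdeg] at h1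
  have h2 : ∑ a : Unit → Fin 3, m (a ()) * ∏ k : Unit, ((nq 2 (a k) : ℝ) / (Nat.factorial 2)) = 0 := by
    rw [Fintype.sum_equiv (Equiv.funUnique Unit (Fin 3)) _
      (fun c => m c * ((nq 2 c : ℝ) / (Nat.factorial 2))) (fun a => by
        rw [Fintype.prod_unique]
        rfl)]
    rw [Fin.sum_univ_three]
    have m0 : m 0 = -1 := rfl
    have m1 : m 1 = 0 := rfl
    have m2 : m 2 = 1 := rfl
    rw [m0, m1, m2]
    have n0 : nq 2 0 = 1 := by decide
    have n2 : nq 2 2 = 1 := by decide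
    rw [n0, n2]
    norm_num
  rw [h2] at h1
  refine M_congr (D := 2 * q.natAbs) (Nat.mul_pos two_pos (Int.natAbs_pos.2 hq0)) (fun p hp hpD => ?_) h1
  haveI : Fact p.Prime := ⟨hp⟩
  have hp2 : p ≠ 2 := by
    rintro rfl
    exact hpD (dvd_mul_right _ _)
  have h3 := om_sq q p hp2
  have hpq : ((q : ℤ) : ZMod p) ≠ 0 := by
    rw [Ne, ZMod.intCast_zmod_eq_zero_iff_dvd]
    intro h4
    exact hpD ((Int.natCast_dvd.1 h4).mul_left _)
  rw [← jacobiSym.legendreSym.to_jacobiSym] at h3 ⊢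
  rcases legendreSym.eq_one_or_neg_one p hpq with h4 | h4
  · rw [h4] at h3 ⊢
    have h5 : om h p = 2 := by
      have h6 : (om h p : ℤ) = 2 := h3
      exact_mod_cast h6
    rw [h5]
    have : cl 2 = 2 := rfl
    rw [this]
    simp [m]
  · rw [h4] at h3 ⊢
    have h5 : om h p = 0 := by
      have h6 : (om h p : ℤ) = 0 := h3
      exact_mod_cast h6
    rw [h5]
    have : cl 0 = 0 := rfl
    rw [this]
    simp [m]

lemma chi_mean_one (q : ℤ) (hq0 : q ≠ 0) (hq : IsSquare q) :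
    Tendsto (M fun p => (jacobiSym q p : ℝ)) atTop (𝓝 1) := by
  refine M_congr (D := q.natAbs) (Int.natAbs_pos.2 hq0) (fun p hp hpD => ?_) M_one
  haveI : Fact p.Prime := ⟨hp⟩
  obtain ⟨s, rfl⟩ := hq
  have hps : ¬ (p : ℤ) ∣ s := fun h => hpD (Int.natCast_dvd.1 (h.mul_right s))
  have h1 : (s : ZMod p) ≠ 0 := by
    rwa [Ne, ZMod.intCast_zmod_eq_zero_iff_dvd]
  rw [jacobiSym.mul_left, ← jacobiSym.legendreSym.to_jacobiSym]
  rcases legendreSym.eq_one_or_neg_one p h1 with h2 | h2 <;> rw [h2] <;> norm_num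

/-- the mean value of a quadratic character is `0` or `1` -/
lemma chi_mean' (q : ℤ) (hq0 : q ≠ 0) :
    ∃ c : ℝ, Tendsto (M fun p => (jacobiSym q p : ℝ)) atTop (𝓝 c) ∧ 0 ≤ c ∧ (¬ IsSquare q → c = 0) := by
  by_cases hq : IsSquare q
  · exact ⟨1, chi_mean_one q hq0 hq, zero_le_one, fun h => absurd hq h⟩
  · exact ⟨0, chi_mean q hq, le_rfl, fun _ => rfl⟩

end Pool.Agent.W5h36.EL
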