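import Pool.Agent.W5h36.EL.Cnt

/-! Lower bound for the number of squarefree integers composed of primes of a set of given lower
density: the count. -/

set_option autoImplicit false

namespace Pool.Agent.W5h36.EL

open Finset Filter Topology

lemma card_inj (P : Set ℕ) (hP : ∀ p ∈ P, p.Prime) (z Y u R : ℕ) (T : ℝ) (huR : u ≤ R) :
    ∑ B ∈ (PZ P z u).powerset.filter (fun B => ((∏ p ∈ B, p : ℕ) : ℝ) ≤ T),
      ((PZ P z (Y / ∏ p ∈ B, p)).filter (fun p => R < p)).card ≤ (SF P z Y).card := by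
  classical
  rw [← card_sigma]
  have hBp : ∀ B ∈ (PZ P z u).powerset.filter (fun B => ((∏ p ∈ B, p : ℕ) : ℝ) ≤ T),
      ∀ p ∈ B, p.Prime ∧ p ≤ u ∧ p ∈ P ∧ z < p := by
    intro B hB p hp
    have h := mem_PZ.1 (mem_powerset.1 (mem_filter.1 hB).1 hp)
    exact ⟨hP p h.2.1, h⟩
  have hkey : ∀ x ∈ ((PZ P z u).powerset.filter (fun B => ((∏ p ∈ B, p : ℕ) : ℝ) ≤ T)).sigma
      (fun B => (PZ P z (Y / ∏ p ∈ B, p)).filter (fun p => R < p)),
      x.2 ∉ x.1 ∧ x.2 * ∏ p ∈ x.1, p = ∏ p ∈ insert x.2 x.1, p ∧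
      (∀ p ∈ insert x.2 x.1, p.Prime) := by
    rintro ⟨B, q⟩ hx
    rw [mem_sigma] at hx
    obtain ⟨hB, hq⟩ := hx
    simp only at hB hq ⊢
    rw [mem_filter, mem_PZ] at hq
    have hqB : q ∉ B := by
      intro h
      have := (hBp B hB q h).2.1
      omega
    refine ⟨hqB, by rw [prod_insert hqB], ?_⟩
    intro p hp
    rcases mem_insert.1 hp with rfl | h
    · exact hP _ hq.1.2.1
    · exact (hBp B hB p h).1
  refine card_le_card_of_injOn (fun x => x.2 * ∏ p ∈ x.1, p) ?_ ?_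
  · rintro ⟨B, q⟩ hx
    have hk := hkey _ (mem_coe.1 hx)
    have hx' := mem_sigma.1 (mem_coe.1 hx)
    obtain ⟨hB, hq⟩ := hx'
    simp only at hB hq hk
    rw [mem_filter, mem_PZ] at hq
    rw [mem_coe, mem_SF]
    simp only
    have hpos : 0 < ∏ p ∈ B, p := prod_pos fun p hp => (hBp B hB p hp).1.pos
    have hq0 : 0 < q := (hP q hq.1.2.1).pos
    refine ⟨Nat.mul_pos hq0 hpos, ?_, ?_, ?_⟩
    · exact (Nat.le_div_iff_mul_le hpos).1 hq.1.1
    · rw [hk.2.1, Nat.squarefree_iff_prime_squarefree]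
      intro p hp hpp
      have h1 : p * p ∣ ∏ p ∈ insert q B, p := hpp
      have h2 : p ∈ insert q B := by
        have h3 : p ∣ ∏ p ∈ insert q B, p := (Dvd.intro _ rfl).trans h1
        obtain ⟨r, hr, hpr⟩ := (hp.prime.dvd_finsetProd_iff _).1 h3
        rwa [(Nat.prime_dvd_prime_iff_eq hp (hk.2.2 r hr)).1 hpr]
      rw [← mul_prod_erase _ _ h2] at h1
      have h4 : p ∣ ∏ r ∈ (insert q B).erase p, r := Nat.dvd_of_mul_dvd_mul_left hp.pos h1
      obtain ⟨r, hr, hpr⟩ := (hp.prime.dvd_finsetProd_iff _).1 h4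
      have h5 := mem_erase.1 hr
      exact h5.1 ((Nat.prime_dvd_prime_iff_eq hp (hk.2.2 r h5.2)).1 hpr).symm
    · intro p hp hpd
      rw [hk.2.1] at hpd
      obtain ⟨r, hr, hpr⟩ := (hp.prime.dvd_finsetProd_iff _).1 hpd
      rw [(Nat.prime_dvd_prime_iff_eq hp (hk.2.2 r hr)).1 hpr]
      rcases mem_insert.1 hr with rfl | h
      · exact hq.1.2
      · exact (hBp B hB r h).2.2
  · rintro ⟨B, q⟩ hx ⟨B', q'⟩ hx' heq
    have hk := hkey _ (mem_coe.1 hx)
    have hk' := hkey _ (mem_coe.1 hx')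
    have hx1 := mem_sigma.1 (mem_coe.1 hx)
    have hx1' := mem_sigma.1 (mem_coe.1 hx')
    simp only at heq hk hk' hx1 hx1'
    rw [hk.2.1, hk'.2.1] at heq
    have h1 := congrArg Nat.primeFactors heq
    rw [Nat.primeFactors_prod hk.2.2, Nat.primeFactors_prod hk'.2.2] at h1
    have hf : ∀ (B : Finset ℕ) (q : ℕ), (∀ p ∈ B, p ≤ u) → R < q →
        (insert q B).filter (fun p => p ≤ u) = B ∧ (insert q B).filter (fun p => ¬ p ≤ u) = {q} := by
      intro B q hB hq
      constructor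
      · ext p
        rw [mem_filter, mem_insert]
        constructor
        · rintro ⟨rfl | h, h2⟩
          · omega
          · exact h
        · exact fun h => ⟨Or.inr h, hB p h⟩
      · ext p
        rw [mem_filter, mem_insert, mem_singleton]
        constructor
        · rintro ⟨rfl | h, h2⟩
          · rfl
          · exact absurd (hB p h) h2
        · rintro rfl
          exact ⟨Or.inl rfl, by omega⟩
    have e1 := hf B q (fun p hp => (hBp B hx1.1 p hp).2.1) (mem_filter.1 hx1.2).2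
    have e2 := hf B' q' (fun p hp => (hBp B' hx1'.1 p hp).2.1) (mem_filter.1 hx1'.2).2
    rw [h1] at e1
    have e3 : B = B' := e1.1.symm.trans e2.1
    have e4 : q = q' := singleton_injective (e1.2.symm.trans e2.2)
    rw [e3, e4]

lemma pi_low : ∀ᶠ N : ℕ in atTop, (N : ℝ) / (2 * Real.log N) ≤ (Nat.primeCounting N : ℝ) := by
  have h : Tendsto (fun N : ℕ => (Nat.primeCounting N : ℝ) * Real.log N / N) atTop (𝓝 1) := by
    have := Pool.Agent.Cov.PNT.pi_tendsto.comp (tendsto_natCast_atTop_atTop (R := ℝ))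
    refine this.congr fun N => ?_
    simp
  filter_upwards [h.eventually (lt_mem_nhds (show (1 / 2 : ℝ) < 1 by norm_num)),
    eventually_ge_atTop 3] with N hN hN3
  have hN0 : (0 : ℝ) < N := by exact_mod_cast (by omega : 0 < N)
  have hl : 0 < Real.log N := Real.log_pos (by exact_mod_cast (by omega : 1 < N))
  rw [lt_div_iff₀ hN0] at hN
  rw [div_le_iff₀ (by positivity)]
  linarith

/-- real inequalities for large `x` -/
lemma large (β C C1 : ℝ) (hβ : 0 < β) (N0 : ℕ) : ∀ᶠ x : ℝ in atTop,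
    C + Real.sqrt x + 1 ≤ β * x ^ (3 / 4 : ℝ) / (8 * Real.log x) ∧
    (N0 : ℝ) ≤ x ^ (3 / 4 : ℝ) / 2 ∧ 2 ≤ x ^ (3 / 4 : ℝ) / 2 ∧ 4 ≤ x ^ (1 / 16 : ℝ) ∧
    x ^ (1 / 32 : ℝ) ≤ x ^ (1 / 16 : ℝ) - 1 ∧ C1 ≤ (1 / 16) * Real.log x ∧ 3 ≤ x := by
  have h1 := (isLittleO_log_rpow_atTop (show (0 : ℝ) < 1 / 8 by norm_num)).bound
    (show (0 : ℝ) < 1 by norm_num)
  have h2 : Tendsto (fun x : ℝ => x ^ (1 / 8 : ℝ)) atTop atTop := tendsto_rpow_atTop (by norm_num)
  have h3 : Tendsto (fun x : ℝ => x ^ (3 / 4 : ℝ)) atTop atTop := tendsto_rpow_atTop (by norm_num)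
  have h4 : Tendsto (fun x : ℝ => x ^ (1 / 16 : ℝ)) atTop atTop := tendsto_rpow_atTop (by norm_num)
  have h5 : Tendsto (fun x : ℝ => x ^ (1 / 32 : ℝ)) atTop atTop := tendsto_rpow_atTop (by norm_num)
  filter_upwards [h1, h2.eventually_ge_atTop ((8 / β) * (|C| + 2)), h3.eventually_ge_atTop (2 * N0),
    h3.eventually_ge_atTop 4, h4.eventually_ge_atTop 4, h5.eventually_ge_atTop 2,
    Real.tendsto_log_atTop.eventually_ge_atTop (16 * C1), eventually_ge_atTop 3]
    with x g1 g2 g3 g4 g5 g6 g7 g8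
  have hx0 : 0 < x := by linarith
  have hl : 0 < Real.log x := Real.log_pos (by linarith)
  refine ⟨?_, by linarith, by linarith, g5, ?_, by linarith, g8⟩
  · rw [Real.norm_of_nonneg hl.le, Real.norm_of_nonneg (by positivity), one_mul] at g1
    rw [le_div_iff₀ (by positivity)]
    have hs : Real.sqrt x = x ^ (1 / 2 : ℝ) := Real.sqrt_eq_rpow x
    have hs1 : 1 ≤ x ^ (1 / 2 : ℝ) := Real.one_le_rpow (by linarith) (by norm_num)
    have e1 : x ^ (3 / 4 : ℝ) = x ^ (1 / 8 : ℝ) * x ^ (1 / 8 : ℝ) * x ^ (1 / 2 : ℝ) := by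
      rw [← Real.rpow_add hx0, ← Real.rpow_add hx0]
      norm_num
    have h18 : 0 < x ^ (1 / 8 : ℝ) := by positivity
    have g2' : 8 * (|C| + 2) ≤ β * x ^ (1 / 8 : ℝ) := by
      calc 8 * (|C| + 2) = β * ((8 / β) * (|C| + 2)) := by field_simp
        _ ≤ _ := mul_le_mul_of_nonneg_left g2 hβ.le
    have hC := le_abs_self C
    have hC0 := abs_nonneg C
    have e2 : C + Real.sqrt x + 1 ≤ (|C| + 2) * x ^ (1 / 2 : ℝ) := by
      rw [hs]
      nlinarith
    calc (C + Real.sqrt x + 1) * (8 * Real.log x)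
        ≤ ((|C| + 2) * x ^ (1 / 2 : ℝ)) * (8 * x ^ (1 / 8 : ℝ)) :=
          mul_le_mul e2 (by linarith) (by positivity) (by positivity)
      _ = (8 * (|C| + 2)) * (x ^ (1 / 8 : ℝ) * x ^ (1 / 2 : ℝ)) := by ring
      _ ≤ (β * x ^ (1 / 8 : ℝ)) * (x ^ (1 / 8 : ℝ) * x ^ (1 / 2 : ℝ)) :=
          mul_le_mul_of_nonneg_right g2' (by positivity)
      _ = _ := by rw [e1]; ring
  · have e1 : x ^ (1 / 16 : ℝ) = x ^ (1 / 32 : ℝ) * x ^ (1 / 32 : ℝ) := by
      rw [← Real.rpow_add hx0]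
      norm_num
    rw [e1]
    nlinarith

open scoped Classical in
/-- **Lower bound.** -/
theorem SF_ge (P : Set ℕ) (hP : ∀ p ∈ P, p.Prime) (β C : ℝ) (hβ : 0 < β)
    (hD : ∀ N : ℕ, β * (Nat.primeCounting N : ℝ) - C ≤
      (((range (N + 1)).filter (fun p => p ∈ P)).card : ℝ)) (z : ℕ) :
    ∃ c : ℝ, 0 < c ∧ ∀ᶠ Y : ℕ in atTop,
      c * Y * (Real.log Y) ^ (β - 1) ≤ ((SF P z Y).card : ℝ) := by
  obtain ⟨C1, hC1⟩ := Helper923.HMertens.mertens_log
  obtain ⟨C2, hC2⟩ := sum_PZ P β C hβ.le hD z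
  obtain ⟨N0, hN0⟩ := eventually_atTop.1 pi_low
  refine ⟨(β / 8) * ((1 / 2) * ((1 / 32) ^ β * Real.exp (-C2))), by positivity, ?_⟩
  filter_upwards [tendsto_natCast_atTop_atTop.eventually (large β (C + z + 2) C1 hβ N0)]
    with Y hY
  obtain ⟨g1, g2, g3, g4, g5, g6, g7⟩ := hY
  set x : ℝ := (Y : ℝ) with hx
  have hx0 : 0 < x := by linarith
  have hl : 0 < Real.log x := Real.log_pos (by linarith)
  set u : ℕ := ⌊x ^ (1 / 16 : ℝ)⌋₊ with hu
  set R : ℕ := Nat.sqrt Y with hR
  set T : ℝ := x ^ (1 / 4 : ℝ) with hT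
  have hT0 : 0 < T := by positivity
  have hT1 : 1 < T := Real.one_lt_rpow (by linarith) (by norm_num)
  have hux : (u : ℝ) ≤ x ^ (1 / 16 : ℝ) := Nat.floor_le (by positivity)
  have hux1 : x ^ (1 / 16 : ℝ) - 1 < u := by
    have := Nat.lt_floor_add_one (x ^ (1 / 16 : ℝ))
    linarith
  have hu3 : 3 ≤ u := Nat.le_floor (by push_cast; linarith)
  have hu0 : 0 < (u : ℝ) := by exact_mod_cast (by omega : 0 < u)
  have huR : u ≤ R := by
    rw [hR, Nat.le_sqrt']
    have h1 : ((u ^ 2 : ℕ) : ℝ) ≤ (Y : ℝ) := by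
      push_cast
      calc (u : ℝ) ^ 2 ≤ (x ^ (1 / 16 : ℝ)) ^ 2 := pow_le_pow_left₀ hu0.le hux 2
        _ = x ^ (1 / 8 : ℝ) := by
          rw [← Real.rpow_natCast, ← Real.rpow_mul hx0.le]
          norm_num
        _ ≤ x ^ (1 : ℝ) := Real.rpow_le_rpow_of_exponent_le (by linarith) (by norm_num)
        _ = _ := by rw [Real.rpow_one]
    exact_mod_cast h1
  have hAp : ∀ p ∈ PZ P z u, p.Prime := fun p hp => hP p (mem_PZ.1 hp).2.1
  -- the sum of the reciprocals
  have hlog : ∑ p ∈ PZ P z u, Real.log p / p ≤ Real.log T / 2 := by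
    have h1 : ∑ p ∈ PZ P z u, Real.log p / p ≤ ∑ p ∈ (Icc 1 u).filter Nat.Prime, Real.log p / p := by
      refine sum_le_sum_of_subset_of_nonneg ?_ fun p _ _ =>
        div_nonneg (Real.log_natCast_nonneg p) (Nat.cast_nonneg p)
      intro p hp
      have hpp := hAp p hp
      rw [mem_PZ] at hp
      rw [mem_filter, mem_Icc]
      exact ⟨⟨hpp.one_le, hp.1⟩, hpp⟩
    have h2 := (abs_le.1 (hC1 u (by omega))).2
    have h3 : Real.log u ≤ (1 / 16) * Real.log x := by
      rw [← Real.log_rpow hx0]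
      exact Real.log_le_log hu0 hux
    have h4 : Real.log T = (1 / 4) * Real.log x := by rw [hT, Real.log_rpow hx0]
    rw [h4]
    linarith
  have hS := trunc (PZ P z u) hAp T hT1 hlog
  have hG := prod_ge (PZ P z u) hAp
  have hlu : (1 / 32) * Real.log x ≤ Real.log u := by
    rw [← Real.log_rpow hx0]
    exact Real.log_le_log (by positivity) (by linarith)
  have hlu0 : 0 < Real.log u := by
    have : 0 < (1 / 32) * Real.log x := by positivity
    linarith
  have hE : (1 / 32) ^ β * Real.exp (-C2) * (Real.log x) ^ β ≤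
      Real.exp (∑ p ∈ PZ P z u, (1 : ℝ) / ((p : ℝ) + 1)) := by
    have h1 := hC2 u hu3
    calc (1 / 32) ^ β * Real.exp (-C2) * (Real.log x) ^ β
        = ((1 / 32) * Real.log x) ^ β * Real.exp (-C2) := by
          rw [Real.mul_rpow (by norm_num) hl.le]; ring
      _ ≤ (Real.log u) ^ β * Real.exp (-C2) := by
          refine mul_le_mul_of_nonneg_right ?_ (Real.exp_pos _).le
          exact Real.rpow_le_rpow (by positivity) hlu hβ.le
      _ = Real.exp (β * Real.log (Real.log u) - C2) := by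
          rw [Real.rpow_def_of_pos hlu0, ← Real.exp_add]
          congr 1
          ring
      _ ≤ _ := Real.exp_le_exp.2 h1
  -- the number of the primes
  have hcard : ∀ B ∈ (PZ P z u).powerset.filter (fun B => ((∏ p ∈ B, p : ℕ) : ℝ) ≤ T),
      (β / 8) * (x / Real.log x) * (1 / ((∏ p ∈ B, p : ℕ) : ℝ)) ≤
        (((PZ P z (Y / ∏ p ∈ B, p)).filter (fun p => R < p)).card : ℝ) := by
    intro B hB
    rw [mem_filter, mem_powerset] at hB
    set n : ℕ := ∏ p ∈ B, p with hn
    have hn1 : 1 ≤ n := prod_pos fun p hp => (hAp p (hB.1 hp)).pos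
    have hn0 : (0 : ℝ) < n := by exact_mod_cast hn1
    have hn1' : (1 : ℝ) ≤ n := by exact_mod_cast hn1
    have hxn : x ^ (3 / 4 : ℝ) ≤ x / n := by
      rw [le_div_iff₀ hn0]
      calc x ^ (3 / 4 : ℝ) * n ≤ x ^ (3 / 4 : ℝ) * T :=
            mul_le_mul_of_nonneg_left hB.2 (by positivity)
        _ = x := by
          rw [hT, ← Real.rpow_add hx0]
          norm_num
    set M : ℕ := Y / n with hM
    have hM1 : x / n - 1 ≤ M := by
      have h1 : Y < n * (M + 1) := by
        have := Nat.lt_mul_div_succ Y (show 0 < n by omega)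
        exact this
      have h2 : x < n * ((M : ℝ) + 1) := by rw [hx]; exact_mod_cast h1
      have h3 : x / n < (M : ℝ) + 1 := by
        rw [div_lt_iff₀ hn0]
        linarith
      linarith
    have hM2 : x / n / 2 ≤ M := by linarith
    have hM3 : (M : ℝ) ≤ x := by
      have h1 : M ≤ Y := Nat.div_le_self _ _
      rw [hx]
      exact_mod_cast h1
    have hMN : N0 ≤ M := by
      have : (N0 : ℝ) ≤ M := by linarith
      exact_mod_cast this
    have hM4 : (2 : ℝ) ≤ M := by linarith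
    have hlM : 0 < Real.log M := Real.log_pos (by linarith)
    have hpi := hN0 M hMN
    have h1 : (M : ℝ) / (2 * Real.log x) ≤ M / (2 * Real.log M) := by
      refine div_le_div_of_nonneg_left (by linarith) (by positivity) ?_
      have := Real.log_le_log (by linarith) hM3
      linarith
    have h2 : x / n / 2 / (2 * Real.log x) ≤ Nat.primeCounting M := by
      refine le_trans ?_ (h1.trans hpi)
      exact div_le_div_of_nonneg_right hM2 (by positivity)
    have h3 := card_PZ P z M β C (hD M)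
    have h4 : ((PZ P z M).card : ℝ) ≤
        (((PZ P z M).filter (fun p => R < p)).card : ℝ) + (R + 1) := by
      have h5 : PZ P z M ⊆ (PZ P z M).filter (fun p => R < p) ∪ range (R + 1) := by
        intro p hp
        rw [mem_union, mem_filter, mem_range]
        by_cases h : R < p
        · exact Or.inl ⟨hp, h⟩
        · right; omega
      have h6 := (card_le_card h5).trans (card_union_le _ _)
      rw [card_range] at h6
      exact_mod_cast h6
    have hRx : (R : ℝ) ≤ Real.sqrt x := by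
      rw [hx, hR]
      exact Real.nat_sqrt_le_real_sqrt
    have h5 : β * (x / n / 2 / (2 * Real.log x)) ≤ β * Nat.primeCounting M :=
      mul_le_mul_of_nonneg_left h2 hβ.le
    have h6 : β * x ^ (3 / 4 : ℝ) / (8 * Real.log x) ≤ β * (x / n) / (8 * Real.log x) := by
      refine div_le_div_of_nonneg_right ?_ (by positivity)
      exact mul_le_mul_of_nonneg_left hxn hβ.le
    have h7 : β * (x / n / 2 / (2 * Real.log x)) = 2 * (β * (x / n) / (8 * Real.log x)) := by
      field_simp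
      norm_num
    have h8 : β / 8 * (x / Real.log x) * (1 / (n : ℝ)) = β * (x / n) / (8 * Real.log x) := by
      field_simp
    rw [h8]
    linarith
  have hfin := card_inj P hP z Y u R T huR
  have hfin' : ∑ B ∈ (PZ P z u).powerset.filter (fun B => ((∏ p ∈ B, p : ℕ) : ℝ) ≤ T),
      (((PZ P z (Y / ∏ p ∈ B, p)).filter (fun p => R < p)).card : ℝ) ≤ ((SF P z Y).card : ℝ) := by
    exact_mod_cast hfin
  refine le_trans ?_ hfin'
  refine le_trans ?_ (sum_le_sum hcard)
  rw [← mul_sum]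
  have e1 : (Real.log x) ^ (β - 1) = (Real.log x) ^ β / Real.log x := by
    rw [Real.rpow_sub hl, Real.rpow_one]
  calc β / 8 * (1 / 2 * ((1 / 32) ^ β * Real.exp (-C2))) * x * Real.log x ^ (β - 1)
      = β / 8 * (x / Real.log x) * (1 / 2 * ((1 / 32) ^ β * Real.exp (-C2) * Real.log x ^ β)) := by
        rw [e1]
        field_simp
    _ ≤ β / 8 * (x / Real.log x) * _ := by
        refine mul_le_mul_of_nonneg_left ?_ (by positivity)
        refine le_trans ?_ hS
        refine mul_le_mul_of_nonneg_left ?_ (by norm_num)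
        exact hE.trans hG

end Pool.Agent.W5h36.EL
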