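import Pool.Agent.W5h36.EL.Quad2

/-! Composite polynomials. -/

set_option autoImplicit false

namespace Pool.Agent.W5h36.EL

open Polynomial Filter Topology Finset
open Pool.Agent.W401.Cheb Pool.Agent.W262.TW Pool.Agent.W262.RK

section K

variable {K : Type} [Fintype K] [DecidableEq K]

lemma MX_pos (I : Finset K) {T : Finset (Finset K)} (h : T.Nonempty) : 1 ≤ MX I T := by
  obtain ⟨N, hN⟩ := h
  refine le_trans ?_ (le_MX I T (N \ I) (sdiff_subset_sdiff (subset_univ _) le_rfl))
  exact card_pos.2 ⟨N, mem_filter.2 ⟨hN, rfl⟩⟩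

lemma Th_nonempty {f : K → ℤ[X]} {i : K} {p : ℕ} (hp : p.Prime) (h : i ∈ SR f p) :
    (Th f i p).Nonempty := by
  classical
  by_contra h1
  rw [not_nonempty_iff_eq_empty] at h1
  unfold Th at h1
  rw [image_eq_empty] at h1
  have h2 : om (f i) p = 0 := by
    unfold om
    rw [h1, card_empty]
  obtain ⟨-, θ, hθ⟩ := mem_filter.1 h
  exact (om_zero (f i) hp).1 h2 θ hθ

open scoped Classical in
theorem comp (f : K → ℤ[X]) (hr : 2 ≤ Fintype.card K)
    (hf1 : ∀ k, Irreducible ((f k).map (Int.castRingHom ℚ)))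
    (hf2 : ∀ k, Even (f k).natDegree)
    (hf3 : ∀ k l, k ≠ l →
      ¬ Associated ((f k).map (Int.castRingHom ℚ)) ((f l).map (Int.castRingHom ℚ)))
    (hf4 : ∀ k l, ∃ a : ℤ, f k - f l = C a)
    (hσ : ∀ i, ∃ σ, SQ f σ ≠ ∅ ∧ i ∉ SQ f σ) : AA f := by
  haveI : Nonempty K := Fintype.card_pos_iff.1 (by omega)
  have hf0 : ∀ k, f k ≠ 0 := by
    intro k h
    have := (hf1 k).ne_zero
    rw [h, Polynomial.map_zero] at this
    exact this rfl
  choose a ha using hf4
  have hcard : ∀ i p, (Th f i p).card ≤ 1 := by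
    intro i p
    rw [card_le_one]
    have key : ∀ N ∈ Th f i p, N = ngs (fun k => a k i) i p := by
      intro N hN
      obtain ⟨θ, hθ, rfl⟩ := Th_mem hN
      ext k
      rw [mem_ngs, mem_ngs]
      have h1 : (f k).eval θ = (f i).eval θ + a k i := by
        have h2 := congrArg (fun q => q.eval θ) (ha k i)
        simp only [eval_sub, eval_C] at h2
        linarith
      have h2 : jacobiSym ((f k).eval θ) p = jacobiSym (a k i) p := by
        rw [h1, jacobiSym.mod_left, jacobiSym.mod_left (a k i)]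
        congr 1
        obtain ⟨m, hm⟩ := hθ
        rw [hm, add_comm, Int.add_mul_emod_self_left]
      rw [h2]
    intro N hN N' hN'
    rw [key N hN, key N' hN']
  have hWle : ∀ I p, WI f I p ≤ ((I ∩ SR f p).card : ℝ) / 2 ^ (I.card - 1) := by
    intro I p
    unfold WI
    refine div_le_div_of_nonneg_right ?_ (by positivity)
    have h1 : ((I ∩ SR f p).card : ℝ) = ∑ i ∈ I, if i ∈ SR f p then (1 : ℝ) else 0 := by
      rw [← sum_filter, sum_const, nsmul_eq_mul, mul_one, filter_mem_eq_inter]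
    rw [h1]
    refine sum_le_sum fun i _ => ?_
    split_ifs with h2
    · exact_mod_cast (MX_le_card _ _).trans (hcard i p)
    · rw [Th_empty h2, MX_empty, Nat.cast_zero]
  have hWpos : ∀ I p, p.Prime → (I ∩ SR f p).Nonempty → 0 < WI f I p := by
    intro I p hp ⟨i, hi⟩
    rw [mem_inter] at hi
    unfold WI
    refine div_pos ?_ (by positivity)
    have h1 : (1 : ℝ) ≤ MX I (Th f i p) := by exact_mod_cast MX_pos I (Th_nonempty hp hi.2)
    have h2 : (MX I (Th f i p) : ℝ) ≤ ∑ i ∈ I, (MX I (Th f i p) : ℝ) :=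
      single_le_sum (f := fun i => (MX I (Th f i p) : ℝ)) (fun _ _ => Nat.cast_nonneg _) hi.1
    linarith
  refine criterion f hf1 hf2 hf3 fun I hI => ?_
  obtain ⟨i, hi⟩ := hI
  obtain ⟨σ, h1, h2⟩ := hσ i
  by_cases h3 : I ∩ SQ f σ = ∅
  · exact Or.inl ⟨σ, h1, h3⟩
  right
  left
  set T0 := SQ f σ with hT0
  obtain ⟨j, hj⟩ := nonempty_iff_ne_empty.2 h3
  rw [mem_inter] at hj
  have hIc : 2 ≤ I.card := by
    have : 1 < I.card := one_lt_card.2 ⟨i, hi, j, hj.1, fun h => h2 (h ▸ hj.2)⟩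
    omega
  obtain ⟨m, hm⟩ : ∃ m, I.card = m + 2 := ⟨I.card - 2, by omega⟩
  obtain ⟨ν, h0, hs, hlim, hpos⟩ := sets_mean f hf0
  set L : ℝ := Real.log (((m + 1 : ℕ) : ℝ) / 2 ^ (m + 1)) with hL
  have hLneg : L < 0 := by
    refine Real.log_neg (by positivity) ?_
    rw [div_lt_one (by positivity)]
    exact_mod_cast Nat.lt_two_pow_self
  have hlim' := hlim (fun T => if T = T0 then L else 0)
  have e1 : ∑ T, (if T = T0 then L else 0) * ν T = L * ν T0 := by
    rw [sum_eq_single T0]
    · rw [if_pos rfl]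
    · intro T _ hT
      rw [if_neg hT, zero_mul]
    · intro h
      exact absurd (mem_univ _) h
  rw [e1] at hlim'
  have hneg : L * ν T0 < 0 := mul_neg_of_neg_of_pos hLneg (hpos σ)
  refine ⟨-(L * ν T0) / 2, by linarith, ?_⟩
  filter_upwards [hlim'.eventually (gt_mem_nhds (show L * ν T0 < L * ν T0 / 2 by linarith))] with N hN
  refine le_trans (M_mono (fun p hp => ?_) N) (hN.le.trans (by linarith))
  split_ifs with h4
  · have h5 : 0 < WI f I p := hWpos I p hp ⟨j, mem_inter.2 ⟨hj.1, by rw [h4]; exact hj.2⟩⟩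
    refine Real.log_le_log h5 ((hWle I p).trans ?_)
    rw [h4, hm, show m + 2 - 1 = m + 1 from rfl]
    refine div_le_div_of_nonneg_right ?_ (by positivity)
    have h6 : (I ∩ T0).card < I.card := by
      refine card_lt_card ⟨inter_subset_left, fun h => h2 ?_⟩
      exact (mem_inter.1 (h hi)).2
    have h7 : (I ∩ T0).card ≤ m + 1 := by omega
    exact_mod_cast h7
  · rcases eq_or_lt_of_le (WI_nonneg f I p) with h5 | h5
    · rw [← h5, Real.log_zero]
    · refine Real.log_nonpos h5.le ((hWle I p).trans ?_)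
      rw [div_le_one (by positivity), hm, show m + 2 - 1 = m + 1 from rfl]
      have h6 : (I ∩ SR f p).card ≤ m + 2 := by
        rw [← hm]
        exact card_le_card inter_subset_left
      have h7 : m + 2 ≤ 2 ^ (m + 1) := by
        have : m + 1 < 2 ^ (m + 1) := Nat.lt_two_pow_self
        omega
      have h8 : ((I ∩ SR f p).card : ℝ) ≤ ((m + 2 : ℕ) : ℝ) := by exact_mod_cast h6
      have h9 : ((m + 2 : ℕ) : ℝ) ≤ 2 ^ (m + 1) := by exact_mod_cast h7
      linarith

end K

end Pool.Agent.W5h36.EL
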