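import Pool.Agent.W5h36.EL.Perm

/-! Almost all twists with points everywhere locally have no locally soluble covering. -/

set_option autoImplicit false

namespace Pool.Agent.W5h36.EL

open Polynomial Filter Topology Finset
open Pool.Agent.W401.Cheb Pool.Agent.W262.TW Pool.Agent.W262.RK

section K

variable {K : Type} [Fintype K] [DecidableEq K]

/-- almost all twists with points everywhere locally have no locally soluble covering -/
def AA (f : K → ℤ[X]) : Prop :=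
  ∃ η : ℝ, 0 < η ∧ ∃ C : ℝ, ∀ᶠ X : ℕ in atTop,
    ({d : ℤ | d.natAbs ≤ X ∧ Squarefree d ∧ ELS f d ∧ Sel f d}.ncard : ℝ) ≤
      C * (Real.log X) ^ (-η) * ({d : ℤ | d.natAbs ≤ X ∧ Squarefree d ∧ ELS f d}.ncard : ℝ) ∧
    (X : ℝ) / Real.log X ≤ ({d : ℤ | d.natAbs ≤ X ∧ Squarefree d ∧ ELS f d}.ncard : ℝ)

lemma fin_le (X : ℕ) (P : ℤ → Prop) : {d : ℤ | d.natAbs ≤ X ∧ P d}.Finite := by
  apply (Set.finite_Icc (-(X : ℤ)) X).subset
  intro d hd
  have h1 : d.natAbs ≤ X := hd.1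
  rw [Set.mem_Icc]
  omega

open scoped Classical in
theorem concl [Nonempty K] (f : K → ℤ[X])
    (hf1 : ∀ k, Irreducible ((f k).map (Int.castRingHom ℚ)))
    (hf2 : ∀ k, Even (f k).natDegree)
    (hf3 : ∀ k l, k ≠ l →
      ¬ Associated ((f k).map (Int.castRingHom ℚ)) ((f l).map (Int.castRingHom ℚ)))
    (β0 : ℝ) (hβ0 : 0 < β0)
    (hβ : Tendsto (M fun p => if p ∈ RP f then (1 : ℝ) else 0) atTop (𝓝 β0))
    (hW : ∀ I : Finset K, I.Nonempty → ∃ s : ℝ, 0 < s ∧ s ≤ 1 ∧ ∃ α < β0, ∃ C : ℝ, ∀ x : ℕ, 3 ≤ x →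
      ∑ p ∈ PS 0 x, (WI f I p) ^ s / p ≤ α * Real.log (Real.log x) + C) : AA f := by
  -- constants
  have hW2 : ∀ I : Finset K, ∃ s : ℝ, (0 < s ∧ s ≤ 1) ∧ ∃ α < β0, ∃ C : ℝ, I.Nonempty → ∀ x : ℕ,
      3 ≤ x → ∑ p ∈ PS 0 x, (WI f I p) ^ s / p ≤ α * Real.log (Real.log x) + C := by
    intro I
    by_cases hI : I.Nonempty
    · obtain ⟨s, h1, h2, α, h3, C, h4⟩ := hW I hI
      exact ⟨s, ⟨h1, h2⟩, α, h3, C, fun _ => h4⟩
    · exact ⟨1, ⟨one_pos, le_rfl⟩, 0, hβ0, 0, fun h => absurd h hI⟩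
  choose s hs α hα C hC using hW2
  obtain ⟨I0, hI0⟩ := Finite.exists_max α
  set α1 : ℝ := max (α I0) 0 with hα1
  have hα1β : α1 < β0 := max_lt (hα I0) hβ0
  have hα10 : 0 ≤ α1 := le_max_right _ _
  set β : ℝ := (α1 + β0) / 2 with hβd
  have hβpos : 0 < β := by linarith
  have hβ1 : β < β0 := by linarith
  have hβ01 : β0 ≤ 1 := by
    refine le_of_tendsto_of_tendsto hβ M_one ?_
    refine Eventually.of_forall fun N => M_mono (fun p _ => ?_) N
    split_ifs <;> norm_num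
  set ε : ℝ := (β - α1) / 2 with hε
  have hεpos : 0 < ε := by linarith
  have hup := upper f hf1 hf2 hf3 α1 hα10 s hs (fun I hI => by
    refine ⟨C I, fun x hx => (hC I hI x hx).trans ?_⟩
    have h1 : α I ≤ α1 := (hI0 I).trans (le_max_left _ _)
    have h2 : 0 ≤ Real.log (Real.log x) := (Real.log_pos (one_lt_log hx)).le
    have := mul_le_mul_of_nonneg_right h1 h2
    linarith) ε hεpos
  obtain ⟨C1, hC1⟩ := hup
  obtain ⟨C2, hC2⟩ := dens_low (RP f) (fun p hp => hp.1) β hβpos.le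
    ((hβ.eventually (lt_mem_nhds hβ1)).mono fun N hN => hN.le)
  obtain ⟨c, hc, hlow⟩ := els_lower f hf1 hf3 β C2 hβpos (by linarith) hC2
  refine ⟨ε, hεpos, |C1| / c, ?_⟩
  have hlogβ : ∀ᶠ X : ℕ in atTop, 1 / c ≤ (Real.log X) ^ β :=
    ((tendsto_rpow_atTop hβpos).comp (Real.tendsto_log_atTop.comp
      tendsto_natCast_atTop_atTop)).eventually_ge_atTop (1 / c)
  filter_upwards [hlow, hlogβ, eventually_ge_atTop 3] with X h1 h2 hX
  have hL1 := one_lt_log hX
  have hL0 : 0 < Real.log X := by linarith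
  have hX0 : (0 : ℝ) < X := by exact_mod_cast (by omega : 0 < X)
  set N := ({d : ℤ | d.natAbs ≤ X ∧ Squarefree d ∧ ELS f d}.ncard : ℝ) with hN
  constructor
  · have h3 : ({d : ℤ | d.natAbs ≤ X ∧ Squarefree d ∧ ELS f d ∧ Sel f d}.ncard : ℝ) ≤
        ({d : ℤ | d.natAbs ≤ X ∧ Squarefree d ∧ Sel f d}.ncard : ℝ) := by
      refine Nat.cast_le.2 (Set.ncard_le_ncard ?_ (fin_le X _))
      rintro d ⟨h4, h5, -, h6⟩
      exact ⟨h4, h5, h6⟩
    refine h3.trans ((hC1 X hX).trans ?_)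
    have e1 : (Real.log X) ^ (α1 - 1 + ε) = (Real.log X) ^ (-ε) * (Real.log X) ^ (β - 1) := by
      rw [← Real.rpow_add hL0]
      congr 1
      rw [hε]
      ring
    have h4 : 0 ≤ (Real.log X) ^ (-ε) := Real.rpow_nonneg hL0.le _
    have h5 : 0 ≤ (Real.log X) ^ (β - 1) := Real.rpow_nonneg hL0.le _
    calc C1 * X * (Real.log X) ^ (α1 - 1 + ε) = C1 * (X * ((Real.log X) ^ (-ε) * (Real.log X) ^ (β - 1))) := by
          rw [e1]; ring
      _ ≤ |C1| * (X * ((Real.log X) ^ (-ε) * (Real.log X) ^ (β - 1))) :=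
          mul_le_mul_of_nonneg_right (le_abs_self _) (by positivity)
      _ = |C1| / c * (Real.log X) ^ (-ε) * (c * X * (Real.log X) ^ (β - 1)) := by
          field_simp
      _ ≤ |C1| / c * (Real.log X) ^ (-ε) * N := mul_le_mul_of_nonneg_left h1 (by positivity)
  · refine le_trans ?_ h1
    have e1 : (Real.log X) ^ (β - 1) = (Real.log X) ^ β / Real.log X := by
      rw [Real.rpow_sub hL0, Real.rpow_one]
    rw [e1]
    have h3 : 1 ≤ c * (Real.log X) ^ β := by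
      rw [div_le_iff₀ hc] at h2
      linarith
    calc (X : ℝ) / Real.log X = X * 1 / Real.log X := by rw [mul_one]
      _ ≤ X * (c * (Real.log X) ^ β) / Real.log X :=
          div_le_div_of_nonneg_right (mul_le_mul_of_nonneg_left h3 hX0.le) hL0.le
      _ = _ := by ring

open scoped Classical in
/-- the density of the primes modulo which there is a zero -/
lemma dens_RP (f : K → ℤ[X]) (ν : Finset K → ℝ) (h1 : ∑ T, ν T = 1)
    (h2 : ∀ F : Finset K → ℝ, Tendsto (M fun p => F (SR f p)) atTop (𝓝 (∑ T, F T * ν T))) :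
    Tendsto (M fun p => if p ∈ RP f then (1 : ℝ) else 0) atTop (𝓝 (1 - ν ∅)) := by
  have h3 := h2 (fun T => if T.Nonempty then 1 else 0)
  have e1 : ∑ T, (if T.Nonempty then (1 : ℝ) else 0) * ν T = 1 - ν ∅ := by
    have e2 := Finset.sum_erase_eq_sub (f := ν) (mem_univ (∅ : Finset K))
    rw [h1] at e2
    rw [← e2, ← Finset.add_sum_erase univ _ (mem_univ (∅ : Finset K))]
    rw [if_neg (by simp), zero_mul, zero_add]
    refine sum_congr rfl fun T hT => ?_
    rw [if_pos (nonempty_iff_ne_empty.2 (ne_of_mem_erase hT)), one_mul]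
  rw [e1] at h3
  refine M_congr (D := 1) one_pos (fun p hp _ => ?_) h3
  by_cases h : p ∈ RP f
  · rw [if_pos h, if_pos ((mem_RP f hp).1 h)]
  · rw [if_neg h, if_neg (fun h4 => h ((mem_RP f hp).2 h4))]

/-- types not meeting `I` -/
lemma small_I (f : K → ℤ[X]) (ν : Finset K → ℝ) (h0 : ∀ T, 0 ≤ ν T) (h1 : ∑ T, ν T = 1)
    (h2 : ∀ F : Finset K → ℝ, Tendsto (M fun p => F (SR f p)) atTop (𝓝 (∑ T, F T * ν T)))
    (I T0 : Finset K) (hT0 : T0 ≠ ∅) (hIT : I ∩ T0 = ∅) (hν : 0 < ν T0) :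
    ∃ s : ℝ, 0 < s ∧ s ≤ 1 ∧ ∃ α < 1 - ν ∅, ∃ C : ℝ, ∀ x : ℕ, 3 ≤ x →
      ∑ p ∈ PS 0 x, (WI f I p) ^ s / p ≤ α * Real.log (Real.log x) + C := by
  classical
  set H : ℝ := max (Fintype.card K * 2 ^ Fintype.card K) 1 with hH
  have hH1 : 1 ≤ H := le_max_right _ _
  have hH0 : 0 < H := by linarith
  set γ : ℝ := 1 - ν ∅ with hγ
  have hsplit : ∑ T, (if (I ∩ T).Nonempty then (1 : ℝ) else 0) * ν T ≤ γ - ν T0 := by
    have e1 : ∑ T, (if (I ∩ T).Nonempty then (1 : ℝ) else 0) * ν T ≤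
        ∑ T ∈ (univ.erase (∅ : Finset K)).erase T0, ν T := by
      have e2 : ∑ T ∈ (univ.erase (∅ : Finset K)).erase T0, ν T =
          ∑ T, if T ∈ (univ.erase (∅ : Finset K)).erase T0 then ν T else 0 := by
        rw [← sum_filter]
        congr 1
        ext T
        simp
      rw [e2]
      refine sum_le_sum fun T _ => ?_
      by_cases h3 : (I ∩ T).Nonempty
      · rw [if_pos h3, one_mul, if_pos]
        refine mem_erase.2 ⟨?_, mem_erase.2 ⟨?_, mem_univ _⟩⟩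
        · rintro rfl
          rw [hIT] at h3
          exact not_nonempty_empty h3
        · rintro rfl
          rw [inter_empty] at h3
          exact not_nonempty_empty h3
      · rw [if_neg h3, zero_mul]
        split_ifs
        · exact h0 T
        · exact le_rfl
    rw [Finset.sum_erase_eq_sub (mem_erase.2 ⟨hT0, mem_univ _⟩),
      Finset.sum_erase_eq_sub (mem_univ _), h1] at e1
    rw [hγ]
    exact e1
  have hγpos : 0 < γ - ν T0 / 2 := by
    have h3 : 0 ≤ ∑ T, (if (I ∩ T).Nonempty then (1 : ℝ) else 0) * ν T := by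
      refine sum_nonneg fun T _ => mul_nonneg ?_ (h0 T)
      split_ifs <;> norm_num
    linarith
  -- the exponent
  have hcont : Tendsto (fun s : ℝ => H ^ s * (γ - ν T0)) (𝓝[>] 0) (𝓝 (H ^ (0 : ℝ) * (γ - ν T0))) := by
    refine Tendsto.mul_const _ ?_
    exact ((Real.continuous_const_rpow hH0.ne').tendsto 0).mono_left nhdsWithin_le_nhds
  rw [Real.rpow_zero, one_mul] at hcont
  have hev : ∀ᶠ s in 𝓝[>] (0 : ℝ), H ^ s * (γ - ν T0) < γ - ν T0 / 2 :=
    hcont.eventually (gt_mem_nhds (by linarith))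
  have hev2 : ∀ᶠ s in 𝓝[>] (0 : ℝ), 0 < s ∧ s ≤ 1 := by
    have h3 : Set.Ioc (0 : ℝ) 1 ∈ 𝓝[>] (0 : ℝ) := Ioc_mem_nhdsGT one_pos
    exact h3
  obtain ⟨s, hs1, hs2, hs3⟩ := (hev.and hev2).exists
  refine ⟨s, hs2, hs3, γ - ν T0 / 2, by linarith, ?_⟩
  set a : ℕ → ℝ := fun p => if (I ∩ SR f p).Nonempty then H ^ s else 0 with ha
  have hMa : Tendsto (M a) atTop (𝓝 (H ^ s * ∑ T, (if (I ∩ T).Nonempty then (1 : ℝ) else 0) * ν T)) := by
    have h3 := h2 (fun T => if (I ∩ T).Nonempty then H ^ s else 0)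
    have e1 : ∑ T, (if (I ∩ T).Nonempty then H ^ s else 0) * ν T =
        H ^ s * ∑ T, (if (I ∩ T).Nonempty then (1 : ℝ) else 0) * ν T := by
      rw [mul_sum]
      refine sum_congr rfl fun T _ => ?_
      split_ifs <;> ring
    rw [e1] at h3
    exact h3
  have hlt : H ^ s * ∑ T, (if (I ∩ T).Nonempty then (1 : ℝ) else 0) * ν T < γ - ν T0 / 2 :=
    lt_of_le_of_lt (mul_le_mul_of_nonneg_left hsplit (by positivity)) hs1
  obtain ⟨C, hC⟩ := dens_up a (H ^ s) (γ - ν T0 / 2) (fun p => by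
    simp only [ha]; split_ifs <;> positivity) (fun p => by
    simp only [ha]; split_ifs <;> first | exact le_rfl | positivity)
    ((hMa.eventually (gt_mem_nhds hlt)).mono fun N hN => hN.le)
  refine ⟨C, fun x hx => (sum_le_sum fun p _ => ?_).trans (hC x hx)⟩
  refine div_le_div_of_nonneg_right ?_ (Nat.cast_nonneg p)
  simp only [ha]
  split_ifs with h3
  · exact Real.rpow_le_rpow (WI_nonneg f I p) ((WI_le f I p).trans (le_max_left _ _)) hs2.le
  · rw [WI_eq_zero (not_nonempty_iff_eq_empty.1 h3), Real.zero_rpow hs2.ne']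

end K

end Pool.Agent.W5h36.EL
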