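import Pool.Agent.W5h36.EL.Big

/-! Numbers of zeros and derangements. -/

set_option autoImplicit false

namespace Pool.Agent.W5h36.EL

open Polynomial Filter Topology Finset
open Pool.Agent.W401.Cheb Pool.Agent.W262.TW Pool.Agent.W262.RK

lemma nroots (h : ℤ[X]) (hi : Irreducible (h.map (Int.castRingHom ℚ))) :
    Nat.card {θ : AlgebraicClosure ℚ // aeval θ h = 0} = h.natDegree := by
  classical
  have hZQ : algebraMap ℤ (AlgebraicClosure ℚ) = Int.castRingHom (AlgebraicClosure ℚ) :=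
    RingHom.ext_int _ _
  have hZQ1 : algebraMap ℤ ℚ = Int.castRingHom ℚ := RingHom.ext_int _ _
  have h1 := card_rootSet_eq_natDegree (K := AlgebraicClosure ℚ) hi.separable
    (IsAlgClosed.splits _)
  rw [natDegree_map_eq_of_injective (Int.castRingHom ℚ).injective_int] at h1
  rw [← h1, ← Nat.card_eq_fintype_card]
  refine Nat.card_congr (Equiv.subtypeEquivRight fun θ => ?_)
  rw [Polynomial.mem_rootSet, ← hZQ1, aeval_map_algebraMap, hZQ1]
  exact ⟨fun h => ⟨hi.ne_zero, h⟩, fun h => h.2⟩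

lemma om_le (h : ℤ[X]) (p : ℕ) : om h p ≤ p := by
  unfold om
  exact (card_filter_le _ _).trans (card_range p).le

/-- Mertens' theorem for the numbers of zeros -/
lemma om_sum (h : ℤ[X]) (hi : Irreducible (h.map (Int.castRingHom ℚ))) :
    ∃ C : ℝ, ∀ x : ℕ, 3 ≤ x → ∑ p ∈ PS 0 x, (om h p : ℝ) / p ≤ Real.log (Real.log x) + C := by
  have hh0 : h ≠ 0 := by
    rintro rfl
    rw [Polynomial.map_zero] at hi
    exact hi.ne_zero rfl
  have hc0 : h.content ≠ 0 := fun h1 => hh0 (content_eq_zero_iff.1 h1)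
  have hdec : h = C h.content * h.primPart := eq_C_content_mul_primPart h
  have hmap : h.map (Int.castRingHom ℚ) =
      C ((h.content : ℤ) : ℚ) * h.primPart.map (Int.castRingHom ℚ) := by
    conv_lhs => rw [hdec]
    rw [Polynomial.map_mul, Polynomial.map_C]
    rfl
  have hunit : IsUnit (C ((h.content : ℤ) : ℚ)) := by
    rw [Polynomial.isUnit_C]
    exact isUnit_iff_ne_zero.2 (by exact_mod_cast hc0)
  have hprim : Irreducible h.primPart := by
    rw [IsPrimitive.Int.irreducible_iff_irreducible_map_cast (isPrimitive_primPart h)]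
    rw [hmap] at hi
    exact (irreducible_isUnit_mul hunit).1 hi
  have hdeg : 0 < h.primPart.natDegree := by
    rw [natDegree_primPart]
    have := hi.natDegree_pos
    rwa [natDegree_map_eq_of_injective (Int.castRingHom ℚ).injective_int] at this
  obtain ⟨C0, -, hC⟩ := Pool.Agent.H474R2.GE.mertens_rho h.primPart hprim hdeg
  refine ⟨C0 + (h.content.natAbs.primeFactors.card : ℝ), fun x hx => ?_⟩
  have hx3 : (3 : ℝ) ≤ (x : ℝ) := by exact_mod_cast hx
  have h2 := (abs_le.1 (hC x hx3)).2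
  have h3 : Pool.Agent.H474R2.PG.Sg (Pool.Agent.H474R2.PG.rho h.primPart) x =
      ∑ p ∈ PS 0 x, (om h.primPart p : ℝ) / p := by
    unfold Pool.Agent.H474R2.PG.Sg Pool.Agent.H474R2.PG.PR PS
    rw [Nat.floor_natCast]
    rfl
  rw [h3] at h2
  have h4 : ∀ p ∈ PS 0 x, (om h p : ℝ) / p ≤ (om h.primPart p : ℝ) / p +
      if p ∈ h.content.natAbs.primeFactors then 1 else 0 := by
    intro p hp
    have hpp : p.Prime := (mem_filter.1 hp).2
    have hp0 : (0 : ℝ) < p := by exact_mod_cast hpp.pos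
    by_cases h5 : (p : ℤ) ∣ h.content
    · have h6 : p ∈ h.content.natAbs.primeFactors := by
        rw [Nat.mem_primeFactors]
        exact ⟨hpp, Int.natCast_dvd.1 h5, Int.natAbs_ne_zero.2 hc0⟩
      rw [if_pos h6]
      have h7 : (om h p : ℝ) ≤ p := by exact_mod_cast om_le h p
      have h8 : (om h p : ℝ) / p ≤ 1 := (div_le_one hp0).2 h7
      have h9 : 0 ≤ (om h.primPart p : ℝ) / p := by positivity
      linarith
    · have h6 : om h p = om h.primPart p := by
        unfold om
        congr 1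
        refine filter_congr fun θ _ => ?_
        conv_lhs => rw [hdec]
        rw [eval_mul, eval_C]
        have hpi : Prime (p : ℤ) := Nat.prime_iff_prime_int.1 hpp
        constructor
        · intro h7
          exact (hpi.dvd_or_dvd h7).resolve_left h5
        · intro h7
          exact h7.mul_left _
      rw [h6]
      split_ifs <;> simp
  have h5 : ∑ p ∈ PS 0 x, (if p ∈ h.content.natAbs.primeFactors then (1 : ℝ) else 0) ≤
      (h.content.natAbs.primeFactors.card : ℝ) := by
    rw [← sum_filter, sum_const, nsmul_eq_mul, mul_one]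
    exact_mod_cast card_le_card (fun p hp => (mem_filter.1 hp).2)
  have h6 := sum_le_sum h4
  rw [sum_add_distrib] at h6
  linarith

/-- the proportion of derangements -/
noncomputable def dr (n : ℕ) : ℝ := (numDerangements n : ℝ) / n.factorial

lemma dr_succ (n : ℕ) : dr (n + 1) = dr n - (-1) ^ n / (n + 1).factorial := by
  have h1 : (numDerangements (n + 1) : ℝ) = (n + 1) * (numDerangements n : ℝ) - (-1) ^ n := by
    have := numDerangements_succ n
    exact_mod_cast this
  unfold dr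
  have h2 : ((n + 1).factorial : ℝ) = (n + 1) * n.factorial := by
    rw [Nat.factorial_succ]
    push_cast
    ring
  have h3 : (n.factorial : ℝ) ≠ 0 := by exact_mod_cast n.factorial_ne_zero
  have h4 : (n + 1 : ℝ) ≠ 0 := by positivity
  rw [h1, h2]
  field_simp

lemma dr_step_up (m : ℕ) : dr (2 * m + 1) ≤ dr (2 * m + 3) ∧ dr (2 * m + 1) ≤ dr (2 * m + 2) ∧
    dr (2 * m + 2) ≤ dr (2 * m) ∧ dr (2 * m + 1) ≤ dr (2 * m) := by
  have h1 := dr_succ (2 * m)
  have h2 := dr_succ (2 * m + 1)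
  have h3 := dr_succ (2 * m + 2)
  have e1 : (-1 : ℝ) ^ (2 * m) = 1 := by rw [pow_mul]; norm_num
  have e2 : (-1 : ℝ) ^ (2 * m + 1) = -1 := by rw [pow_succ, e1]; norm_num
  have e3 : (-1 : ℝ) ^ (2 * m + 2) = 1 := by rw [pow_succ, e2]; norm_num
  rw [e1] at h1
  rw [e2] at h2
  rw [e3] at h3
  have f2 : (0 : ℝ) < (2 * m + 1 + 1).factorial := by exact_mod_cast Nat.factorial_pos _
  have f1 : (0 : ℝ) < (2 * m + 1).factorial := by exact_mod_cast Nat.factorial_pos _
  have f12 : ((2 * m + 1).factorial : ℝ) ≤ (2 * m + 1 + 1).factorial := by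
    exact_mod_cast Nat.factorial_le (by omega)
  have f23 : ((2 * m + 1 + 1).factorial : ℝ) ≤ (2 * m + 2 + 1).factorial := by
    exact_mod_cast Nat.factorial_le (by omega)
  have g1 : (1 : ℝ) / (2 * m + 1 + 1).factorial ≤ 1 / (2 * m + 1).factorial :=
    one_div_le_one_div_of_le f1 f12
  have g2 : (1 : ℝ) / (2 * m + 2 + 1).factorial ≤ 1 / (2 * m + 1 + 1).factorial :=
    one_div_le_one_div_of_le f2 f23
  have g3 : (0 : ℝ) < 1 / (2 * m + 1 + 1).factorial := by positivity
  have g4 : (0 : ℝ) < 1 / (2 * m + 1).factorial := by positivity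
  have h2' : dr (2 * m + 2) = dr (2 * m + 1) + 1 / (2 * m + 1 + 1).factorial := by
    rw [show 2 * m + 2 = 2 * m + 1 + 1 from rfl, h2]
    ring
  have h3' : dr (2 * m + 3) = dr (2 * m + 2) - 1 / (2 * m + 2 + 1).factorial := h3
  refine ⟨?_, ?_, ?_, ?_⟩ <;> linarith

lemma dr_odd (m k : ℕ) (h : m ≤ k) : dr (2 * m + 1) ≤ dr (2 * k + 1) := by
  induction k, h using Nat.le_induction with
  | base => exact le_rfl
  | succ k _ ih => exact ih.trans (dr_step_up k).1

lemma dr_even (m k : ℕ) (h : m ≤ k) : dr (2 * k) ≤ dr (2 * m) := by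
  induction k, h using Nat.le_induction with
  | base => exact le_rfl
  | succ k _ ih => exact (dr_step_up k).2.2.1.trans ih

/-- lower bound -/
lemma dr_lower (m n : ℕ) (h : 2 * m ≤ n) (hm : 1 ≤ m) : dr (2 * m - 1) ≤ dr n ∧
    dr n ≤ dr (2 * m) := by
  obtain ⟨k, rfl | rfl⟩ : ∃ k, n = 2 * k ∨ n = 2 * k + 1 := ⟨n / 2, by omega⟩
  · have hk : m ≤ k := by omega
    refine ⟨?_, dr_even m k hk⟩
    obtain ⟨m', rfl⟩ : ∃ m', m = m' + 1 := ⟨m - 1, by omega⟩
    obtain ⟨k', rfl⟩ : ∃ k', k = k' + 1 := ⟨k - 1, by omega⟩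
    have h1 := dr_odd m' k' (by omega)
    have h2 := (dr_step_up k').2.1
    exact h1.trans h2
  · have hk : m ≤ k := by omega
    obtain ⟨m', rfl⟩ : ∃ m', m = m' + 1 := ⟨m - 1, by omega⟩
    have h1 := dr_odd m' k (by omega)
    exact ⟨h1, (dr_step_up k).2.2.2.trans (dr_even _ k hk)⟩

lemma dr_two : dr 2 = 1 / 2 := by
  unfold dr
  norm_num [numDerangements, Nat.factorial]

lemma dr_three : dr 3 = 1 / 3 := by
  unfold dr
  norm_num [numDerangements, Nat.factorial]

lemma dr_four : dr 4 = 3 / 8 := by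
  unfold dr
  norm_num [numDerangements, Nat.factorial]

lemma dr_five : dr 5 = 11 / 30 := by
  unfold dr
  norm_num [numDerangements, Nat.factorial]

/-- `n ≥ 2` -/
lemma dr_half {n : ℕ} (h : 2 ≤ n) : dr n ≤ 1 / 2 := by
  rw [← dr_two]
  exact (dr_lower 1 n h le_rfl).2

/-- `n ≥ 3` -/
lemma dr_third {n : ℕ} (h : 3 ≤ n) : 1 / 3 ≤ dr n := by
  rcases Nat.lt_or_ge n 4 with h1 | h1
  · obtain rfl : n = 3 := by omega
    rw [dr_three]
  · rw [← dr_three]
    exact (dr_lower 2 n h1 (by norm_num)).1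

/-- `n ≥ 4` -/
lemma dr_big {n : ℕ} (h : 4 ≤ n) : 11 / 30 ≤ dr n := by
  rcases Nat.lt_or_ge n 6 with h1 | h1
  · obtain rfl | rfl : n = 4 ∨ n = 5 := by omega
    · rw [dr_four]
      norm_num
    · rw [dr_five]
  · rw [← dr_five]
    exact (dr_lower 3 n h1 (by norm_num)).1

lemma numD_pos {n : ℕ} (h : 2 ≤ n) : 0 < numDerangements n := by
  have h1 : 0 < dr n := by
    rcases Nat.lt_or_ge n 3 with h1 | h1
    · obtain rfl : n = 2 := by omega
      rw [dr_two]
      norm_num
    · exact lt_of_lt_of_le (by norm_num) (dr_third h1)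
  unfold dr at h1
  by_contra h2
  have h3 : numDerangements n = 0 := by omega
  rw [h3, Nat.cast_zero, zero_div] at h1
  exact lt_irrefl _ h1

end Pool.Agent.W5h36.EL
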