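import Pool.Agent.R925.FD.Cheb2
import Pool.Agent.W5h36.EL.Den

/-! Zeros modulo `p` and Frobenius elements. -/

set_option autoImplicit false

namespace Pool.Agent.W5h36.EL

open Polynomial NumberField Filter Topology
open Pool.Agent.W401.Cheb Pool.Agent.W723.SecC Pool.Agent.R925.FD

/-- A Galois number field that contains a given finite set, and the restrictions of all
automorphisms. -/
lemma exL2_aux (Ω : Type) [Field Ω] [Algebra ℚ Ω] [IsGalois ℚ Ω] (s : Set Ω)
    (hs : s.Finite) :
    ∃ (L : Type) (_ : Field L) (_ : NumberField L) (_ : IsGalois ℚ L) (j : L →+* Ω),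
      (∀ x ∈ s, ∃ y, j y = x) ∧ ∀ σ : Ω ≃ₐ[ℚ] Ω, ∃ τ : L ≃ₐ[ℚ] L, ∀ x, j (τ x) = σ (j x) := by
  classical
  have : Finite s := hs
  let LL := FiniteGaloisIntermediateField.adjoin ℚ s
  have hsub : s ⊆ LL.toIntermediateField := FiniteGaloisIntermediateField.subset_adjoin ℚ s
  let L := LL.toIntermediateField
  have hcz : CharZero Ω := algebraRat.charZero Ω
  have hEq : (DivisionRing.toRatAlgebra : Algebra ℚ L) = L.algebra' := Subsingleton.elim _ _
  have hga : IsGalois ℚ L := by
    have h := LL.isGalois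
    rw [hEq]
    exact h
  have hn : NumberField L :=
    { to_charZero := inferInstance
      to_finiteDimensional := by
        have h := LL.finiteDimensional
        rw [hEq]
        exact h }
  have hnorm : @Normal ℚ L _ _ L.algebra' := by
    have h := LL.isGalois
    exact h.to_normal
  have hτex : ∀ σ : Ω ≃ₐ[ℚ] Ω, ∃ τ' : L ≃+* L, ∀ x : L, ((τ' x : L) : Ω) = σ x := by
    intro σ
    let _ : Algebra ℚ L := L.algebra'
    have : Normal ℚ L := hnorm
    exact ⟨(σ.restrictNormal L).toRingEquiv, fun x => σ.restrictNormal_commutes L x⟩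
  refine ⟨L, inferInstance, inferInstance, inferInstance, L.val, fun x hx => ?_, fun σ => ?_⟩
  · exact ⟨⟨x, hsub hx⟩, rfl⟩
  · obtain ⟨τ', hτ'⟩ := hτex σ
    exact ⟨AlgEquiv.ofRingEquiv (f := τ') (fun r => by rw [eq_ratCast, map_ratCast]),
      fun x => hτ' x⟩

lemma exL2 (s : Set (AlgebraicClosure ℚ)) (hs : s.Finite) :
    ∃ (L : Type) (_ : Field L) (_ : NumberField L) (_ : IsGalois ℚ L)
      (j : L →+* AlgebraicClosure ℚ),
      (∀ x ∈ s, ∃ y, j y = x) ∧
        ∀ σ : AlgebraicClosure ℚ ≃ₐ[ℚ] AlgebraicClosure ℚ, ∃ τ : L ≃ₐ[ℚ] L,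
          ∀ x, j (τ x) = σ (j x) :=
  @exL2_aux (AlgebraicClosure ℚ) _ (AlgebraicClosure.instAlgebra ℚ) inferInstance s hs

lemma exists_zmod {p : ℕ} [Fact p.Prime] {K : Type*} [Field K] [Algebra (ZMod p) K] {x : K}
    (hx : x ^ p = x) : ∃ a : ZMod p, algebraMap (ZMod p) K a = x := by
  classical
  have hp : 1 < p := (Fact.out : p.Prime).one_lt
  have hinj : Function.Injective (algebraMap (ZMod p) K) := (algebraMap (ZMod p) K).injective
  have hne : (X ^ p - X : K[X]) ≠ 0 := FiniteField.X_pow_card_sub_X_ne_zero K hp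
  have hsub : Finset.univ.image (algebraMap (ZMod p) K) ⊆ (X ^ p - X : K[X]).roots.toFinset := by
    intro y hy
    obtain ⟨a, -, rfl⟩ := Finset.mem_image.1 hy
    rw [Multiset.mem_toFinset, mem_roots hne, IsRoot.def, eval_sub, eval_pow, eval_X, ← map_pow,
      ZMod.pow_card, sub_self]
  have hcard : (X ^ p - X : K[X]).roots.toFinset.card ≤
      (Finset.univ.image (algebraMap (ZMod p) K)).card := by
    rw [Finset.card_image_of_injective _ hinj, Finset.card_univ, ZMod.card]
    refine (Multiset.toFinset_card_le _).trans ((card_roots' _).trans ?_)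
    rw [FiniteField.X_pow_card_sub_X_natDegree_eq K hp]
  have heq := Finset.eq_of_subset_of_card_le hsub hcard
  have hxr : x ∈ (X ^ p - X : K[X]).roots.toFinset := by
    rw [Multiset.mem_toFinset, mem_roots hne, IsRoot.def, eval_sub, eval_pow, eval_X, hx, sub_self]
  rw [← heq] at hxr
  obtain ⟨a, -, ha⟩ := Finset.mem_image.1 hxr
  exact ⟨a, ha⟩

/-- `h` has a zero modulo `p` if and only if the Frobenius element fixes a zero of `h` -/
theorem root_frob (L : Type) [Field L] [NumberField L] [IsGalois ℚ L]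
    (j : L →+* AlgebraicClosure ℚ) (h : ℤ[X]) (hh : h ≠ 0)
    (hs : ∀ θ : AlgebraicClosure ℚ, aeval θ h = 0 → ∃ y, j y = θ) :
    ∃ D : ℕ, 0 < D ∧ ∀ (p : ℕ) [Fact p.Prime], ¬ p ∣ D →
      ∀ (φ : 𝓞 L →+* AlgebraicClosure (ZMod p)) (g : Gal(L/ℚ)), HasFrob p φ g →
        ((∃ θ : ℤ, (p : ℤ) ∣ h.eval θ) ↔ ∃ θ : L, aeval θ h = 0 ∧ g θ = θ) := by
  classical
  have hZ : algebraMap ℤ L = Int.castRingHom L := RingHom.ext_int _ _
  have hZQ : algebraMap ℤ (AlgebraicClosure ℚ) = Int.castRingHom (AlgebraicClosure ℚ) :=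
    RingHom.ext_int _ _
  have hc0 : h.leadingCoeff ≠ 0 := leadingCoeff_ne_zero.2 hh
  set c : ℤ := h.leadingCoeff with hc
  have hcL : (c : L) ≠ 0 := Int.cast_ne_zero.2 hc0
  have hcQ : (c : AlgebraicClosure ℚ) ≠ 0 := Int.cast_ne_zero.2 hc0
  set Fh : (𝓞 L)[X] := (integralNormalization h).map (Int.castRingHom (𝓞 L)) with hFh
  have hFm : Fh.Monic := (monic_integralNormalization hh).map _
  rcases Nat.eq_zero_or_pos h.natDegree with hd0 | hd1
  · -- constants
    refine ⟨c.natAbs, Int.natAbs_pos.2 hc0, fun p _ hp φ g _ => ?_⟩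
    have hC : h = C c := by
      rw [hc, leadingCoeff, hd0]
      exact eq_C_of_natDegree_eq_zero hd0
    constructor
    · rintro ⟨θ, hθ⟩
      rw [hC, eval_C] at hθ
      exact absurd (Int.natCast_dvd.1 hθ) hp
    · rintro ⟨θ, hθ, -⟩
      rw [hC, aeval_C, hZ, eq_intCast] at hθ
      exact absurd hθ hcL
  · -- zeros of the normalisation
    have hFL : ∀ θ : L, eval₂ (algebraMap (𝓞 L) L) θ Fh = 0 → aeval (θ / c) h = 0 := by
      intro θ hθ
      rw [hFh, eval₂_map] at hθ
      have e1 : (algebraMap (𝓞 L) L).comp (Int.castRingHom (𝓞 L)) = Int.castRingHom L :=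
        RingHom.ext_int _ _
      rw [e1] at hθ
      have e2 := integralNormalization_eval₂_leadingCoeff_mul hd1 (Int.castRingHom L) (θ / c)
      rw [eq_intCast, ← hc, mul_div_cancel₀ _ hcL, hθ] at e2
      rw [aeval_def, hZ]
      exact (mul_eq_zero.1 e2.symm).resolve_left (pow_ne_zero _ hcL)
    have hFhs : (Fh.map (algebraMap (𝓞 L) L)).Splits := by
      have h6 : ((Fh.map (algebraMap (𝓞 L) L)).map j).Splits := IsAlgClosed.splits _
      refine Splits.of_splits_map j h6 ?_
      intro θ hθ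
      have h7 : ((Fh.map (algebraMap (𝓞 L) L)).map j).IsRoot θ := Polynomial.isRoot_of_mem_roots hθ
      rw [IsRoot.def, Polynomial.map_map, eval_map, hFh, eval₂_map] at h7
      have e1 : (j.comp (algebraMap (𝓞 L) L)).comp (Int.castRingHom (𝓞 L)) =
          Int.castRingHom (AlgebraicClosure ℚ) := RingHom.ext_int _ _
      rw [e1] at h7
      have e2 := integralNormalization_eval₂_leadingCoeff_mul hd1
        (Int.castRingHom (AlgebraicClosure ℚ)) (θ / c)
      rw [eq_intCast, ← hc, mul_div_cancel₀ _ hcQ, h7] at e2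
      obtain ⟨y, hy⟩ := hs (θ / c) (by
        rw [aeval_def, hZQ]
        exact (mul_eq_zero.1 e2.symm).resolve_left (pow_ne_zero _ hcQ))
      refine ⟨c * y, ?_⟩
      rw [map_mul, hy, map_intCast, mul_div_cancel₀ _ hcQ]
    -- the bad primes
    choose mx hmx hmx' using fun x : {x : 𝓞 L // x ≠ 0} => nz L _ x.2
    let f : 𝓞 L → ℕ := fun x => if hx : x ≠ 0 then mx ⟨x, hx⟩ else 1
    have hf : ∀ x, 0 < f x := by
      intro x
      simp only [f]
      split_ifs with h
      · exact hmx _
      · exact Nat.one_pos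
    set T : Finset (𝓞 L) := (Fh.roots.toFinset ×ˢ (Finset.univ : Finset Gal(L/ℚ))).image
      (fun x => x.2 • x.1 - x.1) with hT
    refine ⟨c.natAbs * ∏ x ∈ T, f x, Nat.mul_pos (Int.natAbs_pos.2 hc0)
      (Finset.prod_pos fun x _ => hf x), fun p hpF hp φ g hφ => ?_⟩
    have hcp : (c : ZMod p) ≠ 0 := by
      intro h1
      have h2 := Int.natCast_dvd.1 ((ZMod.intCast_zmod_eq_zero_iff_dvd _ p).1 h1)
      exact hp (h2.trans (Dvd.intro _ rfl))
    have hinj : ∀ x ∈ T, φ x = 0 → x = 0 := by
      intro x hx h0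
      by_contra hne
      have h2 : ((f x : ℕ) : AlgebraicClosure (ZMod p)) ≠ 0 := by
        intro h
        rw [CharP.cast_eq_zero_iff (AlgebraicClosure (ZMod p)) p] at h
        exact hp (h.trans ((Finset.dvd_prod_of_mem f hx).trans (Dvd.intro_left _ rfl)))
      have h3 : f x = mx ⟨x, hne⟩ := dif_pos hne
      rw [h3] at h2
      exact hmx' ⟨x, hne⟩ _ φ h2 h0
    set k' := AlgebraicClosure (ZMod p) with hk'
    let ι : ZMod p →+* k' := algebraMap (ZMod p) k'
    have hιinj : Function.Injective ι := ι.injective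
    have e1 : φ.comp (Int.castRingHom (𝓞 L)) = ι.comp (Int.castRingHom (ZMod p)) :=
      RingHom.ext_int _ _
    have hFt : ∀ t : ZMod p, eval₂ φ (ι t) Fh =
        ι (eval₂ (Int.castRingHom (ZMod p)) t (integralNormalization h)) := by
      intro t
      rw [hFh, eval₂_map, e1, ← Polynomial.hom_eval₂]
    constructor
    · rintro ⟨θ, hθ⟩
      have hθ' : eval₂ (Int.castRingHom (ZMod p)) (θ : ZMod p) h = 0 := by
        have h1 := eval₂_at_apply (p := h) (Int.castRingHom (ZMod p)) θ
        rw [eq_intCast, eq_intCast] at h1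
        rw [h1]
        exact (ZMod.intCast_zmod_eq_zero_iff_dvd _ p).2 hθ
      have hr0 : eval₂ φ (ι ((c : ZMod p) * θ)) Fh = 0 := by
        rw [hFt]
        have e2 := integralNormalization_eval₂_leadingCoeff_mul hd1 (Int.castRingHom (ZMod p))
          (θ : ZMod p)
        rw [eq_intCast, hθ', mul_zero] at e2
        rw [e2, map_zero]
      obtain ⟨y, hy, hφy⟩ := lift_root L Fh hFm hFhs φ _ hr0
      have hyT : g • y - y ∈ T := by
        rw [hT]
        refine Finset.mem_image.2 ⟨(y, g), Finset.mem_product.2 ⟨?_, Finset.mem_univ _⟩, rfl⟩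
        rw [Multiset.mem_toFinset, mem_roots hFm.ne_zero]
        exact hy
      have hgy : g • y = y := by
        rw [← sub_eq_zero]
        refine hinj _ hyT ?_
        rw [map_sub, hφ y, hφy, algMap_pow, sub_self]
      have hyL : eval₂ (algebraMap (𝓞 L) L) ((y : 𝓞 L) : L) Fh = 0 := by
        have h1 := congrArg (algebraMap (𝓞 L) L) hy
        rw [map_zero, ← eval₂_at_apply] at h1
        exact h1
      refine ⟨(y : L) / c, hFL _ hyL, ?_⟩
      have h2 : g (y : L) = (y : L) := congrArg (fun z : 𝓞 L => (z : L)) hgy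
      rw [map_div₀, h2, map_intCast]
    · rintro ⟨θ, hθ, hgθ⟩
      have hθ' : eval₂ (Int.castRingHom L) θ h = 0 := by
        rw [aeval_def, hZ] at hθ
        exact hθ
      have hint : eval₂ (Int.castRingHom L) (c * θ) (integralNormalization h) = 0 := by
        have e2 := integralNormalization_eval₂_leadingCoeff_mul hd1 (Int.castRingHom L) θ
        rw [eq_intCast, hθ', mul_zero] at e2
        exact e2
      have hI : IsIntegral ℤ ((c : L) * θ) :=
        ⟨integralNormalization h, monic_integralNormalization hh, by rw [hZ]; exact hint⟩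
      set x0 : 𝓞 L := ⟨(c : L) * θ, hI⟩ with hx0
      have hx0L : ((x0 : 𝓞 L) : L) = c * θ := rfl
      have hgx : g • x0 = x0 := by
        apply RingOfIntegers.coe_injective
        change g ((x0 : 𝓞 L) : L) = ((x0 : 𝓞 L) : L)
        rw [hx0L, map_mul, map_intCast, hgθ]
      have hpow : φ x0 ^ p = φ x0 := by rw [← hφ x0, hgx]
      obtain ⟨t, ht⟩ := exists_zmod hpow
      have hx0F : Fh.eval x0 = 0 := by
        apply RingOfIntegers.coe_injective
        rw [← eval₂_at_apply, hFh, eval₂_map]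
        have e3 : (algebraMap (𝓞 L) L).comp (Int.castRingHom (𝓞 L)) = Int.castRingHom L :=
          RingHom.ext_int _ _
        rw [e3, map_zero]
        exact hint
      have h1 := congrArg φ hx0F
      rw [map_zero, ← eval₂_at_apply, ← ht] at h1
      have h2 := hFt t
      have h3 : eval₂ φ (ι t) Fh = 0 := h1
      rw [h3] at h2
      have h4 : eval₂ (Int.castRingHom (ZMod p)) t (integralNormalization h) = 0 := by
        apply hιinj
        rw [← h2, map_zero]
      have e2 := integralNormalization_eval₂_leadingCoeff_mul hd1 (Int.castRingHom (ZMod p))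
        (t / c)
      rw [eq_intCast, ← hc, mul_div_cancel₀ _ hcp, h4] at e2
      have h5 := (mul_eq_zero.1 e2.symm).resolve_left (pow_ne_zero _ hcp)
      obtain ⟨θ', hθ''⟩ := ZMod.intCast_surjective (t / (c : ZMod p))
      refine ⟨θ', ?_⟩
      rw [← hθ''] at h5
      have h6 := eval₂_at_apply (p := h) (Int.castRingHom (ZMod p)) θ'
      rw [eq_intCast, eq_intCast, h5] at h6
      exact (ZMod.intCast_zmod_eq_zero_iff_dvd _ p).1 h6.symm

end Pool.Agent.W5h36.EL
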