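import Pool.Agent.W397.TW.Triv

/-! Upper bound for the sum of a multiplicative function over rough squarefree numbers. -/

set_option autoImplicit false

namespace Pool.Agent.W5h36.EL

open Finset Pool.Agent.W262.RK Pool.Agent.W262.TW

open Classical in
/-- the `z`-rough squarefree numbers up to `Y` -/
noncomputable def RF (z Y : ℕ) : Finset ℕ := (Icc 1 Y).filter (fun m => Rg z m)

lemma mem_RF {z Y n : ℕ} : n ∈ RF z Y ↔ 1 ≤ n ∧ n ≤ Y ∧ Rg z n := by
  classical
  unfold RF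
  rw [mem_filter, mem_Icc, and_assoc]

lemma mf_nn {h : ℕ → ℝ} (hh : ∀ p, 0 ≤ h p) (n : ℕ) : 0 ≤ mf h n :=
  prod_nonneg fun p _ => hh p

lemma RF_sum {h : ℕ → ℝ} (hh : ∀ p, 0 ≤ h p) (z Y : ℕ) :
    ∑ m ∈ RF z Y, mf h m / m ≤ Real.exp (∑ p ∈ PS z Y, h p / p) := by
  classical
  have h0 : ∀ p : ℕ, 0 ≤ h p / p := fun p => div_nonneg (hh p) (Nat.cast_nonneg p)
  calc ∑ m ∈ RF z Y, mf h m / m
      = ∑ m ∈ RF z Y, ∏ p ∈ m.primeFactors, (h p / p) := by
        refine sum_congr rfl fun m hm => ?_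
        rw [mem_RF] at hm
        rw [prod_div_distrib]
        unfold mf
        congr 1
        rw [← Nat.cast_prod, Nat.prod_primeFactors_of_squarefree hm.2.2.1]
    _ = ∑ t ∈ (RF z Y).image Nat.primeFactors, ∏ p ∈ t, (h p / p) := by
        rw [sum_image]
        intro m hm m' hm' hh
        rw [mem_coe, mem_RF] at hm hm'
        rw [← Nat.prod_primeFactors_of_squarefree hm.2.2.1, hh,
          Nat.prod_primeFactors_of_squarefree hm'.2.2.1]
    _ ≤ ∑ t ∈ (PS z Y).powerset, ∏ p ∈ t, (h p / p) := by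
        refine sum_le_sum_of_subset_of_nonneg ?_ (fun t _ _ => prod_nonneg fun p _ => h0 p)
        intro t ht
        obtain ⟨m, hm, rfl⟩ := mem_image.mp ht
        rw [mem_RF] at hm
        rw [mem_powerset]
        intro p hp
        have hp' := Nat.prime_of_mem_primeFactors hp
        have hpd := Nat.dvd_of_mem_primeFactors hp
        unfold PS
        rw [mem_filter, mem_Ioc]
        exact ⟨⟨hm.2.2.2 p hp' hpd, (Nat.le_of_dvd (by omega) hpd).trans hm.2.1⟩, hp'⟩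
    _ = ∏ p ∈ PS z Y, (1 + h p / p) := (Finset.prod_one_add _).symm
    _ ≤ Real.exp (∑ p ∈ PS z Y, h p / p) := by
        rw [Real.exp_sum]
        refine prod_le_prod (fun p _ => by linarith [h0 p]) (fun p _ => ?_)
        rw [add_comm]
        exact Real.add_one_le_exp _

lemma RF_log {h : ℕ → ℝ} (H : ℝ) (hh : ∀ p, 0 ≤ h p ∧ h p ≤ H) (z Y : ℕ) :
    ∑ n ∈ RF z Y, mf h n * Real.log n ≤ H * Real.log 4 * Y * ∑ m ∈ RF z Y, mf h m / m := by
  classical
  have hH : 0 ≤ H := (hh 0).1.trans (hh 0).2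
  have hmf := mf_nn (fun p => (hh p).1)
  have h1 : ∑ n ∈ RF z Y, mf h n * Real.log n =
      ∑ x ∈ (RF z Y).sigma (fun n => n.primeFactors), mf h x.1 * Real.log x.2 := by
    rw [sum_sigma]
    refine sum_congr rfl fun n hn => ?_
    rw [mem_RF] at hn
    rw [Pool.Agent.W397.TW.log_sqf hn.2.2.1, mul_sum]
  have h2 : ∑ x ∈ (RF z Y).sigma (fun n => n.primeFactors), mf h x.1 * Real.log x.2 ≤
      ∑ x ∈ (RF z Y).sigma (fun m => (Icc 1 (Y / m)).filter Nat.Prime),
        mf h x.1 * h x.2 * Real.log x.2 := by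
    have hx : ∀ x ∈ (RF z Y).sigma (fun n => n.primeFactors), x.2.Prime ∧ x.2 ∣ x.1 ∧
        Rg z x.1 ∧ 1 ≤ x.1 ∧ x.1 ≤ Y := by
      rintro ⟨n, p⟩ hx
      rw [mem_sigma] at hx
      simp only at hx ⊢
      obtain ⟨hn, hp⟩ := hx
      rw [mem_RF] at hn
      exact ⟨Nat.prime_of_mem_primeFactors hp, Nat.dvd_of_mem_primeFactors hp, hn.2.2, hn.1, hn.2.1⟩
    set φ : (Σ _ : ℕ, ℕ) → (Σ _ : ℕ, ℕ) := fun x => ⟨x.1 / x.2, x.2⟩ with hφ
    have hval : ∀ x ∈ (RF z Y).sigma (fun n => n.primeFactors),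
        mf h x.1 * Real.log x.2 = mf h (φ x).1 * h (φ x).2 * Real.log (φ x).2 := by
      rintro ⟨n, p⟩ hx'
      obtain ⟨hp, ⟨m, hm⟩, hr, hn1, hnY⟩ := hx _ hx'
      simp only at hp hm hr hn1 hnY
      simp only [hφ]
      subst hm
      rw [Nat.mul_div_cancel_left _ hp.pos]
      congr 1
      have hcop : p.Coprime m := by
        have := hr.1
        exact Nat.coprime_of_squarefree_mul this
      unfold mf
      rw [hcop.primeFactors_mul, prod_union hcop.disjoint_primeFactors, hp.primeFactors,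
        prod_singleton, mul_comm]
    rw [sum_congr rfl hval]
    have hinj : Set.InjOn φ ((RF z Y).sigma (fun n => n.primeFactors) : Set (Σ _ : ℕ, ℕ)) := by
      rintro ⟨n, p⟩ h1 ⟨n', p'⟩ h2 heq
      simp only [hφ, Sigma.mk.injEq, heq_eq_eq] at heq
      obtain ⟨e1, rfl⟩ := heq
      have d1 := (hx _ (mem_coe.1 h1)).2.1
      have d2 := (hx _ (mem_coe.1 h2)).2.1
      simp only at d1 d2
      have e2 : n = n' := by
        rw [← Nat.div_mul_cancel d1, e1, Nat.div_mul_cancel d2]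
      rw [e2]
    rw [← sum_image (f := fun x : (Σ _ : ℕ, ℕ) => mf h x.1 * h x.2 * Real.log x.2) hinj]
    refine sum_le_sum_of_subset_of_nonneg ?_ fun x _ _ =>
      mul_nonneg (mul_nonneg (hmf _) (hh _).1) (Real.log_natCast_nonneg _)
    intro y hy
    rw [mem_image] at hy
    obtain ⟨⟨n, p⟩, hx', rfl⟩ := hy
    obtain ⟨hp, ⟨m, hm⟩, hr, hn1, hnY⟩ := hx _ hx'
    simp only at hp hm hr hn1 hnY
    simp only [hφ]
    subst hm
    rw [Nat.mul_div_cancel_left _ hp.pos]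
    have hm0 : 0 < m := Nat.pos_of_ne_zero (by rintro rfl; simp at hn1)
    rw [mem_sigma]
    simp only
    rw [mem_RF, mem_filter, mem_Icc]
    refine ⟨⟨hm0, (Nat.le_mul_of_pos_left m hp.pos).trans hnY,
      Pool.Agent.W397.TW.Rg_dvd hr (Dvd.intro_left _ rfl)⟩, ⟨hp.one_le, ?_⟩, hp⟩
    exact (Nat.le_div_iff_mul_le hm0).2 hnY
  rw [h1]
  refine h2.trans ?_
  rw [sum_sigma, mul_sum]
  refine sum_le_sum fun m hm => ?_
  rw [mem_RF] at hm
  have hm0 : (0 : ℝ) < m := by exact_mod_cast hm.1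
  calc ∑ p ∈ (Icc 1 (Y / m)).filter Nat.Prime, mf h m * h p * Real.log p
      ≤ ∑ p ∈ (Icc 1 (Y / m)).filter Nat.Prime, mf h m * H * Real.log p := by
        refine sum_le_sum fun p _ => ?_
        refine mul_le_mul_of_nonneg_right ?_ (Real.log_natCast_nonneg _)
        exact mul_le_mul_of_nonneg_left (hh p).2 (hmf m)
    _ = mf h m * H * ∑ p ∈ (Icc 1 (Y / m)).filter Nat.Prime, Real.log p := by rw [mul_sum]
    _ ≤ mf h m * H * (Real.log 4 * ((Y / m : ℕ) : ℝ)) :=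
        mul_le_mul_of_nonneg_left (Pool.Agent.W397.TW.theta_bound _) (mul_nonneg (hmf m) hH)
    _ ≤ mf h m * H * (Real.log 4 * ((Y : ℝ) / m)) := by
        refine mul_le_mul_of_nonneg_left ?_ (mul_nonneg (hmf m) hH)
        exact mul_le_mul_of_nonneg_left Nat.cast_div_le (Real.log_nonneg (by norm_num))
    _ = _ := by ring

/-- the mean value -/
theorem ht (H : ℝ) (hH : 0 ≤ H) : ∃ C : ℝ, 0 ≤ C ∧ ∀ (z Y : ℕ) (h : ℕ → ℝ), 3 ≤ Y →
    (∀ p, 0 ≤ h p ∧ h p ≤ H) →
    ∑ n ∈ RF z Y, mf h n ≤ C * (Y / Real.log Y) * Real.exp (∑ p ∈ PS z Y, h p / p) := by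
  have hl4 : 0 ≤ Real.log 4 := Real.log_nonneg (by norm_num)
  refine ⟨1 + H * Real.log 4, by positivity, fun z Y h hY hh => ?_⟩
  have hY0 : (0 : ℝ) < Y := by exact_mod_cast (by omega : 0 < Y)
  have hl : 0 < Real.log Y := Real.log_pos (by exact_mod_cast (by omega : 1 < Y))
  have hmf := mf_nn (fun p => (hh p).1)
  have h1 := RF_log H hh z Y
  have h2 := RF_sum (fun p => (hh p).1) z Y
  have h3 : Real.log Y * ∑ n ∈ RF z Y, mf h n ≤ Y * ∑ m ∈ RF z Y, mf h m / m +
      ∑ n ∈ RF z Y, mf h n * Real.log n := by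
    rw [mul_sum, mul_sum, ← sum_add_distrib]
    refine sum_le_sum fun n hn => ?_
    rw [mem_RF] at hn
    have hn0 : (0 : ℝ) < n := by exact_mod_cast hn.1
    have e1 : Real.log Y = Real.log (Y / n) + Real.log n := by
      rw [Real.log_div hY0.ne' hn0.ne']; ring
    have e2 : Real.log (Y / n) ≤ Y / n := Real.log_le_self (by positivity)
    rw [e1]
    have e3 := mul_le_mul_of_nonneg_right e2 (hmf n)
    calc (Real.log (Y / n) + Real.log n) * mf h n = Real.log (Y / n) * mf h n + mf h n * Real.log n := by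
          ring
      _ ≤ Y / n * mf h n + mf h n * Real.log n := by linarith
      _ = _ := by ring
  have h4 : Real.log Y * ∑ n ∈ RF z Y, mf h n ≤ (1 + H * Real.log 4) * Y *
      Real.exp (∑ p ∈ PS z Y, h p / p) := by
    calc Real.log Y * ∑ n ∈ RF z Y, mf h n ≤ Y * ∑ m ∈ RF z Y, mf h m / m +
          H * Real.log 4 * Y * ∑ m ∈ RF z Y, mf h m / m := by linarith
      _ = ((1 + H * Real.log 4) * Y) * ∑ m ∈ RF z Y, mf h m / m := by ring
      _ ≤ _ := mul_le_mul_of_nonneg_left h2 (by positivity)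
  calc ∑ n ∈ RF z Y, mf h n = (Real.log Y * ∑ n ∈ RF z Y, mf h n) / Real.log Y := by field_simp
    _ ≤ ((1 + H * Real.log 4) * Y * Real.exp (∑ p ∈ PS z Y, h p / p)) / Real.log Y :=
      div_le_div_of_nonneg_right h4 hl.le
    _ = _ := by ring

end Pool.Agent.W5h36.EL
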