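import Pool.Agent.W5h36.EL.Wexp
import Pool.Agent.W5h36.EL.HT

/-! The number of the products of the tuples with prescribed signs: fractional moments. -/

set_option autoImplicit false

namespace Pool.Agent.W5h36.EL

open Finset Pool.Agent.W262.RK Pool.Agent.W262.TW

lemma mf_mul_coprime (h : ℕ → ℝ) {m n : ℕ} (hc : m.Coprime n) : mf h (m * n) = mf h m * mf h n := by
  unfold mf
  rw [hc.primeFactors_mul, prod_union hc.disjoint_primeFactors]

lemma mf_prod {K : Type} [DecidableEq K] (h : ℕ → ℝ) (D : K → ℕ)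
    (hc : ∀ i j, i ≠ j → (D i).Coprime (D j)) (s : Finset K) :
    mf h (∏ i ∈ s, D i) = ∏ i ∈ s, mf h (D i) := by
  induction s using Finset.induction_on with
  | empty => simp [mf]
  | insert a s ha ih =>
    rw [prod_insert ha, prod_insert ha, mf_mul_coprime, ih]
    exact Nat.Coprime.prod_right fun i hi => hc a i (fun h => ha (h ▸ hi))

lemma Rg_prod {K : Type} [DecidableEq K] (z : ℕ) (D : K → ℕ) (hD : ∀ i, Rg z (D i))
    (hc : ∀ i j, i ≠ j → (D i).Coprime (D j)) (s : Finset K) : Rg z (∏ i ∈ s, D i) := by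
  induction s using Finset.induction_on with
  | empty =>
    rw [prod_empty]
    exact ⟨squarefree_one, fun p hp h1 => absurd (Nat.dvd_one.1 h1) hp.one_lt.ne'⟩
  | insert a s ha ih =>
    rw [prod_insert ha]
    have hcop : (D a).Coprime (∏ i ∈ s, D i) :=
      Nat.Coprime.prod_right fun i hi => hc a i (fun h => ha (h ▸ hi))
    refine ⟨(Nat.squarefree_mul hcop).2 ⟨(hD a).1, ih.1⟩, fun p hp hpd => ?_⟩
    rcases (hp.dvd_mul).1 hpd with h | h
    · exact (hD a).2 p hp h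
    · exact ih.2 p hp h

theorem img (K : Type) [Fintype K] [DecidableEq K] [Nonempty K] (ε : ℝ) (hε : 0 < ε) (s : ℝ)
    (hs : 0 < s) (hs1 : s ≤ 1) (H : ℝ) (hH : 0 ≤ H) :
    ∃ B : ℕ, ∀ B' : ℕ, ∃ C : ℝ, 0 ≤ C ∧ ∀ (z Y V : ℕ) (κ : K → ℤ) (Θ : K → ℕ → Finset (Finset K))
      (W : ℕ → ℝ) (E : ℝ), 2 ≤ z → 3 ≤ Y → 3 ≤ Real.log Y →
      (Real.log Y) ^ B ≤ V → (V : ℝ) ≤ (Real.log Y) ^ B' →
      (∀ k, ∀ p : ℕ, p.Prime → (p : ℤ) ∣ κ k → p ≤ z) →
      (∀ i p, Θ i p ⊆ (univ.erase i).powerset) →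
      (∀ p, (∑ i, ((Θ i p).card : ℝ)) / 2 ^ (Fintype.card K - 1) ≤ W p) → (∀ p, W p ≤ H) →
      (∑ p ∈ PS z Y, (W p) ^ s / p ≤ E) →
      (((CS z Y V κ Θ).image (fun D => ∏ i, D i)).card : ℝ) ≤
        C * Y * (Real.log Y) ^ (ε - 1) * Real.exp E := by
  obtain ⟨B, hB⟩ := absw K ε hε
  refine ⟨B, fun B' => ?_⟩
  obtain ⟨C1, hC1, h1⟩ := hB B'
  obtain ⟨C2, hC2, h2⟩ := ht (H ^ s) (by positivity)
  refine ⟨C1 + C2, by positivity, fun z Y V κ Θ W E hz hY hY3 hV hV' hκ hΘ hW hWH hE => ?_⟩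
  have hW0 : ∀ p, 0 ≤ W p := fun p => le_trans (by positivity) (hW p)
  have hlog : 1 < Real.log Y := by linarith
  have hl0 : 0 < Real.log Y := by linarith
  have hY0 : (0 : ℝ) < Y := by exact_mod_cast (by omega : 0 < Y)
  have hE0 : 0 ≤ E := le_trans (sum_nonneg fun p _ =>
    div_nonneg (Real.rpow_nonneg (hW0 p) _) (Nat.cast_nonneg p)) hE
  set τ : ℕ → ℝ := fun p => (W p) ^ (s - 1) with hτ
  have hτ0 : ∀ p, 0 ≤ τ p := fun p => Real.rpow_nonneg (hW0 p) _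
  have hτW : ∀ p, τ p * W p ≤ (W p) ^ s := by
    intro p
    rcases (hW0 p).eq_or_lt with h | h
    · rw [← h, mul_zero]
      exact Real.rpow_nonneg le_rfl _
    · rw [hτ]
      simp only
      rw [← Real.rpow_add_one h.ne']
      simp
  have hbW : ∀ (a : K × Finset K) p, |bb Θ a p| ≤ W p := by
    intro a p
    refine le_trans (Pool.Agent.W563.TW.abs_bb_le Θ a p) (le_trans ?_ (hW p))
    have e : ((Θ a.1 p).card : ℝ) / 2 ^ (Fintype.card K - 1) ≤
        (∑ i, ((Θ i p).card : ℝ)) / 2 ^ (Fintype.card K - 1) := by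
      refine div_le_div_of_nonneg_right ?_ (by positivity)
      exact single_le_sum (f := fun i => ((Θ i p).card : ℝ)) (fun _ _ => Nat.cast_nonneg _)
        (mem_univ a.1)
    split_ifs
    · exact le_trans (by positivity) e
    · exact e
  have hτb : ∀ a p, |τ p * bb Θ a p| ≤ 1 := by
    intro a p
    rw [abs_mul, abs_of_nonneg (hτ0 p)]
    rcases le_or_gt (W p) 1 with h | h
    · calc τ p * |bb Θ a p| ≤ τ p * W p := mul_le_mul_of_nonneg_left (hbW a p) (hτ0 p)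
        _ ≤ (W p) ^ s := hτW p
        _ ≤ 1 := Real.rpow_le_one (hW0 p) h hs.le
    · have h3 : τ p ≤ 1 := Real.rpow_le_one_of_one_le_of_nonpos h.le (by linarith)
      have h4 := Pool.Agent.W249.TW.bb_le Θ hΘ a p
      have h5 := abs_nonneg (bb Θ a p)
      nlinarith [hτ0 p]
  have hsum : ∑ p ∈ PS z Y, τ p * ((∑ i, ((Θ i p).card : ℝ)) / 2 ^ (Fintype.card K - 1)) / p ≤ E := by
    refine le_trans (sum_le_sum fun p _ => ?_) hE
    refine div_le_div_of_nonneg_right ?_ (Nat.cast_nonneg p)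
    exact le_trans (mul_le_mul_of_nonneg_left (hW p) (hτ0 p)) (hτW p)
  have hA := h1 z Y V κ Θ τ E hz hY hY3 hV hV' hE0 hκ hΘ hτ0 hτb hsum
  have hBd := h2 z Y (fun p => (W p) ^ s) hY (fun p => ⟨Real.rpow_nonneg (hW0 p) _,
    Real.rpow_le_rpow (hW0 p) (hWH p) hs.le⟩)
  -- the image
  set N := (CS z Y V κ Θ).image (fun D => ∏ i, D i) with hN
  have hNRF : N ⊆ RF z Y := by
    intro n hn
    obtain ⟨D, hD, rfl⟩ := mem_image.1 hn
    rw [mem_CS] at hD
    rw [mem_RF]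
    exact ⟨Nat.one_le_iff_ne_zero.2 (prod_ne_zero_iff.2 fun i _ => Nat.one_le_iff_ne_zero.1
      (mem_Icc.1 (hD.1 i)).1), hD.2.2.2.1,
      Rg_prod z D (fun i => (hD.2.1 i).1) hD.2.2.1 univ⟩
  have hWpos : ∀ n ∈ N, ∀ p ∈ n.primeFactors, 0 < W p := by
    intro n hn p hp
    obtain ⟨D, hD, rfl⟩ := mem_image.1 hn
    rw [mem_CS] at hD
    have hpp := Nat.prime_of_mem_primeFactors hp
    obtain ⟨i, -, hi⟩ := (hpp.prime.dvd_finset_prod_iff _).1 (Nat.dvd_of_mem_primeFactors hp)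
    have h0 : D i ≠ 0 := by
      have := (mem_Icc.1 (hD.1 i)).1
      omega
    have h3 := hD.2.2.2.2 i p (Nat.mem_primeFactors.2 ⟨hpp, hi, h0⟩)
    have h4 : 0 < (Θ i p).card := card_pos.2 ⟨_, h3⟩
    have h5 : (0 : ℝ) < (Θ i p).card := by exact_mod_cast h4
    refine lt_of_lt_of_le ?_ (hW p)
    apply div_pos _ (by positivity)
    exact lt_of_lt_of_le h5 (single_le_sum (f := fun i => ((Θ i p).card : ℝ))
      (fun _ _ => Nat.cast_nonneg _) (mem_univ i))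
  have hone : ∀ n ∈ N, (1 : ℝ) ≤ mf τ n + mf (fun p => (W p) ^ s) n := by
    intro n hn
    have hp := hWpos n hn
    have e1 : mf τ n = (∏ p ∈ n.primeFactors, W p) ^ (s - 1) := by
      unfold mf
      rw [hτ]
      exact Real.finset_prod_rpow _ _ (fun p hp' => (hp p hp').le) _
    have e2 : mf (fun p => (W p) ^ s) n = (∏ p ∈ n.primeFactors, W p) ^ s := by
      unfold mf
      exact Real.finset_prod_rpow _ _ (fun p hp' => (hp p hp').le) _
    have hPr : 0 < ∏ p ∈ n.primeFactors, W p := prod_pos hp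
    rw [e1, e2]
    rcases le_or_gt (∏ p ∈ n.primeFactors, W p) 1 with h | h
    · have h3 := Real.one_le_rpow_of_pos_of_le_one_of_nonpos hPr h (show s - 1 ≤ 0 by linarith)
      have h4 : 0 ≤ (∏ p ∈ n.primeFactors, W p) ^ s := Real.rpow_nonneg hPr.le _
      linarith
    · have h3 := Real.one_le_rpow h.le hs.le
      have h4 : 0 ≤ (∏ p ∈ n.primeFactors, W p) ^ (s - 1) := Real.rpow_nonneg hPr.le _
      linarith
  have hcard : (N.card : ℝ) ≤ ∑ n ∈ N, mf τ n + ∑ n ∈ N, mf (fun p => (W p) ^ s) n := by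
    rw [← sum_add_distrib]
    calc (N.card : ℝ) = ∑ _n ∈ N, (1 : ℝ) := by simp
      _ ≤ _ := sum_le_sum hone
  have hfirst : ∑ n ∈ N, mf τ n ≤ ∑ D ∈ CS z Y V κ Θ, ∏ i, mf τ (D i) := by
    have e1 : ∑ D ∈ CS z Y V κ Θ, ∏ i, mf τ (D i) = ∑ D ∈ CS z Y V κ Θ, mf τ (∏ i, D i) := by
      refine sum_congr rfl fun D hD => ?_
      rw [mem_CS] at hD
      exact (mf_prod τ D hD.2.2.1 univ).symm
    rw [e1, sum_comp (mf τ) (fun D : K → ℕ => ∏ i, D i)]
    refine sum_le_sum fun n hn => ?_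
    have h3 : 0 < ((CS z Y V κ Θ).filter (fun D => ∏ i, D i = n)).card := by
      obtain ⟨D, hD, h4⟩ := mem_image.1 hn
      exact card_pos.2 ⟨D, mem_filter.2 ⟨hD, h4⟩⟩
    rw [nsmul_eq_mul]
    have h5 : (1 : ℝ) ≤ ((CS z Y V κ Θ).filter (fun D => ∏ i, D i = n)).card := by exact_mod_cast h3
    have h6 := mf_nn hτ0 n
    nlinarith
  have hsecond : ∑ n ∈ N, mf (fun p => (W p) ^ s) n ≤ ∑ n ∈ RF z Y, mf (fun p => (W p) ^ s) n :=
    sum_le_sum_of_subset_of_nonneg hNRF fun n _ _ => mf_nn (fun p => Real.rpow_nonneg (hW0 p) _) n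
  have hexp : Real.exp (∑ p ∈ PS z Y, (W p) ^ s / p) ≤ Real.exp E := Real.exp_le_exp.2 hE
  have hlogp : (Y : ℝ) / Real.log Y ≤ Y * (Real.log Y) ^ (ε - 1) := by
    rw [div_eq_mul_inv, ← Real.rpow_neg_one]
    refine mul_le_mul_of_nonneg_left ?_ hY0.le
    exact Real.rpow_le_rpow_of_exponent_le hlog.le (by linarith)
  calc (N.card : ℝ) ≤ C1 * Y * (Real.log Y) ^ (ε - 1) * Real.exp E +
        C2 * (Y / Real.log Y) * Real.exp (∑ p ∈ PS z Y, (W p) ^ s / p) := by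
        linarith
    _ ≤ C1 * Y * (Real.log Y) ^ (ε - 1) * Real.exp E +
        C2 * (Y * (Real.log Y) ^ (ε - 1)) * Real.exp E := by
        have h3 : C2 * (Y / Real.log Y) * Real.exp (∑ p ∈ PS z Y, (W p) ^ s / p) ≤
            C2 * (Y * (Real.log Y) ^ (ε - 1)) * Real.exp E := by
          refine mul_le_mul (mul_le_mul_of_nonneg_left hlogp hC2) hexp (Real.exp_pos _).le ?_
          have := Real.rpow_nonneg hl0.le (ε - 1)
          positivity
        linarith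
    _ = _ := by ring

end Pool.Agent.W5h36.EL
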