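import Pool.Agent.W5h36.EL.Quad3

/-! Polynomials with independent splitting fields. -/

set_option autoImplicit false

namespace Pool.Agent.W5h36.EL

open Polynomial Filter Topology Finset
open Pool.Agent.W401.Cheb Pool.Agent.W262.TW Pool.Agent.W262.RK Pool.Agent.R925.FD

lemma lift_aux (Ω : Type) [Field Ω] [Algebra ℚ Ω] [Normal ℚ Ω] (L : Type) [Field L] [Algebra ℚ L]
    (j : L →+* Ω) (g : L ≃ₐ[ℚ] L) : ∃ σ : Ω ≃+* Ω, ∀ x, σ (j x) = j (g x) := by
  letI : Algebra L Ω := j.toAlgebra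
  haveI : IsScalarTower ℚ L Ω := IsScalarTower.of_algebraMap_eq' (Subsingleton.elim _ _)
  exact ⟨(g.liftNormal Ω).toRingEquiv, fun x => g.liftNormal_commutes Ω x⟩

/-- the automorphisms of a number field extend -/
lemma lift_ex (L : Type) [Field L] [NumberField L] (j : L →+* AlgebraicClosure ℚ) (g : L ≃ₐ[ℚ] L) :
    ∃ σ : AlgebraicClosure ℚ ≃ₐ[ℚ] AlgebraicClosure ℚ, ∀ x, σ (j x) = j (g x) := by
  obtain ⟨σ, hσ⟩ := @lift_aux (AlgebraicClosure ℚ) _ (AlgebraicClosure.instAlgebra ℚ) inferInstance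
    L _ _ j g
  exact ⟨AlgEquiv.ofRingEquiv (f := σ) (fun r => by
    rw [show (algebraMap ℚ (AlgebraicClosure ℚ)) r = (r : AlgebraicClosure ℚ) from rfl]
    exact map_ratCast σ r), hσ⟩

/-- the zeros in `L` -/
abbrev RT (L : Type) [Field L] (h : ℤ[X]) : Type := {θ : L // aeval θ h = 0}

lemma aeval_gal (L : Type) [Field L] [NumberField L] (g : Gal(L/ℚ)) (h : ℤ[X]) (y : L)
    (hy : aeval y h = 0) : aeval (g y) h = 0 := by
  have hZL : algebraMap ℤ L = Int.castRingHom L := RingHom.ext_int _ _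
  rw [aeval_def, hZL] at hy ⊢
  have h4 := Polynomial.hom_eval₂ h (Int.castRingHom L) (g : L →+* L) y
  have h5 : (g : L →+* L).comp (Int.castRingHom L) = Int.castRingHom L := RingHom.ext_int _ _
  rw [h5, hy, map_zero] at h4
  exact h4.symm

/-- the action on the zeros -/
def actRT (L : Type) [Field L] [NumberField L] (h : ℤ[X]) : MulAction Gal(L/ℚ) (RT L h) where
  smul g θ := ⟨g θ.1, aeval_gal L g h θ.1 θ.2⟩
  one_smul _ := rfl
  mul_smul _ _ _ := rfl

/-- the permutation of the zeros -/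
noncomputable def rho (L : Type) [Field L] [NumberField L] (h : ℤ[X]) :
    Gal(L/ℚ) →* Equiv.Perm (RT L h) :=
  letI := actRT L h
  MulAction.toPermHom _ _

lemma rho_apply (L : Type) [Field L] [NumberField L] (h : ℤ[X]) (g : Gal(L/ℚ)) (θ : RT L h) :
    (rho L h g θ).1 = g θ.1 := rfl

/-- Burnside's lemma for the transitive action on the zeros -/
lemma burn (L : Type) [Field L] [NumberField L] [IsGalois ℚ L] (h : ℤ[X]) [Fintype (RT L h)]
    [Nonempty (RT L h)]
    (hi : Irreducible (h.map (Int.castRingHom ℚ))) :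
    ∑ g : Gal(L/ℚ), fx (rho L h g) = Fintype.card Gal(L/ℚ) := by
  classical
  letI := actRT L h
  have htr : ∀ x y : RT L h, ∃ g : Gal(L/ℚ), g • x = y := by
    intro x y
    have hZ1 : algebraMap ℤ ℚ = Int.castRingHom ℚ := RingHom.ext_int _ _
    set P : ℚ[X] := h.map (Int.castRingHom ℚ) * C (h.map (Int.castRingHom ℚ)).leadingCoeff⁻¹ with hP
    have hPm : P.Monic := monic_mul_leadingCoeff_inv hi.ne_zero
    have hPi : Irreducible P := by
      rw [hP]
      refine (irreducible_mul_isUnit ?_).2 hi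
      rw [Polynomial.isUnit_C, isUnit_iff_ne_zero]
      exact inv_ne_zero (leadingCoeff_ne_zero.2 hi.ne_zero)
    have hPa : ∀ z : RT L h, aeval z.1 P = 0 := by
      intro z
      rw [hP, map_mul, ← hZ1, aeval_map_algebraMap, z.2, zero_mul]
    have h1 : minpoly ℚ y.1 = minpoly ℚ x.1 :=
      (minpoly.eq_of_irreducible_of_monic hPi (hPa y) hPm).symm.trans
        (minpoly.eq_of_irreducible_of_monic hPi (hPa x) hPm)
    obtain ⟨σ, hσ⟩ := (isConjRoot_iff_exists_algEquiv (K := ℚ) (x := y.1) (y := x.1)).1 h1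
    exact ⟨σ, Subtype.ext hσ⟩
  have h1 := MulAction.sum_card_fixedBy_eq_card_orbits_mul_card_group Gal(L/ℚ) (RT L h)
  have h2 : Fintype.card (Quotient (MulAction.orbitRel Gal(L/ℚ) (RT L h))) = 1 := by
    rw [Fintype.card_eq_one_iff_nonempty_unique]
    refine ⟨{ default := Quotient.mk _ (Classical.arbitrary _), uniq := fun a => ?_ }⟩
    induction a using Quotient.inductionOn with
    | h x =>
      apply Quotient.sound
      obtain ⟨g, hg⟩ := htr (Classical.arbitrary _) x
      exact ⟨g, hg⟩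
  rw [h2, one_mul] at h1
  rw [← h1]
  refine sum_congr rfl fun g _ => ?_
  unfold fx
  rw [Fintype.card_of_subtype]
  intro x
  simp only [mem_filter, mem_univ, true_and]
  rfl

end Pool.Agent.W5h36.EL
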