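import Pool.Agent.W5h36.EL.Indep

/-! Polynomials with independent splitting fields: the distribution of the numbers of zeros. -/

set_option autoImplicit false

namespace Pool.Agent.W5h36.EL

open Polynomial Filter Topology Finset
open Pool.Agent.W401.Cheb Pool.Agent.W262.TW Pool.Agent.W262.RK Pool.Agent.R925.FD

section K

variable {K : Type} [Fintype K] [DecidableEq K]

/-- the splitting fields are independent: every family of automorphisms is, on the zeros, induced by
one automorphism -/
def Ind {K : Type} (f : K → ℤ[X]) : Prop :=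
  ∀ σ : K → (AlgebraicClosure ℚ ≃ₐ[ℚ] AlgebraicClosure ℚ),
    ∃ τ : AlgebraicClosure ℚ ≃ₐ[ℚ] AlgebraicClosure ℚ,
      ∀ k, ∀ θ : AlgebraicClosure ℚ, aeval θ (f k) = 0 → τ θ = σ k θ

open scoped Classical in
theorem dist2 (f : K → ℤ[X]) (hf : ∀ k, f k ≠ 0) (HI : Ind f) :
    ∃ P : K → Fin 3 → ℝ, (∀ k c, 0 ≤ P k c) ∧ (∀ k, ∑ c, P k c = 1) ∧
      (∀ k c, Tendsto (M fun p => if cl (om (f k) p) = c then (1 : ℝ) else 0) atTop (𝓝 (P k c))) ∧
      (∀ F : (K → Fin 3) → ℝ, Tendsto (M fun p => F (fun k => cl (om (f k) p))) atTop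
        (𝓝 (∑ a : K → Fin 3, F a * ∏ k, P k (a k)))) ∧
      (∀ k, Irreducible ((f k).map (Int.castRingHom ℚ)) → 2 ≤ (f k).natDegree →
        1 ≤ (f k).natDegree * (1 - P k 0) ∧
        ∃ σ : AlgebraicClosure ℚ ≃ₐ[ℚ] AlgebraicClosure ℚ, ∀ θ : AlgebraicClosure ℚ,
          aeval θ (f k) = 0 → σ θ ≠ θ) := by
  have hZQ : algebraMap ℤ (AlgebraicClosure ℚ) = Int.castRingHom (AlgebraicClosure ℚ) :=
    RingHom.ext_int _ _
  have hfin : ∀ k, {θ : AlgebraicClosure ℚ | aeval θ (f k) = 0}.Finite := by
    intro k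
    have h1 : ((f k).map (Int.castRingHom (AlgebraicClosure ℚ))) ≠ 0 :=
      (Polynomial.map_ne_zero_iff (Int.castRingHom (AlgebraicClosure ℚ)).injective_int).2 (hf k)
    refine (Polynomial.finite_setOfPred_isRoot h1).subset ?_
    intro β hβ
    have h2 : aeval β (f k) = 0 := hβ
    change ((f k).map (Int.castRingHom (AlgebraicClosure ℚ))).IsRoot β
    rw [IsRoot.def, eval_map]
    rw [aeval_def, hZQ] at h2
    exact h2
  set s0 : Set (AlgebraicClosure ℚ) := ⋃ k, {θ | aeval θ (f k) = 0} with hs0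
  have hs0f : s0.Finite := Set.finite_iUnion hfin
  obtain ⟨L, iF, iN, iG, j, hj, hτ⟩ := exL2 s0 hs0f
  have hZL : algebraMap ℤ L = Int.castRingHom L := RingHom.ext_int _ _
  have hjs : ∀ k, ∀ θ : AlgebraicClosure ℚ, aeval θ (f k) = 0 → ∃ y, j y = θ := fun k θ hθ =>
    hj θ (Set.mem_iUnion.2 ⟨k, hθ⟩)
  have hja : ∀ (h : ℤ[X]) (y : L), aeval (j y) h = 0 ↔ aeval y h = 0 := by
    intro h y
    rw [aeval_def, aeval_def, hZQ, hZL]
    have h4 := Polynomial.hom_eval₂ h (Int.castRingHom L) j y
    have h5 : j.comp (Int.castRingHom L) = Int.castRingHom (AlgebraicClosure ℚ) := RingHom.ext_int _ _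
    rw [h5] at h4
    rw [← h4, map_eq_zero_iff j j.injective]
  let eR : (k : K) → RT L (f k) ≃ {θ : AlgebraicClosure ℚ // aeval θ (f k) = 0} := fun k =>
    Equiv.ofBijective (fun θ => ⟨j θ.1, (hja (f k) θ.1).2 θ.2⟩) ⟨fun x y hxy =>
      Subtype.ext (j.injective (congrArg Subtype.val hxy)), fun θ => by
        obtain ⟨y, hy⟩ := hjs k θ.1 θ.2
        exact ⟨⟨y, (hja (f k) y).1 (by rw [hy]; exact θ.2)⟩, Subtype.ext hy⟩⟩
  haveI : ∀ k, Finite {θ : AlgebraicClosure ℚ // aeval θ (f k) = 0} := fun k => (hfin k).to_subtype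
  haveI : ∀ k, Finite (RT L (f k)) := fun k => Finite.of_equiv _ (eR k).symm
  haveI : ∀ k, Fintype (RT L (f k)) := fun k => Fintype.ofFinite _
  let ρ : (k : K) → Gal(L/ℚ) →* Equiv.Perm (RT L (f k)) := fun k => rho L (f k)
  let ρ' : Gal(L/ℚ) →* ((k : K) → (ρ k).range) := MonoidHom.pi (fun k => (ρ k).rangeRestrict)
  have hsurj : ∀ π : (k : K) → (ρ k).range, ∃ g, ρ' g = π := by
    intro π
    choose g hg using fun k => (π k).2
    choose σ hσ using fun k => lift_ex L j (g k)
    obtain ⟨τ, hτσ⟩ := HI σ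
    obtain ⟨τ', hτ'⟩ := hτ τ
    refine ⟨τ', ?_⟩
    funext k
    apply Subtype.ext
    rw [← hg k]
    ext θ
    change τ' θ.1 = g k θ.1
    apply j.injective
    rw [hτ', hτσ k (j θ.1) ((hja (f k) θ.1).2 θ.2), hσ]
  choose D hD hDp using fun k => root_count L j (f k) (hf k) (hjs k)
  have hfixg : ∀ (g : Gal(L/ℚ)) k, Nat.card {θ : L // aeval θ (f k) = 0 ∧ g θ = θ} = fx (ρ k g) := by
    intro g k
    unfold fx
    rw [← Fintype.card_subtype, ← Nat.card_eq_fintype_card]
    refine Nat.card_congr
      { toFun := fun x => ⟨⟨x.1, x.2.1⟩, Subtype.ext x.2.2⟩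
        invFun := fun x => ⟨x.1.1, x.1.2, congrArg Subtype.val x.2⟩
        left_inv := fun x => rfl
        right_inv := fun x => rfl }
  have hG : (0 : ℝ) < Nat.card Gal(L/ℚ) := by exact_mod_cast Nat.card_pos
  set P : K → Fin 3 → ℝ := fun k c =>
    ((univ.filter (fun g : Gal(L/ℚ) => cl (fx (ρ k g)) = c)).card : ℝ) / Nat.card Gal(L/ℚ) with hP
  -- the numbers of elements
  set NN : (k : K) → Fin 3 → ℕ := fun k c => Nat.card {π : (ρ k).range // cl (fx π.1) = c} with hNN
  have hPN : ∀ k c, P k c = (NN k c : ℝ) / Nat.card (ρ k).range := by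
    intro k c
    have h1 := card_fib (ρ k).rangeRestrict (fun π => cl (fx π.1) = c)
      (fun b _ => (ρ k).rangeRestrict_surjective b)
    have h2 := card_fib (ρ k).rangeRestrict (fun _ => True)
      (fun b _ => (ρ k).rangeRestrict_surjective b)
    have h3 : Nat.card {a : Gal(L/ℚ) // True} = Nat.card Gal(L/ℚ) :=
      Nat.card_congr (Equiv.subtypeUnivEquiv fun _ => trivial)
    have h4 : Nat.card {b : (ρ k).range // True} = Nat.card (ρ k).range :=
      Nat.card_congr (Equiv.subtypeUnivEquiv fun _ => trivial)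
    rw [h3, h4] at h2
    have h5 : (univ.filter (fun g : Gal(L/ℚ) => cl (fx (ρ k g)) = c)).card =
        Nat.card {a : Gal(L/ℚ) // cl (fx ((ρ k).rangeRestrict a).1) = c} := by
      rw [Nat.card_eq_fintype_card, Fintype.card_subtype]
      rfl
    simp only [hP, hNN]
    rw [h5, h1, h2]
    push_cast
    have h6 : (Nat.card (ρ k).rangeRestrict.ker : ℝ) ≠ 0 := by
      have : 0 < Nat.card (ρ k).rangeRestrict.ker := Nat.card_pos
      exact_mod_cast this.ne'
    rw [mul_div_mul_left _ _ h6]
  refine ⟨P, fun k c => by simp only [hP]; positivity, fun k => ?_, fun k c => ?_, fun F => ?_,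
    fun k hi h2 => ?_⟩
  · simp only [hP]
    rw [← sum_div, div_eq_one_iff_eq hG.ne']
    have h1 := Finset.card_eq_sum_card_fiberwise (f := fun g : Gal(L/ℚ) => cl (fx (ρ k g)))
      (s := univ) (t := univ) (fun _ _ => by simp)
    rw [card_univ, ← Nat.card_eq_fintype_card] at h1
    rw [h1]
    push_cast
    rfl
  · have hmain := cheb_mean L (fun g => if cl (fx (ρ k g)) = c then (1 : ℝ) else 0)
      (fun p => if cl (om (f k) p) = c then (1 : ℝ) else 0) (D k) (hD k) (by
        intro p _ hp φ g hφ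
        rw [hDp k p hp φ g hφ, hfixg])
    rw [sum_boole] at hmain
    exact hmain
  · have hmain := cheb_mean L (fun g => F (fun k => cl (fx (ρ k g))))
      (fun p => F (fun k => cl (om (f k) p))) (∏ k, D k) (prod_pos fun k _ => hD k) (by
        intro p _ hp φ g hφ
        congr 1
        funext k
        rw [hDp k p (fun h => hp (h.trans (dvd_prod_of_mem D (mem_univ k)))) φ g hφ, hfixg])
    have e1 : (∑ g : Gal(L/ℚ), F (fun k => cl (fx (ρ k g)))) / Nat.card Gal(L/ℚ) =
        ∑ a : K → Fin 3, F a * ∏ k, P k (a k) := by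
      rw [← Finset.sum_fiberwise univ (fun (g : Gal(L/ℚ)) k => cl (fx (ρ k g)))
        (fun g => F (fun k => cl (fx (ρ k g)))), sum_div]
      refine sum_congr rfl fun a _ => ?_
      have h1 : ∀ g ∈ univ.filter (fun g : Gal(L/ℚ) => (fun k => cl (fx (ρ k g))) = a),
          F (fun k => cl (fx (ρ k g))) = F a := fun g hg => by rw [(mem_filter.1 hg).2]
      rw [sum_congr rfl h1, sum_const, nsmul_eq_mul, mul_comm, mul_div_assoc]
      congr 1
      have h2 := card_fib ρ' (fun π => (fun k => cl (fx (π k).1)) = a) (fun b _ => hsurj b)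
      have h3 := card_fib ρ' (fun _ => True) (fun b _ => hsurj b)
      have h4 : Nat.card {a : Gal(L/ℚ) // True} = Nat.card Gal(L/ℚ) :=
        Nat.card_congr (Equiv.subtypeUnivEquiv fun _ => trivial)
      have h5 : Nat.card {b : (k : K) → (ρ k).range // True} = ∏ k, Nat.card (ρ k).range := by
        rw [Nat.card_congr (Equiv.subtypeUnivEquiv fun _ => trivial), Nat.card_pi]
      have h6 : Nat.card {π : (k : K) → (ρ k).range // (fun k => cl (fx (π k).1)) = a} =
          ∏ k, NN k (a k) := by
        rw [← Nat.card_pi]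
        refine Nat.card_congr
          { toFun := fun x k => ⟨x.1 k, congrFun x.2 k⟩
            invFun := fun x => ⟨fun k => (x k).1, funext fun k => (x k).2⟩
            left_inv := fun x => rfl
            right_inv := fun x => rfl }
      have h7 : (univ.filter (fun g : Gal(L/ℚ) => (fun k => cl (fx (ρ k g))) = a)).card =
          Nat.card {g : Gal(L/ℚ) // (fun k => cl (fx ((ρ' g) k).1)) = a} := by
        rw [Nat.card_eq_fintype_card, Fintype.card_subtype]
        rfl
      rw [h4, h5] at h3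
      rw [h7, h2, h3, h6]
      push_cast
      have h8 : (Nat.card ρ'.ker : ℝ) ≠ 0 := by
        have : 0 < Nat.card ρ'.ker := Nat.card_pos
        exact_mod_cast this.ne'
      rw [mul_div_mul_left _ _ h8, ← prod_div_distrib]
      exact prod_congr rfl fun k _ => (hPN k (a k)).symm
    rw [← e1]
    exact hmain
  · have hn : Fintype.card (RT L (f k)) = (f k).natDegree := by
      rw [← Nat.card_eq_fintype_card, Nat.card_congr (eR k), nroots _ hi]
    haveI : Nonempty (RT L (f k)) := Fintype.card_pos_iff.1 (by omega)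
    have hb := burn L (f k) hi
    have hfxn : ∀ g : Gal(L/ℚ), fx (ρ k g) ≤ (f k).natDegree := by
      intro g
      rw [← hn]
      unfold fx
      exact card_le_univ _
    constructor
    · have h3 : ∑ g : Gal(L/ℚ), fx (ρ k g) ≤
          ∑ g : Gal(L/ℚ), if cl (fx (ρ k g)) = 0 then 0 else (f k).natDegree := by
        refine sum_le_sum fun g _ => ?_
        split_ifs with h4
        · rw [cl_zero.1 h4]
        · exact hfxn g
      have h4 : (∑ g : Gal(L/ℚ), (if cl (fx (ρ k g)) = 0 then (0 : ℝ) else (f k).natDegree)) =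
          (f k).natDegree * (Nat.card Gal(L/ℚ) * (1 - P k 0)) := by
        have h5 : ∀ g : Gal(L/ℚ), (if cl (fx (ρ k g)) = 0 then (0 : ℝ) else (f k).natDegree) =
            (f k).natDegree * (1 - if cl (fx (ρ k g)) = 0 then (1 : ℝ) else 0) := by
          intro g
          split_ifs <;> ring
        rw [sum_congr rfl fun g _ => h5 g, ← mul_sum, sum_sub_distrib, sum_boole, sum_const,
          card_univ, nsmul_eq_mul, mul_one, ← Nat.card_eq_fintype_card]
        simp only [hP]
        field_simp
      have h5 : (Nat.card Gal(L/ℚ) : ℝ) ≤ (f k).natDegree * (Nat.card Gal(L/ℚ) * (1 - P k 0)) := by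
        rw [← h4]
        have h6 : ((∑ g : Gal(L/ℚ), fx (ρ k g) : ℕ) : ℝ) ≤
            ((∑ g : Gal(L/ℚ), if cl (fx (ρ k g)) = 0 then 0 else (f k).natDegree : ℕ) : ℝ) := by
          exact_mod_cast h3
        have h7 : (∑ g : Gal(L/ℚ), fx (ρ k g)) = Nat.card Gal(L/ℚ) := by
          rw [Nat.card_eq_fintype_card]
          exact hb
        rw [h7] at h6
        refine h6.trans (le_of_eq ?_)
        push_cast
        rfl
      have h6 : (Nat.card Gal(L/ℚ) : ℝ) * 1 ≤
          Nat.card Gal(L/ℚ) * ((f k).natDegree * (1 - P k 0)) := by linarith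
      exact le_of_mul_le_mul_left h6 hG
    · have hex : ∃ g : Gal(L/ℚ), fx (ρ k g) = 0 := by
        by_contra hne
        push Not at hne
        have h3 : ∑ g : Gal(L/ℚ), (1 + if g = 1 then 1 else 0) ≤ ∑ g : Gal(L/ℚ), fx (ρ k g) := by
          refine sum_le_sum fun g _ => ?_
          split_ifs with h4
          · subst h4
            have h5 : fx (ρ k 1) = (f k).natDegree := by
              rw [← hn, ← card_univ]
              unfold fx
              refine congrArg Finset.card ?_
              ext x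
              simp only [mem_filter, mem_univ, true_and, iff_true]
              rw [map_one]
              rfl
            rw [h5]
            exact h2
          · have := hne g
            omega
        have h4 : ∑ g : Gal(L/ℚ), fx (ρ k g) = Fintype.card Gal(L/ℚ) := hb
        rw [h4, sum_add_distrib, sum_const, card_univ, smul_eq_mul, mul_one, sum_ite_eq',
          if_pos (mem_univ _)] at h3
        omega
      obtain ⟨g, hg⟩ := hex
      obtain ⟨σ, hσ⟩ := lift_ex L j g
      refine ⟨σ, fun θ hθ h => ?_⟩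
      obtain ⟨y, rfl⟩ := hjs k θ hθ
      have hy := (hja (f k) y).1 hθ
      rw [hσ] at h
      have h3 : g y = y := j.injective h
      unfold fx at hg
      have h4 := Finset.ext_iff.1 (card_eq_zero.1 hg) ⟨y, hy⟩
      simp only [mem_filter, mem_univ, true_and, notMem_empty, iff_false] at h4
      exact h4 (Subtype.ext h3)

end K

end Pool.Agent.W5h36.EL
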