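import Pool.Agent.W975.TW.Loc3
import Pool.Agent.W262.TW.Ex3
import Pool.Agent.H341R2.Stepanov

/-! Quadratic twists with points everywhere locally. -/

set_option autoImplicit false

namespace Pool.Agent.W5h36.EL

open Finset Polynomial
open Pool.Agent.W262.TW

/-- the curve `d * y ^ 2 = ∏ k, f k (x, w)` has a point over `L` -/
def CP {K : Type} [Fintype K] (f : K → ℤ[X]) (d : ℤ) (L : Type) [Field L] : Prop :=
  ∃ x w y : L, (x ≠ 0 ∨ w ≠ 0) ∧ d * y ^ 2 = ∏ k, hom (f k) x w

/-- points everywhere locally -/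
def ELS {K : Type} [Fintype K] (f : K → ℤ[X]) (d : ℤ) : Prop :=
  CP f d ℝ ∧ ∀ (p : ℕ) [Fact p.Prime], CP f d ℚ_[p]

/-- the product has a zero modulo `p` -/
def RP {K : Type} [Fintype K] (f : K → ℤ[X]) : Set ℕ :=
  {p : ℕ | p.Prime ∧ ∃ θ : ℤ, (p : ℤ) ∣ (∏ k, f k).eval θ}

lemma prod_hom {K : Type} [Fintype K] (f : K → ℤ[X]) {R : Type} [CommRing R] (x : R) :
    ∏ k, hom (f k) x 1 = (∏ k, f k).eval₂ (Int.castRingHom R) x := by
  rw [eval₂_finset_prod]
  exact prod_congr rfl fun k _ => Pool.Agent.W975.TW.hom_one (f k) x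

/-- a Bezout identity for separable polynomials -/
lemma sep_bez (g : ℤ[X]) (hg : (g.map (Int.castRingHom ℚ)).Separable) :
    ∃ (R : ℤ) (A B : ℤ[X]), R ≠ 0 ∧ A * g + B * derivative g = C R := by
  obtain ⟨a, b, hab⟩ := hg
  obtain ⟨m, A, hm, hA⟩ := Pool.Agent.W975.TW.clear a
  obtain ⟨n, B, hn, hB⟩ := Pool.Agent.W975.TW.clear b
  refine ⟨m * n, C n * A, C m * B, mul_ne_zero hm hn, ?_⟩
  apply Polynomial.map_injective (Int.castRingHom ℚ) (RingHom.injective_int _)
  rw [Polynomial.map_add, Polynomial.map_mul, Polynomial.map_mul, Polynomial.map_mul,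
    Polynomial.map_mul, hA, hB, map_C, map_C, map_C, ← derivative_map]
  have e : C (((m * n : ℤ) : ℚ)) = C (m : ℚ) * C (n : ℚ) := by rw [← C_mul]; push_cast; rfl
  simp only [eq_intCast, Int.cast_mul, C_mul]
  linear_combination C (m : ℚ) * C (n : ℚ) * hab

lemma sep_prod {K : Type} [Fintype K] (f : K → ℤ[X])
    (hf1 : ∀ k, Irreducible ((f k).map (Int.castRingHom ℚ)))
    (hf3 : ∀ k l, k ≠ l →
      ¬ Associated ((f k).map (Int.castRingHom ℚ)) ((f l).map (Int.castRingHom ℚ))) :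
    ((∏ k, f k).map (Int.castRingHom ℚ)).Separable := by
  classical
  rw [Polynomial.map_prod]
  refine Polynomial.separable_prod' ?_ fun k _ => (hf1 k).separable
  intro k _ l _ hkl
  rw [(hf1 k).coprime_iff_not_dvd]
  exact fun hd => hf3 k l hkl (((hf1 k).dvd_irreducible_iff_associated (hf1 l)).1 hd)

/-- a zero modulo `p` lifts to a zero in `ℤ_p` -/
lemma lift_zero (g : ℤ[X]) (R : ℤ) (A B : ℤ[X]) (hb : A * g + B * derivative g = C R)
    (p : ℕ) [hp : Fact p.Prime] (hR : ¬ (p : ℤ) ∣ R) (θ : ℤ) (hθ : (p : ℤ) ∣ g.eval θ) :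
    ∃ z : ℤ_[p], g.eval₂ (Int.castRingHom ℤ_[p]) z = 0 := by
  have hpi : Prime (p : ℤ) := Nat.prime_iff_prime_int.1 hp.out
  have h1 : ¬ (p : ℤ) ∣ (derivative g).eval θ := by
    intro h
    apply hR
    have h2 := congrArg (eval θ) hb
    rw [eval_add, eval_mul, eval_mul, eval_C] at h2
    rw [← h2]
    exact dvd_add (Dvd.dvd.mul_left hθ _) (Dvd.dvd.mul_left h _)
  have e : ∀ g : ℤ[X], aeval (θ : ℤ_[p]) g = ((g.eval θ : ℤ) : ℤ_[p]) := by
    intro g
    have := aeval_algebraMap_apply_eq_algebraMap_eval (A := ℤ_[p]) θ g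
    rw [eq_intCast, eq_intCast] at this
    exact this
  obtain ⟨z, hz, -⟩ := hensels_lemma (p := p) (R := ℤ) (F := g) (a := (θ : ℤ_[p])) (by
    rw [e, e]
    have h3 : ‖((g.eval θ : ℤ) : ℤ_[p])‖ < 1 := by
      rw [PadicInt.norm_intCast_lt_one_iff]
      exact hθ
    have h4 : ‖(((derivative g).eval θ : ℤ) : ℤ_[p])‖ = 1 := by
      have h5 : ¬ ‖(((derivative g).eval θ : ℤ) : ℤ_[p])‖ < 1 := by
        rw [PadicInt.norm_intCast_lt_one_iff]
        exact h1
      exact le_antisymm (PadicInt.norm_le_one _) (not_lt.1 h5)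
    rw [h4]
    simpa using h3)
  exact ⟨z, hz⟩

/-- squares in `ℤ_p` -/
lemma sq_of_mod (p : ℕ) [hp : Fact p.Prime] (m r : ℤ) (hr : ¬ (p : ℤ) ∣ r)
    (h : (p : ℤ) ∣ m - r ^ 2) (h2 : p = 2 → (8 : ℤ) ∣ m - r ^ 2) : ∃ z : ℤ_[p], z ^ 2 = m := by
  have hpi : Prime (p : ℤ) := Nat.prime_iff_prime_int.1 hp.out
  by_cases hp2 : p = 2
  · subst hp2
    have h8 := h2 rfl
    have e1 : ∀ w : ℤ_[2], (aeval w) (X ^ 2 - C (m : ℤ_[2]) : ℤ_[2][X]) = w ^ 2 - m := by
      intro w; simp
    have e2 : ∀ w : ℤ_[2], (aeval w) (derivative (X ^ 2 - C (m : ℤ_[2]) : ℤ_[2][X])) = 2 * w := by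
      intro w; simp; norm_num
    have hn2 : ‖(2 : ℤ_[2])‖ = 2⁻¹ := by
      have := PadicInt.norm_p (p := 2)
      exact_mod_cast this
    obtain ⟨z, hz, -⟩ := hensels_lemma (p := 2) (R := ℤ_[2]) (F := X ^ 2 - C (m : ℤ_[2]))
      (a := (r : ℤ_[2])) (by
        rw [e1, e2]
        obtain ⟨c, hc⟩ := h8
        have h3 : ((r : ℤ_[2]) ^ 2 - m) = - ((2 : ℤ_[2]) ^ 3 * c) := by
          have h4 : (m : ℤ_[2]) - (r : ℤ_[2]) ^ 2 = 8 * c := by exact_mod_cast hc
          linear_combination -h4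
        have h4 : ‖(r : ℤ_[2])‖ = 1 := by
          have h5 : ¬ ‖(r : ℤ_[2])‖ < 1 := by
            rw [PadicInt.norm_intCast_lt_one_iff]
            exact hr
          exact le_antisymm (PadicInt.norm_le_one _) (not_lt.1 h5)
        have h5 : ‖(c : ℤ_[2])‖ ≤ 1 := PadicInt.norm_le_one _
        rw [h3, norm_neg, norm_mul, norm_mul, norm_pow, hn2, h4]
        nlinarith)
    rw [e1] at hz
    exact ⟨z, sub_eq_zero.1 hz⟩
  · refine padic_sq hp2 (n := m) ?_ ?_
    · intro hm
      apply hr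
      have h3 : (p : ℤ) ∣ r ^ 2 := by
        have := dvd_sub hm h
        simpa using this
      exact hpi.dvd_of_dvd_pow h3
    · refine ⟨(r : ZMod p), ?_⟩
      have h3 := (ZMod.intCast_zmod_eq_zero_iff_dvd _ p).2 h
      push_cast at h3
      linear_combination h3

/-- points modulo large primes -/
lemma weil_pt (g : ℤ[X]) (R : ℤ) (A B : ℤ[X]) (hb : A * g + B * derivative g = C R)
    (hdeg : 1 ≤ g.natDegree) (p : ℕ) [hp : Fact p.Prime] (hR : ¬ (p : ℤ) ∣ R)
    (hlc : ¬ (p : ℤ) ∣ g.leadingCoeff) (hp2 : p ≠ 2) (hbig : 36 * g.natDegree ^ 2 < p)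
    (u : ZMod p) (hu : u ≠ 0) : ∃ x s : ZMod p, s ≠ 0 ∧
      u * (g.map (Int.castRingHom (ZMod p))).eval x = s * s := by
  classical
  set G := g.map (Int.castRingHom (ZMod p)) with hG
  have hRp : ((R : ℤ) : ZMod p) ≠ 0 := fun h => hR ((ZMod.intCast_zmod_eq_zero_iff_dvd _ p).1 h)
  have hlcp : ((g.leadingCoeff : ℤ) : ZMod p) ≠ 0 :=
    fun h => hlc ((ZMod.intCast_zmod_eq_zero_iff_dvd _ p).1 h)
  have hGd : G.natDegree = g.natDegree := by
    rw [hG]
    exact natDegree_map_of_leadingCoeff_ne_zero _ (by rw [eq_intCast]; exact hlcp)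
  have hG0 : G ≠ 0 := by
    intro h
    rw [h, natDegree_zero] at hGd
    omega
  have hF : ringChar (ZMod p) ≠ 2 := by rw [ZMod.ringChar_zmod_n]; exact hp2
  have hns : ∀ (c : ZMod p) (h : (ZMod p)[X]), G ≠ C c * h ^ 2 := by
    intro c h heq
    have hb' := congrArg (Polynomial.map (Int.castRingHom (ZMod p))) hb
    rw [Polynomial.map_add, Polynomial.map_mul, Polynomial.map_mul, ← derivative_map, ← hG,
      Polynomial.map_C, eq_intCast] at hb'
    have hd : h ∣ C ((R : ℤ) : ZMod p) := by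
      rw [← hb']
      refine dvd_add (Dvd.dvd.mul_left ?_ _) (Dvd.dvd.mul_left ?_ _)
      · rw [heq]; exact ⟨C c * h, by ring⟩
      · rw [heq, derivative_mul, derivative_C, derivative_pow]
        exact ⟨C c * (C ((2 : ℕ) : ZMod p) * derivative h), by ring⟩
    have hu : IsUnit h := isUnit_of_dvd_unit hd (isUnit_C.2 hRp.isUnit)
    have h0 : h.natDegree = 0 := natDegree_eq_zero_of_isUnit hu
    have h1 : G.natDegree ≤ 0 := by
      rw [heq]
      refine natDegree_mul_le.trans ?_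
      rw [natDegree_C, natDegree_pow, h0]
    omega
  have hw := Pool.Agent.H341R2.weil_bound hF G (by omega) hns
  by_contra hcon
  push Not at hcon
  have hχ : ∀ x : ZMod p, (quadraticChar (ZMod p) u : ℝ) * (quadraticChar (ZMod p) (G.eval x) : ℝ) =
      if G.eval x = 0 then 0 else -1 := by
    intro x
    split_ifs with h
    · rw [h]; simp
    · have h1 : ¬ IsSquare (u * G.eval x) := by
        rintro ⟨s, hs⟩
        refine hcon x s ?_ hs
        rintro rfl
        rw [mul_zero] at hs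
        exact (mul_ne_zero hu h) hs
      have h2 := quadraticChar_neg_one_iff_not_isSquare.2 h1
      rw [map_mul] at h2
      exact_mod_cast h2
  have hsum : (quadraticChar (ZMod p) u : ℝ) * ∑ x : ZMod p, (quadraticChar (ZMod p) (G.eval x) : ℝ) =
      -((univ.filter (fun x : ZMod p => ¬ G.eval x = 0)).card : ℝ) := by
    rw [mul_sum, sum_congr rfl fun x _ => hχ x, ← sum_filter_not_add_sum_filter univ
      (fun x : ZMod p => G.eval x = 0)]
    rw [sum_congr rfl (fun x hx => if_neg (mem_filter.1 hx).2),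
      sum_congr (s₁ := univ.filter (fun x : ZMod p => G.eval x = 0)) rfl
        (fun x hx => if_pos (mem_filter.1 hx).2)]
    rw [sum_const, sum_const_zero, add_zero, nsmul_eq_mul]
    ring
  have habs : |(quadraticChar (ZMod p) u : ℝ)| = 1 := by
    rcases quadraticChar_dichotomy hu with h | h <;> simp [h]
  have h1 : ((univ.filter (fun x : ZMod p => ¬ G.eval x = 0)).card : ℝ) ≤
      5 * G.natDegree * Real.sqrt (Fintype.card (ZMod p)) := by
    have h2 := congrArg abs hsum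
    rw [abs_mul, habs, one_mul, abs_neg, Nat.abs_cast] at h2
    rw [← h2]
    exact hw
  have h2 : (univ.filter (fun x : ZMod p => G.eval x = 0)).card ≤ G.natDegree := by
    refine le_trans ?_ (card_roots' G)
    refine le_trans (card_le_card ?_) (Multiset.toFinset_card_le _)
    intro x hx
    rw [Multiset.mem_toFinset, mem_roots hG0]
    exact (mem_filter.1 hx).2
  have h3 : (univ.filter (fun x : ZMod p => G.eval x = 0)).card +
      (univ.filter (fun x : ZMod p => ¬ G.eval x = 0)).card = p := by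
    rw [card_filter_add_card_filter_not, card_univ, ZMod.card]
  rw [ZMod.card] at h1
  rw [hGd] at h1 h2
  set n := g.natDegree with hn
  have h4 : (p : ℝ) - n ≤ 5 * n * Real.sqrt p := by
    have h5 : (p : ℝ) ≤ n + ((univ.filter (fun x : ZMod p => ¬ G.eval x = 0)).card : ℝ) := by
      exact_mod_cast (by omega : p ≤ n + (univ.filter (fun x : ZMod p => ¬ G.eval x = 0)).card)
    linarith
  have h5 : (6 * n : ℝ) < Real.sqrt p := by
    rw [Real.lt_sqrt (by positivity)]
    have : ((36 * n ^ 2 : ℕ) : ℝ) < p := by exact_mod_cast hbig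
    push_cast at this
    nlinarith
  have h6 : Real.sqrt p * Real.sqrt p = p := Real.mul_self_sqrt (Nat.cast_nonneg _)
  have h7 : (1 : ℝ) ≤ n := by exact_mod_cast hdeg
  nlinarith [Real.sqrt_nonneg (p : ℝ)]

/-- the twists by `s * m` have points everywhere locally -/
theorem els {K : Type} [Fintype K] [Nonempty K] (f : K → ℤ[X])
    (hf1 : ∀ k, Irreducible ((f k).map (Int.castRingHom ℚ)))
    (hf3 : ∀ k l, k ≠ l →
      ¬ Associated ((f k).map (Int.castRingHom ℚ)) ((f l).map (Int.castRingHom ℚ))) :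
    ∃ z0 : ℕ, ∀ (s t x0 : ℤ), s ≠ 0 → t ≠ 0 → s * t ^ 2 = (∏ k, f k).eval x0 → ∀ z : ℕ, z0 ≤ z →
      s.natAbs ≤ z → ∀ m : ℕ, m ≠ 0 → (∀ p : ℕ, p.Prime → p ∣ m → p ∈ RP f ∧ z < p) →
      ∀ r : ℤ, (∀ p : ℕ, p.Prime → p ≤ z → ¬ (p : ℤ) ∣ r) → ((8 * z.factorial : ℕ) : ℤ) ∣ m - r ^ 2 →
      ELS f (s * m) := by
  classical
  set g : ℤ[X] := ∏ k, f k with hg
  obtain ⟨R, A, B, hR, hb⟩ := sep_bez g (sep_prod f hf1 hf3)
  have hfk : ∀ k, 1 ≤ (f k).natDegree := by
    intro k
    have e1 : ((f k).map (Int.castRingHom ℚ)).natDegree = (f k).natDegree :=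
      natDegree_map_eq_of_injective (RingHom.injective_int (Int.castRingHom ℚ)) _
    rw [← e1]
    exact (hf1 k).natDegree_pos
  have hfk0 : ∀ k, f k ≠ 0 := by
    intro k h
    have := hfk k
    rw [h, natDegree_zero] at this
    omega
  have hgdeg : 1 ≤ g.natDegree := by
    rw [hg, natDegree_prod _ _ fun k _ => hfk0 k]
    obtain ⟨k⟩ := ‹Nonempty K›
    exact (hfk k).trans (single_le_sum (f := fun k => (f k).natDegree) (fun _ _ => Nat.zero_le _)
      (mem_univ k))
  have hg0 : g ≠ 0 := by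
    intro h
    rw [h, natDegree_zero] at hgdeg
    omega
  refine ⟨max (max R.natAbs g.leadingCoeff.natAbs) (max 2 (36 * g.natDegree ^ 2)), ?_⟩
  intro s t x0 hs ht hst z hz hsz m hm hmp r hr hmr
  have hz1 : R.natAbs ≤ z := le_trans (le_trans (le_max_left _ _) (le_max_left _ _)) hz
  have hz2 : g.leadingCoeff.natAbs ≤ z := le_trans (le_trans (le_max_right _ _) (le_max_left _ _)) hz
  have hz3 : 2 ≤ z := le_trans (le_trans (le_max_left _ _) (le_max_right _ _)) hz
  have hz4 : 36 * g.natDegree ^ 2 ≤ z := le_trans (le_trans (le_max_right _ _) (le_max_right _ _)) hz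
  have hnd : ∀ (p : ℕ) (a : ℤ), a ≠ 0 → a.natAbs ≤ z → z < p → ¬ (p : ℤ) ∣ a := by
    intro p a ha h1 h2 h3
    have h4 := Nat.le_of_dvd (Int.natAbs_pos.2 ha) (Int.natCast_dvd.1 h3)
    omega
  constructor
  · have hm0 : (0 : ℝ) < m := by exact_mod_cast Nat.pos_of_ne_zero hm
    refine ⟨x0, 1, t / Real.sqrt m, Or.inr one_ne_zero, ?_⟩
    rw [prod_hom, div_pow, Real.sq_sqrt hm0.le]
    have e := eval₂_at_apply (p := g) (Int.castRingHom ℝ) x0
    rw [eq_intCast, eq_intCast, ← hst] at e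
    rw [← hg, e]
    push_cast
    field_simp
  · intro p hp
    have e := eval₂_at_apply (p := g) (Int.castRingHom ℚ_[p]) x0
    rw [eq_intCast, eq_intCast, ← hst] at e
    by_cases hpz : p ≤ z
    · have hpm : (p : ℤ) ∣ m - r ^ 2 := by
        refine dvd_trans ?_ hmr
        have h1 : p ∣ z.factorial := Nat.dvd_factorial hp.out.pos hpz
        exact_mod_cast (h1.mul_left 8)
      have h8 : p = 2 → (8 : ℤ) ∣ m - r ^ 2 := by
        intro _
        refine dvd_trans ?_ hmr
        exact_mod_cast Dvd.intro _ rfl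
      obtain ⟨ζ, hζ⟩ := sq_of_mod p m r (hr p hp.out hpz) hpm h8
      have hζ' : (ζ : ℚ_[p]) ^ 2 = m := by
        have := congrArg (fun w : ℤ_[p] => (w : ℚ_[p])) hζ
        simpa using this
      have hm0 : (m : ℚ_[p]) ≠ 0 := by exact_mod_cast hm
      refine ⟨x0, 1, t / ζ, Or.inr one_ne_zero, ?_⟩
      rw [prod_hom, div_pow, hζ', ← hg, e]
      push_cast
      field_simp
    · push Not at hpz
      have hpR := hnd p R hR hz1 hpz
      by_cases hpm : p ∣ m
      · obtain ⟨⟨-, θ, hθ⟩, -⟩ := hmp p hp.out hpm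
        obtain ⟨y, hy⟩ := lift_zero g R A B hb p hpR θ hθ
        refine ⟨(y : ℚ_[p]), 1, 0, Or.inr one_ne_zero, ?_⟩
        rw [prod_hom, ← hg]
        have h1 := congrArg (fun w : ℤ_[p] => (w : ℚ_[p])) hy
        have h2 := hom_eval₂ g (Int.castRingHom ℤ_[p]) (PadicInt.Coe.ringHom (p := p)) y
        have h3 : (PadicInt.Coe.ringHom (p := p)).comp (Int.castRingHom ℤ_[p]) =
            Int.castRingHom ℚ_[p] := RingHom.ext_int _ _
        rw [h3] at h2
        simp only [ne_eq, OfNat.ofNat_ne_zero, not_false_eq_true, zero_pow, mul_zero]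
        rw [hy, map_zero] at h2
        exact h2
      · have hpi : Prime (p : ℤ) := Nat.prime_iff_prime_int.1 hp.out
        have hps := hnd p s hs hsz hpz
        have hpd : ¬ (p : ℤ) ∣ s * m := by
          intro h
          rcases hpi.dvd_or_dvd h with h | h
          · exact hps h
          · exact hpm (by exact_mod_cast h)
        have hu : ((s * m : ℤ) : ZMod p) ≠ 0 :=
          fun h => hpd ((ZMod.intCast_zmod_eq_zero_iff_dvd _ p).1 h)
        obtain ⟨x, y, hy, hxy⟩ := weil_pt g R A B hb hgdeg p hpR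
          (hnd p _ (leadingCoeff_ne_zero.2 hg0) hz2 hpz) (by omega) (by omega) _ hu
        obtain ⟨x', rfl⟩ := ZMod.intCast_surjective x
        rw [eval_intCast_map, eq_intCast, Int.cast_id, ← Int.cast_mul] at hxy
        have hN : ¬ (p : ℤ) ∣ s * m * g.eval x' := by
          intro h
          have h1 := (ZMod.intCast_zmod_eq_zero_iff_dvd _ p).2 h
          rw [hxy] at h1
          exact (mul_ne_zero hy hy) h1
        obtain ⟨w, hw⟩ := padic_sq (p := p) (by omega) hN ⟨y, hxy⟩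
        have hw' : (w : ℚ_[p]) ^ 2 = ((s * m * g.eval x' : ℤ) : ℚ_[p]) := by
          have := congrArg (fun w : ℤ_[p] => (w : ℚ_[p])) hw
          simpa using this
        have hd0 : ((s * m : ℤ) : ℚ_[p]) ≠ 0 := by
          have : s * (m : ℤ) ≠ 0 := mul_ne_zero hs (by exact_mod_cast hm)
          exact_mod_cast this
        refine ⟨x', 1, w / ((s * m : ℤ) : ℚ_[p]), Or.inr one_ne_zero, ?_⟩
        have e' := eval₂_at_apply (p := g) (Int.castRingHom ℚ_[p]) x'
        rw [eq_intCast, eq_intCast] at e'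
        rw [prod_hom, ← hg, e', div_pow, hw']
        rw [Int.cast_mul (s * m)]
        field_simp

end Pool.Agent.W5h36.EL
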