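import Pool.Agent.W5h36.EL.Comp

/-! Products of two quadratic polynomials. -/

set_option autoImplicit false

namespace Pool.Agent.W5h36.EL

open Polynomial Filter Topology Finset
open Pool.Agent.W401.Cheb Pool.Agent.W262.TW Pool.Agent.W262.RK

section K

variable {K : Type} [Fintype K] [DecidableEq K]

lemma mem_SR_quad (f : K → ℤ[X]) (hf : ∀ k, (f k).natDegree = 2) (i : K) (p : ℕ)
    [hp : Fact p.Prime] (hp2 : p ≠ 2) (hpa : ¬ (p : ℤ) ∣ (f i).coeff 2)
    (hpD : ¬ (p : ℤ) ∣ dsc (f i)) :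
    (i ∈ SR f p ∧ jacobiSym (dsc (f i)) p = 1) ∨ (i ∉ SR f p ∧ jacobiSym (dsc (f i)) p = -1) := by
  classical
  have h0 : i ∈ SR f p ↔ ∃ θ : ℤ, (p : ℤ) ∣ (f i).eval θ := by
    unfold SR
    rw [mem_filter]
    simp
  have h6 : ((dsc (f i) : ℤ) : ZMod p) ≠ 0 := by
    rwa [Ne, ZMod.intCast_zmod_eq_zero_iff_dvd]
  have h7 := legendreSym.eq_one_or_neg_one p h6
  rw [jacobiSym.legendreSym.to_jacobiSym] at h7
  rw [h0, split_iff _ (hf i) p hp2 hpa hpD]
  rcases h7 with h7 | h7
  · exact Or.inl ⟨h7, h7⟩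
  · refine Or.inr ⟨?_, h7⟩
    rw [h7]
    norm_num

open scoped Classical in
theorem quad_pair (f : K → ℤ[X]) (hf : ∀ k, (f k).natDegree = 2)
    (hf1 : ∀ k, Irreducible ((f k).map (Int.castRingHom ℚ)))
    (hf3 : ∀ k l, k ≠ l →
      ¬ Associated ((f k).map (Int.castRingHom ℚ)) ((f l).map (Int.castRingHom ℚ)))
    (hr : Fintype.card K = 2) (i j : K) (hDij : ¬ IsSquare (dsc (f i) * dsc (f j)))
    (hRij : ¬ IsSquare (res (f i) (f j) * (dsc (f i) * dsc (f j)))) : AA f := by
  haveI : Nonempty K := ⟨i⟩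
  have hf2 : ∀ k, Even (f k).natDegree := fun k => by rw [hf k]; exact even_two
  have hij : i ≠ j := by
    rintro rfl
    exact hDij ⟨_, rfl⟩
  have huniv : (univ : Finset K) = {i, j} := by
    symm
    apply eq_univ_of_card
    rw [card_pair hij, hr]
  have hc2 : ∀ k, (f k).coeff 2 ≠ 0 := by
    intro k
    have h1 : (f k).leadingCoeff ≠ 0 := by
      rw [Ne, leadingCoeff_eq_zero]
      intro h
      have := hf k
      rw [h] at this
      simp at this
    rwa [leadingCoeff, hf k] at h1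
  have hD : ∀ k, ¬ IsSquare (dsc (f k)) := fun k => dsc_not_sq _ (hf k) (hf1 k)
  have hD0 : ∀ k, dsc (f k) ≠ 0 := by
    intro k h
    exact hD k (h ▸ IsSquare.zero)
  have hR : res (f i) (f j) ≠ 0 := res_ne_zero _ _ (hf i) (hf j) (hf1 i) (hf1 j) (hf3 i j hij)
  set B : ℕ := (2 * ((f i).coeff 2 * (f j).coeff 2) * (dsc (f i) * dsc (f j)) *
    res (f i) (f j)).natAbs with hB
  have hBpos : 0 < B := Int.natAbs_pos.2 (mul_ne_zero (mul_ne_zero (mul_ne_zero two_ne_zero
    (mul_ne_zero (hc2 i) (hc2 j))) (mul_ne_zero (hD0 i) (hD0 j))) hR)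
  have hgood : ∀ p : ℕ, p.Prime → ¬ p ∣ B → p ≠ 2 ∧ ¬ (p : ℤ) ∣ (f i).coeff 2 ∧
      ¬ (p : ℤ) ∣ (f j).coeff 2 ∧ ¬ (p : ℤ) ∣ dsc (f i) ∧ ¬ (p : ℤ) ∣ dsc (f j) ∧
      ¬ (p : ℤ) ∣ res (f i) (f j) := by
    intro p hp hpD
    refine ⟨?_, fun h => hpD (Int.natCast_dvd.1 ((((h.mul_right _).mul_left 2).mul_right _).mul_right _)),
      fun h => hpD (Int.natCast_dvd.1 ((((h.mul_left _).mul_left 2).mul_right _).mul_right _)),
      fun h => hpD (Int.natCast_dvd.1 (((h.mul_right _).mul_left _).mul_right _)),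
      fun h => hpD (Int.natCast_dvd.1 (((h.mul_left _).mul_left _).mul_right _)),
      fun h => hpD (Int.natCast_dvd.1 (h.mul_left _))⟩
    rintro rfl
    exact hpD (Int.natCast_dvd.1 ⟨((f i).coeff 2 * (f j).coeff 2) *
      (dsc (f i) * dsc (f j)) * res (f i) (f j), by push_cast; ring⟩)
  -- the density of the primes with a zero
  have hRP : ∀ δ : ℝ, 0 < δ → ∀ᶠ N in atTop, 3 / 4 - δ ≤
      M (fun p => if p ∈ RP f then (1 : ℝ) else 0) N := by
    intro δ hδ
    have h4 := tM_add (tM_add (tM_add (tM_smul (1 / 4) M_one)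
      (tM_smul (-1 / 4) (chi_mean _ (hD i)))) (tM_smul (-1 / 4) (chi_mean _ (hD j))))
      (tM_smul (1 / 4) (chi_mean _ hDij))
    have h5 := M_le_of (fun p => if p ∈ RP f then (0 : ℝ) else 1) _ B hBpos 1 _
      (fun p => by split_ifs <;> norm_num) (fun p hp hpD => ?_) h4 (δ / 2) (by linarith)
    · have h6 : ∀ᶠ N in atTop, 1 - δ / 2 < M (fun _ => 1) N :=
        M_one.eventually (lt_mem_nhds (by linarith))
      filter_upwards [h5, h6] with N h7 h8
      have h9 : M (fun _ => (1 : ℝ)) N = M (fun p => (if p ∈ RP f then (1 : ℝ) else 0) +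
          (if p ∈ RP f then (0 : ℝ) else 1)) N := by
        congr 1
        funext p
        split_ifs <;> norm_num
      rw [M_add] at h9
      linarith
    · haveI : Fact p.Prime := ⟨hp⟩
      obtain ⟨hp2, hpi, hpj, hDi, hDj, -⟩ := hgood p hp hpD
      have h1 := mem_SR_quad f hf i p hp2 hpi hDi
      have h2 := mem_SR_quad f hf j p hp2 hpj hDj
      rw [jacobiSym.mul_left]
      rcases h1 with ⟨h1, h1'⟩ | ⟨h1, h1'⟩ <;> rcases h2 with ⟨h2, h2'⟩ | ⟨h2, h2'⟩ <;>
        rw [h1', h2']
      · rw [if_pos ((mem_RP f hp).2 ⟨i, h1⟩)]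
        norm_num
      · rw [if_pos ((mem_RP f hp).2 ⟨i, h1⟩)]
        norm_num
      · rw [if_pos ((mem_RP f hp).2 ⟨j, h2⟩)]
        norm_num
      · split_ifs <;> norm_num
  refine criterion f hf1 hf2 hf3 fun I hI => ?_
  have hIcard : I.card ≤ 2 := hr ▸ card_le_univ I
  by_cases hI2 : I.card = 2
  · have hIu : I = univ := eq_univ_of_card I (by rw [hI2, hr])
    subst hIu
    right
    left
    set R := res (f i) (f j) with hRdef
    obtain ⟨e0, he0, he0', -⟩ := chi_mean' R hR
    obtain ⟨e1, he1, he1', -⟩ := chi_mean' (R * dsc (f i)) (mul_ne_zero hR (hD0 i))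
    obtain ⟨e2, he2, he2', -⟩ := chi_mean' (R * dsc (f j)) (mul_ne_zero hR (hD0 j))
    have he3 := chi_mean _ hRij
    have hl : 0 < Real.log 2 := Real.log_pos (by norm_num)
    have h4 := tM_smul (Real.log 2) (tM_add (tM_add (tM_add (tM_add (tM_add (tM_add (tM_add
      (tM_smul (-1 / 8) M_one) (tM_smul (-3 / 8) he0)) (tM_smul (-1 / 8) he1))
      (tM_smul (-1 / 8) he2)) (tM_smul (1 / 8) he3)) (tM_smul (1 / 8) (chi_mean _ (hD i))))
      (tM_smul (1 / 8) (chi_mean _ (hD j)))) (tM_smul (3 / 8) (chi_mean _ hDij)))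
    have hHle : ∀ p, Real.log (WI f univ p) ≤ Fintype.card K * 2 ^ Fintype.card K := by
      intro p
      rcases eq_or_lt_of_le (WI_nonneg f univ p) with h5 | h5
      · rw [← h5, Real.log_zero]
        positivity
      · exact (Real.log_le_self h5.le).trans (WI_le f univ p)
    have h5 := M_le_of (fun p => Real.log (WI f univ p)) _ B hBpos _ _ hHle
      (fun p hp hpD => ?_) h4 (Real.log 2 / 16) (by linarith)
    · refine ⟨Real.log 2 / 16, by linarith, ?_⟩
      filter_upwards [h5] with N hN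
      refine hN.trans ?_
      nlinarith [mul_nonneg hl.le he0', mul_nonneg hl.le he1', mul_nonneg hl.le he2']
    · haveI : Fact p.Prime := ⟨hp⟩
      obtain ⟨hp2, hpi, hpj, hDi, hDj, hpR⟩ := hgood p hp hpD
      have h6 := MX_two f hf i j p hp2 hpi hDi hpR
      have h7 := MX_two f hf j i p hp2 hpj hDj (by rwa [res_comm])
      rw [res_comm, pair_comm] at h7
      have hWI : WI f univ p = ((MX univ (Th f i p) : ℝ) + MX univ (Th f j p)) / 2 := by
        unfold WI
        rw [hI2, huniv, sum_pair hij]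
        norm_num
      rw [← huniv] at h6 h7
      have h1 := mem_SR_quad f hf i p hp2 hpi hDi
      have h2 := mem_SR_quad f hf j p hp2 hpj hDj
      have hR0 : ((R : ℤ) : ZMod p) ≠ 0 := by
        rwa [Ne, ZMod.intCast_zmod_eq_zero_iff_dvd]
      have hR1 := legendreSym.eq_one_or_neg_one p hR0
      rw [jacobiSym.legendreSym.to_jacobiSym] at hR1
      have hMi : i ∈ SR f p → (1 : ℝ) ≤ MX univ (Th f i p) := fun h => by
        exact_mod_cast MX_pos univ (Th_nonempty hp h)
      have hMj : j ∈ SR f p → (1 : ℝ) ≤ MX univ (Th f j p) := fun h => by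
        exact_mod_cast MX_pos univ (Th_nonempty hp h)
      have hMi0 : i ∉ SR f p → (MX univ (Th f i p) : ℝ) = 0 := fun h => by
        rw [Th_empty h, MX_empty, Nat.cast_zero]
      have hMj0 : j ∉ SR f p → (MX univ (Th f j p) : ℝ) = 0 := fun h => by
        rw [Th_empty h, MX_empty, Nat.cast_zero]
      have hgi : (0 : ℝ) ≤ MX univ (Th f i p) := Nat.cast_nonneg _
      have hgj : (0 : ℝ) ≤ MX univ (Th f j p) := Nat.cast_nonneg _
      simp only [jacobiSym.mul_left]
      push_cast
      rw [hWI]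
      set mi := (MX univ (Th f i p) : ℝ) with hmi
      set mj := (MX univ (Th f j p) : ℝ) with hmj
      have l12 : Real.log (1 / 2) = - Real.log 2 := by
        rw [one_div, Real.log_inv]
      rcases h1 with ⟨h1, h1'⟩ | ⟨h1, h1'⟩ <;> rcases h2 with ⟨h2, h2'⟩ | ⟨h2, h2'⟩ <;>
        rcases hR1 with h3 | h3 <;> rw [h1', h3] at h6 <;> rw [h2', h3] at h7 <;>
        rw [h1', h2', h3] <;> push_cast at h6 h7 ⊢
      · have h8 := Real.log_le_log (x := (mi + mj) / 2) (y := 1) (by linarith [hMi h1])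
          (by linarith)
        rw [Real.log_one] at h8
        linarith
      · have h8 := Real.log_le_log (x := (mi + mj) / 2) (y := 2) (by linarith [hMi h1])
          (by linarith)
        linarith
      · have h8 := Real.log_le_log (x := (mi + mj) / 2) (y := 1 / 2) (by linarith [hMi h1])
          (by linarith)
        rw [l12] at h8
        linarith
      · have h8 := Real.log_le_log (x := (mi + mj) / 2) (y := 1) (by linarith [hMi h1])
          (by linarith)
        rw [Real.log_one] at h8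
        linarith
      · have h8 := Real.log_le_log (x := (mi + mj) / 2) (y := 1 / 2) (by linarith [hMj h2])
          (by linarith)
        rw [l12] at h8
        linarith
      · have h8 := Real.log_le_log (x := (mi + mj) / 2) (y := 1) (by linarith [hMj h2])
          (by linarith)
        rw [Real.log_one] at h8
        linarith
      · rw [hMi0 h1, hMj0 h2]
        norm_num
      · rw [hMi0 h1, hMj0 h2]
        norm_num
  · have hI1 : I.card = 1 := by
      have := card_pos.2 hI
      omega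
    obtain ⟨l, rfl⟩ := card_eq_one.1 hI1
    right
    right
    have hDl := hD l
    have h4 := tM_add (tM_smul (1 / 2) M_one) (tM_smul (1 / 2) (chi_mean _ (hD l)))
    have hl : l = i ∨ l = j := by
      have : l ∈ (univ : Finset K) := mem_univ l
      rw [huniv, mem_insert, mem_singleton] at this
      exact this
    have h5 := M_le_of (WI f {l}) _ B hBpos _ _ (WI_le f {l})
      (fun p hp hpD => ?_) h4 (1 / 16) (by norm_num)
    · have h6 : ∀ᶠ N in atTop, M (WI f {l}) N ≤ 9 / 16 := by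
        filter_upwards [h5] with N hN
        linarith
      obtain ⟨C, hC⟩ := dens_up (WI f {l}) (Fintype.card K * 2 ^ Fintype.card K) (9 / 16)
        (WI_nonneg f {l}) (WI_le f {l}) h6
      refine ⟨1, one_pos, le_rfl, 9 / 16, ⟨1 / 16, by norm_num, ?_⟩, C, ?_⟩
      · filter_upwards [hRP (1 / 16) (by norm_num)] with N hN
        linarith
      · simpa only [Real.rpow_one] using hC
    · haveI : Fact p.Prime := ⟨hp⟩
      obtain ⟨hp2, hpi, hpj, hDi, hDj, -⟩ := hgood p hp hpD
      have hpl : ¬ (p : ℤ) ∣ (f l).coeff 2 ∧ ¬ (p : ℤ) ∣ dsc (f l) := by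
        rcases hl with rfl | rfl
        · exact ⟨hpi, hDi⟩
        · exact ⟨hpj, hDj⟩
      unfold WI
      rw [sum_singleton, card_singleton, Nat.sub_self, pow_zero, div_one]
      rcases mem_SR_quad f hf l p hp2 hpl.1 hpl.2 with ⟨h1, h2⟩ | ⟨h1, h2⟩
      · have h8 : (MX {l} (Th f l p) : ℝ) ≤ 1 := by exact_mod_cast MX_single f l p
        rw [h2]
        push_cast
        linarith
      · rw [Th_empty h1, MX_empty, h2]
        norm_num

end K

end Pool.Agent.W5h36.EL
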