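import Pool.Agent.W5h36.EL.Rc

/-! Polynomials with symmetric Galois groups: the distribution of the numbers of zeros modulo `p`. -/

set_option autoImplicit false

namespace Pool.Agent.W5h36.EL

open Polynomial NumberField Filter Topology Finset
open Pool.Agent.W401.Cheb Pool.Agent.W262.TW Pool.Agent.W262.RK Pool.Agent.R925.FD

/-- `0`, `1` or at least `2` -/
def cl (m : ℕ) : Fin 3 := if m = 0 then 0 else if m = 1 then 1 else 2

lemma cl_zero {m : ℕ} : cl m = 0 ↔ m = 0 := by
  unfold cl
  split_ifs with h1 h2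
  · exact ⟨fun _ => h1, fun _ => rfl⟩
  · exact ⟨fun h => absurd h (by decide), fun h => absurd h h1⟩
  · exact ⟨fun h => absurd h (by decide), fun h => absurd h h1⟩

lemma cl_one {m : ℕ} : cl m = 1 ↔ m = 1 := by
  unfold cl
  split_ifs with h1 h2
  · exact ⟨fun h => absurd h (by decide), fun h => by omega⟩
  · exact ⟨fun _ => h2, fun _ => rfl⟩
  · exact ⟨fun h => absurd h (by decide), fun h => absurd h h2⟩

/-- the numbers of permutations of `n` letters with `0`, `1` or at least `2` fixed points -/
def nq (n : ℕ) (c : Fin 3) : ℕ :=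
  if c = 0 then numDerangements n else if c = 1 then n * numDerangements (n - 1)
  else n.factorial - numDerangements n - n * numDerangements (n - 1)

open scoped Classical in
/-- the number of fixed points -/
noncomputable def fx {A : Type*} [Fintype A] (π : Equiv.Perm A) : ℕ :=
  (univ.filter (fun a => π a = a)).card

open scoped Classical in
lemma card_fx_zero (A : Type) [Fintype A] :
    (univ.filter (fun π : Equiv.Perm A => fx π = 0)).card = numDerangements (Fintype.card A) := by
  rw [← card_derangements_eq_numDerangements A, ← Fintype.card_subtype]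
  refine Fintype.card_congr (Equiv.subtypeEquivRight fun π => ?_)
  unfold fx
  rw [card_eq_zero, filter_eq_empty_iff]
  exact ⟨fun h x => h (mem_univ x), fun h x _ => h x⟩

open scoped Classical in
lemma card_fx_one (A : Type) [Fintype A] :
    (univ.filter (fun π : Equiv.Perm A => fx π = 1)).card =
      Fintype.card A * numDerangements (Fintype.card A - 1) := by
  have h1 : univ.filter (fun π : Equiv.Perm A => fx π = 1) =
      univ.biUnion (fun a : A => univ.filter (fun π : Equiv.Perm A => ∀ b, ¬ (b ≠ a) ↔ π b = b)) := by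
    ext π
    rw [mem_filter, mem_biUnion]
    unfold fx
    rw [card_eq_one]
    constructor
    · rintro ⟨-, a, ha⟩
      refine ⟨a, mem_univ _, mem_filter.2 ⟨mem_univ _, fun b => ?_⟩⟩
      rw [not_not]
      have h2 : b ∈ univ.filter (fun a => π a = a) ↔ b ∈ ({a} : Finset A) := by rw [ha]
      rw [mem_filter, mem_singleton] at h2
      exact ⟨fun h => (h2.2 h).2, fun h => h2.1 ⟨mem_univ _, h⟩⟩
    · rintro ⟨a, -, ha⟩
      refine ⟨mem_univ _, a, ?_⟩
      ext b
      rw [mem_filter, mem_singleton]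
      have h2 := (mem_filter.1 ha).2 b
      rw [not_not] at h2
      exact ⟨fun h => h2.2 h.2, fun h => ⟨mem_univ _, h2.1 h⟩⟩
  rw [h1, card_biUnion]
  · have h2 : ∀ a : A, (univ.filter (fun π : Equiv.Perm A => ∀ b, ¬ (b ≠ a) ↔ π b = b)).card =
        numDerangements (Fintype.card A - 1) := by
      intro a
      have h3 : Fintype.card {b : A // b ≠ a} = Fintype.card A - 1 := by
        rw [Fintype.card_subtype_compl, Fintype.card_subtype_eq]
      rw [← h3, ← card_derangements_eq_numDerangements {b : A // b ≠ a}, ← Fintype.card_subtype]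
      exact (Fintype.card_congr (derangements.subtypeEquiv (fun b : A => b ≠ a))).symm
    rw [sum_congr rfl fun a _ => h2 a, sum_const, card_univ, smul_eq_mul]
  · intro a _ b _ hab
    rw [Function.onFun, disjoint_left]
    intro π h2 h3
    have h4 := (mem_filter.1 h2).2 a
    have h5 := (mem_filter.1 h3).2 a
    apply hab
    have h6 : ¬ (a ≠ b) := h5.2 (h4.1 (by simp))
    exact not_not.1 h6

open scoped Classical in
lemma card_fx (A : Type) [Fintype A] (c : Fin 3) :
    (univ.filter (fun π : Equiv.Perm A => cl (fx π) = c)).card = nq (Fintype.card A) c := by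
  have h0 : (univ.filter (fun π : Equiv.Perm A => cl (fx π) = 0)).card = numDerangements (Fintype.card A) := by
    rw [← card_fx_zero A]
    congr 1
    exact filter_congr fun π _ => cl_zero
  have h1 : (univ.filter (fun π : Equiv.Perm A => cl (fx π) = 1)).card =
      Fintype.card A * numDerangements (Fintype.card A - 1) := by
    rw [← card_fx_one A]
    congr 1
    exact filter_congr fun π _ => cl_one
  have h2 := Finset.card_eq_sum_card_fiberwise (f := fun π : Equiv.Perm A => cl (fx π)) (s := univ)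
    (t := univ) (fun _ _ => by simp)
  rw [card_univ, Fintype.card_perm, Fin.sum_univ_three, h0, h1] at h2
  unfold nq
  fin_cases c
  · exact h0
  · exact h1
  · simp only [Fin.reduceFinMk, Fin.isValue]
    rw [if_neg (by decide), if_neg (by decide)]
    omega

section K

variable {K : Type} [Fintype K] [DecidableEq K]

open scoped Classical in
/-- the distribution of the numbers of zeros modulo `p` for polynomials with symmetric Galois
groups and linearly disjoint splitting fields -/
theorem dist (f : K → ℤ[X]) (hf : ∀ k, f k ≠ 0)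
    (HS : ∀ π : (k : K) → Equiv.Perm {θ : AlgebraicClosure ℚ // aeval θ (f k) = 0},
      ∃ σ : AlgebraicClosure ℚ ≃ₐ[ℚ] AlgebraicClosure ℚ, ∀ k θ, σ θ.1 = (π k θ).1)
    (F : (K → Fin 3) → ℝ) :
    Tendsto (M fun p => F (fun k => cl (om (f k) p))) atTop
      (𝓝 (∑ a : K → Fin 3, F a * ∏ k,
        ((nq (Nat.card {θ : AlgebraicClosure ℚ // aeval θ (f k) = 0}) (a k) : ℝ) /
          (Nat.card {θ : AlgebraicClosure ℚ // aeval θ (f k) = 0}).factorial))) := by
  have hZQ : algebraMap ℤ (AlgebraicClosure ℚ) = Int.castRingHom (AlgebraicClosure ℚ) :=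
    RingHom.ext_int _ _
  have hfin : ∀ k, {θ : AlgebraicClosure ℚ | aeval θ (f k) = 0}.Finite := by
    intro k
    have h1 : ((f k).map (Int.castRingHom (AlgebraicClosure ℚ))) ≠ 0 :=
      (Polynomial.map_ne_zero_iff (Int.castRingHom (AlgebraicClosure ℚ)).injective_int).2 (hf k)
    refine (Polynomial.finite_setOfPred_isRoot h1).subset ?_
    intro β hβ
    have h2 : aeval β (f k) = 0 := hβ
    change ((f k).map (Int.castRingHom (AlgebraicClosure ℚ))).IsRoot β
    rw [IsRoot.def, eval_map]
    rw [aeval_def, hZQ] at h2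
    exact h2
  set s0 : Set (AlgebraicClosure ℚ) := ⋃ k, {θ | aeval θ (f k) = 0} with hs0
  have hs0f : s0.Finite := Set.finite_iUnion hfin
  obtain ⟨L, iF, iN, iG, j, hj, hτ⟩ := exL2 s0 hs0f
  have hZL : algebraMap ℤ L = Int.castRingHom L := RingHom.ext_int _ _
  have hjs : ∀ k, ∀ θ : AlgebraicClosure ℚ, aeval θ (f k) = 0 → ∃ y, j y = θ := fun k θ hθ =>
    hj θ (Set.mem_iUnion.2 ⟨k, hθ⟩)
  have hja : ∀ (h : ℤ[X]) (y : L), aeval (j y) h = 0 ↔ aeval y h = 0 := by
    intro h y
    rw [aeval_def, aeval_def, hZQ, hZL]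
    have h4 := Polynomial.hom_eval₂ h (Int.castRingHom L) j y
    have h5 : j.comp (Int.castRingHom L) = Int.castRingHom (AlgebraicClosure ℚ) := RingHom.ext_int _ _
    rw [h5] at h4
    rw [← h4, map_eq_zero_iff j j.injective]
  -- the roots in `L`
  let RL : K → Type := fun k => {θ : L // aeval θ (f k) = 0}
  let eR : (k : K) → RL k ≃ {θ : AlgebraicClosure ℚ // aeval θ (f k) = 0} := fun k =>
    Equiv.ofBijective (fun θ => ⟨j θ.1, (hja (f k) θ.1).2 θ.2⟩) ⟨fun x y hxy =>
      Subtype.ext (j.injective (congrArg Subtype.val hxy)), fun θ => by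
        obtain ⟨y, hy⟩ := hjs k θ.1 θ.2
        exact ⟨⟨y, (hja (f k) y).1 (by rw [hy]; exact θ.2)⟩, Subtype.ext hy⟩⟩
  haveI : ∀ k, Finite {θ : AlgebraicClosure ℚ // aeval θ (f k) = 0} := fun k => (hfin k).to_subtype
  haveI : ∀ k, Finite (RL k) := fun k => Finite.of_equiv _ (eR k).symm
  haveI : ∀ k, Fintype (RL k) := fun k => Fintype.ofFinite _
  have hcardR : ∀ k, Fintype.card (RL k) = Nat.card {θ : AlgebraicClosure ℚ // aeval θ (f k) = 0} := by
    intro k
    rw [← Nat.card_eq_fintype_card]
    exact Nat.card_congr (eR k)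
  -- the action
  have hg : ∀ (g : Gal(L/ℚ)) (h : ℤ[X]) (y : L), aeval y h = 0 → aeval (g y) h = 0 := by
    intro g h y hy
    rw [aeval_def, hZL] at hy ⊢
    have h4 := Polynomial.hom_eval₂ h (Int.castRingHom L) (g : L →+* L) y
    have h5 : (g : L →+* L).comp (Int.castRingHom L) = Int.castRingHom L := RingHom.ext_int _ _
    rw [h5, hy, map_zero] at h4
    exact h4.symm
  let ρ : Gal(L/ℚ) →* ((k : K) → Equiv.Perm (RL k)) :=
    { toFun := fun g k =>
        { toFun := fun θ => ⟨g θ.1, hg g (f k) θ.1 θ.2⟩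
          invFun := fun θ => ⟨g⁻¹ θ.1, hg g⁻¹ (f k) θ.1 θ.2⟩
          left_inv := fun θ => Subtype.ext (g.symm_apply_apply θ.1)
          right_inv := fun θ => Subtype.ext (g.apply_symm_apply θ.1) }
      map_one' := by
        funext k
        ext θ
        rfl
      map_mul' := fun g h => by
        funext k
        ext θ
        rfl }
  have hρ : ∀ (g : Gal(L/ℚ)) (k : K) (θ : RL k), ((ρ g k θ) : RL k).1 = g θ.1 := fun _ _ _ => rfl
  have hsurj : ∀ π : (k : K) → Equiv.Perm (RL k), ∃ g, ρ g = π := by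
    intro π
    obtain ⟨σ, hσ⟩ := HS (fun k => (eR k).permCongr (π k))
    obtain ⟨τ, hτσ⟩ := hτ σ
    refine ⟨τ, ?_⟩
    funext k
    ext θ
    apply j.injective
    rw [hρ, hτσ]
    have h1 := hσ k (eR k θ)
    have h2 : ((eR k θ : {θ : AlgebraicClosure ℚ // aeval θ (f k) = 0}) : AlgebraicClosure ℚ) = j θ.1 := rfl
    rw [h2] at h1
    rw [h1, Equiv.permCongr_apply, Equiv.symm_apply_apply]
    rfl
  choose D hD hDp using fun k => root_count L j (f k) (hf k) (hjs k)
  have hfixg : ∀ (g : Gal(L/ℚ)) k, Nat.card {θ : L // aeval θ (f k) = 0 ∧ g θ = θ} = fx (ρ g k) := by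
    intro g k
    unfold fx
    rw [← Fintype.card_subtype, ← Nat.card_eq_fintype_card]
    refine Nat.card_congr
      { toFun := fun x => ⟨⟨x.1, x.2.1⟩, Subtype.ext x.2.2⟩
        invFun := fun x => ⟨x.1.1, x.1.2, congrArg Subtype.val x.2⟩
        left_inv := fun x => rfl
        right_inv := fun x => rfl }
  have hG : (0 : ℝ) < Nat.card Gal(L/ℚ) := by exact_mod_cast Nat.card_pos
  have hmain := cheb_mean L (fun g => F (fun k => cl (fx (ρ g k))))
    (fun p => F (fun k => cl (om (f k) p))) (∏ k, D k) (prod_pos fun k _ => hD k) (by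
      intro p _ hp φ g hφ
      congr 1
      funext k
      rw [hDp k p (fun h => hp (h.trans (dvd_prod_of_mem D (mem_univ k)))) φ g hφ, hfixg])
  convert hmain using 2
  -- the count
  have hker : ∀ π : (k : K) → Equiv.Perm (RL k),
      ((univ.filter (fun g : Gal(L/ℚ) => ρ g = π)).card : ℝ) = Nat.card ρ.ker := by
    intro π
    have h1 := card_fib ρ (fun b => b = π) (fun b _ => hsurj b)
    rw [← Fintype.card_subtype, ← Nat.card_eq_fintype_card, h1]
    have h2 : Nat.card {b : (k : K) → Equiv.Perm (RL k) // b = π} = 1 := by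
      rw [Nat.card_eq_fintype_card, Fintype.card_subtype_eq]
    rw [h2, mul_one]
  have hGH : (Nat.card Gal(L/ℚ) : ℝ) = Nat.card ρ.ker * ∏ k, ((Fintype.card (RL k)).factorial : ℝ) := by
    have h1 := card_fib ρ (fun _ => True) (fun b _ => hsurj b)
    have h2 : Nat.card {a : Gal(L/ℚ) // True} = Nat.card Gal(L/ℚ) :=
      Nat.card_congr (Equiv.subtypeUnivEquiv fun _ => trivial)
    have h3 : Nat.card {b : (k : K) → Equiv.Perm (RL k) // True} = ∏ k, (Fintype.card (RL k)).factorial := by
      rw [Nat.card_congr (Equiv.subtypeUnivEquiv fun _ => trivial), Nat.card_eq_fintype_card,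
        Fintype.card_pi]
      exact prod_congr rfl fun k _ => Fintype.card_perm
    rw [h2, h3] at h1
    rw [h1]
    push_cast
    rfl
  have hsum1 : ∑ g : Gal(L/ℚ), F (fun k => cl (fx (ρ g k))) =
      Nat.card ρ.ker * ∑ π : (k : K) → Equiv.Perm (RL k), F (fun k => cl (fx (π k))) := by
    rw [← Finset.sum_fiberwise univ (fun g => ρ g) (fun g => F (fun k => cl (fx (ρ g k)))), mul_sum]
    refine sum_congr rfl fun π _ => ?_
    rw [← hker π]
    have h1 : ∀ g ∈ univ.filter (fun g : Gal(L/ℚ) => ρ g = π), F (fun k => cl (fx (ρ g k))) =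
        F (fun k => cl (fx (π k))) := fun g hg => by rw [(mem_filter.1 hg).2]
    rw [sum_congr rfl h1, sum_const, nsmul_eq_mul]
  have hsum2 : ∑ π : (k : K) → Equiv.Perm (RL k), F (fun k => cl (fx (π k))) =
      ∑ a : K → Fin 3, F a * ∏ k, (nq (Fintype.card (RL k)) (a k) : ℝ) := by
    rw [← Finset.sum_fiberwise univ (fun (π : (k : K) → Equiv.Perm (RL k)) k => cl (fx (π k)))
      (fun π => F (fun k => cl (fx (π k))))]
    refine sum_congr rfl fun a _ => ?_
    have h1 : ∀ π ∈ univ.filter (fun π : (k : K) → Equiv.Perm (RL k) => (fun k => cl (fx (π k))) = a),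
        F (fun k => cl (fx (π k))) = F a := fun π hπ => by rw [(mem_filter.1 hπ).2]
    rw [sum_congr rfl h1, sum_const, nsmul_eq_mul, mul_comm]
    congr 1
    have h2 : univ.filter (fun π : (k : K) → Equiv.Perm (RL k) => (fun k => cl (fx (π k))) = a) =
        Fintype.piFinset (fun k => univ.filter (fun π : Equiv.Perm (RL k) => cl (fx π) = a k)) := by
      ext π
      rw [mem_filter, Fintype.mem_piFinset]
      simp only [mem_univ, true_and, mem_filter]
      exact funext_iff
    rw [h2, Fintype.card_piFinset]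
    push_cast
    refine prod_congr rfl fun k _ => ?_
    have h3 := card_fx (RL k) (a k)
    refine Eq.trans ?_ (congrArg (Nat.cast : ℕ → ℝ) h3)
    refine congrArg (fun t : Finset (Equiv.Perm (RL k)) => (t.card : ℝ)) ?_
    ext π
    simp only [mem_filter, mem_univ, true_and]
  rw [hsum1, hsum2, hGH]
  have hk0 : (Nat.card ρ.ker : ℝ) ≠ 0 := by
    have : 0 < Nat.card ρ.ker := Nat.card_pos
    exact_mod_cast this.ne'
  have hP0 : (∏ k, ((Fintype.card (RL k)).factorial : ℝ)) ≠ 0 :=
    prod_ne_zero_iff.2 fun k _ => by exact_mod_cast Nat.factorial_ne_zero _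
  rw [mul_div_mul_left _ _ hk0, sum_div]
  refine sum_congr rfl fun a _ => ?_
  rw [prod_div_distrib, mul_div_assoc]
  congr 2
  · exact prod_congr rfl fun k _ => by rw [hcardR]
  · exact prod_congr rfl fun k _ => by rw [hcardR]

end K

end Pool.Agent.W5h36.EL
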