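import Pool.Agent.W5h36.EL.Chi

/-! Products of quadratic polynomials. -/

set_option autoImplicit false

namespace Pool.Agent.W5h36.EL

open Polynomial Filter Topology Finset
open Pool.Agent.W401.Cheb Pool.Agent.W262.TW Pool.Agent.W262.RK

lemma M_le_of (a b : ℕ → ℝ) (D : ℕ) (hD : 0 < D) (H c : ℝ) (hH : ∀ p, a p ≤ H)
    (h : ∀ p, p.Prime → ¬ p ∣ D → a p ≤ b p) (hb : Tendsto (M b) atTop (𝓝 c)) (δ : ℝ) (hδ : 0 < δ) :
    ∀ᶠ N in atTop, M a N ≤ c + δ := by
  have h1 : Tendsto (M fun p => if p ∣ D then H else b p) atTop (𝓝 c) :=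
    M_congr hD (fun p _ hp => if_neg hp) hb
  filter_upwards [h1.eventually (gt_mem_nhds (show c < c + δ by linarith))] with N hN
  refine (M_mono (fun p hp => ?_) N).trans hN.le
  split_ifs with h2
  · exact hH p
  · exact h p hp h2

/-- the discriminant -/
def dsc (h : ℤ[X]) : ℤ := (h.coeff 1) ^ 2 - 4 * h.coeff 2 * h.coeff 0

/-- the resultant -/
def res (h g : ℤ[X]) : ℤ := (h.coeff 2 * g.coeff 0 - g.coeff 2 * h.coeff 0) ^ 2 -
  (h.coeff 2 * g.coeff 1 - g.coeff 2 * h.coeff 1) * (h.coeff 1 * g.coeff 0 - g.coeff 1 * h.coeff 0)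

lemma res_comm (h g : ℤ[X]) : res h g = res g h := by
  unfold res
  ring

lemma eval₂_quad {R : Type*} [CommRing R] (h : ℤ[X]) (hd : h.natDegree = 2) (x : R) :
    eval₂ (Int.castRingHom R) x h = h.coeff 2 * x ^ 2 + h.coeff 1 * x + h.coeff 0 := by
  rw [eval₂_eq_sum_range, hd]
  simp only [sum_range_succ, range_zero, sum_empty, eq_intCast]
  ring

lemma eval_quad (h : ℤ[X]) (hd : h.natDegree = 2) (x : ℤ) :
    h.eval x = h.coeff 2 * x ^ 2 + h.coeff 1 * x + h.coeff 0 := by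
  have h1 := eval₂_quad h hd x
  rw [Int.cast_id, Int.cast_id, Int.cast_id] at h1
  rw [← h1, eval₂_eq_eval_map]
  congr 1
  rw [show Int.castRingHom ℤ = RingHom.id ℤ from RingHom.ext_int _ _, Polynomial.map_id]

lemma dsc_not_sq (h : ℤ[X]) (hd : h.natDegree = 2) (hi : Irreducible (h.map (Int.castRingHom ℚ))) :
    ¬ IsSquare (dsc h) := by
  rintro ⟨t, ht⟩
  have ha : h.coeff 2 ≠ 0 := by
    have h1 : h.leadingCoeff ≠ 0 := by
      rw [Ne, leadingCoeff_eq_zero]
      rintro rfl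
      simp at hd
    rwa [leadingCoeff, hd] at h1
  have haQ : (h.coeff 2 : ℚ) ≠ 0 := by exact_mod_cast ha
  have htQ : (h.coeff 1 : ℚ) ^ 2 - 4 * h.coeff 2 * h.coeff 0 = t * t := by
    have := congrArg (Int.cast : ℤ → ℚ) ht
    unfold dsc at this
    push_cast at this
    exact this
  have h1 : (h.map (Int.castRingHom ℚ)).IsRoot ((t - h.coeff 1) / (2 * h.coeff 2)) := by
    rw [IsRoot.def, eval_map, eval₂_quad h hd]
    field_simp
    linear_combination -htQ
  have h2 := degree_eq_one_of_irreducible_of_root hi h1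
  have h3 : (h.map (Int.castRingHom ℚ)).natDegree = 1 := natDegree_eq_of_degree_eq_some h2
  rw [natDegree_map_eq_of_injective (Int.castRingHom ℚ).injective_int, hd] at h3
  norm_num at h3

/-- two different zeros -/
lemma res_eq {F : Type*} [Field F] (a b c a' b' c' x y : F) (hxy : x ≠ y)
    (hx : a * x ^ 2 + b * x + c = 0) (hy : a * y ^ 2 + b * y + c = 0) :
    a ^ 2 * ((a' * x ^ 2 + b' * x + c') * (a' * y ^ 2 + b' * y + c')) =
      (a * c' - a' * c) ^ 2 - (a * b' - a' * b) * (b * c' - b' * c) := by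
  have h1 : a * (x + y) + b = 0 := by
    have h2 : (x - y) * (a * (x + y) + b) = 0 := by linear_combination hx - hy
    exact (mul_eq_zero.1 h2).resolve_left (sub_ne_zero.2 hxy)
  have hb : b = -(a * (x + y)) := by linear_combination h1
  have hc : c = a * (x * y) := by
    rw [hb] at hx
    linear_combination hx
  rw [hb, hc]
  ring

lemma res_ne_zero (h g : ℤ[X]) (hd : h.natDegree = 2) (hdg : g.natDegree = 2)
    (hi : Irreducible (h.map (Int.castRingHom ℚ))) (hig : Irreducible (g.map (Int.castRingHom ℚ)))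
    (hass : ¬ Associated (h.map (Int.castRingHom ℚ)) (g.map (Int.castRingHom ℚ))) :
    res h g ≠ 0 := by
  intro h0
  have hZQ : algebraMap ℤ (AlgebraicClosure ℚ) = Int.castRingHom (AlgebraicClosure ℚ) :=
    RingHom.ext_int _ _
  have hcop : IsCoprime (h.map (Int.castRingHom ℚ)) (g.map (Int.castRingHom ℚ)) := by
    rw [hi.coprime_iff_not_dvd]
    exact fun h1 => hass (hi.associated_of_dvd hig h1)
  have hno : ∀ x : AlgebraicClosure ℚ, aeval x h = 0 → aeval x g ≠ 0 := by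
    intro x hx hx'
    obtain ⟨u, v, huv⟩ := hcop
    have h2 := congrArg (aeval x) huv
    have hZQ1 : algebraMap ℤ ℚ = Int.castRingHom ℚ := RingHom.ext_int _ _
    rw [map_add, map_mul, map_mul, map_one, ← hZQ1, aeval_map_algebraMap, aeval_map_algebraMap, hx,
      hx', mul_zero, mul_zero, add_zero] at h2
    exact zero_ne_one h2
  have h1 := nroots h hi
  rw [hd] at h1
  haveI : Finite {θ : AlgebraicClosure ℚ // aeval θ h = 0} :=
    Nat.finite_of_card_ne_zero (by rw [h1]; norm_num)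
  haveI : Fintype {θ : AlgebraicClosure ℚ // aeval θ h = 0} := Fintype.ofFinite _
  rw [Nat.card_eq_fintype_card] at h1
  obtain ⟨x, y, hxy⟩ := Fintype.one_lt_card_iff.1 (show 1 < Fintype.card
    {θ : AlgebraicClosure ℚ // aeval θ h = 0} by omega)
  have hx := x.2
  have hy := y.2
  have hgx := hno x.1 hx
  have hgy := hno y.1 hy
  have ha : (h.coeff 2 : AlgebraicClosure ℚ) ≠ 0 := by
    have h1 : h.leadingCoeff ≠ 0 := by
      rw [Ne, leadingCoeff_eq_zero]
      rintro rfl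
      simp at hd
    rw [leadingCoeff, hd] at h1
    exact_mod_cast h1
  rw [aeval_def, hZQ, eval₂_quad _ hd] at hx hy
  rw [aeval_def, hZQ, eval₂_quad _ hdg] at hgx hgy
  have h2 := res_eq (h.coeff 2 : AlgebraicClosure ℚ) (h.coeff 1) (h.coeff 0) (g.coeff 2) (g.coeff 1)
    (g.coeff 0) x.1 y.1 (fun h => hxy (Subtype.ext h)) hx hy
  have h3 : ((res h g : ℤ) : AlgebraicClosure ℚ) = 0 := by rw [h0, Int.cast_zero]
  unfold res at h3
  push_cast at h3
  rw [h3] at h2
  exact (mul_ne_zero (pow_ne_zero 2 ha) (mul_ne_zero hgx hgy)) h2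

/-- zeros modulo `p` -/
lemma split_iff (h : ℤ[X]) (hd : h.natDegree = 2) (p : ℕ) [hp : Fact p.Prime] (hp2 : p ≠ 2)
    (hpa : ¬ (p : ℤ) ∣ h.coeff 2) (hpD : ¬ (p : ℤ) ∣ dsc h) :
    (∃ θ : ℤ, (p : ℤ) ∣ h.eval θ) ↔ jacobiSym (dsc h) p = 1 := by
  have hD0 : ((dsc h : ℤ) : ZMod p) ≠ 0 := by
    rwa [Ne, ZMod.intCast_zmod_eq_zero_iff_dvd]
  have ha0 : ((h.coeff 2 : ℤ) : ZMod p) ≠ 0 := by
    rwa [Ne, ZMod.intCast_zmod_eq_zero_iff_dvd]
  have h20 : (2 : ZMod p) ≠ 0 := by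
    intro h1
    have h2 : ((2 : ℕ) : ZMod p) = 0 := by exact_mod_cast h1
    rw [ZMod.natCast_eq_zero_iff] at h2
    exact hp2 ((Nat.prime_dvd_prime_iff_eq hp.out Nat.prime_two).1 h2)
  rw [← jacobiSym.legendreSym.to_jacobiSym, legendreSym.eq_one_iff p hD0]
  have hDc : ((dsc h : ℤ) : ZMod p) = (h.coeff 1 : ZMod p) ^ 2 - 4 * h.coeff 2 * h.coeff 0 := by
    unfold dsc
    push_cast
    ring
  constructor
  · rintro ⟨θ, hθ⟩
    rw [eval_quad h hd, ← ZMod.intCast_zmod_eq_zero_iff_dvd] at hθ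
    push_cast at hθ
    refine ⟨2 * h.coeff 2 * θ + h.coeff 1, ?_⟩
    rw [hDc]
    linear_combination -4 * (h.coeff 2 : ZMod p) * hθ
  · rintro ⟨t, ht⟩
    rw [hDc] at ht
    set y : ZMod p := (t - h.coeff 1) / (2 * h.coeff 2) with hy
    refine ⟨(y.val : ℤ), ?_⟩
    rw [eval_quad h hd, ← ZMod.intCast_zmod_eq_zero_iff_dvd]
    push_cast
    rw [ZMod.natCast_zmod_val, hy]
    have h3 : (4 : ZMod p) * h.coeff 2 ≠ 0 := mul_ne_zero (by
      rw [show (4 : ZMod p) = 2 * 2 by norm_num]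
      exact mul_ne_zero h20 h20) ha0
    have h4 : (4 : ZMod p) * h.coeff 2 * ((h.coeff 2 : ZMod p) * ((t - h.coeff 1) / (2 * h.coeff 2)) ^ 2 +
        h.coeff 1 * ((t - h.coeff 1) / (2 * h.coeff 2)) + h.coeff 0) = 0 := by
      have h5 : (2 * (h.coeff 2 : ZMod p)) * ((t - h.coeff 1) / (2 * h.coeff 2)) = t - h.coeff 1 :=
        mul_div_cancel₀ _ (mul_ne_zero h20 ha0)
      have h6 : (2 * (h.coeff 2 : ZMod p) * ((t - h.coeff 1) / (2 * h.coeff 2)) + h.coeff 1) ^ 2 = t * t := by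
        rw [h5]
        ring
      linear_combination h6 - ht
    exact (mul_eq_zero.1 h4).resolve_left h3

section K

variable {K : Type} [Fintype K] [DecidableEq K]

lemma Th_mem {f : K → ℤ[X]} {i : K} {p : ℕ} {N : Finset K} (h : N ∈ Th f i p) :
    ∃ θ : ℤ, (p : ℤ) ∣ (f i).eval θ ∧ N = ngs (fun k => (f k).eval θ) i p := by
  unfold Th at h
  rw [mem_image] at h
  obtain ⟨θ, hθ, rfl⟩ := h
  exact ⟨θ, (mem_filter.1 hθ).2, rfl⟩

lemma mem_ngs {a : K → ℤ} {i k : K} {p : ℕ} :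
    k ∈ ngs a i p ↔ k ≠ i ∧ jacobiSym (a k) p = -1 := by
  unfold ngs
  rw [mem_filter]
  simp

lemma MX_le_one {I : Finset K} {T : Finset (Finset K)}
    (h : ∀ N ∈ T, ∀ N' ∈ T, N \ I = N' \ I → N = N') : MX I T ≤ 1 := by
  unfold MX
  refine Finset.sup_le fun s _ => ?_
  rw [card_le_one]
  intro N hN N' hN'
  rw [mem_filter] at hN hN'
  exact h N hN.1 N' hN'.1 (hN.2.trans hN'.2.symm)

lemma MX_single (f : K → ℤ[X]) (i : K) (p : ℕ) : MX {i} (Th f i p) ≤ 1 := by
  refine MX_le_one fun N hN N' hN' h => ?_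
  obtain ⟨θ, -, rfl⟩ := Th_mem hN
  obtain ⟨θ', -, rfl⟩ := Th_mem hN'
  rw [sdiff_singleton_eq_erase, sdiff_singleton_eq_erase, erase_eq_of_notMem, erase_eq_of_notMem] at h
  · exact h
  · rw [mem_ngs]
    simp
  · rw [mem_ngs]
    simp

lemma MX_pair (f : K → ℤ[X]) (hf : ∀ k, (f k).natDegree = 2) (i j : K) (p : ℕ) [hp : Fact p.Prime]
    (hpa : ¬ (p : ℤ) ∣ (f i).coeff 2) (hR : jacobiSym (res (f i) (f j)) p = 1) :
    MX {i, j} (Th f i p) ≤ 1 := by
  refine MX_le_one fun N hN N' hN' h => ?_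
  obtain ⟨θ, hθ, rfl⟩ := Th_mem hN
  obtain ⟨θ', hθ', rfl⟩ := Th_mem hN'
  have hsame : jacobiSym ((f j).eval θ) p = jacobiSym ((f j).eval θ') p := by
    by_cases h1 : (θ : ZMod p) = θ'
    · have h4 : (p : ℤ) ∣ θ - θ' := by
        rw [← ZMod.intCast_zmod_eq_zero_iff_dvd]
        push_cast
        rw [h1, sub_self]
      have h3 : ((f j).eval θ) % p = ((f j).eval θ') % p :=
        Int.emod_eq_emod_iff_emod_sub_eq_zero.2
          (Int.emod_eq_zero_of_dvd (h4.trans (sub_dvd_eval_sub θ θ' (f j))))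
      rw [jacobiSym.mod_left, h3, ← jacobiSym.mod_left]
    · have hx := hθ
      have hy := hθ'
      rw [eval_quad _ (hf i), ← ZMod.intCast_zmod_eq_zero_iff_dvd] at hx hy
      push_cast at hx hy
      have h2 := res_eq (F := ZMod p) ((f i).coeff 2) ((f i).coeff 1) ((f i).coeff 0)
        ((f j).coeff 2) ((f j).coeff 1) ((f j).coeff 0) θ θ' h1 hx hy
      have h3 : (((f i).coeff 2 ^ 2 * ((f j).eval θ * (f j).eval θ') : ℤ) : ZMod p) =
          ((res (f i) (f j) : ℤ) : ZMod p) := by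
        rw [eval_quad _ (hf j), eval_quad _ (hf j)]
        unfold res
        push_cast
        exact h2
      have h4 : jacobiSym ((f i).coeff 2 ^ 2 * ((f j).eval θ * (f j).eval θ')) p =
          jacobiSym (res (f i) (f j)) p := by
        rw [jacobiSym.mod_left, (ZMod.intCast_eq_intCast_iff' _ _ p).1 h3, ← jacobiSym.mod_left]
      rw [hR, jacobiSym.mul_left, jacobiSym.mul_left, sq, jacobiSym.mul_left] at h4
      have ha0 : (((f i).coeff 2 : ℤ) : ZMod p) ≠ 0 := by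
        rwa [Ne, ZMod.intCast_zmod_eq_zero_iff_dvd]
      have h5 : jacobiSym ((f i).coeff 2) p * jacobiSym ((f i).coeff 2) p = 1 := by
        rw [← jacobiSym.legendreSym.to_jacobiSym]
        rcases legendreSym.eq_one_or_neg_one p ha0 with h6 | h6 <;> rw [h6] <;> norm_num
      rw [h5, one_mul] at h4
      rcases jacobiSym.trichotomy ((f j).eval θ) p with h6 | h6 | h6 <;>
        rcases jacobiSym.trichotomy ((f j).eval θ') p with h7 | h7 | h7 <;>
        rw [h6, h7] at h4 ⊢ <;> norm_num at h4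
  ext k
  by_cases hki : k = i
  · subst hki
    rw [mem_ngs, mem_ngs]
    simp
  · by_cases hkj : k = j
    · subst hkj
      rw [mem_ngs, mem_ngs, hsame]
    · have h1 := Finset.ext_iff.1 h k
      rw [Finset.mem_sdiff, Finset.mem_sdiff] at h1
      have h2 : k ∉ ({i, j} : Finset K) := by
        rw [mem_insert, mem_singleton]
        tauto
      tauto

end K

end Pool.Agent.W5h36.EL
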