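import Pool.Agent.W5h36.EL.Quad

/-! Products of quadratic polynomials: the main result. -/

set_option autoImplicit false

namespace Pool.Agent.W5h36.EL

open Polynomial Filter Topology Finset
open Pool.Agent.W401.Cheb Pool.Agent.W262.TW Pool.Agent.W262.RK

lemma tM_add {a b : ℕ → ℝ} {x y : ℝ} (ha : Tendsto (M a) atTop (𝓝 x)) (hb : Tendsto (M b) atTop (𝓝 y)) :
    Tendsto (M fun p => a p + b p) atTop (𝓝 (x + y)) :=
  (ha.add hb).congr fun N => (M_add a b N).symm

lemma tM_smul {a : ℕ → ℝ} {x : ℝ} (c : ℝ) (ha : Tendsto (M a) atTop (𝓝 x)) :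
    Tendsto (M fun p => c * a p) atTop (𝓝 (c * x)) :=
  (ha.const_mul c).congr fun N => (M_smul c a N).symm

lemma tendsto_A (D R : ℤ) (hD : ¬ IsSquare D) (hR : R ≠ 0) :
    ∃ c ≤ (3 / 4 : ℝ), Tendsto (M fun p => (1 + (jacobiSym D p : ℝ)) / 2 +
      (1 + (jacobiSym D p : ℝ)) * (1 - (jacobiSym R p : ℝ)) / 4) atTop (𝓝 c) := by
  have hD0 : D ≠ 0 := by
    rintro rfl
    exact hD (IsSquare.zero)
  obtain ⟨c1, h1, h1', -⟩ := chi_mean' R hR
  obtain ⟨c2, h2, h2', -⟩ := chi_mean' (D * R) (mul_ne_zero hD0 hR)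
  have h3 := chi_mean D hD
  have h4 := tM_add (tM_add (tM_add (tM_smul (3 / 4) M_one) (tM_smul (3 / 4) h3))
    (tM_smul (-1 / 4) h1)) (tM_smul (-1 / 4) h2)
  refine ⟨_, ?_, h4.congr fun N => ?_⟩
  · linarith
  · congr 1
    funext p
    rw [jacobiSym.mul_left]
    push_cast
    ring

lemma om_le_two (h : ℤ[X]) (hd : h.natDegree = 2) (p : ℕ) [hp : Fact p.Prime]
    (hpa : ¬ (p : ℤ) ∣ h.coeff 2) : om h p ≤ 2 := by
  classical
  have ha0 : ((h.coeff 2 : ℤ) : ZMod p) ≠ 0 := by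
    rwa [Ne, ZMod.intCast_zmod_eq_zero_iff_dvd]
  have hm : (h.map (Int.castRingHom (ZMod p))) ≠ 0 := by
    intro h1
    have h2 := congrArg (fun q => q.coeff 2) h1
    rw [coeff_map, coeff_zero] at h2
    exact ha0 h2
  rw [om_eq, Nat.card_eq_fintype_card, Fintype.card_subtype]
  have h1 : (univ.filter (fun t : ZMod p => eval₂ (Int.castRingHom (ZMod p)) t h = 0)) ⊆
      (h.map (Int.castRingHom (ZMod p))).roots.toFinset := by
    intro t ht
    rw [Multiset.mem_toFinset, mem_roots hm, IsRoot.def, eval_map]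
    exact (mem_filter.1 ht).2
  refine (card_le_card h1).trans ((Multiset.toFinset_card_le _).trans ((card_roots' _).trans ?_))
  exact natDegree_map_le.trans hd.le

section K

variable {K : Type} [Fintype K] [DecidableEq K]

lemma MX_two (f : K → ℤ[X]) (hf : ∀ k, (f k).natDegree = 2) (i j : K) (p : ℕ) [hp : Fact p.Prime]
    (hp2 : p ≠ 2) (hpa : ¬ (p : ℤ) ∣ (f i).coeff 2) (hpD : ¬ (p : ℤ) ∣ dsc (f i))
    (hpR : ¬ (p : ℤ) ∣ res (f i) (f j)) :
    (MX {i, j} (Th f i p) : ℝ) ≤ (1 + (jacobiSym (dsc (f i)) p : ℝ)) / 2 +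
      (1 + (jacobiSym (dsc (f i)) p : ℝ)) * (1 - (jacobiSym (res (f i) (f j)) p : ℝ)) / 4 := by
  classical
  have hD0 : ((dsc (f i) : ℤ) : ZMod p) ≠ 0 := by
    rwa [Ne, ZMod.intCast_zmod_eq_zero_iff_dvd]
  have hR0 : ((res (f i) (f j) : ℤ) : ZMod p) ≠ 0 := by
    rwa [Ne, ZMod.intCast_zmod_eq_zero_iff_dvd]
  have hD1 := legendreSym.eq_one_or_neg_one p hD0
  have hR1 := legendreSym.eq_one_or_neg_one p hR0
  rw [jacobiSym.legendreSym.to_jacobiSym] at hD1 hR1
  rcases hD1 with h1 | h1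
  · rcases hR1 with h2 | h2
    · have h3 := MX_pair f hf i j p hpa h2
      have h4 : (MX {i, j} (Th f i p) : ℝ) ≤ 1 := by exact_mod_cast h3
      rw [h1, h2]
      push_cast
      linarith
    · have h3 := (MX_le_card {i, j} (Th f i p)).trans ((Th_card_le f i p).trans (om_le_two _ (hf i) p hpa))
      have h4 : (MX {i, j} (Th f i p) : ℝ) ≤ 2 := by exact_mod_cast h3
      rw [h1, h2]
      push_cast
      linarith
  · have h3 : i ∉ SR f p := by
      unfold SR
      rw [mem_filter]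
      rintro ⟨-, h4⟩
      rw [split_iff _ (hf i) p hp2 hpa hpD, h1] at h4
      norm_num at h4
    rw [Th_empty h3, MX_empty, h1]
    norm_num

/-- the sums of the weights -/
theorem quad_W (f : K → ℤ[X]) (hf : ∀ k, (f k).natDegree = 2)
    (hf1 : ∀ k, Irreducible ((f k).map (Int.castRingHom ℚ)))
    (hf3 : ∀ k l, k ≠ l →
      ¬ Associated ((f k).map (Int.castRingHom ℚ)) ((f l).map (Int.castRingHom ℚ)))
    (I : Finset K) (hI : I.Nonempty) (δ : ℝ) (hδ : 0 < δ) :
    ∃ C : ℝ, ∀ x : ℕ, 3 ≤ x →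
      ∑ p ∈ PS 0 x, (WI f I p) ^ (1 : ℝ) / p ≤ (3 / 4 + δ) * Real.log (Real.log x) + C := by
  classical
  simp only [Real.rpow_one]
  have hc2 : ∀ k, (f k).coeff 2 ≠ 0 := by
    intro k
    have h1 : (f k).leadingCoeff ≠ 0 := by
      rw [Ne, leadingCoeff_eq_zero]
      intro h
      have := hf k
      rw [h] at this
      simp at this
    rwa [leadingCoeff, hf k] at h1
  have hD : ∀ k, ¬ IsSquare (dsc (f k)) := fun k => dsc_not_sq _ (hf k) (hf1 k)
  have hD0 : ∀ k, dsc (f k) ≠ 0 := by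
    intro k h
    exact hD k (h ▸ IsSquare.zero)
  rcases Nat.lt_or_ge I.card 3 with h3 | h3
  · have hc : I.card = 1 ∨ I.card = 2 := by
      have := card_pos.2 hI
      omega
    refine dens_up (WI f I) (Fintype.card K * 2 ^ Fintype.card K) (3 / 4 + δ) (WI_nonneg f I)
      (WI_le f I) ?_
    rcases hc with hc | hc
    · obtain ⟨i, rfl⟩ := card_eq_one.1 hc
      have h4 := tM_add (tM_smul (1 / 2) M_one) (tM_smul (1 / 2) (chi_mean _ (hD i)))
      have h5 := M_le_of (WI f {i}) _ (2 * (f i).coeff 2 * dsc (f i)).natAbs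
        (Int.natAbs_pos.2 (mul_ne_zero (mul_ne_zero two_ne_zero (hc2 i)) (hD0 i))) _ _ (WI_le f {i})
        (fun p hp hpD => ?_) h4 δ hδ
      · filter_upwards [h5] with N hN
        linarith
      · haveI : Fact p.Prime := ⟨hp⟩
        have hp2 : p ≠ 2 := by
          rintro rfl
          exact hpD (Int.natCast_dvd.1 ⟨(f i).coeff 2 * dsc (f i), by push_cast; ring⟩)
        have hpa : ¬ (p : ℤ) ∣ (f i).coeff 2 := fun h => hpD (Int.natCast_dvd.1
          ((h.mul_left 2).mul_right _))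
        have hpD' : ¬ (p : ℤ) ∣ dsc (f i) := fun h => hpD (Int.natCast_dvd.1 (h.mul_left _))
        unfold WI
        rw [sum_singleton, card_singleton, Nat.sub_self, pow_zero, div_one]
        have h6 : ((dsc (f i) : ℤ) : ZMod p) ≠ 0 := by
          rwa [Ne, ZMod.intCast_zmod_eq_zero_iff_dvd]
        have h7 := legendreSym.eq_one_or_neg_one p h6
        rw [jacobiSym.legendreSym.to_jacobiSym] at h7
        rcases h7 with h7 | h7
        · have h8 : (MX {i} (Th f i p) : ℝ) ≤ 1 := by exact_mod_cast MX_single f i p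
          rw [h7]
          push_cast
          linarith
        · have h8 : i ∉ SR f p := by
            unfold SR
            rw [mem_filter]
            rintro ⟨-, h4⟩
            rw [split_iff _ (hf i) p hp2 hpa hpD', h7] at h4
            norm_num at h4
          rw [Th_empty h8, MX_empty, h7]
          norm_num
    · obtain ⟨i, j, hij, rfl⟩ := card_eq_two.1 hc
      have hR : res (f i) (f j) ≠ 0 := res_ne_zero _ _ (hf i) (hf j) (hf1 i) (hf1 j) (hf3 i j hij)
      obtain ⟨ci, hci, hti⟩ := tendsto_A (dsc (f i)) (res (f i) (f j)) (hD i) hR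
      obtain ⟨cj, hcj, htj⟩ := tendsto_A (dsc (f j)) (res (f i) (f j)) (hD j) hR
      have h4 := tM_smul (1 / 2) (tM_add hti htj)
      have h5 := M_le_of (WI f {i, j}) _
        (2 * ((f i).coeff 2 * (f j).coeff 2) * (dsc (f i) * dsc (f j)) * res (f i) (f j)).natAbs
        (Int.natAbs_pos.2 (mul_ne_zero (mul_ne_zero (mul_ne_zero two_ne_zero
          (mul_ne_zero (hc2 i) (hc2 j))) (mul_ne_zero (hD0 i) (hD0 j))) hR)) _ _ (WI_le f {i, j})
        (fun p hp hpD => ?_) h4 δ hδ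
      · filter_upwards [h5] with N hN
        linarith
      · haveI : Fact p.Prime := ⟨hp⟩
        have hp2 : p ≠ 2 := by
          rintro rfl
          exact hpD (Int.natCast_dvd.1 ⟨((f i).coeff 2 * (f j).coeff 2) *
            (dsc (f i) * dsc (f j)) * res (f i) (f j), by push_cast; ring⟩)
        have hpai : ¬ (p : ℤ) ∣ (f i).coeff 2 := fun h => hpD (Int.natCast_dvd.1
          ((((h.mul_right _).mul_left 2).mul_right _).mul_right _))
        have hpaj : ¬ (p : ℤ) ∣ (f j).coeff 2 := fun h => hpD (Int.natCast_dvd.1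
          ((((h.mul_left _).mul_left 2).mul_right _).mul_right _))
        have hpDi : ¬ (p : ℤ) ∣ dsc (f i) := fun h => hpD (Int.natCast_dvd.1
          (((h.mul_right _).mul_left _).mul_right _))
        have hpDj : ¬ (p : ℤ) ∣ dsc (f j) := fun h => hpD (Int.natCast_dvd.1
          (((h.mul_left _).mul_left _).mul_right _))
        have hpR : ¬ (p : ℤ) ∣ res (f i) (f j) := fun h => hpD (Int.natCast_dvd.1 (h.mul_left _))
        have h6 := MX_two f hf i j p hp2 hpai hpDi hpR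
        have h7 := MX_two f hf j i p hp2 hpaj hpDj (by rwa [res_comm])
        rw [res_comm, pair_comm] at h7
        unfold WI
        rw [sum_pair hij, hc]
        norm_num
        linarith
  · choose C hC using fun k => om_sum (f k) (hf1 k)
    refine ⟨(∑ k ∈ I, C k) / 2 ^ (I.card - 1), fun x hx => ?_⟩
    have h1 : ∀ p, WI f I p / p ≤ (∑ k ∈ I, (om (f k) p : ℝ) / p) / 2 ^ (I.card - 1) := by
      intro p
      unfold WI
      rw [← sum_div, div_div, div_div, mul_comm]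
      refine div_le_div_of_nonneg_right (sum_le_sum fun k _ => ?_) (by positivity)
      exact_mod_cast (MX_le_card _ _).trans (Th_card_le f k p)
    refine (sum_le_sum fun p _ => h1 p).trans ?_
    rw [← sum_div, sum_comm]
    have h2 : ∑ k ∈ I, ∑ p ∈ PS 0 x, (om (f k) p : ℝ) / p ≤
        ∑ k ∈ I, (Real.log (Real.log x) + C k) := sum_le_sum fun k _ => hC k x hx
    rw [sum_add_distrib, sum_const, nsmul_eq_mul] at h2
    have h5 : (I.card : ℝ) / 2 ^ (I.card - 1) ≤ 3 / 4 := by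
      rw [div_le_div_iff₀ (by positivity) (by norm_num)]
      obtain ⟨q, hq⟩ : ∃ q, I.card = q + 3 := ⟨I.card - 3, by omega⟩
      rw [hq]
      have h6 : q + 3 ≤ 3 * 2 ^ q := by
        have : q < 2 ^ q := Nat.lt_two_pow_self
        omega
      have h7 : ((q + 3 : ℕ) : ℝ) ≤ 3 * 2 ^ q := by exact_mod_cast h6
      rw [show q + 3 - 1 = q + 2 from rfl, pow_add]
      linarith
    have h6 : 0 ≤ Real.log (Real.log x) := (Real.log_pos (one_lt_log hx)).le
    calc (∑ k ∈ I, ∑ p ∈ PS 0 x, (om (f k) p : ℝ) / p) / 2 ^ (I.card - 1) ≤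
          (I.card * Real.log (Real.log x) + ∑ k ∈ I, C k) / 2 ^ (I.card - 1) :=
          div_le_div_of_nonneg_right h2 (by positivity)
      _ = (I.card : ℝ) / 2 ^ (I.card - 1) * Real.log (Real.log x) +
          (∑ k ∈ I, C k) / 2 ^ (I.card - 1) := by ring
      _ ≤ _ := by
        have h7 := mul_le_mul_of_nonneg_right h5 h6
        have h8 := mul_nonneg hδ.le h6
        linarith

open scoped Classical in
/-- the density of the primes modulo which there is a zero -/
theorem quad_RP (f : K → ℤ[X]) (hf : ∀ k, (f k).natDegree = 2)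
    (hf1 : ∀ k, Irreducible ((f k).map (Int.castRingHom ℚ)))
    (i j k : K) (hij : ¬ IsSquare (dsc (f i) * dsc (f j))) (hik : ¬ IsSquare (dsc (f i) * dsc (f k)))
    (hjk : ¬ IsSquare (dsc (f j) * dsc (f k))) (δ : ℝ) (hδ : 0 < δ) :
    ∀ᶠ N in atTop, 7 / 8 - δ ≤ M (fun p => if p ∈ RP f then (1 : ℝ) else 0) N := by
  have hc2 : ∀ k, (f k).coeff 2 ≠ 0 := by
    intro k
    have h1 : (f k).leadingCoeff ≠ 0 := by
      rw [Ne, leadingCoeff_eq_zero]
      intro h
      have := hf k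
      rw [h] at this
      simp at this
    rwa [leadingCoeff, hf k] at h1
  have hD : ∀ k, ¬ IsSquare (dsc (f k)) := fun k => dsc_not_sq _ (hf k) (hf1 k)
  have hD0 : ∀ k, dsc (f k) ≠ 0 := by
    intro k h
    exact hD k (h ▸ IsSquare.zero)
  obtain ⟨c, hc, hc0, -⟩ := chi_mean' (dsc (f i) * dsc (f j) * dsc (f k))
    (mul_ne_zero (mul_ne_zero (hD0 i) (hD0 j)) (hD0 k))
  have h4 := tM_add (tM_add (tM_add (tM_add (tM_add (tM_add (tM_add (tM_smul (1 / 8) M_one)
    (tM_smul (-1 / 8) (chi_mean _ (hD i)))) (tM_smul (-1 / 8) (chi_mean _ (hD j))))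
    (tM_smul (-1 / 8) (chi_mean _ (hD k)))) (tM_smul (1 / 8) (chi_mean _ hij)))
    (tM_smul (1 / 8) (chi_mean _ hik))) (tM_smul (1 / 8) (chi_mean _ hjk))) (tM_smul (-1 / 8) hc)
  have h5 := M_le_of (fun p => if p ∈ RP f then (0 : ℝ) else 1) _
    (2 * ((f i).coeff 2 * (f j).coeff 2 * (f k).coeff 2) *
      (dsc (f i) * dsc (f j) * dsc (f k))).natAbs
    (Int.natAbs_pos.2 (mul_ne_zero (mul_ne_zero two_ne_zero
      (mul_ne_zero (mul_ne_zero (hc2 i) (hc2 j)) (hc2 k)))
      (mul_ne_zero (mul_ne_zero (hD0 i) (hD0 j)) (hD0 k)))) 1 _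
    (fun p => by split_ifs <;> norm_num) (fun p hp hpD => ?_) h4 (δ / 2) (by linarith)
  · have h6 : ∀ᶠ N in atTop, 1 - δ / 2 < M (fun _ => 1) N :=
      M_one.eventually (lt_mem_nhds (by linarith))
    filter_upwards [h5, h6] with N h7 h8
    have h9 : M (fun _ => (1 : ℝ)) N = M (fun p => (if p ∈ RP f then (1 : ℝ) else 0) +
        (if p ∈ RP f then (0 : ℝ) else 1)) N := by
      congr 1
      funext p
      split_ifs <;> norm_num
    rw [M_add] at h9
    linarith
  · haveI : Fact p.Prime := ⟨hp⟩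
    have hp2 : p ≠ 2 := by
      rintro rfl
      exact hpD (Int.natCast_dvd.1 ⟨((f i).coeff 2 * (f j).coeff 2 * (f k).coeff 2) *
        (dsc (f i) * dsc (f j) * dsc (f k)), by push_cast; ring⟩)
    have hgood : ∀ l : K, (f l).coeff 2 ∣ (f i).coeff 2 * (f j).coeff 2 * (f k).coeff 2 →
        dsc (f l) ∣ dsc (f i) * dsc (f j) * dsc (f k) → p ∉ RP f → jacobiSym (dsc (f l)) p = -1 := by
      intro l h1 h2 h3
      have hpa : ¬ (p : ℤ) ∣ (f l).coeff 2 := fun h => hpD (Int.natCast_dvd.1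
        ((((h.trans h1).mul_left 2)).mul_right _))
      have hpDl : ¬ (p : ℤ) ∣ dsc (f l) := fun h => hpD (Int.natCast_dvd.1
        ((h.trans h2).mul_left _))
      have h6 : ((dsc (f l) : ℤ) : ZMod p) ≠ 0 := by
        rwa [Ne, ZMod.intCast_zmod_eq_zero_iff_dvd]
      have h7 := legendreSym.eq_one_or_neg_one p h6
      rw [jacobiSym.legendreSym.to_jacobiSym] at h7
      rcases h7 with h7 | h7
      · exfalso
        apply h3
        rw [mem_RP f hp]
        exact ⟨l, mem_filter.2 ⟨mem_univ _, (split_iff _ (hf l) p hp2 hpa hpDl).2 h7⟩⟩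
      · exact h7
    have hval : ∀ l : K, (jacobiSym (dsc (f l)) p : ℝ) ≤ 1 := by
      intro l
      rcases jacobiSym.trichotomy (dsc (f l)) p with h | h | h <;> rw [h] <;> norm_num
    have hprod : (1 / 8 * 1 + -1 / 8 * (jacobiSym (dsc (f i)) p : ℝ) +
        -1 / 8 * (jacobiSym (dsc (f j)) p : ℝ) + -1 / 8 * (jacobiSym (dsc (f k)) p : ℝ) +
        1 / 8 * (jacobiSym (dsc (f i) * dsc (f j)) p : ℝ) +
        1 / 8 * (jacobiSym (dsc (f i) * dsc (f k)) p : ℝ) +
        1 / 8 * (jacobiSym (dsc (f j) * dsc (f k)) p : ℝ) +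
        -1 / 8 * (jacobiSym (dsc (f i) * dsc (f j) * dsc (f k)) p : ℝ)) =
        (1 - (jacobiSym (dsc (f i)) p : ℝ)) * (1 - (jacobiSym (dsc (f j)) p : ℝ)) *
          (1 - (jacobiSym (dsc (f k)) p : ℝ)) / 8 := by
      simp only [jacobiSym.mul_left]
      push_cast
      ring
    rw [hprod]
    by_cases h1 : p ∈ RP f
    · rw [if_pos h1]
      have e1 := sub_nonneg.2 (hval i)
      have e2 := sub_nonneg.2 (hval j)
      have e3 := sub_nonneg.2 (hval k)
      positivity
    · rw [if_neg h1, hgood i ((dvd_mul_right _ _).mul_right _) ((dvd_mul_right _ _).mul_right _) h1,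
        hgood j ((dvd_mul_left _ _).mul_right _) ((dvd_mul_left _ _).mul_right _) h1,
        hgood k (dvd_mul_left _ _) (dvd_mul_left _ _) h1]
      norm_num

/-- **products of quadratic polynomials** -/
theorem quad_main (f : K → ℤ[X]) (hf : ∀ k, (f k).natDegree = 2)
    (hf1 : ∀ k, Irreducible ((f k).map (Int.castRingHom ℚ)))
    (hf3 : ∀ k l, k ≠ l →
      ¬ Associated ((f k).map (Int.castRingHom ℚ)) ((f l).map (Int.castRingHom ℚ)))
    (i j k : K) (hij : ¬ IsSquare (dsc (f i) * dsc (f j))) (hik : ¬ IsSquare (dsc (f i) * dsc (f k)))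
    (hjk : ¬ IsSquare (dsc (f j) * dsc (f k))) :
    AA f ∧ ∀ ε : ℝ, 0 < ε → (∃ C : ℝ, ∀ X : ℕ, 3 ≤ X →
      ({d : ℤ | d.natAbs ≤ X ∧ Squarefree d ∧ Sel f d}.ncard : ℝ) ≤
        C * X * (Real.log X) ^ (-1 / 4 + ε)) ∧
      ∃ c : ℝ, 0 < c ∧ ∀ᶠ X : ℕ in atTop, c * X * (Real.log X) ^ (-1 / 8 - ε) ≤
        ({d : ℤ | d.natAbs ≤ X ∧ Squarefree d ∧ ELS f d}.ncard : ℝ) := by
  classical
  haveI : Nonempty K := ⟨i⟩
  have hf2 : ∀ k, Even (f k).natDegree := fun k => by rw [hf k]; exact even_two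
  have hRP := quad_RP f hf hf1 i j k hij hik hjk
  refine ⟨criterion f hf1 hf2 hf3 fun I hI => ?_, fun ε hε => ⟨?_, ?_⟩⟩
  · right
    right
    obtain ⟨C, hC⟩ := quad_W f hf hf1 hf3 I hI (1 / 32) (by norm_num)
    refine ⟨1, one_pos, le_rfl, 3 / 4 + 1 / 32, ⟨1 / 32, by norm_num, ?_⟩, C, hC⟩
    filter_upwards [hRP (1 / 32) (by norm_num)] with N hN
    linarith
  · obtain ⟨C, hC⟩ := upper f hf1 hf2 hf3 (3 / 4 + ε / 2) (by positivity) (fun _ => 1)
      (fun _ => ⟨one_pos, le_rfl⟩) (fun I hI => quad_W f hf hf1 hf3 I hI (ε / 2) (by positivity))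
      (ε / 2) (by positivity)
    refine ⟨C, fun X hX => ?_⟩
    have h1 := hC X hX
    rwa [show 3 / 4 + ε / 2 - 1 + ε / 2 = -1 / 4 + ε by ring] at h1
  · set ε' := min ε (1 / 2) with hε'
    have hε'0 : 0 < ε' := lt_min hε (by norm_num)
    have hε'1 : ε' ≤ 1 / 2 := min_le_right _ _
    have hε'2 : ε' ≤ ε := min_le_left _ _
    obtain ⟨C2, hC2⟩ := dens_low (RP f) (fun p hp => hp.1) (7 / 8 - ε') (by linarith) (hRP ε' hε'0)
    obtain ⟨c, hc, hlow⟩ := els_lower f hf1 hf3 (7 / 8 - ε') C2 (by linarith) (by linarith) hC2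
    refine ⟨c, hc, ?_⟩
    filter_upwards [hlow, eventually_ge_atTop 3] with X h1 hX
    refine le_trans ?_ h1
    refine mul_le_mul_of_nonneg_left ?_ (by positivity)
    exact Real.rpow_le_rpow_of_exponent_le (one_lt_log hX).le (by linarith)

end K

end Pool.Agent.W5h36.EL
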