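import Pool.Agent.W5h36.EL.Pair

/-! Products of quadratic polynomials with two different splitting fields. -/

set_option autoImplicit false

namespace Pool.Agent.W5h36.EL

open Polynomial Filter Topology Finset
open Pool.Agent.W401.Cheb Pool.Agent.W262.TW Pool.Agent.W262.RK

lemma isSquare_trans {a b c : ℤ} (hb : b ≠ 0) (h1 : IsSquare (a * b)) (h2 : IsSquare (b * c)) :
    IsSquare (a * c) := by
  obtain ⟨s, hs⟩ := h1
  obtain ⟨t, ht⟩ := h2
  have h3 : a * c * (b * b) = (s * t) * (s * t) := by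
    calc a * c * (b * b) = (a * b) * (b * c) := by ring
      _ = _ := by rw [hs, ht]; ring
  have h4 : IsSquare (a * c * (b * b)) := ⟨s * t, h3⟩
  have h5 : b ^ 2 ∣ (s * t) ^ 2 := ⟨a * c, by rw [sq, sq, ← h3]; ring⟩
  obtain ⟨r, hr⟩ := (Int.pow_dvd_pow_iff two_ne_zero).1 h5
  refine ⟨r, ?_⟩
  have h6 : a * c * (b * b) = (r * r) * (b * b) := by
    rw [h3, hr]
    ring
  exact mul_right_cancel₀ (mul_ne_zero hb hb) h6

section K

variable {K : Type} [Fintype K] [DecidableEq K]

lemma coeff2_ne (f : K → ℤ[X]) (hf : ∀ k, (f k).natDegree = 2) (k : K) : (f k).coeff 2 ≠ 0 := by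
  have h1 : (f k).leadingCoeff ≠ 0 := by
    rw [Ne, leadingCoeff_eq_zero]
    intro h
    have := hf k
    rw [h] at this
    simp at this
  rwa [leadingCoeff, hf k] at h1

/-- two components with different splitting fields -/
theorem pair_log (f : K → ℤ[X]) (hf : ∀ k, (f k).natDegree = 2)
    (hf1 : ∀ k, Irreducible ((f k).map (Int.castRingHom ℚ)))
    (hf3 : ∀ k l, k ≠ l →
      ¬ Associated ((f k).map (Int.castRingHom ℚ)) ((f l).map (Int.castRingHom ℚ)))
    (i j : K) (hDij : ¬ IsSquare (dsc (f i) * dsc (f j)))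
    (hRij : ¬ IsSquare (res (f i) (f j) * (dsc (f i) * dsc (f j)))) :
    ∃ c > 0, ∀ᶠ N in atTop, M (fun p => Real.log (WI f {i, j} p)) N ≤ -c := by
  have hij : i ≠ j := by
    rintro rfl
    exact hDij ⟨_, rfl⟩
  have hc2 := coeff2_ne f hf
  have hD : ∀ k, ¬ IsSquare (dsc (f k)) := fun k => dsc_not_sq _ (hf k) (hf1 k)
  have hD0 : ∀ k, dsc (f k) ≠ 0 := by
    intro k h
    exact hD k (h ▸ IsSquare.zero)
  have hR : res (f i) (f j) ≠ 0 := res_ne_zero _ _ (hf i) (hf j) (hf1 i) (hf1 j) (hf3 i j hij)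
  set B : ℕ := (2 * ((f i).coeff 2 * (f j).coeff 2) * (dsc (f i) * dsc (f j)) *
    res (f i) (f j)).natAbs with hB
  have hBpos : 0 < B := Int.natAbs_pos.2 (mul_ne_zero (mul_ne_zero (mul_ne_zero two_ne_zero
    (mul_ne_zero (hc2 i) (hc2 j))) (mul_ne_zero (hD0 i) (hD0 j))) hR)
  have hgood : ∀ p : ℕ, p.Prime → ¬ p ∣ B → p ≠ 2 ∧ ¬ (p : ℤ) ∣ (f i).coeff 2 ∧
      ¬ (p : ℤ) ∣ (f j).coeff 2 ∧ ¬ (p : ℤ) ∣ dsc (f i) ∧ ¬ (p : ℤ) ∣ dsc (f j) ∧
      ¬ (p : ℤ) ∣ res (f i) (f j) := by
    intro p hp hpD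
    refine ⟨?_, fun h => hpD (Int.natCast_dvd.1 ((((h.mul_right _).mul_left 2).mul_right _).mul_right _)),
      fun h => hpD (Int.natCast_dvd.1 ((((h.mul_left _).mul_left 2).mul_right _).mul_right _)),
      fun h => hpD (Int.natCast_dvd.1 (((h.mul_right _).mul_left _).mul_right _)),
      fun h => hpD (Int.natCast_dvd.1 (((h.mul_left _).mul_left _).mul_right _)),
      fun h => hpD (Int.natCast_dvd.1 (h.mul_left _))⟩
    rintro rfl
    exact hpD (Int.natCast_dvd.1 ⟨((f i).coeff 2 * (f j).coeff 2) *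
      (dsc (f i) * dsc (f j)) * res (f i) (f j), by push_cast; ring⟩)
  set R := res (f i) (f j) with hRdef
  obtain ⟨e0, he0, he0', -⟩ := chi_mean' R hR
  obtain ⟨e1, he1, he1', -⟩ := chi_mean' (R * dsc (f i)) (mul_ne_zero hR (hD0 i))
  obtain ⟨e2, he2, he2', -⟩ := chi_mean' (R * dsc (f j)) (mul_ne_zero hR (hD0 j))
  have he3 := chi_mean _ hRij
  have hl : 0 < Real.log 2 := Real.log_pos (by norm_num)
  have h4 := tM_smul (Real.log 2) (tM_add (tM_add (tM_add (tM_add (tM_add (tM_add (tM_add
    (tM_smul (-1 / 8) M_one) (tM_smul (-3 / 8) he0)) (tM_smul (-1 / 8) he1))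
    (tM_smul (-1 / 8) he2)) (tM_smul (1 / 8) he3)) (tM_smul (1 / 8) (chi_mean _ (hD i))))
    (tM_smul (1 / 8) (chi_mean _ (hD j)))) (tM_smul (3 / 8) (chi_mean _ hDij)))
  have hHle : ∀ p, Real.log (WI f {i, j} p) ≤ Fintype.card K * 2 ^ Fintype.card K := by
    intro p
    rcases eq_or_lt_of_le (WI_nonneg f {i, j} p) with h5 | h5
    · rw [← h5, Real.log_zero]
      positivity
    · exact (Real.log_le_self h5.le).trans (WI_le f {i, j} p)
  have h5 := M_le_of (fun p => Real.log (WI f {i, j} p)) _ B hBpos _ _ hHle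
    (fun p hp hpD => ?_) h4 (Real.log 2 / 16) (by linarith)
  · refine ⟨Real.log 2 / 16, by linarith, ?_⟩
    filter_upwards [h5] with N hN
    refine hN.trans ?_
    nlinarith [mul_nonneg hl.le he0', mul_nonneg hl.le he1', mul_nonneg hl.le he2']
  · haveI : Fact p.Prime := ⟨hp⟩
    obtain ⟨hp2, hpi, hpj, hDi, hDj, hpR⟩ := hgood p hp hpD
    have h6 := MX_two f hf i j p hp2 hpi hDi hpR
    have h7 := MX_two f hf j i p hp2 hpj hDj (by rwa [res_comm])
    rw [res_comm, pair_comm] at h7
    have hWI : WI f {i, j} p = ((MX {i, j} (Th f i p) : ℝ) + MX {i, j} (Th f j p)) / 2 := by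
      unfold WI
      rw [card_pair hij, sum_pair hij]
      norm_num
    have h1 := mem_SR_quad f hf i p hp2 hpi hDi
    have h2 := mem_SR_quad f hf j p hp2 hpj hDj
    have hR0 : ((R : ℤ) : ZMod p) ≠ 0 := by
      rwa [Ne, ZMod.intCast_zmod_eq_zero_iff_dvd]
    have hR1 := legendreSym.eq_one_or_neg_one p hR0
    rw [jacobiSym.legendreSym.to_jacobiSym] at hR1
    have hMi : i ∈ SR f p → (1 : ℝ) ≤ MX {i, j} (Th f i p) := fun h => by
      exact_mod_cast MX_pos {i, j} (Th_nonempty hp h)
    have hMj : j ∈ SR f p → (1 : ℝ) ≤ MX {i, j} (Th f j p) := fun h => by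
      exact_mod_cast MX_pos {i, j} (Th_nonempty hp h)
    have hMi0 : i ∉ SR f p → (MX {i, j} (Th f i p) : ℝ) = 0 := fun h => by
      rw [Th_empty h, MX_empty, Nat.cast_zero]
    have hMj0 : j ∉ SR f p → (MX {i, j} (Th f j p) : ℝ) = 0 := fun h => by
      rw [Th_empty h, MX_empty, Nat.cast_zero]
    have hgi : (0 : ℝ) ≤ MX {i, j} (Th f i p) := Nat.cast_nonneg _
    have hgj : (0 : ℝ) ≤ MX {i, j} (Th f j p) := Nat.cast_nonneg _
    simp only [jacobiSym.mul_left]
    push_cast
    rw [hWI]
    set mi := (MX {i, j} (Th f i p) : ℝ) with hmi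
    set mj := (MX {i, j} (Th f j p) : ℝ) with hmj
    have l12 : Real.log (1 / 2) = - Real.log 2 := by
      rw [one_div, Real.log_inv]
    rcases h1 with ⟨h1, h1'⟩ | ⟨h1, h1'⟩ <;> rcases h2 with ⟨h2, h2'⟩ | ⟨h2, h2'⟩ <;>
      rcases hR1 with h3 | h3 <;> rw [h1', h3] at h6 <;> rw [h2', h3] at h7 <;>
      rw [h1', h2', h3] <;> push_cast at h6 h7 ⊢
    · have h8 := Real.log_le_log (x := (mi + mj) / 2) (y := 1) (by linarith [hMi h1])
        (by linarith)
      rw [Real.log_one] at h8
      linarith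
    · have h8 := Real.log_le_log (x := (mi + mj) / 2) (y := 2) (by linarith [hMi h1])
        (by linarith)
      linarith
    · have h8 := Real.log_le_log (x := (mi + mj) / 2) (y := 1 / 2) (by linarith [hMi h1])
        (by linarith)
      rw [l12] at h8
      linarith
    · have h8 := Real.log_le_log (x := (mi + mj) / 2) (y := 1) (by linarith [hMi h1])
        (by linarith)
      rw [Real.log_one] at h8
      linarith
    · have h8 := Real.log_le_log (x := (mi + mj) / 2) (y := 1 / 2) (by linarith [hMj h2])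
        (by linarith)
      rw [l12] at h8
      linarith
    · have h8 := Real.log_le_log (x := (mi + mj) / 2) (y := 1) (by linarith [hMj h2])
        (by linarith)
      rw [Real.log_one] at h8
      linarith
    · rw [hMi0 h1, hMj0 h2]
      norm_num
    · rw [hMi0 h1, hMj0 h2]
      norm_num

lemma cube_lt (x y : ℕ) (h : 3 ≤ x + y) : x * y * (x + y) < 8 ^ (x + y - 2) := by
  obtain ⟨m, hm⟩ : ∃ m, x + y = m + 3 := ⟨x + y - 3, by omega⟩
  rw [hm, show m + 3 - 2 = m + 1 from rfl]
  have h1 : 4 * (x * y) ≤ (m + 3) ^ 2 := by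
    rw [← hm]
    zify
    nlinarith [sq_nonneg ((x : ℤ) - y)]
  have h2 : ∀ m : ℕ, (m + 3) ^ 3 < 4 * 8 ^ (m + 1) := by
    intro m
    induction m with
    | zero => norm_num
    | succ n ih =>
      rw [pow_succ 8]
      have h3 : (n + 1 + 3) ^ 3 ≤ 8 * (n + 3) ^ 3 := by
        zify
        nlinarith [sq_nonneg (n : ℤ), pow_nonneg (Int.natCast_nonneg n) 3]
      omega
  have h3 := h2 m
  have h4 : 4 * (x * y * (m + 3)) ≤ (m + 3) ^ 3 := by
    calc 4 * (x * y * (m + 3)) = 4 * (x * y) * (m + 3) := by ring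
      _ ≤ (m + 3) ^ 2 * (m + 3) := Nat.mul_le_mul_right _ h1
      _ = _ := by ring
  omega

open scoped Classical in
/-- **products of quadratic polynomials with two different splitting fields** -/
theorem quad_two (f : K → ℤ[X]) (hf : ∀ k, (f k).natDegree = 2)
    (hf1 : ∀ k, Irreducible ((f k).map (Int.castRingHom ℚ)))
    (hf3 : ∀ k l, k ≠ l →
      ¬ Associated ((f k).map (Int.castRingHom ℚ)) ((f l).map (Int.castRingHom ℚ)))
    (i0 j0 : K) (h0 : ¬ IsSquare (dsc (f i0) * dsc (f j0)))
    (hall : ∀ k, IsSquare (dsc (f k) * dsc (f i0)) ∨ IsSquare (dsc (f k) * dsc (f j0)))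
    (hRes : ∀ i j, ¬ IsSquare (dsc (f i) * dsc (f j)) →
      ¬ IsSquare (res (f i) (f j) * (dsc (f i) * dsc (f j)))) : AA f := by
  haveI : Nonempty K := ⟨i0⟩
  have hf2 : ∀ k, Even (f k).natDegree := fun k => by rw [hf k]; exact even_two
  have hc2 := coeff2_ne f hf
  have hD : ∀ k, ¬ IsSquare (dsc (f k)) := fun k => dsc_not_sq _ (hf k) (hf1 k)
  have hD0 : ∀ k, dsc (f k) ≠ 0 := by
    intro k h
    exact hD k (h ▸ IsSquare.zero)
  set A : Finset K := univ.filter (fun k => IsSquare (dsc (f k) * dsc (f i0))) with hA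
  set A' : Finset K := univ.filter (fun k => ¬ IsSquare (dsc (f k) * dsc (f i0))) with hA'
  have hAA' : ∀ k, k ∈ A ∨ k ∈ A' := fun k => by
    by_cases h : IsSquare (dsc (f k) * dsc (f i0))
    · exact Or.inl (mem_filter.2 ⟨mem_univ _, h⟩)
    · exact Or.inr (mem_filter.2 ⟨mem_univ _, h⟩)
  have hAi : ∀ k ∈ A, IsSquare (dsc (f k) * dsc (f i0)) := fun k hk => (mem_filter.1 hk).2
  have hAj : ∀ k ∈ A', IsSquare (dsc (f k) * dsc (f j0)) := fun k hk =>
    (hall k).resolve_left (mem_filter.1 hk).2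
  -- bad primes
  set B : ℕ := (2 * (∏ k, (f k).coeff 2) * (∏ k, dsc (f k))).natAbs with hB
  have hBpos : 0 < B := Int.natAbs_pos.2 (mul_ne_zero (mul_ne_zero two_ne_zero
    (prod_ne_zero_iff.2 fun k _ => hc2 k)) (prod_ne_zero_iff.2 fun k _ => hD0 k))
  have hgood : ∀ p : ℕ, p.Prime → ¬ p ∣ B → p ≠ 2 ∧ (∀ k, ¬ (p : ℤ) ∣ (f k).coeff 2) ∧
      (∀ k, ¬ (p : ℤ) ∣ dsc (f k)) := by
    intro p hp hpD
    refine ⟨?_, fun k h => hpD (Int.natCast_dvd.1 (((h.trans
      (dvd_prod_of_mem (fun k => (f k).coeff 2) (mem_univ k))).mul_left 2).mul_right _)),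
      fun k h => hpD (Int.natCast_dvd.1 ((h.trans
      (dvd_prod_of_mem (fun k => dsc (f k)) (mem_univ k))).mul_left _))⟩
    rintro rfl
    exact hpD (Int.natCast_dvd.1 ⟨(∏ k, (f k).coeff 2) * (∏ k, dsc (f k)), by push_cast; ring⟩)
  have hχ : ∀ (p : ℕ) [Fact p.Prime], ¬ p ∣ B → ∀ k l, IsSquare (dsc (f k) * dsc (f l)) →
      jacobiSym (dsc (f k)) p = jacobiSym (dsc (f l)) p := by
    intro p hp hpD k l hkl
    obtain ⟨hp2, -, hpd⟩ := hgood p hp.out hpD
    obtain ⟨s, hs⟩ := hkl
    have hk0 : ((dsc (f k) : ℤ) : ZMod p) ≠ 0 := by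
      rw [Ne, ZMod.intCast_zmod_eq_zero_iff_dvd]
      exact hpd k
    have hl0 : ((dsc (f l) : ℤ) : ZMod p) ≠ 0 := by
      rw [Ne, ZMod.intCast_zmod_eq_zero_iff_dvd]
      exact hpd l
    have h1 : jacobiSym (dsc (f k)) p * jacobiSym (dsc (f l)) p = jacobiSym s p * jacobiSym s p := by
      rw [← jacobiSym.mul_left, hs, jacobiSym.mul_left]
    have h2 := legendreSym.eq_one_or_neg_one p hk0
    have h3 := legendreSym.eq_one_or_neg_one p hl0
    rw [jacobiSym.legendreSym.to_jacobiSym] at h2 h3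
    have h4 : 0 ≤ jacobiSym s p * jacobiSym s p := mul_self_nonneg _
    rcases h2 with h2 | h2 <;> rcases h3 with h3 | h3 <;> rw [h2, h3] at h1 <;> rw [h2, h3]
    · linarith
    · linarith
  -- the sets of components
  have hSRA : ∀ (p : ℕ) [Fact p.Prime], ¬ p ∣ B → ∀ k ∈ A,
      (k ∈ SR f p ∧ jacobiSym (dsc (f i0)) p = 1) ∨ (k ∉ SR f p ∧ jacobiSym (dsc (f i0)) p = -1) := by
    intro p hp hpD k hk
    obtain ⟨hp2, hpa, hpd⟩ := hgood p hp.out hpD
    rw [← hχ p hpD k i0 (hAi k hk)]
    exact mem_SR_quad f hf k p hp2 (hpa k) (hpd k)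
  have hSRB : ∀ (p : ℕ) [Fact p.Prime], ¬ p ∣ B → ∀ k ∈ A',
      (k ∈ SR f p ∧ jacobiSym (dsc (f j0)) p = 1) ∨ (k ∉ SR f p ∧ jacobiSym (dsc (f j0)) p = -1) := by
    intro p hp hpD k hk
    obtain ⟨hp2, hpa, hpd⟩ := hgood p hp.out hpD
    rw [← hχ p hpD k j0 (hAj k hk)]
    exact mem_SR_quad f hf k p hp2 (hpa k) (hpd k)
  have hi0A : i0 ∈ A := mem_filter.2 ⟨mem_univ _, ⟨_, rfl⟩⟩
  have hj0A : j0 ∈ A' := mem_filter.2 ⟨mem_univ _, fun h => h0 (by rwa [mul_comm])⟩
  -- the density of the primes with a zero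
  have hRP : ∀ δ : ℝ, 0 < δ → ∀ᶠ N in atTop, 3 / 4 - δ ≤
      M (fun p => if p ∈ RP f then (1 : ℝ) else 0) N := by
    intro δ hδ
    have h4 := tM_add (tM_add (tM_add (tM_smul (1 / 4) M_one)
      (tM_smul (-1 / 4) (chi_mean _ (hD i0)))) (tM_smul (-1 / 4) (chi_mean _ (hD j0))))
      (tM_smul (1 / 4) (chi_mean _ h0))
    have h5 := M_le_of (fun p => if p ∈ RP f then (0 : ℝ) else 1) _ B hBpos 1 _
      (fun p => by split_ifs <;> norm_num) (fun p hp hpD => ?_) h4 (δ / 2) (by linarith)
    · have h6 : ∀ᶠ N in atTop, 1 - δ / 2 < M (fun _ => 1) N :=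
        M_one.eventually (lt_mem_nhds (by linarith))
      filter_upwards [h5, h6] with N h7 h8
      have h9 : M (fun _ => (1 : ℝ)) N = M (fun p => (if p ∈ RP f then (1 : ℝ) else 0) +
          (if p ∈ RP f then (0 : ℝ) else 1)) N := by
        congr 1
        funext p
        split_ifs <;> norm_num
      rw [M_add] at h9
      linarith
    · haveI : Fact p.Prime := ⟨hp⟩
      have h1 := hSRA p hpD i0 hi0A
      have h2 := hSRB p hpD j0 hj0A
      rw [jacobiSym.mul_left]
      rcases h1 with ⟨h1, h1'⟩ | ⟨h1, h1'⟩ <;> rcases h2 with ⟨h2, h2'⟩ | ⟨h2, h2'⟩ <;>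
        rw [h1', h2']
      · rw [if_pos ((mem_RP f hp).2 ⟨i0, h1⟩)]
        norm_num
      · rw [if_pos ((mem_RP f hp).2 ⟨i0, h1⟩)]
        norm_num
      · rw [if_pos ((mem_RP f hp).2 ⟨j0, h2⟩)]
        norm_num
      · split_ifs <;> norm_num
  -- subsets of one class
  have hone : ∀ (I : Finset K) (q : K), (∀ (p : ℕ) [Fact p.Prime], ¬ p ∣ B →
      (I ∩ SR f p).Nonempty → jacobiSym (dsc (f q)) p = 1) →
      ∃ s : ℝ, 0 < s ∧ s ≤ 1 ∧ ∃ α : ℝ, (∃ c > 0, ∀ᶠ N in atTop, α + c ≤
        M (fun p => if p ∈ RP f then (1 : ℝ) else 0) N) ∧ ∃ C : ℝ, ∀ x : ℕ, 3 ≤ x →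
          ∑ p ∈ PS 0 x, (WI f I p) ^ s / p ≤ α * Real.log (Real.log x) + C := by
    intro I q hq
    set H : ℝ := max (Fintype.card K * 2 ^ Fintype.card K) 1 with hH
    have hH1 : 1 ≤ H := le_max_right _ _
    have hH0 : 0 < H := by linarith
    have hcont : Tendsto (fun s : ℝ => H ^ s) (𝓝[>] 0) (𝓝 (H ^ (0 : ℝ))) :=
      ((Real.continuous_const_rpow hH0.ne').tendsto 0).mono_left nhdsWithin_le_nhds
    rw [Real.rpow_zero] at hcont
    have hev : ∀ᶠ s in 𝓝[>] (0 : ℝ), H ^ s < 5 / 4 := hcont.eventually (gt_mem_nhds (by norm_num))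
    have hev2 : ∀ᶠ s in 𝓝[>] (0 : ℝ), 0 < s ∧ s ≤ 1 := by
      have h3 : Set.Ioc (0 : ℝ) 1 ∈ 𝓝[>] (0 : ℝ) := Ioc_mem_nhdsGT one_pos
      exact h3
    obtain ⟨s, hs1, hs2, hs3⟩ := (hev.and hev2).exists
    have h4 := tM_add (tM_smul (5 / 8) M_one) (tM_smul (5 / 8) (chi_mean _ (hD q)))
    have hHs : ∀ p, (WI f I p) ^ s ≤ H ^ s := fun p =>
      Real.rpow_le_rpow (WI_nonneg f I p) ((WI_le f I p).trans (le_max_left _ _)) hs2.le
    have h5 := M_le_of (fun p => (WI f I p) ^ s) _ B hBpos (H ^ s) _ hHs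
      (fun p hp hpD => ?_) h4 (1 / 32) (by norm_num)
    · have h6 : ∀ᶠ N in atTop, M (fun p => (WI f I p) ^ s) N ≤ 11 / 16 := by
        filter_upwards [h5] with N hN
        linarith
      obtain ⟨C, hC⟩ := dens_up (fun p => (WI f I p) ^ s) (H ^ s) (11 / 16)
        (fun p => Real.rpow_nonneg (WI_nonneg f I p) _) hHs h6
      refine ⟨s, hs2, hs3, 11 / 16, ⟨1 / 32, by norm_num, ?_⟩, C, hC⟩
      filter_upwards [hRP (1 / 32) (by norm_num)] with N hN
      linarith
    · haveI : Fact p.Prime := ⟨hp⟩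
      by_cases h6 : (I ∩ SR f p).Nonempty
      · rw [hq p hpD h6]
        push_cast
        have := (hHs p).trans hs1.le
        linarith
      · have h7 : WI f I p = 0 := WI_eq_zero (not_nonempty_iff_eq_empty.1 h6)
        rw [h7, Real.zero_rpow hs2.ne']
        rcases jacobiSym.trichotomy (dsc (f q)) p with h | h | h <;> rw [h] <;> norm_num
  refine criterion f hf1 hf2 hf3 fun I hI => ?_
  by_cases hIA : (I ∩ A).Nonempty
  · by_cases hIB : (I ∩ A').Nonempty
    · right
      left
      obtain ⟨k, hk⟩ := hIA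
      obtain ⟨l, hl⟩ := hIB
      rw [mem_inter] at hk hl
      have hkl : ¬ IsSquare (dsc (f k) * dsc (f l)) := by
        intro h
        have h1 : IsSquare (dsc (f l) * dsc (f i0)) :=
          isSquare_trans (hD0 k) (by rwa [mul_comm]) (hAi k hk.2)
        exact (mem_filter.1 hl.2).2 h1
      rcases Nat.lt_or_ge I.card 3 with h3 | h3
      · have hne : k ≠ l := by
          rintro rfl
          exact hkl ⟨_, rfl⟩
        have hI2 : I = {k, l} := by
          symm
          apply eq_of_subset_of_card_le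
          · intro x hx
            rw [mem_insert, mem_singleton] at hx
            rcases hx with rfl | rfl
            · exact hk.1
            · exact hl.1
          · rw [card_pair hne]
            omega
        rw [hI2]
        exact pair_log f hf hf1 hf3 k l hkl (hRes k l hkl)
      · -- at least three components
        set x := (I ∩ A).card with hx
        set y := (I ∩ A').card with hy
        have hx1 : 1 ≤ x := card_pos.2 ⟨k, mem_inter.2 hk⟩
        have hy1 : 1 ≤ y := card_pos.2 ⟨l, mem_inter.2 hl⟩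
        have hxy : x + y = I.card := by
          rw [hx, hy, ← card_union_of_disjoint]
          · congr 1
            rw [← inter_union_distrib_left]
            rw [inter_eq_left]
            intro z _
            rw [mem_union]
            exact hAA' z
          · rw [Finset.disjoint_left]
            intro z hz hz'
            exact (mem_filter.1 (mem_inter.1 hz').2).2 (hAi z (mem_inter.1 hz).2)
        have hcube := cube_lt x y (by omega)
        set m := x + y with hm
        set Q : ℝ := 2 ^ (m - 2) with hQ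
        have hQ0 : 0 < Q := by positivity
        have hx0 : (0 : ℝ) < x := by exact_mod_cast hx1
        have hy0 : (0 : ℝ) < y := by exact_mod_cast hy1
        have hm0 : (0 : ℝ) < m := by exact_mod_cast (show 0 < m by omega)
        set Lx := Real.log (x / Q) with hLx
        set Ly := Real.log (y / Q) with hLy
        set Lm := Real.log (m / Q) with hLm
        have hsum : Lx + Ly + Lm < 0 := by
          rw [hLx, hLy, hLm, ← Real.log_mul (by positivity) (by positivity),
            ← Real.log_mul (by positivity) (by positivity)]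
          refine Real.log_neg (by positivity) ?_
          have h1 : (x : ℝ) / Q * (y / Q) * (m / Q) = (x * y * m) / (Q ^ 3) := by
            field_simp
          have h2 : Q ^ 3 = 8 ^ (m - 2) := by
            rw [hQ, ← pow_mul, mul_comm, pow_mul]
            norm_num
          rw [h1, h2, div_lt_one (by positivity)]
          exact_mod_cast hcube
        have h4 := tM_add (tM_add (tM_add (tM_smul ((Lx + Ly + Lm) / 4) M_one)
          (tM_smul ((Lx - Ly + Lm) / 4) (chi_mean _ (hD i0))))
          (tM_smul ((-Lx + Ly + Lm) / 4) (chi_mean _ (hD j0))))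
          (tM_smul ((-Lx - Ly + Lm) / 4) (chi_mean _ h0))
        have hHle : ∀ p, Real.log (WI f I p) ≤ Fintype.card K * 2 ^ Fintype.card K := by
          intro p
          rcases eq_or_lt_of_le (WI_nonneg f I p) with h5 | h5
          · rw [← h5, Real.log_zero]
            positivity
          · exact (Real.log_le_self h5.le).trans (WI_le f I p)
        have h5 := M_le_of (fun p => Real.log (WI f I p)) _ B hBpos _ _ hHle
          (fun p hp hpD => ?_) h4 (-(Lx + Ly + Lm) / 8) (by linarith)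
        · refine ⟨-(Lx + Ly + Lm) / 8, by linarith, ?_⟩
          filter_upwards [h5] with N hN
          linarith
        · haveI : Fact p.Prime := ⟨hp⟩
          obtain ⟨hp2, hpa, hpd⟩ := hgood p hp hpD
          have hW : WI f I p ≤ ((I ∩ SR f p).card : ℝ) / Q := by
            unfold WI
            have e1 : I.card - 1 = (m - 2) + 1 := by omega
            rw [e1, pow_succ, mul_comm (2 ^ (m - 2)) 2, ← div_div, ← hQ]
            refine div_le_div_of_nonneg_right ?_ hQ0.le
            rw [div_le_iff₀ (by norm_num)]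
            have e2 : ((I ∩ SR f p).card : ℝ) * 2 = ∑ i ∈ I, if i ∈ SR f p then (2 : ℝ) else 0 := by
              rw [← sum_filter, sum_const, nsmul_eq_mul, filter_mem_eq_inter]
            rw [e2]
            refine sum_le_sum fun i _ => ?_
            split_ifs with h6
            · exact_mod_cast (MX_le_card _ _).trans ((Th_card_le f i p).trans
                (om_le_two _ (hf i) p (hpa i)))
            · rw [Th_empty h6, MX_empty, Nat.cast_zero]
          have hlog : ∀ c : ℕ, (I ∩ SR f p).card ≤ c → 0 < WI f I p →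
              Real.log (WI f I p) ≤ Real.log (c / Q) := by
            intro c hc hpos
            refine Real.log_le_log hpos (hW.trans (div_le_div_of_nonneg_right ?_ hQ0.le))
            exact_mod_cast hc
          have hpos : (I ∩ SR f p).Nonempty → 0 < WI f I p := by
            rintro ⟨z, hz⟩
            rw [mem_inter] at hz
            unfold WI
            refine div_pos ?_ (by positivity)
            have e1 : (1 : ℝ) ≤ MX I (Th f z p) := by exact_mod_cast MX_pos I (Th_nonempty hp hz.2)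
            have e2 : (MX I (Th f z p) : ℝ) ≤ ∑ i ∈ I, (MX I (Th f i p) : ℝ) :=
              single_le_sum (f := fun i => (MX I (Th f i p) : ℝ)) (fun _ _ => Nat.cast_nonneg _) hz.1
            linarith
          rw [jacobiSym.mul_left]
          have h1 := hSRA p hpD k hk.2
          have h2 := hSRB p hpD l hl.2
          rcases h1 with ⟨h1, h1'⟩ | ⟨h1, h1'⟩ <;> rcases h2 with ⟨h2, h2'⟩ | ⟨h2, h2'⟩
          · have h6 := hlog m (by rw [hxy]; exact card_le_card inter_subset_left)
              (hpos ⟨k, mem_inter.2 ⟨hk.1, h1⟩⟩)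
            rw [h1', h2']
            push_cast
            rw [← hLm] at h6
            linarith
          · have h7 : (I ∩ SR f p).card ≤ x := by
              refine card_le_card fun z hz => ?_
              rw [mem_inter] at hz ⊢
              refine ⟨hz.1, (hAA' z).resolve_right fun hz' => ?_⟩
              rcases hSRB p hpD z hz' with ⟨-, h8⟩ | ⟨h8, -⟩
              · rw [h2'] at h8
                norm_num at h8
              · exact h8 hz.2
            have h6 := hlog x h7 (hpos ⟨k, mem_inter.2 ⟨hk.1, h1⟩⟩)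
            rw [h1', h2']
            push_cast
            rw [← hLx] at h6
            linarith
          · have h7 : (I ∩ SR f p).card ≤ y := by
              refine card_le_card fun z hz => ?_
              rw [mem_inter] at hz ⊢
              refine ⟨hz.1, (hAA' z).resolve_left fun hz' => ?_⟩
              rcases hSRA p hpD z hz' with ⟨-, h8⟩ | ⟨h8, -⟩
              · rw [h1'] at h8
                norm_num at h8
              · exact h8 hz.2
            have h6 := hlog y h7 (hpos ⟨l, mem_inter.2 ⟨hl.1, h2⟩⟩)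
            rw [h1', h2']
            push_cast
            rw [← hLy] at h6
            linarith
          · have h7 : I ∩ SR f p = ∅ := by
              rw [eq_empty_iff_forall_notMem]
              intro z hz
              rw [mem_inter] at hz
              rcases hAA' z with hz' | hz'
              · rcases hSRA p hpD z hz' with ⟨-, h8⟩ | ⟨h8, -⟩
                · rw [h1'] at h8
                  norm_num at h8
                · exact h8 hz.2
              · rcases hSRB p hpD z hz' with ⟨-, h8⟩ | ⟨h8, -⟩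
                · rw [h2'] at h8
                  norm_num at h8
                · exact h8 hz.2
            rw [WI_eq_zero h7, Real.log_zero, h1', h2']
            push_cast
            linarith
    · right
      right
      refine hone I i0 fun p hp hpD hne => ?_
      obtain ⟨z, hz⟩ := hne
      rw [mem_inter] at hz
      have hzA : z ∈ A := (hAA' z).resolve_right fun h => hIB ⟨z, mem_inter.2 ⟨hz.1, h⟩⟩
      rcases hSRA p hpD z hzA with ⟨-, h8⟩ | ⟨h8, -⟩
      · exact h8
      · exact absurd hz.2 h8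
  · right
    right
    refine hone I j0 fun p hp hpD hne => ?_
    obtain ⟨z, hz⟩ := hne
    rw [mem_inter] at hz
    have hzA : z ∈ A' := (hAA' z).resolve_left fun h => hIA ⟨z, mem_inter.2 ⟨hz.1, h⟩⟩
    rcases hSRB p hpD z hzA with ⟨-, h8⟩ | ⟨h8, -⟩
    · exact h8
    · exact absurd hz.2 h8

end K

end Pool.Agent.W5h36.EL
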