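import Pool.Agent.W5h36.EL.Sets

/-! The numbers of zeros modulo `p`. -/

set_option autoImplicit false

namespace Pool.Agent.W5h36.EL

open Polynomial NumberField Filter Topology Finset
open Pool.Agent.W401.Cheb Pool.Agent.W262.TW Pool.Agent.W262.RK Pool.Agent.R925.FD

/-- the number of zeros of `h` modulo `p` -/
def om (h : ℤ[X]) (p : ℕ) : ℕ := ((range p).filter (fun θ : ℕ => (p : ℤ) ∣ h.eval (θ : ℤ))).card

lemma om_eq (h : ℤ[X]) (p : ℕ) [hp : Fact p.Prime] :
    om h p = Nat.card {t : ZMod p // eval₂ (Int.castRingHom (ZMod p)) t h = 0} := by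
  classical
  rw [Nat.card_eq_fintype_card, Fintype.card_subtype]
  unfold om
  have hev : ∀ θ : ℕ, eval₂ (Int.castRingHom (ZMod p)) (θ : ZMod p) h = ((h.eval (θ : ℤ) : ℤ) : ZMod p) := by
    intro θ
    have h1 := eval₂_at_apply (p := h) (Int.castRingHom (ZMod p)) (θ : ℤ)
    rw [eq_intCast, eq_intCast] at h1
    rw [← h1]
    push_cast
    rfl
  refine card_bij (fun θ _ => (θ : ZMod p)) ?_ ?_ ?_
  · intro θ hθ
    rw [mem_filter] at hθ ⊢
    refine ⟨mem_univ _, ?_⟩
    rw [hev]
    exact (ZMod.intCast_zmod_eq_zero_iff_dvd _ p).2 hθ.2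
  · intro a ha b hb hab
    rw [mem_filter, mem_range] at ha hb
    have h1 := (ZMod.natCast_eq_natCast_iff' a b p).1 hab
    rwa [Nat.mod_eq_of_lt ha.1, Nat.mod_eq_of_lt hb.1] at h1
  · intro t ht
    rw [mem_filter] at ht
    refine ⟨t.val, ?_, ZMod.natCast_zmod_val t⟩
    rw [mem_filter, mem_range]
    refine ⟨ZMod.val_lt t, (ZMod.intCast_zmod_eq_zero_iff_dvd _ p).1 ?_⟩
    rw [← hev, ZMod.natCast_zmod_val]
    exact ht.2

/-- the number of zeros of `h` modulo `p` is the number of the zeros fixed by the Frobenius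
element -/
theorem root_count (L : Type) [Field L] [NumberField L] [IsGalois ℚ L]
    (j : L →+* AlgebraicClosure ℚ) (h : ℤ[X]) (hh : h ≠ 0)
    (hs : ∀ θ : AlgebraicClosure ℚ, aeval θ h = 0 → ∃ y, j y = θ) :
    ∃ D : ℕ, 0 < D ∧ ∀ (p : ℕ) [Fact p.Prime], ¬ p ∣ D →
      ∀ (φ : 𝓞 L →+* AlgebraicClosure (ZMod p)) (g : Gal(L/ℚ)), HasFrob p φ g →
        om h p = Nat.card {θ : L // aeval θ h = 0 ∧ g θ = θ} := by
  classical
  have hZ : algebraMap ℤ L = Int.castRingHom L := RingHom.ext_int _ _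
  have hZQ : algebraMap ℤ (AlgebraicClosure ℚ) = Int.castRingHom (AlgebraicClosure ℚ) :=
    RingHom.ext_int _ _
  have hc0 : h.leadingCoeff ≠ 0 := leadingCoeff_ne_zero.2 hh
  set c : ℤ := h.leadingCoeff with hc
  have hcL : (c : L) ≠ 0 := Int.cast_ne_zero.2 hc0
  have hcQ : (c : AlgebraicClosure ℚ) ≠ 0 := Int.cast_ne_zero.2 hc0
  set Fh : (𝓞 L)[X] := (integralNormalization h).map (Int.castRingHom (𝓞 L)) with hFh
  have hFm : Fh.Monic := (monic_integralNormalization hh).map _
  rcases Nat.eq_zero_or_pos h.natDegree with hd0 | hd1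
  · -- constants
    refine ⟨c.natAbs, Int.natAbs_pos.2 hc0, fun p hpF hp φ g _ => ?_⟩
    have hC : h = C c := by
      rw [hc, leadingCoeff, hd0]
      exact eq_C_of_natDegree_eq_zero hd0
    have e1 : om h p = 0 := by
      unfold om
      rw [card_eq_zero, filter_eq_empty_iff]
      intro θ _ hθ
      rw [hC, eval_C] at hθ
      exact hp (Int.natCast_dvd.1 hθ)
    have e2 : IsEmpty {θ : L // aeval θ h = 0 ∧ g θ = θ} := by
      refine ⟨fun x => ?_⟩
      obtain ⟨θ, hθ, -⟩ := x
      have h1 : aeval θ (C c : ℤ[X]) = 0 := by rw [← hC]; exact hθ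
      rw [aeval_C, hZ, eq_intCast] at h1
      exact hcL h1
    rw [e1, Nat.card_of_isEmpty]
  · -- zeros of the normalisation
    have hFL : ∀ θ : L, eval₂ (algebraMap (𝓞 L) L) θ Fh = 0 → aeval (θ / c) h = 0 := by
      intro θ hθ
      rw [hFh, eval₂_map] at hθ
      have e1 : (algebraMap (𝓞 L) L).comp (Int.castRingHom (𝓞 L)) = Int.castRingHom L :=
        RingHom.ext_int _ _
      rw [e1] at hθ
      have e2 := integralNormalization_eval₂_leadingCoeff_mul hd1 (Int.castRingHom L) (θ / c)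
      rw [eq_intCast, ← hc, mul_div_cancel₀ _ hcL, hθ] at e2
      rw [aeval_def, hZ]
      exact (mul_eq_zero.1 e2.symm).resolve_left (pow_ne_zero _ hcL)
    have hFhs : (Fh.map (algebraMap (𝓞 L) L)).Splits := by
      have h6 : ((Fh.map (algebraMap (𝓞 L) L)).map j).Splits := IsAlgClosed.splits _
      refine Splits.of_splits_map j h6 ?_
      intro θ hθ
      have h7 : ((Fh.map (algebraMap (𝓞 L) L)).map j).IsRoot θ := Polynomial.isRoot_of_mem_roots hθ
      rw [IsRoot.def, Polynomial.map_map, eval_map, hFh, eval₂_map] at h7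
      have e1 : (j.comp (algebraMap (𝓞 L) L)).comp (Int.castRingHom (𝓞 L)) =
          Int.castRingHom (AlgebraicClosure ℚ) := RingHom.ext_int _ _
      rw [e1] at h7
      have e2 := integralNormalization_eval₂_leadingCoeff_mul hd1
        (Int.castRingHom (AlgebraicClosure ℚ)) (θ / c)
      rw [eq_intCast, ← hc, mul_div_cancel₀ _ hcQ, h7] at e2
      obtain ⟨y, hy⟩ := hs (θ / c) (by
        rw [aeval_def, hZQ]
        exact (mul_eq_zero.1 e2.symm).resolve_left (pow_ne_zero _ hcQ))
      refine ⟨c * y, ?_⟩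
      rw [map_mul, hy, map_intCast, mul_div_cancel₀ _ hcQ]
    -- the bad primes
    choose mx hmx hmx' using fun x : {x : 𝓞 L // x ≠ 0} => nz L _ x.2
    let f : 𝓞 L → ℕ := fun x => if hx : x ≠ 0 then mx ⟨x, hx⟩ else 1
    have hf : ∀ x, 0 < f x := by
      intro x
      simp only [f]
      split_ifs with h
      · exact hmx _
      · exact Nat.one_pos
    set T : Finset (𝓞 L) := (Fh.roots.toFinset ×ˢ (Finset.univ : Finset Gal(L/ℚ))).image
      (fun x => x.2 • x.1 - x.1) ∪ (Fh.roots.toFinset ×ˢ Fh.roots.toFinset).image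
      (fun x => x.2 - x.1) with hT
    refine ⟨c.natAbs * ∏ x ∈ T, f x, Nat.mul_pos (Int.natAbs_pos.2 hc0)
      (Finset.prod_pos fun x _ => hf x), fun p hpF hp φ g hφ => ?_⟩
    have hcp : (c : ZMod p) ≠ 0 := by
      intro h1
      have h2 := Int.natCast_dvd.1 ((ZMod.intCast_zmod_eq_zero_iff_dvd _ p).1 h1)
      exact hp (h2.trans (Dvd.intro _ rfl))
    have hinj : ∀ x ∈ T, φ x = 0 → x = 0 := by
      intro x hx h0
      by_contra hne
      have h2 : ((f x : ℕ) : AlgebraicClosure (ZMod p)) ≠ 0 := by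
        intro h
        rw [CharP.cast_eq_zero_iff (AlgebraicClosure (ZMod p)) p] at h
        exact hp (h.trans ((Finset.dvd_prod_of_mem f hx).trans (Dvd.intro_left _ rfl)))
      have h3 : f x = mx ⟨x, hne⟩ := dif_pos hne
      rw [h3] at h2
      exact hmx' ⟨x, hne⟩ _ φ h2 h0
    set k' := AlgebraicClosure (ZMod p) with hk'
    let ι : ZMod p →+* k' := algebraMap (ZMod p) k'
    have hιinj : Function.Injective ι := ι.injective
    have e1 : φ.comp (Int.castRingHom (𝓞 L)) = ι.comp (Int.castRingHom (ZMod p)) :=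
      RingHom.ext_int _ _
    have hFt : ∀ t : ZMod p, eval₂ φ (ι t) Fh =
        ι (eval₂ (Int.castRingHom (ZMod p)) t (integralNormalization h)) := by
      intro t
      rw [hFh, eval₂_map, e1, ← Polynomial.hom_eval₂]
    have hφc : φ (c : 𝓞 L) = ι (c : ZMod p) := by rw [map_intCast, map_intCast]
    rw [om_eq h p]
    -- the map
    have hint : ∀ θ : L, aeval θ h = 0 → eval₂ (Int.castRingHom L) (c * θ) (integralNormalization h) = 0 := by
      intro θ hθ
      rw [aeval_def, hZ] at hθ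
      have e2 := integralNormalization_eval₂_leadingCoeff_mul hd1 (Int.castRingHom L) θ
      rw [eq_intCast, hθ, mul_zero] at e2
      exact e2
    have hI : ∀ θ : L, aeval θ h = 0 → IsIntegral ℤ ((c : L) * θ) := fun θ hθ =>
      ⟨integralNormalization h, monic_integralNormalization hh, by rw [hZ]; exact hint θ hθ⟩
    have hY : ∀ x : {θ : L // aeval θ h = 0 ∧ g θ = θ},
        ∃ y : 𝓞 L, (y : L) = c * x.1 ∧ Fh.eval y = 0 := by
      rintro ⟨θ, hθ, hgθ⟩
      obtain ⟨y, hy⟩ : ∃ y : 𝓞 L, (y : L) = c * θ := ⟨⟨_, hI θ hθ⟩, rfl⟩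
      refine ⟨y, hy, ?_⟩
      apply RingOfIntegers.coe_injective
      rw [← eval₂_at_apply, hFh, eval₂_map]
      have e3 : (algebraMap (𝓞 L) L).comp (Int.castRingHom (𝓞 L)) = Int.castRingHom L :=
        RingHom.ext_int _ _
      rw [e3, map_zero]
      have e4 : algebraMap (𝓞 L) L y = c * θ := hy
      rw [e4]
      exact hint θ hθ
    choose Y hY1 hY2 using hY
    have hex : ∀ x : {θ : L // aeval θ h = 0 ∧ g θ = θ},
        ∃ t : ZMod p, eval₂ (Int.castRingHom (ZMod p)) t h = 0 ∧ ι ((c : ZMod p) * t) = φ (Y x) := by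
      intro x
      have hgx : g • Y x = Y x := by
        apply RingOfIntegers.coe_injective
        change g ((Y x : 𝓞 L) : L) = ((Y x : 𝓞 L) : L)
        rw [hY1, map_mul, map_intCast, x.2.2]
      have hpow : φ (Y x) ^ p = φ (Y x) := by rw [← hφ (Y x), hgx]
      obtain ⟨t, ht⟩ := exists_zmod hpow
      have h1 := congrArg φ (hY2 x)
      rw [map_zero, ← eval₂_at_apply, ← ht] at h1
      have h2 := hFt t
      have h3 : eval₂ φ (ι t) Fh = 0 := h1
      rw [h3] at h2
      have h4 : eval₂ (Int.castRingHom (ZMod p)) t (integralNormalization h) = 0 := by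
        apply hιinj
        rw [← h2, map_zero]
      have e2 := integralNormalization_eval₂_leadingCoeff_mul hd1 (Int.castRingHom (ZMod p))
        (t / c)
      rw [eq_intCast, ← hc, mul_div_cancel₀ _ hcp, h4] at e2
      refine ⟨t / c, (mul_eq_zero.1 e2.symm).resolve_left (pow_ne_zero _ hcp), ?_⟩
      rw [mul_div_cancel₀ _ hcp]
      exact ht
    choose ψ hψ1 hψ2 using hex
    refine (Nat.card_congr (Equiv.ofBijective (fun x => (⟨ψ x, hψ1 x⟩ :
      {t : ZMod p // eval₂ (Int.castRingHom (ZMod p)) t h = 0})) ⟨?_, ?_⟩)).symm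
    · intro x y hxy
      have h1 : ψ x = ψ y := congrArg Subtype.val hxy
      have h2 : φ (Y x) = φ (Y y) := by
        rw [← hψ2 x, ← hψ2 y, h1]
      have h3 : Y x - Y y = 0 := by
        refine hinj _ ?_ ?_
        · rw [hT]
          refine Finset.mem_union_right _ (Finset.mem_image.2 ⟨(Y y, Y x), Finset.mem_product.2
            ⟨?_, ?_⟩, rfl⟩)
          · rw [Multiset.mem_toFinset, mem_roots hFm.ne_zero]
            exact hY2 y
          · rw [Multiset.mem_toFinset, mem_roots hFm.ne_zero]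
            exact hY2 x
        · rw [map_sub, h2, sub_self]
      have h4 := congrArg (fun z : 𝓞 L => (z : L)) (sub_eq_zero.1 h3)
      rw [hY1, hY1] at h4
      apply Subtype.ext
      exact mul_left_cancel₀ hcL h4
    · rintro ⟨t, ht⟩
      have hr0 : eval₂ φ (ι ((c : ZMod p) * t)) Fh = 0 := by
        rw [hFt]
        have e2 := integralNormalization_eval₂_leadingCoeff_mul hd1 (Int.castRingHom (ZMod p)) t
        rw [eq_intCast, ht, mul_zero] at e2
        rw [e2, map_zero]
      obtain ⟨y, hy, hφy⟩ := lift_root L Fh hFm hFhs φ _ hr0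
      have hyT : g • y - y ∈ T := by
        rw [hT]
        refine Finset.mem_union_left _ (Finset.mem_image.2 ⟨(y, g), Finset.mem_product.2
          ⟨?_, Finset.mem_univ _⟩, rfl⟩)
        rw [Multiset.mem_toFinset, mem_roots hFm.ne_zero]
        exact hy
      have hgy : g • y = y := by
        rw [← sub_eq_zero]
        refine hinj _ hyT ?_
        rw [map_sub, hφ y, hφy, algMap_pow, sub_self]
      have hyL : eval₂ (algebraMap (𝓞 L) L) ((y : 𝓞 L) : L) Fh = 0 := by
        have h1 := congrArg (algebraMap (𝓞 L) L) hy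
        rw [map_zero, ← eval₂_at_apply] at h1
        exact h1
      have h2 : g (y : L) = (y : L) := congrArg (fun z : 𝓞 L => (z : L)) hgy
      have hθ := hFL _ hyL
      refine ⟨⟨(y : L) / c, hθ, by rw [map_div₀, h2, map_intCast]⟩, ?_⟩
      apply Subtype.ext
      simp only
      have h3 := hψ2 ⟨(y : L) / c, hθ, by rw [map_div₀, h2, map_intCast]⟩
      have h4 : Y ⟨(y : L) / c, hθ, by rw [map_div₀, h2, map_intCast]⟩ = y := by
        apply RingOfIntegers.coe_injective
        change ((Y _ : 𝓞 L) : L) = (y : L)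
        rw [hY1]
        simp only
        rw [mul_div_cancel₀ _ hcL]
      rw [h4, hφy] at h3
      have h5 := hιinj h3
      exact mul_left_cancel₀ hcp h5

end Pool.Agent.W5h36.EL
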