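import Pool.Agent.W311.TW.Red3
import Pool.Agent.W975.TW.Loc3

/-! Reduction of the twists with a locally soluble covering to tuples. -/

set_option autoImplicit false

namespace Pool.Agent.W5h36.EL

open Finset Polynomial
open Pool.Agent.W262.TW Pool.Agent.W311.TW

theorem red_ex (K : Type) [Fintype K] [DecidableEq K] (f : K → ℤ[X])
    (hf1 : ∀ k, Irreducible ((f k).map (Int.castRingHom ℚ)))
    (hf2 : ∀ k, Even (f k).natDegree)
    (hf3 : ∀ k l, k ≠ l →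
      ¬ Associated ((f k).map (Int.castRingHom ℚ)) ((f l).map (Int.castRingHom ℚ))) :
    ∃ z0 : ℕ, ∀ z, z0 ≤ z → ∀ d : ℤ, Squarefree d → Sel f d →
      ∃ d0 ∈ EE z, ∃ κ : K → ℤ, (∀ k, κ k ∈ EE z) ∧ ∃ D : K → ℕ, (∀ i, Rg z (D i)) ∧
        (∀ i j, i ≠ j → (D i).Coprime (D j)) ∧ d = d0 * ((∏ k, D k : ℕ) : ℤ) ∧
        ∏ k, D k ≤ d.natAbs ∧
        ∀ i, ∀ p ∈ (D i).primeFactors, ngs (fun k => κ k * D k) i p ∈ Th f i p := by
  classical
  obtain ⟨z0, hz0⟩ := Pool.Agent.W975.TW.loc3 K f hf1 hf2 hf3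
  refine ⟨z0, fun z hz d hd hSel => ?_⟩
  obtain ⟨δ, hδ0, hsq, -, hloc⟩ := hSel
  choose s t ht hs hst using fun k => exists_sqf (δ k) (hδ0 k)
  have hHas : ∀ (p : ℕ) [Fact p.Prime], HasPt f s ℚ_[p] := by
    intro p _
    obtain ⟨x, w, hxw, hy⟩ := hloc p
    refine ⟨x, w, hxw, fun k => ?_⟩
    obtain ⟨y, hy⟩ := hy k
    refine ⟨(t k : ℚ_[p]) * y, ?_⟩
    rw [hy, hst k]
    push_cast
    ring
  obtain ⟨u, hu⟩ : IsSquare (d * ∏ k, s k) := by
    obtain ⟨r, hr⟩ := hsq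
    have hT : (∏ k, t k) ≠ 0 := Finset.prod_ne_zero_iff.mpr fun k _ => ht k
    have h1 : d * ∏ k, δ k = (d * ∏ k, s k) * (∏ k, t k) ^ 2 := by
      rw [Finset.prod_congr rfl (fun k _ => hst k), Finset.prod_mul_distrib, Finset.prod_pow]
      ring
    rw [h1] at hr
    have h2 : (∏ k, t k) ∣ r := by
      rw [← Int.pow_dvd_pow_iff (n := 2) (by norm_num)]
      exact ⟨d * ∏ k, s k, by rw [sq r, ← hr]; ring⟩
    obtain ⟨v, hv⟩ := h2
    refine ⟨v, ?_⟩
    have h3 : (∏ k, t k) ^ 2 ≠ 0 := pow_ne_zero _ hT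
    apply mul_right_cancel₀ h3
    rw [hr, hv]
    ring
  -- local information
  have hL : ∀ p : ℕ, p.Prime → z < p → ∀ i, (p : ℤ) ∣ s i →
      (∀ k, k ≠ i → ¬ (p : ℤ) ∣ s k) ∧ ngs s i p ∈ Th f i p := by
    intro p hp hzp i hi
    haveI : Fact p.Prime := ⟨hp⟩
    exact hz0 p (by omega) s hs (hHas p) i hi
  have hdiv : ∀ p : ℕ, p.Prime → z < p → ((p : ℤ) ∣ d ↔ ∃ k, (p : ℤ) ∣ s k) := by
    intro p hp hzp
    have hpZ : _root_.Prime (p : ℤ) := Nat.prime_iff_prime_int.mp hp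
    have hpu : (p : ℤ) ∣ d * ∏ k, s k → (p : ℤ) ^ 2 ∣ d * ∏ k, s k := by
      intro h1
      rw [hu] at h1 ⊢
      have : (p : ℤ) ∣ u := by
        rcases hpZ.dvd_or_dvd h1 with h | h <;> exact h
      rw [← sq]
      exact pow_dvd_pow_of_dvd this 2
    constructor
    · intro h1
      by_contra h2
      push Not at h2
      have h3 := hpu (h1.mul_right _)
      have h4 : ¬ (p : ℤ) ∣ ∏ k, s k := by
        rw [Prime.dvd_finset_prod_iff hpZ]
        rintro ⟨k, -, hk⟩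
        exact h2 k hk
      have h5 : (p : ℤ) ^ 2 ∣ d := by
        have hc : IsCoprime ((p : ℤ) ^ 2) (∏ k, s k) :=
          IsCoprime.pow_left ((Prime.coprime_iff_not_dvd hpZ).mpr h4)
        exact hc.dvd_of_dvd_mul_right h3
      exact hpZ.not_unit (hd _ (by rw [← sq]; exact h5))
    · rintro ⟨k, hk⟩
      by_contra h2
      have h3 := hpu (Dvd.dvd.mul_left (hk.trans (Finset.dvd_prod_of_mem s (Finset.mem_univ k))) _)
      have hc : IsCoprime ((p : ℤ) ^ 2) d :=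
        IsCoprime.pow_left ((Prime.coprime_iff_not_dvd hpZ).mpr h2)
      have h4 : (p : ℤ) ^ 2 ∣ ∏ k, s k := hc.dvd_of_dvd_mul_left h3
      rw [← Finset.mul_prod_erase _ _ (Finset.mem_univ k)] at h4
      have h5 : ¬ (p : ℤ) ∣ ∏ j ∈ Finset.univ.erase k, s j := by
        rw [Prime.dvd_finset_prod_iff hpZ]
        rintro ⟨j, hj, hj'⟩
        exact (hL p hp hzp k hk).1 j (Finset.ne_of_mem_erase hj) hj'
      have hc' : IsCoprime ((p : ℤ) ^ 2) (∏ j ∈ Finset.univ.erase k, s j) :=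
        IsCoprime.pow_left ((Prime.coprime_iff_not_dvd hpZ).mpr h5)
      have h6 : (p : ℤ) ^ 2 ∣ s k := hc'.dvd_of_dvd_mul_right h4
      exact hpZ.not_unit (hs k _ (by rw [← sq]; exact h6))
  have hcop : ∀ i j, i ≠ j → (Dz z (s i)).Coprime (Dz z (s j)) := by
    intro i j hij
    rw [Nat.coprime_iff_gcd_eq_one]
    by_contra hg
    obtain ⟨p, hp, hpd⟩ := Nat.exists_prime_and_dvd hg
    have h1 := (dvd_Dz (hs i) hp).mp (hpd.trans (Nat.gcd_dvd_left _ _))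
    have h2 := (dvd_Dz (hs j) hp).mp (hpd.trans (Nat.gcd_dvd_right _ _))
    exact (hL p hp h1.1 i h1.2).1 j (Ne.symm hij) h2.2
  have hprod : ∏ k, Dz z (s k) = Dz z d := by
    have hs0 : ∀ k, (s k).natAbs ≠ 0 := fun k => by
      rw [Int.natAbs_ne_zero]; exact (hs k).ne_zero
    have hd0 : d.natAbs ≠ 0 := by
      rw [Int.natAbs_ne_zero]; exact hd.ne_zero
    unfold Dz
    rw [← Finset.prod_biUnion]
    · apply Finset.prod_congr _ (fun _ _ => rfl)
      ext p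
      simp only [Finset.mem_biUnion, Finset.mem_univ, true_and, Finset.mem_filter,
        Nat.mem_primeFactors]
      constructor
      · rintro ⟨k, ⟨hp, hpk, -⟩, hzp⟩
        exact ⟨⟨hp, Int.natCast_dvd.mp ((hdiv p hp hzp).mpr ⟨k, Int.natCast_dvd.mpr hpk⟩), hd0⟩, hzp⟩
      · rintro ⟨⟨hp, hpd, -⟩, hzp⟩
        obtain ⟨k, hk⟩ := (hdiv p hp hzp).mp (Int.natCast_dvd.mpr hpd)
        exact ⟨k, ⟨hp, Int.natCast_dvd.mp hk, hs0 k⟩, hzp⟩
    · intro i _ j _ hij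
      rw [Function.onFun, Finset.disjoint_left]
      intro p hp hp'
      rw [Finset.mem_filter, Nat.mem_primeFactors] at hp hp'
      exact (hL p hp.1.1 hp.2 i (Int.natCast_dvd.mpr hp.1.2.1)).1 j (Ne.symm hij)
        (Int.natCast_dvd.mpr hp'.1.2.1)
  choose κ hκ hκs using fun k => exists_EE (z := z) (hs k)
  obtain ⟨d0, hd0, hdd⟩ := exists_EE (z := z) hd
  refine ⟨d0, hd0, κ, hκ, fun k => Dz z (s k), fun i => Dz_sqf (hs i), hcop, ?_, ?_, ?_⟩
  · rw [hprod]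
    exact hdd
  · rw [hprod]
    exact Dz_le hd
  · intro i p hp
    have hpp := Nat.prime_of_mem_primeFactors hp
    have h1 := (dvd_Dz (hs i) hpp).mp (Nat.dvd_of_mem_primeFactors hp)
    have h2 := (hL p hpp h1.1 i h1.2).2
    have h3 : (fun k => κ k * (Dz z (s k) : ℤ)) = s := by
      funext k
      exact (hκs k).symm
    rw [h3]
    exact h2

end Pool.Agent.W5h36.EL
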