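import Pool.Agent.W5h36.EL.Up

/-! Upper bound for the number of the twists with a locally soluble covering. -/

set_option autoImplicit false

namespace Pool.Agent.W5h36.EL

open Finset Polynomial Pool.Agent.W262.RK Pool.Agent.W262.TW Filter Topology

lemma sum_inv_le (V : ℕ) : ∑ n ∈ Icc 1 V, (1 : ℝ) / n ≤ 1 + Real.log V := by
  have h := harmonic_le_one_add_log V
  rw [harmonic_eq_sum_Icc] at h
  push_cast at h
  simpa [one_div] using h

theorem upper {K : Type} [Fintype K] [DecidableEq K] (f : K → ℤ[X])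
    (hf1 : ∀ k, Irreducible ((f k).map (Int.castRingHom ℚ)))
    (hf2 : ∀ k, Even (f k).natDegree)
    (hf3 : ∀ k l, k ≠ l →
      ¬ Associated ((f k).map (Int.castRingHom ℚ)) ((f l).map (Int.castRingHom ℚ)))
    (α : ℝ) (hα : 0 ≤ α) (s : Finset K → ℝ) (hs : ∀ I, 0 < s I ∧ s I ≤ 1)
    (hW : ∀ I : Finset K, I.Nonempty → ∃ C : ℝ, ∀ x : ℕ, 3 ≤ x →
      ∑ p ∈ PS 0 x, (WI f I p) ^ (s I) / p ≤ α * Real.log (Real.log x) + C)
    (ε : ℝ) (hε : 0 < ε) : ∃ C : ℝ, ∀ X : ℕ, 3 ≤ X →
      ({d : ℤ | d.natAbs ≤ X ∧ Squarefree d ∧ Sel f d}.ncard : ℝ) ≤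
        C * X * (Real.log X) ^ (α - 1 + ε) := by
  obtain ⟨z0, hz0⟩ := red_ex K f hf1 hf2 hf3
  set z : ℕ := max z0 2 with hz
  set ε1 : ℝ := min (ε / 2) (1 / 2) with hε1
  have hε1p : 0 < ε1 := lt_min (by linarith) (by norm_num)
  have hε1h : ε1 ≤ 1 / 2 := min_le_right _ _
  have hε1e : ε1 ≤ ε / 2 := min_le_left _ _
  have hsub : ∀ I : Finset K, ∃ B : ℕ, ∀ B' : ℕ, ∃ C : ℝ, 0 ≤ C ∧ (I.Nonempty →
      ∀ (z Y V : ℕ) (κ : K → ℤ) (a : K → ℤ) (E : ℝ),
      2 ≤ z → 3 ≤ Y → 3 ≤ Real.log Y →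
      (Real.log Y) ^ B ≤ V → (V : ℝ) ≤ (Real.log Y) ^ B' →
      (∀ k, ∀ p : ℕ, p.Prime → (p : ℤ) ∣ κ k → p ≤ z) →
      (∑ p ∈ PS z Y, (WI f I p) ^ (s I) / p ≤ E) →
      (((CS z Y V (fun k : {i // i ∈ I} => κ k)
        (fun i p => TS I (Th f i p) (sg I a p))).image (fun D => ∏ i, D i)).card : ℝ) ≤
        C * Y * (Real.log Y) ^ (ε1 - 1) * Real.exp E) := by
    intro I
    by_cases hI : I.Nonempty
    · obtain ⟨B, hB⟩ := sub_count I hI ε1 hε1p (s I) (hs I).1 (hs I).2 f
      refine ⟨B, fun B' => ?_⟩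
      obtain ⟨C, hC0, hC⟩ := hB B'
      exact ⟨C, hC0, fun _ => hC⟩
    · exact ⟨0, fun _ => ⟨0, le_rfl, fun h => absurd h hI⟩⟩
  choose Bf hBf using hsub
  set B : ℕ := ∑ I, Bf I with hB
  choose Cf hCf0 hCf using fun I => hBf I (B + 1)
  have hW' : ∀ I : Finset K, ∃ C : ℝ, I.Nonempty → ∀ x : ℕ, 3 ≤ x →
      ∑ p ∈ PS 0 x, (WI f I p) ^ (s I) / p ≤ α * Real.log (Real.log x) + C := by
    intro I
    by_cases hI : I.Nonempty
    · obtain ⟨C, hC⟩ := hW I hI
      exact ⟨C, fun _ => hC⟩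
    · exact ⟨0, fun h => absurd h hI⟩
  choose Cw hCw using hW'
  set C3 : ℝ := ∑ I, |Cw I| with hC3
  have hCw3 : ∀ I, Cw I ≤ C3 := fun I => (le_abs_self _).trans
    (single_le_sum (f := fun I => |Cw I|) (fun _ _ => abs_nonneg _) (mem_univ I))
  set r : ℕ := Fintype.card K with hr
  obtain ⟨x0, hx0⟩ := eventually_atTop.1 (large2 B r (ε / 2) (by linarith))
  set X0 : ℕ := max ⌈x0⌉₊ 3 with hX0
  set C4 : ℝ := ((EE z).card : ℝ) * ((EE z).card : ℝ) ^ r * ((∑ I, Cf I) * (2 * Real.exp C3)) with hC4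
  have hC40 : 0 ≤ C4 := by
    have : 0 ≤ ∑ I, Cf I := sum_nonneg fun I _ => hCf0 I
    positivity
  refine ⟨C4 + (EE z).card + (2 * X0 + 1), fun X hX => ?_⟩
  have hX1 : (0 : ℝ) < X := by exact_mod_cast (by omega : 0 < X)
  have hL1 : 1 < Real.log X := one_lt_log hX
  have hL0 : 0 < Real.log X := by linarith
  have hbase : 1 ≤ (X : ℝ) * (Real.log X) ^ (α - 1 + ε) := by
    have h1 := Pool.Agent.W249.TW.lower hX hε
    refine h1.trans ?_
    refine mul_le_mul_of_nonneg_left ?_ hX1.le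
    exact Real.rpow_le_rpow_of_exponent_le hL1.le (by linarith)
  have hfinS : {d : ℤ | d.natAbs ≤ X ∧ Squarefree d ∧ Sel f d}.Finite := by
    apply (Set.finite_Icc (-(X : ℤ)) X).subset
    intro d hd
    have h1 : d.natAbs ≤ X := hd.1
    rw [Set.mem_Icc]
    omega
  rcases lt_or_ge X X0 with hsmall | hlarge
  · have h1 : {d : ℤ | d.natAbs ≤ X ∧ Squarefree d ∧ Sel f d}.ncard ≤ 2 * X0 + 1 := by
      have h4 : {d : ℤ | d.natAbs ≤ X ∧ Squarefree d ∧ Sel f d} ⊆
          ((Finset.Icc (-(X : ℤ)) X : Finset ℤ) : Set ℤ) := by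
        intro d hd
        have h5 : d.natAbs ≤ X := hd.1
        rw [Finset.mem_coe, Finset.mem_Icc]
        omega
      refine (Set.ncard_le_ncard h4 (Finset.finite_toSet _)).trans ?_
      rw [Set.ncard_coe_finset, Int.card_Icc]
      omega
    have h2 : ({d : ℤ | d.natAbs ≤ X ∧ Squarefree d ∧ Sel f d}.ncard : ℝ) ≤ 2 * X0 + 1 := by
      exact_mod_cast h1
    calc ({d : ℤ | d.natAbs ≤ X ∧ Squarefree d ∧ Sel f d}.ncard : ℝ) ≤ 2 * X0 + 1 := h2
      _ ≤ (C4 + (EE z).card + (2 * X0 + 1)) * 1 := by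
          have : (0 : ℝ) ≤ (EE z).card := Nat.cast_nonneg _
          linarith
      _ ≤ (C4 + (EE z).card + (2 * X0 + 1)) * (X * (Real.log X) ^ (α - 1 + ε)) :=
          mul_le_mul_of_nonneg_left hbase (by positivity)
      _ = _ := by ring
  · have hXx0 : x0 ≤ X := by
      have h1 : x0 ≤ ⌈x0⌉₊ := Nat.le_ceil _
      have h2 : ((⌈x0⌉₊ : ℕ) : ℝ) ≤ X := by exact_mod_cast (le_max_left _ _).trans hlarge
      linarith
    obtain ⟨g1, g2, g3, g4, g5, g6⟩ := hx0 X hXx0
    set L : ℝ := Real.log X with hL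
    set V : ℕ := ⌈L ^ B⌉₊ with hV
    have hLB : 1 ≤ L ^ B := one_le_pow₀ hL1.le
    have hV1 : 1 ≤ V := Nat.one_le_iff_ne_zero.2 (by
      intro h
      have := Nat.le_ceil (L ^ B)
      rw [← hV, h] at this
      norm_num at this
      linarith)
    have hVle : (V : ℝ) ≤ 2 * L ^ B := by
      have := Nat.ceil_lt_add_one (show 0 ≤ L ^ B by positivity)
      linarith
    have hVge : L ^ B ≤ V := Nat.le_ceil _
    have hV0 : (0 : ℝ) < V := by exact_mod_cast hV1
    -- the covering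
    set A0 : Finset ℤ := ((EE z) ×ˢ (Fintype.piFinset (fun _ : K => Icc 1 V))).image
        (fun x => x.1 * ((∏ k, x.2 k : ℕ) : ℤ)) with hA0
    set A1 : Finset ℤ := (univ.filter (fun I : Finset K => I.Nonempty)).biUnion
      (fun I => (XX f z X V I).image (fun x => x.1.1 * (((∏ k, x.1.2.2 k) * x.2 : ℕ) : ℤ))) with hA1
    have hcov : {d : ℤ | d.natAbs ≤ X ∧ Squarefree d ∧ Sel f d} ⊆ ((A0 ∪ A1 : Finset ℤ) : Set ℤ) := by
      rintro d ⟨hdX, hd, hSel⟩
      obtain ⟨d0, hd0, κ, hκ, D, hR, hc, hdd, hle, hpt⟩ := hz0 z (le_max_left _ _) d hd hSel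
      exact mem_cover f z X V hV1 d hdX d0 hd0 κ hκ D hR hc hdd hle hpt
    have hcard1 : ({d : ℤ | d.natAbs ≤ X ∧ Squarefree d ∧ Sel f d}.ncard : ℝ) ≤ A0.card + A1.card := by
      have h1 := (Set.ncard_le_ncard hcov (Finset.finite_toSet _))
      rw [Set.ncard_coe_finset] at h1
      exact_mod_cast h1.trans (card_union_le _ _)
    -- the first set
    have hVr : (V : ℝ) ^ r * (Real.sqrt X + 1) ≤ X := by
      refine le_trans ?_ g1
      refine mul_le_mul_of_nonneg_right ?_ (by positivity)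
      exact pow_le_pow_left₀ hV0.le hVle r
    have hsq0 : 0 < Real.sqrt X := Real.sqrt_pos.2 hX1
    have hsqsq : Real.sqrt X * Real.sqrt X = X := Real.mul_self_sqrt hX1.le
    have hVr' : (V : ℝ) ^ r ≤ X * L ^ (α - 1 + ε) := by
      have h1 : (V : ℝ) ^ r * Real.sqrt X ≤ X := by
        have : 0 ≤ (V : ℝ) ^ r := by positivity
        nlinarith
      have h2 : (V : ℝ) ^ r ≤ Real.sqrt X := by
        by_contra h
        push Not at h
        nlinarith
      have h3 : Real.sqrt X ≤ X * L ^ (-1 : ℝ) := by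
        rw [Real.rpow_neg_one, ← div_eq_mul_inv, le_div_iff₀ hL0]
        calc Real.sqrt X * L ≤ Real.sqrt X * Real.sqrt X := mul_le_mul_of_nonneg_left g3 hsq0.le
          _ = X := hsqsq
      refine h2.trans (h3.trans ?_)
      refine mul_le_mul_of_nonneg_left ?_ hX1.le
      exact Real.rpow_le_rpow_of_exponent_le hL1.le (by linarith)
    have hA0c : (A0.card : ℝ) ≤ (EE z).card * (X * L ^ (α - 1 + ε)) := by
      have h1 : A0.card ≤ (EE z).card * V ^ r := by
        refine card_image_le.trans ?_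
        rw [card_product, Fintype.card_piFinset]
        simp [hr]
      have h2 : (A0.card : ℝ) ≤ (EE z).card * (V : ℝ) ^ r := by exact_mod_cast h1
      exact h2.trans (mul_le_mul_of_nonneg_left hVr' (Nat.cast_nonneg _))
    -- the main terms
    have hNN : ∀ I : Finset K, I.Nonempty → ∀ κ ∈ Fintype.piFinset (fun _ : K => EE z),
        ∀ D ∈ Fintype.piFinset (fun _ : K => Icc 1 V), ((NN f z X V I κ D).card : ℝ) ≤
          Cf I * (2 * Real.exp C3) * (X * L ^ (ε1 - 1) * L ^ α) * ∏ k, (1 / (D k : ℝ)) := by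
      intro I hI κ hκ D hD
      rw [Fintype.mem_piFinset] at hκ hD
      have hD1 : ∀ k, 1 ≤ D k := fun k => (mem_Icc.1 (hD k)).1
      have hDV : ∀ k, D k ≤ V := fun k => (mem_Icc.1 (hD k)).2
      have hQ0 : 0 < ∏ k, D k := prod_pos fun k _ => hD1 k
      set Q : ℕ := ∏ k, D k with hQ
      have hQV : (Q : ℝ) ≤ (V : ℝ) ^ r := by
        have h1 : Q ≤ V ^ r := by
          rw [hQ, hr, ← card_univ, ← prod_const]
          exact prod_le_prod' fun k _ => hDV k
        exact_mod_cast h1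
      have hQ0' : (0 : ℝ) < Q := by exact_mod_cast hQ0
      set Y : ℕ := X / Q with hY
      have hYlow : Real.sqrt X ≤ Y := by
        have h1 : X < Q * (Y + 1) := Nat.lt_mul_div_succ X hQ0
        have h2 : (X : ℝ) < Q * ((Y : ℝ) + 1) := by exact_mod_cast h1
        have h3 : (V : ℝ) ^ r * (Real.sqrt X + 1) < (V : ℝ) ^ r * ((Y : ℝ) + 1) := by
          refine lt_of_le_of_lt hVr (h2.trans_le ?_)
          exact mul_le_mul_of_nonneg_right hQV (by positivity)
        have h4 := lt_of_mul_lt_mul_left h3 (by positivity)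
        linarith
      have hYX : Y ≤ X := Nat.div_le_self _ _
      have hsq3 : 3 ≤ Real.sqrt X := by
        rw [Real.le_sqrt (by norm_num) hX1.le]
        norm_num
        exact_mod_cast g6
      have hY3 : 3 ≤ Y := by
        have : (3 : ℝ) ≤ Y := hsq3.trans hYlow
        exact_mod_cast this
      have hY0 : (0 : ℝ) < Y := by exact_mod_cast (by omega : 0 < Y)
      have hlY : L / 2 ≤ Real.log Y := by
        rw [hL, ← Real.log_sqrt hX1.le]
        exact Real.log_le_log hsq0 hYlow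
      have hlYX : Real.log Y ≤ L := Real.log_le_log hY0 (by exact_mod_cast hYX)
      have hlY3 : 3 ≤ Real.log Y := by linarith
      have hlY0 : 0 < Real.log Y := by linarith
      have hBI : Bf I ≤ B := single_le_sum (f := Bf) (fun _ _ => Nat.zero_le _) (mem_univ I)
      have hV1' : (Real.log Y) ^ (Bf I) ≤ V := by
        calc (Real.log Y) ^ (Bf I) ≤ L ^ (Bf I) := pow_le_pow_left₀ hlY0.le hlYX _
          _ ≤ L ^ B := pow_le_pow_right₀ hL1.le hBI
          _ ≤ V := hVge
      have hV2' : (V : ℝ) ≤ (Real.log Y) ^ (B + 1) := by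
        have h1 : (L / 2) ^ (B + 1) ≤ (Real.log Y) ^ (B + 1) :=
          pow_le_pow_left₀ (by positivity) hlY _
        refine le_trans (hVle.trans ?_) h1
        rw [div_pow, le_div_iff₀ (by positivity), pow_succ L]
        have h2 : (2 : ℝ) * 2 ^ (B + 1) = 2 ^ (B + 2) := by ring
        have h3 : 0 < L ^ B := by positivity
        calc 2 * L ^ B * 2 ^ (B + 1) = L ^ B * 2 ^ (B + 2) := by rw [← h2]; ring
          _ ≤ L ^ B * L := mul_le_mul_of_nonneg_left g5 h3.le
      have hE : ∑ p ∈ PS z Y, (WI f I p) ^ (s I) / p ≤ α * Real.log L + C3 := by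
        refine le_trans ?_ ((hCw I hI X hX).trans ?_)
        · refine sum_le_sum_of_subset_of_nonneg ?_ fun p _ _ =>
            div_nonneg (Real.rpow_nonneg (WI_nonneg f I p) _) (Nat.cast_nonneg p)
          intro p hp
          rw [mem_PS] at hp ⊢
          exact ⟨⟨by omega, hp.1.2.trans hYX⟩, hp.2⟩
        · have := hCw3 I
          rw [← hL]
          linarith
      have h := hCf I hI z Y V κ (fun k => κ k * D k) _ (le_max_right _ _) hY3 hlY3 hV1' hV2'
        (fun k => EE_prime (hκ k)) hE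
      refine le_trans (le_of_eq ?_) (h.trans ?_)
      · rfl
      · have e1 : Real.exp (α * Real.log L + C3) = L ^ α * Real.exp C3 := by
          rw [Real.exp_add, Real.rpow_def_of_pos hL0, mul_comm α]
        have e2 : (Real.log Y) ^ (ε1 - 1) ≤ 2 * L ^ (ε1 - 1) := by
          calc (Real.log Y) ^ (ε1 - 1) ≤ (L / 2) ^ (ε1 - 1) :=
                Real.rpow_le_rpow_of_nonpos (by positivity) hlY (by linarith)
            _ = L ^ (ε1 - 1) * 2 ^ (1 - ε1) := by
                rw [Real.div_rpow hL0.le (by norm_num), div_eq_mul_inv,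
                  ← Real.rpow_neg (by norm_num)]
                congr 2
                ring
            _ ≤ L ^ (ε1 - 1) * 2 ^ (1 : ℝ) := by
                refine mul_le_mul_of_nonneg_left ?_ (Real.rpow_nonneg hL0.le _)
                exact Real.rpow_le_rpow_of_exponent_le (by norm_num) (by linarith)
            _ = _ := by rw [Real.rpow_one, mul_comm]
        have e3 : (Y : ℝ) ≤ X * ∏ k, (1 / (D k : ℝ)) := by
          have h1 : ∏ k, (1 / (D k : ℝ)) = 1 / (Q : ℝ) := by
            rw [prod_div_distrib, prod_const_one, hQ, Nat.cast_prod]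
          rw [h1, mul_one_div, hY]
          exact Nat.cast_div_le
        rw [e1]
        have hp1 : 0 ≤ L ^ (ε1 - 1) := Real.rpow_nonneg hL0.le _
        have hp2 : 0 ≤ L ^ α := Real.rpow_nonneg hL0.le _
        have hp3 : 0 ≤ (Real.log Y) ^ (ε1 - 1) := Real.rpow_nonneg hlY0.le _
        calc Cf I * Y * (Real.log Y) ^ (ε1 - 1) * (L ^ α * Real.exp C3)
            = (Cf I * (L ^ α * Real.exp C3)) * (Y * (Real.log Y) ^ (ε1 - 1)) := by ring
          _ ≤ (Cf I * (L ^ α * Real.exp C3)) * ((X * ∏ k, (1 / (D k : ℝ))) * (2 * L ^ (ε1 - 1))) := by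
              refine mul_le_mul_of_nonneg_left ?_ (by have := hCf0 I; positivity)
              exact mul_le_mul e3 e2 hp3 (by positivity)
          _ = _ := by ring
    have hsumD : ∑ D ∈ Fintype.piFinset (fun _ : K => Icc 1 V), ∏ k, (1 / (D k : ℝ)) ≤
        L ^ (ε / 2) := by
      have h1 := (Finset.prod_univ_sum (fun _ : K => Icc 1 V) (fun _ (n : ℕ) => (1 : ℝ) / n))
      rw [← h1, prod_const, card_univ, ← hr]
      have h2 : (∑ n ∈ Icc 1 V, (1 : ℝ) / n) ≤ 1 + (Real.log 2 + B * Real.log L) := by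
        refine (sum_inv_le V).trans ?_
        have h3 : Real.log V ≤ Real.log (2 * L ^ B) := Real.log_le_log hV0 hVle
        rw [Real.log_mul (by norm_num) (by positivity), Real.log_pow] at h3
        linarith
      exact (pow_le_pow_left₀ (sum_nonneg fun _ _ => by positivity) h2 r).trans g2
    have hXXc : ∀ I : Finset K, I.Nonempty → ((XX f z X V I).card : ℝ) ≤
        (EE z).card * (EE z).card ^ r * (Cf I * (2 * Real.exp C3)) * (X * L ^ (α - 1 + ε)) := by
      intro I hI
      unfold XX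
      rw [card_sigma, sum_product]
      push_cast
      rw [sum_const, nsmul_eq_mul, sum_product]
      have h1 : ∑ κ ∈ Fintype.piFinset (fun _ : K => EE z), ∑ D ∈ Fintype.piFinset (fun _ : K => Icc 1 V),
          ((NN f z X V I κ D).card : ℝ) ≤ (EE z).card ^ r * ((Cf I * (2 * Real.exp C3) *
            (X * L ^ (ε1 - 1) * L ^ α)) * L ^ (ε / 2)) := by
        calc ∑ κ ∈ Fintype.piFinset (fun _ : K => EE z), ∑ D ∈ Fintype.piFinset (fun _ : K => Icc 1 V),
            ((NN f z X V I κ D).card : ℝ) ≤ ∑ _κ ∈ Fintype.piFinset (fun _ : K => EE z),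
              ((Cf I * (2 * Real.exp C3) * (X * L ^ (ε1 - 1) * L ^ α)) * L ^ (ε / 2)) := by
              refine sum_le_sum fun κ hκ => ?_
              refine (sum_le_sum fun D hD => hNN I hI κ hκ D hD).trans ?_
              rw [← mul_sum]
              refine mul_le_mul_of_nonneg_left hsumD ?_
              have := hCf0 I
              have hp1 : 0 ≤ L ^ (ε1 - 1) := Real.rpow_nonneg hL0.le _
              have hp2 : 0 ≤ L ^ α := Real.rpow_nonneg hL0.le _
              positivity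
          _ = _ := by
              rw [sum_const, nsmul_eq_mul, Fintype.card_piFinset]
              simp [hr]
      have e1 : L ^ (ε1 - 1) * L ^ α * L ^ (ε / 2) ≤ L ^ (α - 1 + ε) := by
        rw [← Real.rpow_add hL0, ← Real.rpow_add hL0]
        exact Real.rpow_le_rpow_of_exponent_le hL1.le (by linarith)
      calc ((EE z).card : ℝ) * ∑ κ ∈ Fintype.piFinset (fun _ : K => EE z),
            ∑ D ∈ Fintype.piFinset (fun _ : K => Icc 1 V), ((NN f z X V I κ D).card : ℝ)
          ≤ (EE z).card * ((EE z).card ^ r * ((Cf I * (2 * Real.exp C3) *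
            (X * L ^ (ε1 - 1) * L ^ α)) * L ^ (ε / 2))) :=
            mul_le_mul_of_nonneg_left h1 (Nat.cast_nonneg _)
        _ = (EE z).card * (EE z).card ^ r * (Cf I * (2 * Real.exp C3)) *
            (X * (L ^ (ε1 - 1) * L ^ α * L ^ (ε / 2))) := by ring
        _ ≤ _ := by
            refine mul_le_mul_of_nonneg_left (mul_le_mul_of_nonneg_left e1 hX1.le) ?_
            have := hCf0 I
            positivity
    have hA1c : (A1.card : ℝ) ≤ C4 * (X * L ^ (α - 1 + ε)) := by
      have h1 : A1.card ≤ ∑ I ∈ univ.filter (fun I : Finset K => I.Nonempty), (XX f z X V I).card :=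
        card_biUnion_le.trans (sum_le_sum fun I _ => card_image_le)
      have h2 : (A1.card : ℝ) ≤ ∑ I ∈ univ.filter (fun I : Finset K => I.Nonempty),
          ((XX f z X V I).card : ℝ) := by exact_mod_cast h1
      refine h2.trans ?_
      have hP0 : 0 ≤ (X : ℝ) * L ^ (α - 1 + ε) := by linarith
      calc ∑ I ∈ univ.filter (fun I : Finset K => I.Nonempty), ((XX f z X V I).card : ℝ)
          ≤ ∑ I ∈ univ.filter (fun I : Finset K => I.Nonempty),
            (EE z).card * (EE z).card ^ r * (Cf I * (2 * Real.exp C3)) * (X * L ^ (α - 1 + ε)) :=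
            sum_le_sum fun I hI => hXXc I (mem_filter.1 hI).2
        _ ≤ ∑ I : Finset K,
            (EE z).card * (EE z).card ^ r * (Cf I * (2 * Real.exp C3)) * (X * L ^ (α - 1 + ε)) := by
            refine sum_le_sum_of_subset_of_nonneg (filter_subset _ _) fun I _ _ => ?_
            have := hCf0 I
            positivity
        _ = _ := by
            rw [hC4, sum_mul, mul_sum, sum_mul]
    calc ({d : ℤ | d.natAbs ≤ X ∧ Squarefree d ∧ Sel f d}.ncard : ℝ) ≤ A0.card + A1.card := hcard1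
      _ ≤ (EE z).card * (X * L ^ (α - 1 + ε)) + C4 * (X * L ^ (α - 1 + ε)) := by linarith
      _ ≤ (C4 + (EE z).card + (2 * X0 + 1)) * (X * L ^ (α - 1 + ε)) := by
          have h1 : 0 ≤ (2 * (X0 : ℝ) + 1) * (X * L ^ (α - 1 + ε)) := by
            have : 0 ≤ (X : ℝ) * L ^ (α - 1 + ε) := by linarith
            positivity
          nlinarith
      _ = _ := by ring

end Pool.Agent.W5h36.EL
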