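import Pool.Agent.W5h36.EL.Frob
import Pool.Agent.W5h36.EL.Up2
import Pool.Agent.W5h36.EL.Low

/-! The distribution of the set of the polynomials with a zero modulo `p`. -/

set_option autoImplicit false

namespace Pool.Agent.W5h36.EL

open Polynomial NumberField Filter Topology Finset
open Pool.Agent.W401.Cheb Pool.Agent.W262.TW Pool.Agent.W262.RK

section K

variable {K : Type} [Fintype K] [DecidableEq K]

open scoped Classical in
/-- the set of the `k` such that `f k` has a zero modulo `p` -/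
noncomputable def SR (f : K → ℤ[X]) (p : ℕ) : Finset K :=
  univ.filter (fun k => ∃ θ : ℤ, (p : ℤ) ∣ (f k).eval θ)

open scoped Classical in
/-- the set of the `k` such that `σ` fixes a zero of `f k` -/
noncomputable def SQ (f : K → ℤ[X]) (σ : AlgebraicClosure ℚ ≃ₐ[ℚ] AlgebraicClosure ℚ) : Finset K :=
  univ.filter (fun k => ∃ θ : AlgebraicClosure ℚ, aeval θ (f k) = 0 ∧ σ θ = θ)

theorem sets_mean (f : K → ℤ[X]) (hf : ∀ k, f k ≠ 0) :
    ∃ ν : Finset K → ℝ, (∀ T, 0 ≤ ν T) ∧ (∑ T, ν T = 1) ∧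
      (∀ F : Finset K → ℝ, Tendsto (M fun p => F (SR f p)) atTop (𝓝 (∑ T, F T * ν T))) ∧
      ∀ σ, 0 < ν (SQ f σ) := by
  classical
  have hZQ : algebraMap ℤ (AlgebraicClosure ℚ) = Int.castRingHom (AlgebraicClosure ℚ) :=
    RingHom.ext_int _ _
  set s0 : Set (AlgebraicClosure ℚ) := ⋃ k, {θ | aeval θ (f k) = 0} with hs0
  have hs0f : s0.Finite := by
    refine Set.finite_iUnion fun k => ?_
    have h1 : ((f k).map (Int.castRingHom (AlgebraicClosure ℚ))) ≠ 0 :=
      (Polynomial.map_ne_zero_iff (Int.castRingHom (AlgebraicClosure ℚ)).injective_int).2 (hf k)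
    refine (Polynomial.finite_setOfPred_isRoot h1).subset ?_
    intro β hβ
    have h2 : aeval β (f k) = 0 := hβ
    change ((f k).map (Int.castRingHom (AlgebraicClosure ℚ))).IsRoot β
    rw [IsRoot.def, eval_map]
    rw [aeval_def, hZQ] at h2
    exact h2
  obtain ⟨L, iF, iN, iG, j, hj, hτ⟩ := exL2 s0 hs0f
  have hjs : ∀ k, ∀ θ : AlgebraicClosure ℚ, aeval θ (f k) = 0 → ∃ y, j y = θ := fun k θ hθ =>
    hj θ (Set.mem_iUnion.2 ⟨k, hθ⟩)
  choose D hD hDp using fun k => root_frob L j (f k) (hf k) (hjs k)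
  let SG : Gal(L/ℚ) → Finset K := fun g => univ.filter (fun k => ∃ θ : L, aeval θ (f k) = 0 ∧ g θ = θ)
  have hG : (0 : ℝ) < Nat.card Gal(L/ℚ) := by exact_mod_cast Nat.card_pos
  let ν : Finset K → ℝ := fun T => ((univ.filter (fun g => SG g = T)).card : ℝ) / Nat.card Gal(L/ℚ)
  have hsum : ∀ F : Finset K → ℝ, ∑ T, F T * ν T = (∑ g : Gal(L/ℚ), F (SG g)) / Nat.card Gal(L/ℚ) := by
    intro F
    rw [← Finset.sum_fiberwise univ SG (fun g => F (SG g)), sum_div]
    refine sum_congr rfl fun T _ => ?_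
    have h1 : ∑ g ∈ univ.filter (fun g => SG g = T), F (SG g) =
        ∑ g ∈ univ.filter (fun g => SG g = T), F T :=
      sum_congr rfl fun g hg => by rw [(mem_filter.1 hg).2]
    rw [h1, sum_const, nsmul_eq_mul]
    simp only [ν]
    ring
  refine ⟨ν, fun T => by positivity, ?_, fun F => ?_, fun σ => ?_⟩
  · have h1 := hsum (fun _ => 1)
    simp only [one_mul] at h1
    rw [h1, sum_const, card_univ, nsmul_eq_mul, mul_one, ← Nat.card_eq_fintype_card, div_self hG.ne']
  · rw [hsum F]
    refine cheb_mean L (fun g => F (SG g)) _ (∏ k, D k) (prod_pos fun k _ => hD k) ?_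
    intro p _ hp φ g hφ
    congr 1
    unfold SR
    refine filter_congr fun k _ => ?_
    exact hDp k p (fun h => hp (h.trans (dvd_prod_of_mem D (mem_univ k)))) φ g hφ
  · obtain ⟨τ, hτ⟩ := hτ σ
    have h1 : SG τ = SQ f σ := by
      unfold SQ
      simp only [SG]
      refine filter_congr fun k _ => ?_
      constructor
      · rintro ⟨θ, h2, h3⟩
        refine ⟨j θ, ?_, ?_⟩
        · rw [aeval_def, hZQ]
          rw [aeval_def, show algebraMap ℤ L = Int.castRingHom L from RingHom.ext_int _ _] at h2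
          have h4 := Polynomial.hom_eval₂ (f k) (Int.castRingHom L) j θ
          rw [h2, map_zero] at h4
          rw [h4]
          congr 1
          exact RingHom.ext_int _ _
        · rw [← hτ, h3]
      · rintro ⟨θ, h2, h3⟩
        obtain ⟨y, rfl⟩ := hjs k θ h2
        refine ⟨y, ?_, ?_⟩
        · rw [aeval_def, show algebraMap ℤ L = Int.castRingHom L from RingHom.ext_int _ _]
          rw [aeval_def, hZQ] at h2
          apply j.injective
          rw [map_zero, Polynomial.hom_eval₂, ← h2]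
          congr 1
          exact RingHom.ext_int _ _
        · apply j.injective
          rw [hτ, h3]
    have h2 : 0 < (univ.filter (fun g => SG g = SQ f σ)).card :=
      card_pos.2 ⟨τ, mem_filter.2 ⟨mem_univ _, h1⟩⟩
    have h3 : (0 : ℝ) < ((univ.filter (fun g => SG g = SQ f σ)).card : ℝ) := by exact_mod_cast h2
    exact div_pos h3 hG

lemma Th_empty {f : K → ℤ[X]} {i : K} {p : ℕ} (h : i ∉ SR f p) : Th f i p = ∅ := by
  classical
  unfold Th
  rw [image_eq_empty, filter_eq_empty_iff]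
  intro θ _ hθ
  apply h
  unfold SR
  exact mem_filter.2 ⟨mem_univ _, θ, hθ⟩

lemma MX_empty (I : Finset K) : MX I (∅ : Finset (Finset K)) = 0 := by
  have := MX_le_card I (∅ : Finset (Finset K))
  rw [card_empty] at this
  omega

lemma WI_eq_zero {f : K → ℤ[X]} {I : Finset K} {p : ℕ} (h : I ∩ SR f p = ∅) : WI f I p = 0 := by
  unfold WI
  rw [sum_eq_zero, zero_div]
  intro i hi
  have h1 : i ∉ SR f p := by
    intro h2
    have : i ∈ I ∩ SR f p := mem_inter.2 ⟨hi, h2⟩
    rw [h] at this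
    exact notMem_empty _ this
  rw [Th_empty h1, MX_empty, Nat.cast_zero]

/-- the product has a zero modulo `p` if and only if one of the factors has -/
lemma mem_RP (f : K → ℤ[X]) {p : ℕ} (hp : p.Prime) : p ∈ RP f ↔ (SR f p).Nonempty := by
  classical
  have hpi : Prime (p : ℤ) := Nat.prime_iff_prime_int.1 hp
  unfold RP SR
  simp only [Set.mem_setOf_eq]
  constructor
  · rintro ⟨-, θ, hθ⟩
    rw [eval_prod, Prime.dvd_finset_prod_iff hpi] at hθ
    obtain ⟨k, -, hk⟩ := hθ
    exact ⟨k, mem_filter.2 ⟨mem_univ _, θ, hk⟩⟩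
  · rintro ⟨k, hk⟩
    obtain ⟨-, θ, hθ⟩ := mem_filter.1 hk
    refine ⟨hp, θ, ?_⟩
    rw [eval_prod]
    exact hθ.trans (dvd_prod_of_mem (fun k => (f k).eval θ) (mem_univ k))

end K

end Pool.Agent.W5h36.EL
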