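import Pool.Agent.W5h36.EL.Der

/-! Polynomials with symmetric Galois groups. -/

set_option autoImplicit false

namespace Pool.Agent.W5h36.EL

open Polynomial Filter Topology Finset
open Pool.Agent.W401.Cheb Pool.Agent.W262.TW Pool.Agent.W262.RK

lemma sum_nq (n : ℕ) : ∑ c : Fin 3, nq n c = n.factorial := by
  classical
  have h1 := fun c => card_fx (Fin n) c
  have h2 := Finset.card_eq_sum_card_fiberwise (f := fun π : Equiv.Perm (Fin n) => cl (fx π))
    (s := univ) (t := univ) (fun _ _ => by simp)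
  rw [card_univ, Fintype.card_perm, Fintype.card_fin] at h2
  rw [h2]
  refine sum_congr rfl fun c _ => ?_
  have h3 := h1 c
  rw [Fintype.card_fin] at h3
  rw [← h3]
  refine congrArg Finset.card ?_
  ext π
  simp only [mem_filter, mem_univ, true_and]

/-- the proportions -/
noncomputable def pq (n : ℕ) (c : Fin 3) : ℝ := (nq n c : ℝ) / n.factorial

lemma pq_nonneg (n : ℕ) (c : Fin 3) : 0 ≤ pq n c := by unfold pq; positivity

lemma pq_sum (n : ℕ) : pq n 0 + pq n 1 + pq n 2 = 1 := by
  have h1 := sum_nq n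
  rw [Fin.sum_univ_three] at h1
  unfold pq
  have h2 : (n.factorial : ℝ) ≠ 0 := by exact_mod_cast n.factorial_ne_zero
  have h3 : (nq n 0 : ℝ) + nq n 1 + nq n 2 = n.factorial := by exact_mod_cast h1
  rw [← add_div, ← add_div, h3, div_self h2]

lemma pq_zero (n : ℕ) : pq n 0 = dr n := by
  unfold pq dr nq
  rw [if_pos rfl]

lemma pq_one (n : ℕ) : pq (n + 1) 1 = dr n := by
  unfold pq dr nq
  rw [if_neg (by decide), if_pos rfl, Nat.factorial_succ]
  push_cast
  have h2 : (n.factorial : ℝ) ≠ 0 := by exact_mod_cast n.factorial_ne_zero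
  have h4 : (n + 1 : ℝ) ≠ 0 := by positivity
  field_simp

lemma log32 : Real.log (3 / 2) ≤ 3 / 5 * Real.log 2 := by
  have h1 : Real.log ((3 / 2) ^ 5) ≤ Real.log (2 ^ 3) :=
    Real.log_le_log (by norm_num) (by norm_num)
  rw [Real.log_pow, Real.log_pow] at h1
  push_cast at h1
  linarith

lemma neg_pair (x1 y1 z1 x2 y2 z2 : ℝ) (h1 : x1 + y1 + z1 = 1) (h2 : x2 + y2 + z2 = 1)
    (hx1 : 11 / 30 ≤ x1) (hx2 : 11 / 30 ≤ x2) (hy1 : 1 / 3 ≤ y1) (hy2 : 1 / 3 ≤ y2)
    (hz1 : 0 ≤ z1) (hz2 : 0 ≤ z2) :
    Real.log (1 / 2) * (x1 * y2 + y1 * x2) + Real.log (3 / 2) * (y1 * z2 + z1 * y2) +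
      Real.log 2 * (z1 * z2) < 0 := by
  have hl : 0 < Real.log 2 := Real.log_pos (by norm_num)
  have e1 : Real.log (1 / 2) = - Real.log 2 := by
    rw [one_div, Real.log_inv]
  have h3 : 0 ≤ y1 * z2 + z1 * y2 := by positivity
  have h4 := mul_le_mul_of_nonneg_right log32 h3
  have h5 : 0 < x1 * y2 + y1 * x2 - 3 / 5 * (y1 * z2 + z1 * y2) - z1 * z2 := by
    obtain rfl : z1 = 1 - x1 - y1 := by linarith
    obtain rfl : z2 = 1 - x2 - y2 := by linarith
    obtain ⟨u1, rfl⟩ : ∃ u1, x1 = 11 / 30 + u1 := ⟨x1 - 11 / 30, by ring⟩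
    obtain ⟨u2, rfl⟩ : ∃ u2, x2 = 11 / 30 + u2 := ⟨x2 - 11 / 30, by ring⟩
    obtain ⟨v1, rfl⟩ : ∃ v1, y1 = 1 / 3 + v1 := ⟨y1 - 1 / 3, by ring⟩
    obtain ⟨v2, rfl⟩ : ∃ v2, y2 = 1 / 3 + v2 := ⟨y2 - 1 / 3, by ring⟩
    have hu1 : 0 ≤ u1 := by linarith
    have hu2 : 0 ≤ u2 := by linarith
    have hv1 : 0 ≤ v1 := by linarith
    have hv2 : 0 ≤ v2 := by linarith
    nlinarith [mul_nonneg hu1 hz2, mul_nonneg hu1 hv2, mul_nonneg hv1 hu2, mul_nonneg hv1 hv2]
  rw [e1]
  nlinarith [mul_pos hl h5]

lemma om_zero (h : ℤ[X]) {p : ℕ} (hp : p.Prime) : om h p = 0 ↔ ∀ θ : ℤ, ¬ (p : ℤ) ∣ h.eval θ := by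
  unfold om
  rw [card_eq_zero, filter_eq_empty_iff]
  constructor
  · intro h1 θ hθ
    have hp0 : (p : ℤ) ≠ 0 := by exact_mod_cast hp.ne_zero
    have h2 : ((θ % p).toNat : ℤ) = θ % p := Int.toNat_of_nonneg (Int.emod_nonneg _ hp0)
    have h3 : (θ % p).toNat ∈ range p := by
      rw [mem_range]
      have := Int.emod_lt_of_pos θ (show (0 : ℤ) < p by exact_mod_cast hp.pos)
      omega
    refine h1 h3 ?_
    rw [h2]
    have h4 : (θ % p) - θ ∣ h.eval (θ % p) - h.eval θ := sub_dvd_eval_sub _ _ _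
    have h5 : (p : ℤ) ∣ (θ % p) - θ := by
      have := Int.emod_add_mul_ediv θ p
      exact ⟨-(θ / p), by linarith⟩
    have h6 := (h5.trans h4).add hθ
    simpa using h6
  · intro h1 θ _
    exact h1 θ

section K

variable {K : Type} [Fintype K] [DecidableEq K]

lemma mem_RP_om (f : K → ℤ[X]) {p : ℕ} (hp : p.Prime) :
    p ∈ RP f ↔ (fun k => cl (om (f k) p)) ≠ fun _ => 0 := by
  classical
  rw [mem_RP f hp]
  constructor
  · rintro ⟨k, hk⟩ h
    obtain ⟨-, θ, hθ⟩ := mem_filter.1 hk
    have h1 := congrFun h k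
    exact (om_zero (f k) hp).1 (cl_zero.1 h1) θ hθ
  · intro h
    by_contra h1
    apply h
    funext k
    rw [cl_zero, om_zero (f k) hp]
    intro θ hθ
    exact h1 ⟨k, mem_filter.2 ⟨mem_univ _, θ, hθ⟩⟩

lemma Th_card_le (f : K → ℤ[X]) (i : K) (p : ℕ) : (Th f i p).card ≤ om (f i) p := card_image_le

lemma MX_univ (T : Finset (Finset K)) : MX univ T = T.card := by
  refine le_antisymm (MX_le_card _ _) ?_
  have h1 := le_MX univ T ∅ (empty_subset _)
  rwa [filter_true_of_mem (fun N _ => by simp)] at h1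

open scoped Classical in
theorem sn (f : K → ℤ[X]) (hr : 2 ≤ Fintype.card K)
    (hf1 : ∀ k, Irreducible ((f k).map (Int.castRingHom ℚ)))
    (hf2 : ∀ k, Even (f k).natDegree) (hf4' : Fintype.card K = 2 → ∀ k, 4 ≤ (f k).natDegree)
    (HS : ∀ π : (k : K) → Equiv.Perm {θ : AlgebraicClosure ℚ // aeval θ (f k) = 0},
      ∃ σ : AlgebraicClosure ℚ ≃ₐ[ℚ] AlgebraicClosure ℚ, ∀ k θ, σ θ.1 = (π k θ).1) : AA f := by
  haveI : Nonempty K := Fintype.card_pos_iff.1 (by omega)
  have hf4 : ∀ k, 2 ≤ (f k).natDegree := by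
    intro k
    have h1 := (hf1 k).natDegree_pos
    rw [natDegree_map_eq_of_injective (Int.castRingHom ℚ).injective_int] at h1
    obtain ⟨m, hm⟩ := hf2 k
    omega
  have hZQ : algebraMap ℤ (AlgebraicClosure ℚ) = Int.castRingHom (AlgebraicClosure ℚ) :=
    RingHom.ext_int _ _
  have hcard := fun k => nroots (f k) (hf1 k)
  haveI hfin : ∀ k, Finite {θ : AlgebraicClosure ℚ // aeval θ (f k) = 0} := fun k =>
    Nat.finite_of_card_ne_zero (by rw [hcard k]; have := hf4 k; omega)
  haveI : ∀ k, Fintype {θ : AlgebraicClosure ℚ // aeval θ (f k) = 0} := fun k => Fintype.ofFinite _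
  have hf0 : ∀ k, f k ≠ 0 := by
    intro k h
    have := (hf1 k).ne_zero
    rw [h, Polynomial.map_zero] at this
    exact this rfl
  -- derangements
  have hder : ∀ k, ∃ π : Equiv.Perm {θ : AlgebraicClosure ℚ // aeval θ (f k) = 0}, ∀ θ, π θ ≠ θ := by
    intro k
    have h1 := card_derangements_eq_numDerangements {θ : AlgebraicClosure ℚ // aeval θ (f k) = 0}
    rw [← Nat.card_eq_fintype_card (α := {θ : AlgebraicClosure ℚ // aeval θ (f k) = 0}), hcard k] at h1
    have h2 : 0 < Fintype.card (derangements {θ : AlgebraicClosure ℚ // aeval θ (f k) = 0}) := by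
      rw [h1]
      exact numD_pos (by have := hf4 k; omega)
    obtain ⟨π⟩ := Fintype.card_pos_iff.1 h2
    exact ⟨π.1, π.2⟩
  choose D hD using hder
  have hone : ∀ k0 : K, ∃ σ : AlgebraicClosure ℚ ≃ₐ[ℚ] AlgebraicClosure ℚ,
      (∀ θ : AlgebraicClosure ℚ, aeval θ (f k0) = 0 → σ θ = θ) ∧
      (∀ l, l ≠ k0 → ∀ θ : AlgebraicClosure ℚ, aeval θ (f l) = 0 → σ θ ≠ θ) := by
    intro k0
    obtain ⟨σ, hσ⟩ := HS (fun k => if k = k0 then 1 else D k)
    refine ⟨σ, fun θ hθ => ?_, fun l hl θ hθ h => ?_⟩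
    · have h1 := hσ k0 ⟨θ, hθ⟩
      rw [if_pos rfl] at h1
      exact h1
    · have h1 := hσ l ⟨θ, hθ⟩
      rw [if_neg hl] at h1
      exact hD l ⟨θ, hθ⟩ (Subtype.ext (h1.symm.trans h))
  have hex : ∀ k, ∃ θ : AlgebraicClosure ℚ, aeval θ (f k) = 0 := by
    intro k
    have h1 : 0 < Nat.card {θ : AlgebraicClosure ℚ // aeval θ (f k) = 0} := by
      rw [hcard k]; have := hf4 k; omega
    obtain ⟨⟨θ, hθ⟩⟩ := (Nat.card_pos_iff.1 h1).1
    exact ⟨θ, hθ⟩
  have hf3 : ∀ k l, k ≠ l →
      ¬ Associated ((f k).map (Int.castRingHom ℚ)) ((f l).map (Int.castRingHom ℚ)) := by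
    intro k l hkl hass
    obtain ⟨σ, h1, h2⟩ := hone k
    obtain ⟨θ, hθ⟩ := hex k
    have hZQ1 : algebraMap ℤ ℚ = Int.castRingHom ℚ := RingHom.ext_int _ _
    have h3 : aeval θ (f l) = 0 := by
      obtain ⟨c, hc⟩ := hass.dvd
      have h4 : aeval θ ((f l).map (Int.castRingHom ℚ)) = 0 := by
        rw [hc, map_mul, ← hZQ1, aeval_map_algebraMap, hθ, zero_mul]
      rwa [← hZQ1, aeval_map_algebraMap] at h4
    exact h2 l (Ne.symm hkl) θ h3 (h1 θ hθ)
  have hdist := fun F => dist f hf0 HS F
  simp only [hcard] at hdist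
  have hdist' : ∀ F : (K → Fin 3) → ℝ, Tendsto (M fun p => F (fun k => cl (om (f k) p))) atTop
      (𝓝 (∑ a : K → Fin 3, F a * ∏ k, pq (f k).natDegree (a k))) := hdist
  refine criterion f hf1 hf2 hf3 fun I hI => ?_
  by_cases hIu : I = univ
  · subst hIu
    rcases Nat.lt_or_ge (Fintype.card K) 3 with hr3 | hr3
    · -- two polynomials
      right
      left
      have hK2 : Fintype.card K = 2 := by omega
      let e : Fin 2 ≃ K := (Fintype.equivFinOfCardEq hK2).symm
      have huniv : ∀ g : K → ℝ, ∑ k, g k = g (e 0) + g (e 1) := by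
        intro g
        rw [← Equiv.sum_comp e, Fin.sum_univ_two]
      have hprod : ∀ g : K → ℝ, ∏ k, g k = g (e 0) * g (e 1) := by
        intro g
        rw [← Equiv.prod_comp e, Fin.prod_univ_two]
      let m : Fin 3 → ℝ := ![0, 1, 2]
      let g : (K → Fin 3) → ℝ := fun a => Real.log ((m (a (e 0)) + m (a (e 1))) / 2)
      have hm : ∀ i p, ((Th f i p).card : ℝ) ≤ m (cl (om (f i) p)) := by
        intro i p
        have h1 := Th_card_le f i p
        have h2 : (Th f i p).card ≤ 2 := by
          have h3 : (Th f i p) ⊆ (univ.erase i).powerset := Th_subset f i p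
          have h4 := card_le_card h3
          rw [card_powerset, card_erase_of_mem (mem_univ _), card_univ, hK2] at h4
          simpa using h4
        rcases Nat.lt_or_ge (om (f i) p) 1 with h3 | h3
        · have h4 : cl (om (f i) p) = 0 := cl_zero.2 (by omega)
          rw [h4]
          have h5 : (Th f i p).card = 0 := by omega
          rw [h5]
          simp [m]
        · rcases Nat.lt_or_ge (om (f i) p) 2 with h4 | h4
          · have h5 : cl (om (f i) p) = 1 := cl_one.2 (by omega)
            rw [h5]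
            have h6 : (Th f i p).card ≤ 1 := by omega
            have h7 : ((Th f i p).card : ℝ) ≤ 1 := by exact_mod_cast h6
            simpa [m] using h7
          · have h5 : cl (om (f i) p) = 2 := by
              unfold cl
              rw [if_neg (by omega), if_neg (by omega)]
            rw [h5]
            have h7 : ((Th f i p).card : ℝ) ≤ 2 := by exact_mod_cast h2
            simpa [m] using h7
      have hm0 : ∀ i p, (Th f i p).card = 0 → m (cl (om (f i) p)) = 0 := by
        intro i p h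
        have h1 : om (f i) p = 0 := by
          rw [card_eq_zero] at h
          unfold Th at h
          rw [image_eq_empty] at h
          unfold om
          rw [h, card_empty]
        rw [cl_zero.2 h1]
        simp [m]
      have hWI : ∀ p, WI f univ p = (((Th f (e 0) p).card : ℝ) + ((Th f (e 1) p).card : ℝ)) / 2 := by
        intro p
        unfold WI
        rw [huniv, MX_univ, MX_univ, card_univ, hK2]
        norm_num
      have hle : ∀ p, Real.log (WI f univ p) ≤ g (fun k => cl (om (f k) p)) := by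
        intro p
        rw [hWI]
        simp only [g]
        have h1 := hm (e 0) p
        have h2 := hm (e 1) p
        by_cases h3 : (Th f (e 0) p).card = 0 ∧ (Th f (e 1) p).card = 0
        · rw [h3.1, h3.2, hm0 _ _ h3.1, hm0 _ _ h3.2]
          simp
        · have h4 : 0 < (Th f (e 0) p).card + (Th f (e 1) p).card := by omega
          have h5 : (0 : ℝ) < ((Th f (e 0) p).card : ℝ) + ((Th f (e 1) p).card : ℝ) := by
            exact_mod_cast h4
          exact Real.log_le_log (by positivity) (by linarith)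
      have hlim := hdist' g
      set G := ∑ a : K → Fin 3, g a * ∏ k, pq (f k).natDegree (a k) with hG
      have hGneg : G < 0 := by
        have h1 : G = ∑ b : Fin 3 × Fin 3, Real.log ((m b.1 + m b.2) / 2) *
            (pq (f (e 0)).natDegree b.1 * pq (f (e 1)).natDegree b.2) := by
          rw [hG]
          refine Fintype.sum_equiv ((Equiv.arrowCongr e.symm (Equiv.refl (Fin 3))).trans
            (finTwoArrowEquiv (Fin 3))) _ _ fun a => ?_
          rw [hprod]
          rfl
        rw [h1, Fintype.sum_prod_type]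
        simp only [Fin.sum_univ_three]
        have a1 := hf4' hK2 (e 0)
        have a2 := hf4' hK2 (e 1)
        obtain ⟨n1, hn1⟩ : ∃ n1, (f (e 0)).natDegree = n1 + 1 :=
          ⟨(f (e 0)).natDegree - 1, by omega⟩
        obtain ⟨n2, hn2⟩ : ∃ n2, (f (e 1)).natDegree = n2 + 1 :=
          ⟨(f (e 1)).natDegree - 1, by omega⟩
        rw [hn1] at a1 ⊢
        rw [hn2] at a2 ⊢
        have h2 := neg_pair (pq (n1 + 1) 0) (pq (n1 + 1) 1) (pq (n1 + 1) 2)
          (pq (n2 + 1) 0) (pq (n2 + 1) 1) (pq (n2 + 1) 2) (pq_sum _) (pq_sum _)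
          (by rw [pq_zero]; exact dr_big a1) (by rw [pq_zero]; exact dr_big a2)
          (by rw [pq_one]; exact dr_third (by omega)) (by rw [pq_one]; exact dr_third (by omega))
          (pq_nonneg _ _) (pq_nonneg _ _)
        have m0 : m 0 = 0 := rfl
        have m1 : m 1 = 1 := rfl
        have m2 : m 2 = 2 := rfl
        rw [m0, m1, m2]
        have l1 : Real.log ((0 + 0 : ℝ) / 2) = 0 := by norm_num
        have l2 : Real.log ((0 + 2 : ℝ) / 2) = 0 := by norm_num
        have l3 : Real.log ((1 + 1 : ℝ) / 2) = 0 := by norm_num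
        have l4 : Real.log ((2 + 0 : ℝ) / 2) = 0 := by norm_num
        have l5 : ((0 + 1 : ℝ) / 2) = 1 / 2 := by norm_num
        have l6 : ((1 + 0 : ℝ) / 2) = 1 / 2 := by norm_num
        have l7 : ((1 + 2 : ℝ) / 2) = 3 / 2 := by norm_num
        have l8 : ((2 + 1 : ℝ) / 2) = 3 / 2 := by norm_num
        have l9 : ((2 + 2 : ℝ) / 2) = 2 := by norm_num
        rw [l1, l2, l3, l4, l5, l6, l7, l8, l9]
        linarith
      refine ⟨-G / 2, by linarith, ?_⟩
      filter_upwards [hlim.eventually (gt_mem_nhds (show G < G / 2 by linarith))] with N hN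
      refine (M_mono (fun p _ => hle p) N).trans (hN.le.trans ?_)
      linarith
    · -- at least three polynomials
      right
      right
      set r := Fintype.card K with hr
      refine ⟨1, one_pos, le_rfl, r / 2 ^ (r - 1), ⟨1 / 16, by norm_num, ?_⟩, ?_⟩
      · have h1 := hdist' (fun a => if a = fun _ => 0 then 0 else 1)
        have h2 : ∑ a : K → Fin 3, (if a = fun _ => 0 then (0 : ℝ) else 1) *
            ∏ k, pq (f k).natDegree (a k) = 1 - ∏ k, dr (f k).natDegree := by
          have h3 : ∑ a : K → Fin 3, ∏ k, pq (f k).natDegree (a k) = 1 := by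
            rw [← Fintype.prod_sum]
            refine prod_eq_one fun k _ => ?_
            rw [Fin.sum_univ_three, pq_sum]
          have h4 : ∏ k, dr (f k).natDegree = ∑ a : K → Fin 3, (if a = fun _ => 0 then (1 : ℝ) else 0) *
              ∏ k, pq (f k).natDegree (a k) := by
            rw [sum_eq_single (fun _ => 0)]
            · rw [if_pos rfl, one_mul]
              exact prod_congr rfl fun k _ => (pq_zero _).symm
            · intro a _ ha
              rw [if_neg ha, zero_mul]
            · intro h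
              exact absurd (mem_univ _) h
          rw [h4]
          refine Eq.trans ?_ (congrArg (fun t : ℝ => t - _) h3)
          rw [← sum_sub_distrib]
          refine sum_congr rfl fun a _ => ?_
          split_ifs <;> ring
        rw [h2] at h1
        have h3 : ∏ k, dr (f k).natDegree ≤ (1 / 2) ^ r := by
          rw [hr, ← card_univ, ← prod_const]
          refine prod_le_prod (fun k _ => ?_) fun k _ => dr_half (by have := hf4 k; omega)
          unfold dr
          positivity
        have h4 : ((1 : ℝ) / 2) ^ r ≤ (1 / 2) ^ 3 := pow_le_pow_of_le_one (by norm_num) (by norm_num) hr3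
        have h5 : (r : ℝ) / 2 ^ (r - 1) ≤ 3 / 4 := by
          rw [div_le_div_iff₀ (by positivity) (by norm_num)]
          obtain ⟨q, hq⟩ : ∃ q, r = q + 3 := ⟨r - 3, by omega⟩
          rw [hq]
          have h6 : q + 3 ≤ 3 * 2 ^ q := by
            have : q < 2 ^ q := Nat.lt_two_pow_self
            omega
          have h7 : ((q + 3 : ℕ) : ℝ) ≤ 3 * 2 ^ q := by exact_mod_cast h6
          rw [show q + 3 - 1 = q + 2 from rfl, pow_add]
          linarith
        have h6 : (r : ℝ) / 2 ^ (r - 1) + 1 / 16 < 1 - ∏ k, dr (f k).natDegree := by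
          norm_num at h4
          linarith
        filter_upwards [h1.eventually (lt_mem_nhds h6)] with N hN
        refine hN.le.trans (M_mono (fun p hp => ?_) N)
        by_cases h7 : p ∈ RP f
        · rw [if_pos h7]
          split_ifs <;> norm_num
        · rw [if_neg h7, if_pos]
          by_contra h8
          exact h7 ((mem_RP_om f hp).2 h8)
      · choose C hC using fun k => om_sum (f k) (hf1 k)
        refine ⟨(∑ k, C k) / 2 ^ (r - 1), fun x hx => ?_⟩
        have h1 : ∀ p, (WI f univ p) ^ (1 : ℝ) / p ≤ (∑ k, (om (f k) p : ℝ) / p) / 2 ^ (r - 1) := by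
          intro p
          rw [Real.rpow_one]
          unfold WI
          rw [card_univ, ← hr, ← sum_div, div_div, div_div, mul_comm]
          refine div_le_div_of_nonneg_right (sum_le_sum fun k _ => ?_) (by positivity)
          rw [MX_univ]
          exact_mod_cast Th_card_le f k p
        refine (sum_le_sum fun p _ => h1 p).trans ?_
        rw [← sum_div, sum_comm]
        have h2 : ∑ k, ∑ p ∈ PS 0 x, (om (f k) p : ℝ) / p ≤
            ∑ k, (Real.log (Real.log x) + C k) := sum_le_sum fun k _ => hC k x hx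
        rw [sum_add_distrib, sum_const, nsmul_eq_mul, card_univ, ← hr] at h2
        calc (∑ k, ∑ p ∈ PS 0 x, (om (f k) p : ℝ) / p) / 2 ^ (r - 1) ≤
              (r * Real.log (Real.log x) + ∑ k, C k) / 2 ^ (r - 1) :=
              div_le_div_of_nonneg_right h2 (by positivity)
          _ = _ := by ring
  · -- proper subsets
    left
    obtain ⟨k0, hk0⟩ : ∃ k0, k0 ∉ I := by
      by_contra h
      push Not at h
      exact hIu (eq_univ_iff_forall.2 h)
    obtain ⟨σ, h1, h2⟩ := hone k0
    obtain ⟨θ, hθ⟩ := hex k0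
    have h3 : SQ f σ = {k0} := by
      ext l
      unfold SQ
      rw [mem_filter, mem_singleton]
      constructor
      · rintro ⟨-, θ', h4, h5⟩
        by_contra h6
        exact h2 l h6 θ' h4 h5
      · rintro rfl
        exact ⟨mem_univ _, θ, hθ, h1 θ hθ⟩
    refine ⟨σ, ?_, ?_⟩
    · rw [h3]
      exact singleton_ne_empty _
    · rw [h3]
      ext l
      rw [mem_inter, mem_singleton]
      simp only [notMem_empty, iff_false, not_and]
      rintro h4 rfl
      exact hk0 h4

end K

end Pool.Agent.W5h36.EL
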