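import Pool.Agent.W5h36.EL.Img
import Pool.Agent.W5h36.EL.Red

/-! The tuples with given small components. -/

set_option autoImplicit false

namespace Pool.Agent.W5h36.EL

open Finset Polynomial Pool.Agent.W262.RK Pool.Agent.W262.TW

section K

variable {K : Type} [Fintype K] [DecidableEq K]

/-- the maximal number of elements of a family of sets with given trace on the complement of `I` -/
def MX (I : Finset K) (T : Finset (Finset K)) : ℕ :=
  (univ \ I).powerset.sup (fun s => (T.filter (fun N => N \ I = s)).card)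

/-- the weight -/
noncomputable def WI (f : K → ℤ[X]) (I : Finset K) (p : ℕ) : ℝ :=
  (∑ i ∈ I, (MX I (Th f i p) : ℝ)) / 2 ^ (I.card - 1)

lemma MX_le_card (I : Finset K) (T : Finset (Finset K)) : MX I T ≤ T.card := by
  unfold MX
  exact Finset.sup_le fun s _ => card_filter_le _ _

lemma le_MX (I : Finset K) (T : Finset (Finset K)) (s : Finset K) (hs : s ⊆ univ \ I) :
    (T.filter (fun N => N \ I = s)).card ≤ MX I T := by
  unfold MX
  exact Finset.le_sup (f := fun s => (T.filter (fun N => N \ I = s)).card) (mem_powerset.2 hs)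

/-- the traces on `I` of the sets with trace `s` on the complement -/
def TS (I : Finset K) (T : Finset (Finset K)) (s : Finset K) : Finset (Finset {i // i ∈ I}) :=
  (T.filter (fun N => N \ I = s)).image (fun N => N.subtype (fun i => i ∈ I))

/-- the signs of the small components -/
noncomputable def sg (I : Finset K) (a : K → ℤ) (p : ℕ) : Finset K :=
  (univ \ I).filter (fun k => jacobiSym (a k) p = -1)

lemma ngs_sub (I : Finset K) (a : K → ℤ) (i : {i // i ∈ I}) (p : ℕ) :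
    ngs (fun k : {i // i ∈ I} => a k) i p = (ngs a (i : K) p).subtype (fun i => i ∈ I) := by
  ext k
  unfold ngs
  rw [mem_subtype, mem_filter, mem_filter]
  simp only [mem_univ, true_and, ne_eq]
  constructor
  · rintro ⟨h1, h2⟩
    exact ⟨fun h => h1 (Subtype.ext h), h2⟩
  · rintro ⟨h1, h2⟩
    exact ⟨fun h => h1 (congrArg Subtype.val h), h2⟩

lemma ngs_sdiff (I : Finset K) (a : K → ℤ) (i : K) (hi : i ∈ I) (p : ℕ) :
    ngs a i p \ I = sg I a p := by
  ext k
  unfold ngs sg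
  rw [mem_sdiff, mem_filter, mem_filter, mem_sdiff]
  simp only [mem_univ, true_and, ne_eq]
  constructor
  · rintro ⟨⟨h1, h2⟩, h3⟩
    exact ⟨h3, h2⟩
  · rintro ⟨h3, h2⟩
    exact ⟨⟨fun h => h3 (h ▸ hi), h2⟩, h3⟩

lemma mem_TS (I : Finset K) (a : K → ℤ) (i : {i // i ∈ I}) (p : ℕ) (T : Finset (Finset K))
    (h : ngs a (i : K) p ∈ T) :
    ngs (fun k : {i // i ∈ I} => a k) i p ∈ TS I T (sg I a p) := by
  unfold TS
  rw [mem_image]
  exact ⟨ngs a (i : K) p, mem_filter.2 ⟨h, ngs_sdiff I a i i.2 p⟩, (ngs_sub I a i p).symm⟩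

lemma TS_subset (I : Finset K) (i : {i // i ∈ I}) (T : Finset (Finset K)) (s : Finset K)
    (hT : T ⊆ (univ.erase (i : K)).powerset) :
    TS I T s ⊆ ((univ : Finset {i // i ∈ I}).erase i).powerset := by
  intro N hN
  unfold TS at hN
  rw [mem_image] at hN
  obtain ⟨N', hN', rfl⟩ := hN
  rw [mem_powerset]
  intro k hk
  rw [mem_subtype] at hk
  have h1 := mem_powerset.1 (hT (mem_filter.1 hN').1) hk
  rw [mem_erase] at h1 ⊢
  exact ⟨fun h => h1.1 (congrArg Subtype.val h), mem_univ _⟩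

lemma TS_card (I : Finset K) (T : Finset (Finset K)) (a : K → ℤ) (p : ℕ) :
    (TS I T (sg I a p)).card ≤ MX I T :=
  card_image_le.trans (le_MX I T _ (filter_subset _ _))

lemma WI_nonneg (f : K → ℤ[X]) (I : Finset K) (p : ℕ) : 0 ≤ WI f I p := by
  unfold WI
  positivity

lemma WI_le (f : K → ℤ[X]) (I : Finset K) (p : ℕ) :
    WI f I p ≤ Fintype.card K * 2 ^ Fintype.card K := by
  unfold WI
  have h1 : ∑ i ∈ I, (MX I (Th f i p) : ℝ) ≤ ∑ _i ∈ I, (2 : ℝ) ^ Fintype.card K := by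
    refine sum_le_sum fun i _ => ?_
    have h2 := (MX_le_card I (Th f i p)).trans (card_le_card (subset_univ _))
    rw [card_univ, Fintype.card_finset] at h2
    exact_mod_cast h2
  rw [sum_const, nsmul_eq_mul] at h1
  have h2 : (I.card : ℝ) ≤ Fintype.card K := by exact_mod_cast card_le_univ I
  have h3 : (1 : ℝ) ≤ 2 ^ (I.card - 1) := one_le_pow₀ (by norm_num)
  calc (∑ i ∈ I, (MX I (Th f i p) : ℝ)) / 2 ^ (I.card - 1) ≤ ∑ i ∈ I, (MX I (Th f i p) : ℝ) :=
        div_le_self (sum_nonneg fun _ _ => Nat.cast_nonneg _) h3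
    _ ≤ I.card * 2 ^ Fintype.card K := h1
    _ ≤ _ := by gcongr

/-- the main estimate for given small components -/
theorem sub_count (I : Finset K) (hI : I.Nonempty) (ε : ℝ) (hε : 0 < ε) (s : ℝ)
    (hs : 0 < s) (hs1 : s ≤ 1) (f : K → ℤ[X]) :
    ∃ B : ℕ, ∀ B' : ℕ, ∃ C : ℝ, 0 ≤ C ∧ ∀ (z Y V : ℕ) (κ : K → ℤ) (a : K → ℤ) (E : ℝ),
      2 ≤ z → 3 ≤ Y → 3 ≤ Real.log Y →
      (Real.log Y) ^ B ≤ V → (V : ℝ) ≤ (Real.log Y) ^ B' →
      (∀ k, ∀ p : ℕ, p.Prime → (p : ℤ) ∣ κ k → p ≤ z) →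
      (∑ p ∈ PS z Y, (WI f I p) ^ s / p ≤ E) →
      (((CS z Y V (fun k : {i // i ∈ I} => κ k)
        (fun i p => TS I (Th f i p) (sg I a p))).image (fun D => ∏ i, D i)).card : ℝ) ≤
        C * Y * (Real.log Y) ^ (ε - 1) * Real.exp E := by
  haveI : Nonempty {i // i ∈ I} := hI.to_subtype
  obtain ⟨B, hB⟩ := img {i // i ∈ I} ε hε s hs hs1 (Fintype.card K * 2 ^ Fintype.card K)
    (by positivity)
  refine ⟨B, fun B' => ?_⟩
  obtain ⟨C, hC0, hC⟩ := hB B'
  refine ⟨C, hC0, fun z Y V κ a E hz hY hY3 hV hV' hκ hE => ?_⟩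
  refine hC z Y V _ _ (WI f I) E hz hY hY3 hV hV' (fun k => hκ k) ?_ ?_ (WI_le f I) hE
  · intro i p
    exact TS_subset I i _ _ (Th_subset f i p)
  · intro p
    unfold WI
    have hc : Fintype.card {i // i ∈ I} = I.card := Fintype.card_coe I
    rw [hc]
    refine div_le_div_of_nonneg_right ?_ (by positivity)
    rw [← Finset.sum_coe_sort I (fun i => (MX I (Th f i p) : ℝ))]
    refine sum_le_sum fun i _ => ?_
    exact_mod_cast TS_card I (Th f i p) a p

end K

end Pool.Agent.W5h36.EL
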