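import Pool.Agent.W5h36.EL.Sub

/-! Upper bound for the number of the twists with a locally soluble covering. -/

set_option autoImplicit false

namespace Pool.Agent.W5h36.EL

open Finset Polynomial Pool.Agent.W262.RK Pool.Agent.W262.TW Filter Topology

/-- real inequalities for large `x` -/
lemma large2 (B r : ℕ) (ε : ℝ) (hε : 0 < ε) : ∀ᶠ x : ℝ in atTop,
    (2 * (Real.log x) ^ B) ^ r * (Real.sqrt x + 1) ≤ x ∧
    (1 + (Real.log 2 + B * Real.log (Real.log x))) ^ r ≤ (Real.log x) ^ ε ∧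
    Real.log x ≤ Real.sqrt x ∧ 6 ≤ Real.log x ∧ 2 ^ (B + 2) ≤ Real.log x ∧ 9 ≤ x := by
  have h1 := (isLittleO_log_rpow_rpow_atTop (B * r : ℝ) (show (0 : ℝ) < 1 / 4 by norm_num)).bound
    (show (0 : ℝ) < 1 / (2 ^ r * 2) by positivity)
  have h2 : Tendsto (fun x : ℝ => x ^ (1 / 4 : ℝ)) atTop atTop := tendsto_rpow_atTop (by norm_num)
  have h3 := (isLittleO_log_rpow_atTop (show (0 : ℝ) < 1 / 2 by norm_num)).bound
    (show (0 : ℝ) < 1 by norm_num)
  -- the second one
  have h4 : ∀ᶠ y : ℝ in atTop, (1 + (Real.log 2 + B * Real.log y)) ^ r ≤ y ^ ε := by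
    rcases Nat.eq_zero_or_pos r with h | hr
    · subst h
      filter_upwards [eventually_ge_atTop 1] with y hy
      rw [pow_zero]
      exact Real.one_le_rpow hy hε.le
    · have hr0 : (0 : ℝ) < r := by exact_mod_cast hr
      have hεr : 0 < ε / r := by positivity
      have h5 := (isLittleO_log_rpow_atTop hεr).bound
        (show (0 : ℝ) < 1 / (2 * (B + 1)) by positivity)
      have h6 : Tendsto (fun x : ℝ => x ^ (ε / r)) atTop atTop := tendsto_rpow_atTop hεr
      filter_upwards [h5, h6.eventually_ge_atTop (2 * (1 + Real.log 2)), eventually_ge_atTop 1]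
        with y g1 g2 g3
      have hl : 0 ≤ Real.log y := Real.log_nonneg g3
      rw [Real.norm_of_nonneg hl, Real.norm_of_nonneg (by positivity)] at g1
      have h7 : 1 + (Real.log 2 + B * Real.log y) ≤ y ^ (ε / r) := by
        have h8 : B * Real.log y ≤ (B + 1) * (1 / (2 * (B + 1)) * y ^ (ε / r)) := by
          have : (B : ℝ) * Real.log y ≤ (B + 1) * Real.log y := by nlinarith
          exact this.trans (mul_le_mul_of_nonneg_left g1 (by positivity))
        have h9 : ((B : ℝ) + 1) * (1 / (2 * (B + 1)) * y ^ (ε / r)) = y ^ (ε / r) / 2 := by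
          field_simp
        rw [h9] at h8
        linarith
      have hl2 : 0 ≤ Real.log 2 := Real.log_nonneg (by norm_num)
      calc (1 + (Real.log 2 + B * Real.log y)) ^ r ≤ (y ^ (ε / r)) ^ r :=
            pow_le_pow_left₀ (by positivity) h7 r
        _ = y ^ ε := by
            rw [← Real.rpow_natCast, ← Real.rpow_mul (by linarith)]
            congr 1
            field_simp
  filter_upwards [h1, h2.eventually_ge_atTop 2, h3,
    Real.tendsto_log_atTop.eventually h4, Real.tendsto_log_atTop.eventually_ge_atTop 6,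
    Real.tendsto_log_atTop.eventually_ge_atTop (2 ^ (B + 2)), eventually_ge_atTop 9]
    with x g1 g2 g3 g4 g5 g6 g7
  have hx0 : 0 < x := by linarith
  have hl : 0 < Real.log x := by linarith
  have hs : Real.sqrt x = x ^ (1 / 2 : ℝ) := Real.sqrt_eq_rpow x
  refine ⟨?_, g4, ?_, g5, g6, g7⟩
  · rw [Real.norm_of_nonneg (by positivity), Real.norm_of_nonneg (by positivity)] at g1
    have e1 : (Real.log x) ^ (B * r : ℝ) = ((Real.log x) ^ B) ^ r := by
      rw [← pow_mul, ← Real.rpow_natCast]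
      push_cast
      rfl
    rw [e1] at g1
    rw [mul_pow]
    have e2 : Real.sqrt x + 1 ≤ 2 * x ^ (1 / 2 : ℝ) := by
      rw [hs]
      have : 1 ≤ x ^ (1 / 2 : ℝ) := Real.one_le_rpow (by linarith) (by norm_num)
      linarith
    have e3 : x ^ (1 / 4 : ℝ) * x ^ (1 / 2 : ℝ) ≤ x := by
      rw [← Real.rpow_add hx0]
      calc x ^ (1 / 4 + 1 / 2 : ℝ) ≤ x ^ (1 : ℝ) :=
            Real.rpow_le_rpow_of_exponent_le (by linarith) (by norm_num)
        _ = x := Real.rpow_one x
    calc 2 ^ r * ((Real.log x) ^ B) ^ r * (Real.sqrt x + 1)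
        ≤ 2 ^ r * (1 / (2 ^ r * 2) * x ^ (1 / 4 : ℝ)) * (2 * x ^ (1 / 2 : ℝ)) := by
          gcongr
      _ = x ^ (1 / 4 : ℝ) * x ^ (1 / 2 : ℝ) := by field_simp
      _ ≤ x := e3
  · rw [Real.norm_of_nonneg hl.le, Real.norm_of_nonneg (by positivity), one_mul] at g3
    rw [hs]
    exact g3

section K

variable {K : Type} [Fintype K] [DecidableEq K]

/-- the numbers `n` for given small components -/
noncomputable def NN (f : K → ℤ[X]) (z X V : ℕ) (I : Finset K) (κ : K → ℤ) (D : K → ℕ) : Finset ℕ :=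
  (CS z (X / ∏ k, D k) V (fun k : {i // i ∈ I} => κ k)
    (fun i p => TS I (Th f i p) (sg I (fun k => κ k * D k) p))).image (fun D => ∏ i, D i)

/-- the index set -/
noncomputable def XX (f : K → ℤ[X]) (z X V : ℕ) (I : Finset K) :
    Finset (Σ _ : ℤ × (K → ℤ) × (K → ℕ), ℕ) :=
  ((EE z) ×ˢ ((Fintype.piFinset (fun _ : K => EE z)) ×ˢ
    (Fintype.piFinset (fun _ : K => Icc 1 V)))).sigma (fun x => NN f z X V I x.2.1 x.2.2)

lemma mem_cover (f : K → ℤ[X]) (z X V : ℕ) (hV : 1 ≤ V) (d : ℤ) (hdX : d.natAbs ≤ X) (d0 : ℤ)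
    (hd0 : d0 ∈ EE z) (κ : K → ℤ) (hκ : ∀ k, κ k ∈ EE z) (D : K → ℕ) (hR : ∀ i, Rg z (D i))
    (hc : ∀ i j, i ≠ j → (D i).Coprime (D j)) (hd : d = d0 * ((∏ k, D k : ℕ) : ℤ))
    (hle : ∏ k, D k ≤ d.natAbs)
    (hpt : ∀ i, ∀ p ∈ (D i).primeFactors, ngs (fun k => κ k * D k) i p ∈ Th f i p) :
    d ∈ ((EE z) ×ˢ (Fintype.piFinset (fun _ : K => Icc 1 V))).image
        (fun x => x.1 * ((∏ k, x.2 k : ℕ) : ℤ)) ∪
      (univ.filter (fun I : Finset K => I.Nonempty)).biUnion (fun I => (XX f z X V I).image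
        (fun x => x.1.1 * (((∏ k, x.1.2.2 k) * x.2 : ℕ) : ℤ))) := by
  have hD0 : ∀ i, 1 ≤ D i := fun i => Nat.one_le_iff_ne_zero.2 (hR i).1.ne_zero
  set I : Finset K := univ.filter (fun i => V < D i) with hI
  rw [mem_union]
  by_cases hne : I.Nonempty
  · right
    rw [mem_biUnion]
    refine ⟨I, mem_filter.2 ⟨mem_univ _, hne⟩, ?_⟩
    set Do : K → ℕ := fun k => if k ∈ I then 1 else D k with hDo
    have hsplit : (∏ k, Do k) * ∏ i : {i // i ∈ I}, D i = ∏ k, D k := by
      rw [Finset.prod_coe_sort I D, ← prod_filter_mul_prod_filter_not univ (fun i => i ∈ I) D,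
        mul_comm]
      congr 1
      · rw [filter_mem_eq_inter, univ_inter]
      · rw [hDo, prod_ite, prod_const_one, one_mul]
    have hDo0 : 0 < ∏ k, Do k := prod_pos fun k _ => by
      rw [hDo]
      simp only
      split_ifs
      · exact Nat.one_pos
      · exact hD0 k
    have hIle : ∏ i : {i // i ∈ I}, D i ≤ X / ∏ k, Do k := by
      rw [Nat.le_div_iff_mul_le hDo0, mul_comm, hsplit]
      exact hle.trans hdX
    rw [mem_image]
    refine ⟨⟨(d0, κ, Do), ∏ i : {i // i ∈ I}, D i⟩, ?_, ?_⟩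
    · unfold XX
      rw [mem_sigma]
      simp only
      refine ⟨?_, ?_⟩
      · rw [mem_product, mem_product]
        refine ⟨hd0, Fintype.mem_piFinset.2 hκ, Fintype.mem_piFinset.2 fun k => ?_⟩
        rw [mem_Icc]
        simp only [hDo]
        split_ifs with h
        · exact ⟨le_rfl, hV⟩
        · refine ⟨hD0 k, ?_⟩
          by_contra h2
          push Not at h2
          exact h (mem_filter.2 ⟨mem_univ _, h2⟩)
      · unfold NN
        rw [mem_image]
        refine ⟨fun i => D i, ?_, rfl⟩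
        rw [mem_CS]
        refine ⟨fun i => mem_Icc.2 ⟨hD0 i, le_trans ?_ hIle⟩, fun i => ⟨hR i, ?_⟩, ?_, hIle, ?_⟩
        · exact single_le_prod' (f := fun i : {i // i ∈ I} => D i) (fun j _ => hD0 j) (mem_univ i)
        · exact (mem_filter.1 i.2).2
        · intro i j hij
          exact hc i j fun h => hij (Subtype.ext h)
        · intro i p hp
          have h1 := mem_TS I (fun k => κ k * D k) i p (Th f i p) (hpt i p hp)
          have h2 : sg I (fun k => κ k * (D k : ℤ)) p = sg I (fun k => κ k * (Do k : ℤ)) p := by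
            unfold sg
            refine filter_congr fun k hk => ?_
            have h3 : k ∉ I := (mem_sdiff.1 hk).2
            simp only [hDo, if_neg h3]
          rw [← h2]
          exact h1
    · simp only
      rw [hsplit]
      exact hd.symm
  · left
    rw [mem_image]
    refine ⟨(d0, D), ?_, hd.symm⟩
    rw [mem_product]
    refine ⟨hd0, Fintype.mem_piFinset.2 fun k => mem_Icc.2 ⟨hD0 k, ?_⟩⟩
    by_contra h2
    push Not at h2
    exact hne ⟨k, mem_filter.2 ⟨mem_univ _, h2⟩⟩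

end K

end Pool.Agent.W5h36.EL
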