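import Pool.Agent.W540.TW.Expa
import Pool.Agent.W563.TW.Comb
import Pool.Agent.W249.TW.Abs
import Pool.Agent.W262.TW.Full

/-! Weighted number of the tuples with prescribed signs. -/

set_option autoImplicit false

namespace Pool.Agent.W5h36.EL

open Finset Pool.Agent.W262.RK Pool.Agent.W262.TW Pool.Agent.W762.RK2 Pool.Agent.W540.TW

section K

variable {K : Type} [Fintype K] [DecidableEq K]

open Classical in
/-- the tuples counted by `cnt` -/
noncomputable def CS (z Y V : ℕ) (κ : K → ℤ) (Θ : K → ℕ → Finset (Finset K)) : Finset (K → ℕ) :=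
  (Fintype.piFinset (fun _ : K => Icc 1 Y)).filter (fun D => (∀ i, Rg z (D i) ∧ V < D i) ∧
    (∀ i j, i ≠ j → (D i).Coprime (D j)) ∧ ∏ i, D i ≤ Y ∧
    ∀ i, ∀ p ∈ (D i).primeFactors, ngs (fun k => κ k * D k) i p ∈ Θ i p)

lemma mem_CS {z Y V : ℕ} {κ : K → ℤ} {Θ : K → ℕ → Finset (Finset K)} {D : K → ℕ} :
    D ∈ CS z Y V κ Θ ↔ (∀ i, D i ∈ Icc 1 Y) ∧ (∀ i, Rg z (D i) ∧ V < D i) ∧
    (∀ i j, i ≠ j → (D i).Coprime (D j)) ∧ ∏ i, D i ≤ Y ∧
    ∀ i, ∀ p ∈ (D i).primeFactors, ngs (fun k => κ k * D k) i p ∈ Θ i p := by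
  classical
  unfold CS
  rw [mem_filter, Fintype.mem_piFinset]

lemma wcnt_eq (z Y V : ℕ) (κ : K → ℤ) (Θ : K → ℕ → Finset (Finset K)) (τ : ℕ → ℝ) :
    ∑ D ∈ CS z Y V κ Θ, ∏ i, mf τ (D i) =
      ∑ D ∈ Tup K z Y, (∏ i, mf τ (D i)) * (ind (SZ Y V D) * ind (SG κ Θ D)) := by
  classical
  have h1 : ∀ D : K → ℕ, ind (SZ Y V D) * ind (SG κ Θ D) =
      if SZ Y V D ∧ SG κ Θ D then (1 : ℝ) else 0 := by
    intro D
    unfold ind
    by_cases h1 : SZ Y V D <;> by_cases h2 : SG κ Θ D <;> simp [h1, h2]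
  rw [Finset.sum_congr rfl fun D _ => congrArg _ (h1 D)]
  simp only [mul_ite, mul_one, mul_zero]
  rw [← Finset.sum_filter]
  refine Finset.sum_congr ?_ fun _ _ => rfl
  ext D
  rw [mem_CS, Finset.mem_filter, Pool.Agent.W108.RK.mem_Tup]
  constructor
  · rintro ⟨h1, h2, h3, h4, h5⟩
    exact ⟨⟨fun i => rg_dvd (h2 i).1 (Finset.mem_Icc.1 (h1 i)).2, h3⟩,
      ⟨h4, fun i => (h2 i).2⟩, h5⟩
  · rintro ⟨⟨h1, h3⟩, ⟨h4, h2⟩, h5⟩
    have hpos : ∀ a, 0 < D a := fun a => Nat.pos_of_ne_zero (dvd_rg (h1 a)).1.ne_zero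
    refine ⟨fun a => Finset.mem_Icc.2 ⟨hpos a, ?_⟩, fun a => ⟨dvd_rg (h1 a), h2 a⟩, h3, h4, h5⟩
    exact (Nat.le_of_dvd (Finset.prod_pos fun i _ => hpos i)
        (Finset.dvd_prod_of_mem _ (Finset.mem_univ a))).trans h4

/-- Fourier expansion, with weights -/
theorem wexpa (z Y V : ℕ) (κ : K → ℤ) (Θ : K → ℕ → Finset (Finset K)) (τ : ℕ → ℝ) (hz : 2 ≤ z)
    (hκ : ∀ k, ∀ p : ℕ, p.Prime → (p : ℤ) ∣ κ k → p ≤ z)
    (hΘ : ∀ i p, Θ i p ⊆ (univ.erase i).powerset) :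
    ∑ D ∈ CS z Y V κ Θ, ∏ i, mf τ (D i) = ∑ e ∈ TT (Prod.fst : K × Finset K → K) z Y V,
      (∏ a, mf (fun p => τ p * bb Θ a p) (e a)) * Sym LK (κK κ) e := by
  classical
  have hR : ∑ e ∈ TT (Prod.fst : K × Finset K → K) z Y V,
      (∏ a, mf (fun p => τ p * bb Θ a p) (e a)) * Sym LK (κK κ) e =
      ∑ e ∈ Tup (K × Finset K) z Y, ind (∏ a, e a ≤ Y ∧
      ∀ i, V < ∏ a ∈ univ.filter (fun a : K × Finset K => a.1 = i), e a) *
      ((∏ a, mf (fun p => τ p * bb Θ a p) (e a)) * Sym LK (κK κ) e) := by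
    have h1 : TT (Prod.fst : K × Finset K → K) z Y V = (Tup (K × Finset K) z Y).filter
        (fun e => ∏ a, e a ≤ Y ∧
          ∀ i, V < ∏ a ∈ univ.filter (fun a : K × Finset K => a.1 = i), e a) := by
      ext e
      rw [mem_TT, Finset.mem_filter]
    rw [h1, Finset.sum_filter]
    refine Finset.sum_congr rfl fun e _ => ?_
    unfold ind
    split_ifs <;> simp
  rw [hR, wcnt_eq, sum_Tup, sum_Tup, ← Finset.sum_fiberwise univ
    (fun (m : Pr z Y → Option (K × Finset K)) => fo m)]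
  refine Finset.sum_congr rfl fun l _ => ?_
  have h1 : (univ.filter fun m : Pr z Y → Option (K × Finset K) => fo m = l) =
      Fintype.piFinset (fun p => univ.filter
        (fun x : Option (K × Finset K) => x.map Prod.fst = l p)) := by
    ext m
    simp only [Finset.mem_filter, Finset.mem_univ, true_and, Fintype.mem_piFinset, funext_iff]
    rfl
  have hk : ∀ p : Pr z Y, ∀ k, ¬ ((p : ℕ) : ℤ) ∣ κ k := by
    intro p k hd
    have h2 := (mem_PS.1 p.2).1.1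
    have h3 := hκ k p (Pr_prime p) hd
    omega
  rw [ind_SG, Finset.prod_congr rfl fun p _ => (sum_Gq κ Θ l p (hk p) (fun i => hΘ i p)).symm,
    Finset.prod_univ_sum, ← h1, Finset.mul_sum, Finset.mul_sum]
  refine Finset.sum_congr rfl fun m hm => ?_
  have hm' : fo m = l := (Finset.mem_filter.1 hm).2
  have hτ : ∏ a, mf (fun p => τ p * bb Θ a p) (Dl m a) =
      (∏ i, mf τ (Dl l i)) * ∏ a, mf (bb Θ a) (Dl m a) := by
    rw [prod_mf (fun (a : K × Finset K) p => τ p * bb Θ a p) m, prod_mf (bb Θ) m,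
      prod_mf (fun (_ : K) => τ) l, ← Finset.prod_mul_distrib]
    refine Finset.prod_congr rfl fun p _ => ?_
    rw [← hm']
    unfold fo
    cases m p with
    | none => simp
    | some a => simp
  rw [hτ, mul_assoc, Pool.Agent.W540.TW.rhs_term, hm']
  rw [mul_left_comm]
  congr 2
  rw [← hm']
  exact propext (SZ_fo V m)

/-- the pointwise bound for the weights of the unlinked sets in which all types occur -/
lemma comb_pt (Θ : K → ℕ → Finset (Finset K)) (A : Finset (K × Finset K))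
    (hΘ : ∀ i p, Θ i p ⊆ (univ.erase i).powerset)
    (hA : ∀ a ∈ A, ∀ c ∈ A, LK a c = LK c a) (hall : ∀ i, ∃ a ∈ A, a.1 = i) (p : ℕ)
    (hp : p.Prime) :
    ∑ a ∈ A, |bb Θ a p| ≤ (∑ i, ((Θ i p).card : ℝ)) / 2 ^ (Fintype.card K - 1) := by
  have hPS : PS (p - 1) p = {p} := by
    have h1 := hp.pos
    ext q
    rw [mem_PS, mem_singleton]
    constructor
    · rintro ⟨⟨h2, h3⟩, -⟩
      omega
    · rintro rfl
      exact ⟨⟨by omega, le_rfl⟩, hp⟩
  have hp0 : (0 : ℝ) < p := by exact_mod_cast hp.pos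
  have h := Pool.Agent.W563.TW.comb1 K (p - 1) p Θ
    ((∑ i, ((Θ i p).card : ℝ)) / 2 ^ (Fintype.card K - 1) / p) (by positivity) hΘ (by
      rw [hPS]
      simp only [sum_singleton]
      rw [← sum_div]
      refine le_of_eq ?_
      field_simp) A hA hall
  rw [hPS, sum_singleton, div_le_div_iff_of_pos_right hp0] at h
  exact h

end K

/-- weighted number of the tuples with prescribed signs -/
theorem absw (K : Type) [Fintype K] [DecidableEq K] [Nonempty K] (ε : ℝ) (hε : 0 < ε) :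
    ∃ B : ℕ, ∀ B' : ℕ, ∃ C : ℝ, 0 ≤ C ∧ ∀ (z Y V : ℕ) (κ : K → ℤ) (Θ : K → ℕ → Finset (Finset K))
      (τ : ℕ → ℝ) (w : ℝ), 2 ≤ z → 3 ≤ Y → 3 ≤ Real.log Y →
      (Real.log Y) ^ B ≤ V → (V : ℝ) ≤ (Real.log Y) ^ B' → 0 ≤ w →
      (∀ k, ∀ p : ℕ, p.Prime → (p : ℤ) ∣ κ k → p ≤ z) →
      (∀ i p, Θ i p ⊆ (univ.erase i).powerset) →
      (∀ p, 0 ≤ τ p) → (∀ a p, |τ p * bb Θ a p| ≤ 1) →
      (∑ p ∈ PS z Y, τ p * ((∑ i, ((Θ i p).card : ℝ)) / 2 ^ (Fintype.card K - 1)) / p ≤ w) →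
      ∑ D ∈ CS z Y V κ Θ, ∏ i, mf τ (D i) ≤ C * Y * (Real.log Y) ^ (ε - 1) * Real.exp w := by
  obtain ⟨B0, hB⟩ := core_all (K × Finset K) K Prod.fst LK Pool.Agent.W249.TW.LK_ne ε hε
  set n := Fintype.card (K × Finset K) with hn
  have hn1 : 1 ≤ n := Fintype.card_pos
  refine ⟨n * (B0 + 1), fun B' => ?_⟩
  obtain ⟨C, hC⟩ := hB B'
  refine ⟨max C 0, le_max_right _ _, fun z Y V κ Θ τ w hz hY h3' hV1 hV2 hw hκ hΘ hτ hτb hs => ?_⟩
  have hlog : 1 < Real.log Y := by linarith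
  have hM : 1 ≤ Real.exp w := Real.one_le_exp hw
  have hY0 : (0 : ℝ) < Y := by exact_mod_cast (by omega : 0 < Y)
  set V0 := Nat.findGreatest (fun m => m ^ n ≤ V) V with hV0
  have hp0 : V0 ^ n ≤ V := by
    have : (fun m => m ^ n ≤ V) V0 :=
      Nat.findGreatest_spec (P := fun m => m ^ n ≤ V) (Nat.zero_le V)
        (by show 0 ^ n ≤ V; rw [zero_pow (by omega)]; exact Nat.zero_le _)
    exact this
  have hp1 : V < (V0 + 1) ^ n := by
    by_contra hcon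
    push Not at hcon
    have h5 : V0 + 1 ≤ V := (Nat.le_self_pow (by omega) _).trans hcon
    have h6 := Nat.le_findGreatest (P := fun m => m ^ n ≤ V) h5 hcon
    omega
  have hVV : (Real.log Y) ^ (B0 + 1) < (V0 : ℝ) + 1 := by
    have h5 : ((Real.log Y) ^ (B0 + 1)) ^ n < ((V0 : ℝ) + 1) ^ n := by
      rw [← pow_mul, mul_comm (B0 + 1) n]
      exact lt_of_le_of_lt hV1 (by exact_mod_cast hp1)
    exact lt_of_pow_lt_pow_left₀ n (by positivity) h5
  have hpB : 1 ≤ (Real.log Y) ^ B0 := one_le_pow₀ hlog.le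
  rw [pow_succ] at hVV
  have hV0a : (Real.log Y) ^ B0 ≤ V0 := by nlinarith
  have hV0b : 2 ≤ V0 := by
    have : (1 : ℝ) < V0 := by nlinarith
    have : 1 < V0 := by exact_mod_cast this
    omega
  have hV0c : V0 ≤ V := (Nat.le_self_pow (by omega) _).trans hp0
  have hV0d : (V0 : ℝ) ≤ (Real.log Y) ^ B' := le_trans (by exact_mod_cast hV0c) hV2
  have hVne : V ≠ 0 := by omega
  have h5 := hC z Y V V0 (κK κ) (fun a p => τ p * bb Θ a p) (Real.exp w) hz hY hV0b hV0a hV0d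
    (Or.inr hp0) hτb hM (by
      intro A hA hA2
      refine Real.exp_le_exp.2 (le_trans ?_ hs)
      refine sum_le_sum fun p hp => ?_
      have hpp := (mem_PS.1 hp).2
      refine div_le_div_of_nonneg_right ?_ (Nat.cast_nonneg p)
      have e : ∀ a ∈ A, |τ p * bb Θ a p| = τ p * |bb Θ a p| := fun a _ => by
        rw [abs_mul, abs_of_nonneg (hτ p)]
      rw [sum_congr rfl e, ← mul_sum]
      exact mul_le_mul_of_nonneg_left (comb_pt Θ A hΘ hA (hA2.resolve_left hVne) p hpp) (hτ p))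
  rw [wexpa z Y V κ Θ τ hz hκ hΘ]
  refine (le_abs_self _).trans (h5.trans ?_)
  have h6 : 0 ≤ (Y : ℝ) * (Real.log Y) ^ (ε - 1) * Real.exp w := by
    have : 0 ≤ (Real.log Y) ^ (ε - 1) := Real.rpow_nonneg (by linarith) _
    positivity
  calc C * Y * (Real.log Y) ^ (ε - 1) * Real.exp w =
      C * ((Y : ℝ) * (Real.log Y) ^ (ε - 1) * Real.exp w) := by ring
    _ ≤ max C 0 * ((Y : ℝ) * (Real.log Y) ^ (ε - 1) * Real.exp w) :=
      mul_le_mul_of_nonneg_right (le_max_left _ _) h6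
    _ = _ := by ring

end Pool.Agent.W5h36.EL
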